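import Pool.Agent.N224.SF.D1
import Pool.Agent.N224.Hil.W
import Pool.Agent.N224.Hil.T

/-! Project SF (helper224), part ADJ: strands of consecutive points of the grid lead to consecutive
points of the grid. -/

set_option autoImplicit false

open Real Set MeasureTheory Topology Filter

namespace Pool.Agent.N224.SF

noncomputable section

open Pool.Agent.H709R2 (rot wedge field)
open Pool.Agent.H709U (rf Orb)
open Pool.Agent.N224.Hil (Loop wn ins fill)

namespace ADJ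

theorem rotC {F : ℝ × ℝ → ℝ × ℝ} (hF : ContDiff ℝ 4 F) (e α : ℝ) :
    ContDiff ℝ 1 (fun z => e • rot α (F z)) := by
  have hF1 : ContDiff ℝ 1 F := hF.of_le (by norm_num)
  have h1 : ContDiff ℝ 1 (fun z => (F z).1) := hF1.fst
  have h2 : ContDiff ℝ 1 (fun z => (F z).2) := hF1.snd
  unfold rot
  exact (((contDiff_const.mul h1).sub (contDiff_const.mul h2)).prodMk
    ((contDiff_const.mul h1).add (contDiff_const.mul h2))).const_smul e

theorem uniq {G : ℝ × ℝ → ℝ × ℝ} (hG : ContDiff ℝ 1 G) {w w' : ℝ → ℝ × ℝ} {L : ℝ}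
    (hw : ∀ t ∈ Icc 0 L, HasDerivAt w (G (w t)) t)
    (hw' : ∀ t ∈ Icc 0 L, HasDerivAt w' (G (w' t)) t) (h0 : w 0 = w' 0) :
    EqOn w w' (Icc 0 L) := by
  have hc : ContinuousOn w (Icc 0 L) := fun t ht => (hw t ht).continuousAt.continuousWithinAt
  have hc' : ContinuousOn w' (Icc 0 L) := fun t ht => (hw' t ht).continuousAt.continuousWithinAt
  have hS : IsCompact (w '' Icc 0 L ∪ w' '' Icc 0 L) :=
    (isCompact_Icc.image_of_continuousOn hc).union (isCompact_Icc.image_of_continuousOn hc')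
  obtain ⟨C, hC⟩ := (hG.locallyLipschitz.locallyLipschitzOn
    (s := w '' Icc 0 L ∪ w' '' Icc 0 L)).exists_lipschitzOnWith_of_compact hS
  refine ODE_solution_unique_of_mem_Icc_right (v := fun _ => G)
    (s := fun _ => w '' Icc 0 L ∪ w' '' Icc 0 L) (K := C) (fun t _ => hC) hc
    (fun t ht => (hw t (Ico_subset_Icc_self ht)).hasDerivWithinAt)
    (fun t ht => Or.inl (mem_image_of_mem _ (Ico_subset_Icc_self ht))) hc'
    (fun t ht => (hw' t (Ico_subset_Icc_self ht)).hasDerivWithinAt)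
    (fun t ht => Or.inr (mem_image_of_mem _ (Ico_subset_Icc_self ht))) h0

theorem nx_uniq {F : ℝ × ℝ → ℝ × ℝ} (hF : ContDiff ℝ 4 F) {φ : ℝ} {k : ℕ} {e α : ℝ}
    {x y y' : ℝ × ℝ} (h : Nx F φ k e α x y) (h' : Nx F φ k e α x y') : y = y' := by
  obtain ⟨w, L, hL, w0, wL, dw, hx, hy, hn⟩ := h
  obtain ⟨w', L', hL', w0', wL', dw', hx', hy', hn'⟩ := h'
  have hu : EqOn w w' (Icc 0 (min L L')) :=
    uniq (rotC hF e α) (fun t ht => dw t ⟨ht.1, ht.2.trans (min_le_left _ _)⟩)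
      (fun t ht => dw' t ⟨ht.1, ht.2.trans (min_le_right _ _)⟩) (w0.trans w0'.symm)
  rcases lt_trichotomy L L' with h | h | h
  · exfalso
    have h1 := hu (show L ∈ Icc 0 (min L L') from ⟨hL.le, le_min le_rfl h.le⟩)
    rw [wL] at h1
    exact hn' L ⟨hL, h⟩ (h1 ▸ hy)
  · subst h
    have h1 := hu (show L ∈ Icc 0 (min L L) from ⟨hL.le, le_min le_rfl le_rfl⟩)
    rw [← wL, ← wL', h1]
  · exfalso
    have h1 := hu (show L' ∈ Icc 0 (min L L') from ⟨hL'.le, le_min h.le le_rfl⟩)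
    rw [wL'] at h1
    exact hn L' ⟨hL', h⟩ (h1 ▸ hy')

theorem nx_rev {F : ℝ × ℝ → ℝ × ℝ} {φ : ℝ} {k : ℕ} {e α : ℝ} {x y : ℝ × ℝ}
    (h : Nx F φ k e α x y) : Nx F φ k (-e) α y x := by
  obtain ⟨w, L, hL, w0, wL, dw, hx, hy, hn⟩ := h
  refine ⟨fun t => w (L - t), L, hL, ?_, ?_, ?_, hy, hx, ?_⟩
  · simp only [sub_zero]
    exact wL
  · simp only [sub_self]
    exact w0
  · intro t ht
    have h1 := dw (L - t) ⟨by linarith [ht.2], by linarith [ht.1]⟩
    have h2 : HasDerivAt (fun t : ℝ => L - t) (-1) t := by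
      simpa using (hasDerivAt_id t).const_sub L
    have h3 := h1.scomp t h2
    have h4 : ((-1 : ℝ) • (e • rot α (F (w (L - t))))) = (-e) • rot α (F (w (L - t))) := by
      rw [smul_smul]
      congr 1
      ring
    rw [h4] at h3
    exact h3
  · intro t ht
    exact hn _ ⟨by linarith [ht.2], by linarith [ht.1]⟩

/-! ### Sets -/

theorem loop_of {F : ℝ × ℝ → ℝ × ℝ} (hF : ContDiff ℝ 4 F) {X : Cyc} (h : X.Ok F) :
    Loop X.γ (X.V F) X.T := by
  refine ⟨h.orb.pos, h.orb.ode, ?_, h.orb.per⟩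
  have hγ : Continuous X.γ := continuous_iff_continuousAt.2 fun t => (h.orb.ode t).continuousAt
  have h1 := (rotC hF 1 X.ang).continuous.comp hγ
  have h2 : ((fun z => (1 : ℝ) • rot X.ang (F z)) ∘ X.γ) = X.V F := by
    funext t
    simp only [Function.comp_apply, one_smul]
    rfl
  rwa [h2] at h1

theorem rg_fl {F : ℝ × ℝ → ℝ × ℝ} {X : Cyc} : X.rg ⊆ X.fl F := fun _ h => Or.inl h

theorem inn_fl {F : ℝ × ℝ → ℝ × ℝ} {X : Cyc} : X.inn F ⊆ X.fl F := fun _ h => Or.inr h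

theorem rg_inn {F : ℝ × ℝ → ℝ × ℝ} {X : Cyc} {z : ℝ × ℝ} (h : z ∈ X.rg) : z ∉ X.inn F :=
  fun h' => h'.1 h

theorem ht0 : Pool.Agent.N224.Hil.S_T0 :=
  Pool.Agent.N224.Hil.t0 Pool.Agent.N224.Hil.w1 Pool.Agent.N224.Hil.w2 Pool.Agent.N224.Hil.w3

theorem compact_diff {F : ℝ × ℝ → ℝ × ℝ} (hF : ContDiff ℝ 4 F) {X Y : Cyc} (hX : X.Ok F)
    (hY : Y.Ok F) : IsCompact (X.fl F \ Y.inn F) :=
  (ht0 _ _ _ (loop_of hF hX)).2.diff (ht0 _ _ _ (loop_of hF hY)).1

theorem ham_ne {F : ℝ × ℝ → ℝ × ℝ} {ψ ω : ℝ} {z : ℝ × ℝ} (h : kd F ψ ω z ≠ 0) : ham F ψ z ≠ 0 := by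
  intro h0
  apply h
  unfold ham at h0
  have h1 : fderiv ℝ (iso F ψ) z (0, 1) = 0 := by
    have := congrArg Prod.fst h0
    simpa using this
  have h2 : fderiv ℝ (iso F ψ) z (1, 0) = 0 := by
    have := congrArg Prod.snd h0
    simpa using this
  unfold kd tau
  have h3 : ((cos ω, sin ω) : ℝ × ℝ) = cos ω • (1, 0) + sin ω • (0, 1) := by
    ext <;> simp
  rw [h3, map_add, map_smul, map_smul, h1, h2]
  simp

end ADJ

open ADJ

theorem adj (h1 : S_LOCAL) (h2 : S_HIT) (h3 : S_INV2) : S_ADJ := by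
  intro F O M K N φ k hk G j j' s s' σ σ' L₁ L₂ δ L₁' L₂' δ' S S' hN
  have hF := G.cf.smooth
  have hab := G.cf.ab
  have hbc := G.cf.bc
  have hMO := G.cf.MO
  have hKM := G.cf.KM
  have hNK := G.cf.NK
  have hk1 : 1 ≤ k := by omega
  -- nonvanishing and transversality between the curves
  have htr : ∀ z ∈ O.fl F \ N.inn F, ∀ α ∈ Icc O.ang K.ang, ∀ j : ℤ, z ∈ Gam F (lab φ k j) →
      kd F (lab φ k j) (lab φ k j + α) z ≠ 0 := by
    intro z hz α hα j hj
    obtain ⟨s, _, hs⟩ := G.gd z hz j hj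
    intro h0
    have := hs α hα
    rw [h0, mul_zero] at this
    exact lt_irrefl _ this
  have hMK : M.fl F \ K.inn F ⊆ O.fl F \ N.inn F := fun z hz =>
    ⟨inn_fl (hMO hz.1), fun h => hz.2 (hNK (inn_fl h))⟩
  have hKN : K.fl F \ N.inn F ⊆ O.fl F \ N.inn F := fun z hz =>
    ⟨inn_fl (hMO (inn_fl (hKM hz.1))), hz.2⟩
  -- FIRST CLAIM
  have first : Nx F φ k 1 K.ang (σ L₁) (σ' L₁') := by
    have hzW : ∀ t ∈ Icc (0:ℝ) L₁, σ t ∈ M.fl F \ K.inn F := by
      intro t ht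
      rcases eq_or_lt_of_le ht.1 with h | h
      · rw [← h]
        exact ⟨rg_fl S.atM, fun h' => rg_inn S.atM (hKM (inn_fl h'))⟩
      · rcases eq_or_lt_of_le ht.2 with h' | h'
        · rw [h']
          exact ⟨inn_fl (hKM (rg_fl S.atK)), rg_inn S.atK⟩
        · have := S.mid₁ t ⟨h, h'⟩
          exact ⟨inn_fl this.1, fun h'' => this.2 (inn_fl h'')⟩
    have hmem : ∀ p ∈ Icc (0:ℝ) 1, p * L₁ ∈ Icc 0 L₁ := by
      intro p hp
      exact ⟨mul_nonneg hp.1 S.L0.le, by nlinarith [hp.2, S.L0]⟩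
    have hmem' : ∀ t ∈ Icc (0:ℝ) L₁, t ∈ Ioo (-δ) (L₂ + δ) := by
      intro t ht
      exact ⟨by linarith [ht.1, S.δ0], by linarith [ht.2, S.δ0, S.L12]⟩
    have hα : ∀ p ∈ Icc (0:ℝ) 1, M.ang + p * (K.ang - M.ang) ∈ Icc M.ang K.ang := by
      intro p hp
      exact ⟨by nlinarith [hp.1], by nlinarith [hp.2]⟩
    obtain ⟨y, hyc, hy⟩ := h2 F hF φ k 1 hk (Or.inl rfl) (M.fl F \ K.inn F)
      (compact_diff hF G.cf.oM G.cf.oK) (fun z hz => G.cf.ne z (hMK hz))
      (fun p => σ (p * L₁)) (fun p => M.ang + p * (K.ang - M.ang))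
      (by
        intro p hp
        have hc : ContinuousAt σ (p * L₁) := (S.der _ (hmem' _ (hmem p hp))).continuousAt
        exact (ContinuousAt.comp (f := fun p : ℝ => p * L₁) hc
          (by fun_prop)).continuousWithinAt)
      (by fun_prop)
      (fun p hp => ⟨hzW _ (hmem p hp), j, S.gam _ (hmem' _ (hmem p hp))⟩)
      (by
        intro p hp w L hL hw0 hw t ht
        exact (h3 F O M K N φ k G _ (hα p hp) w L hL).1 (hw0 ▸ hzW _ (hmem p hp)) hw t ht)
      (by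
        intro p hp y hy j hj
        exact htr y (hMK hy) _ ⟨by linarith [(hα p hp).1], (hα p hp).2⟩ j hj)
    -- `y 0 = σ' 0`
    have hy0 : y 0 = σ' 0 := by
      have h := (hy 0 ⟨le_rfl, zero_le_one⟩).2
      simp only [zero_mul, add_zero] at h
      exact nx_uniq hF h hN
    -- the path stays on the strand `σ'`
    have hy1 := h1 F hF φ k j' s' hk1 S'.s1 (M.fl F \ K.inn F) σ' L₁' (min δ' (L₂' - L₁'))
      S'.L0.le (lt_min S'.δ0 (by linarith [S'.L12]))
      (by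
        intro t ht
        have ht' : t ∈ Ioo (-δ') (L₂' + δ') :=
          ⟨by linarith [ht.1, min_le_left δ' (L₂' - L₁')],
            by linarith [ht.2, min_le_right δ' (L₂' - L₁'), S'.δ0]⟩
        exact ⟨S'.der t ht', S'.gam t ht'⟩)
      (by
        intro t ht
        have := S'.pos t ⟨ht.1, ht.2.trans S'.L12.le⟩ M.ang ⟨hab.le, hbc.le⟩
        refine ham_ne (ω := lab φ k j' + M.ang) fun h0 => ?_
        rw [h0, mul_zero] at this
        exact lt_irrefl _ this)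
      (by
        intro t ht h
        exact S'.before t ⟨by linarith [ht.1, min_le_left δ' (L₂' - L₁')], ht.2⟩ h.1)
      (by
        intro t ht h
        have ht2 : t < L₂' := by linarith [ht.2, min_le_right δ' (L₂' - L₁')]
        exact h.2 (S'.mid₂ t ⟨ht.1, ht2⟩).1)
      y hyc
      (by
        intro p hp
        obtain ⟨hyW, w, L, _, _, _, _, _, hyG, _⟩ := hy p hp
        exact ⟨hyW, hyG⟩)
      ⟨0, ⟨le_rfl, S'.L0.le⟩, hy0.symm⟩ 1 ⟨zero_le_one, le_rfl⟩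
    have hy2 := (hy 1 ⟨zero_le_one, le_rfl⟩).2
    simp only [one_mul, add_sub_cancel] at hy2
    -- `y 1` lies on `K`
    have hyK : y 1 ∈ K.rg := by
      obtain ⟨w, L, hL, w0, wL, dw, _⟩ := hy2
      rw [← wL]
      exact (h3 F O M K N φ k G K.ang ⟨hbc.le, le_rfl⟩ w L hL.le).2.2.1 rfl (w0 ▸ S.atK) dw L
        ⟨hL.le, le_rfl⟩
    obtain ⟨t, ht, hty⟩ := hy1
    have htL : t = L₁' := by
      rcases eq_or_lt_of_le ht.2 with h | h
      · exact h
      · exfalso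
        rcases eq_or_lt_of_le ht.1 with h' | h'
        · rw [← hty, ← h'] at hyK
          exact rg_inn S'.atM (hKM (rg_fl hyK))
        · rw [← hty] at hyK
          exact (S'.mid₁ t ⟨h', h⟩).2 (rg_fl hyK)
    rw [htL] at hty
    rw [hty]
    exact hy2
  -- SECOND CLAIM
  refine ⟨first, ?_⟩
  have hrev : Nx F φ k (-1) K.ang (σ' L₁') (σ L₁) := nx_rev first
  have hzW : ∀ t ∈ Icc L₁' L₂', σ' t ∈ K.fl F \ N.inn F := by
    intro t ht
    rcases eq_or_lt_of_le ht.1 with h | h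
    · rw [← h]
      exact ⟨rg_fl S'.atK, fun h' => rg_inn S'.atK (hNK (inn_fl h'))⟩
    · rcases eq_or_lt_of_le ht.2 with h' | h'
      · rw [h']
        exact ⟨inn_fl (hNK (rg_fl S'.atN)), rg_inn S'.atN⟩
      · have := S'.mid₂ t ⟨h, h'⟩
        exact ⟨inn_fl this.1, fun h'' => this.2 (inn_fl h'')⟩
  have hLL : 0 < L₂' - L₁' := by linarith [S'.L12]
  have hmem : ∀ p ∈ Icc (0:ℝ) 1, L₁' + p * (L₂' - L₁') ∈ Icc L₁' L₂' := by
    intro p hp
    exact ⟨by nlinarith [hp.1], by nlinarith [hp.2]⟩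
  have hmem' : ∀ t ∈ Icc L₁' L₂', t ∈ Ioo (-δ') (L₂' + δ') := by
    intro t ht
    exact ⟨by linarith [ht.1, S'.δ0, S'.L0], by linarith [ht.2, S'.δ0]⟩
  have hα : ∀ p ∈ Icc (0:ℝ) 1, K.ang - p * (K.ang - M.ang) ∈ Icc M.ang K.ang := by
    intro p hp
    exact ⟨by nlinarith [hp.2], by nlinarith [hp.1]⟩
  obtain ⟨y, hyc, hy⟩ := h2 F hF φ k (-1) hk (Or.inr rfl) (K.fl F \ N.inn F)
    (compact_diff hF G.cf.oK G.nN) (fun z hz => G.cf.ne z (hKN hz))
    (fun p => σ' (L₁' + p * (L₂' - L₁'))) (fun p => K.ang - p * (K.ang - M.ang))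
    (by
      intro p hp
      have hc : ContinuousAt σ' (L₁' + p * (L₂' - L₁')) :=
        (S'.der _ (hmem' _ (hmem p hp))).continuousAt
      exact (ContinuousAt.comp (f := fun p : ℝ => L₁' + p * (L₂' - L₁')) hc
        (by fun_prop)).continuousWithinAt)
    (by fun_prop)
    (fun p hp => ⟨hzW _ (hmem p hp), j', S'.gam _ (hmem' _ (hmem p hp))⟩)
    (by
      intro p hp w L hL hw0 hw t ht
      exact (h3 F O M K N φ k G _ (hα p hp) w L hL).2.1 (hw0 ▸ hzW _ (hmem p hp)) hw t ht)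
    (by
      intro p hp y hy j hj
      exact htr y (hKN hy) _ ⟨by linarith [(hα p hp).1], (hα p hp).2⟩ j hj)
  have hy0 : y 0 = σ L₁ := by
    have h := (hy 0 ⟨le_rfl, zero_le_one⟩).2
    simp only [zero_mul, add_zero, sub_zero] at h
    exact nx_uniq hF h hrev
  have hy1 := h1 F hF φ k j s hk1 S.s1 (K.fl F \ N.inn F) (fun t => σ (L₁ + t)) (L₂ - L₁)
    (min δ L₁) (by linarith [S.L12]) (lt_min S.δ0 S.L0)
    (by
      intro t ht
      have ht' : L₁ + t ∈ Ioo (-δ) (L₂ + δ) :=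
        ⟨by linarith [ht.1, min_le_left δ L₁, S.L0], by linarith [ht.2, min_le_left δ L₁]⟩
      refine ⟨?_, S.gam _ ht'⟩
      have hd := (S.der _ ht').comp_const_add L₁ t
      exact hd)
    (by
      intro t ht
      have := S.pos (L₁ + t) ⟨by linarith [ht.1, S.L0], by linarith [ht.2]⟩ M.ang
        ⟨hab.le, hbc.le⟩
      refine ham_ne (ω := lab φ k j + M.ang) fun h0 => ?_
      rw [h0, mul_zero] at this
      exact lt_irrefl _ this)
    (by
      intro t ht h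
      exact (S.mid₁ (L₁ + t) ⟨by linarith [ht.1, min_le_right δ L₁], by linarith [ht.2]⟩).2 h.1)
    (by
      intro t ht h
      exact h.2 (S.after (L₁ + t) ⟨by linarith [ht.1],
        by linarith [ht.2, min_le_left δ L₁]⟩))
    y hyc
    (by
      intro p hp
      obtain ⟨hyW, w, L, _, _, _, _, _, hyG, _⟩ := hy p hp
      exact ⟨hyW, hyG⟩)
    ⟨0, ⟨le_rfl, by linarith [S.L12]⟩, by simp only [add_zero]; exact hy0.symm⟩
    1 ⟨zero_le_one, le_rfl⟩
  have hy2 := (hy 1 ⟨zero_le_one, le_rfl⟩).2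
  simp only [one_mul, add_sub_cancel, sub_sub_cancel] at hy2
  have hyN : y 1 ∈ N.rg := by
    obtain ⟨w, L, hL, w0, wL, dw, _⟩ := hy2
    rw [← wL]
    exact (h3 F O M K N φ k G M.ang ⟨le_rfl, hbc.le⟩ w L hL.le).2.2.2 rfl (w0 ▸ S'.atN) dw L
      ⟨hL.le, le_rfl⟩
  obtain ⟨t, ht, hty⟩ := hy1
  simp only at hty
  have htL : L₁ + t = L₂ := by
    rcases eq_or_lt_of_le ht.2 with h | h
    · rw [h]; ring
    · exfalso
      rcases eq_or_lt_of_le ht.1 with h' | h'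
      · rw [← hty, ← h', add_zero] at hyN
        exact rg_inn S.atK (hNK (rg_fl hyN))
      · rw [← hty] at hyN
        exact (S.mid₂ (L₁ + t) ⟨by linarith, by linarith⟩).2 (rg_fl hyN)
  rw [htL] at hty
  rw [← hty] at hy2
  have h := nx_rev hy2
  rw [neg_neg] at h
  rw [G.cf.aN]
  exact h

end

end Pool.Agent.N224.SF
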