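import Pool.Agent.N224.SF.D0
import Pool.Agent.N224.Hil.A2

/-! Project SF (helper224), leaf BEZ (by helper619): the number of points on an isocline at which
the isocline has a given direction. For almost all pairs of angles these points are regular points
of the map `(Q / P, -Wx / Wy)`, `W = P dQ - Q dP`, with a prescribed value. -/

set_option autoImplicit false

open Real Set MeasureTheory Topology Filter
open scoped ENNReal

namespace Pool.Agent.N224.SF.BEZ

open Pool.Agent.H709R2 (wedge field)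
open Pool.Agent.N224.Hil.A2 (ev ev_cd ev_diff ev_mul ev_sub ev_C det_eq quot_fderiv)
open MvPolynomial (pderiv)

noncomputable section

/-! ### The tangent -/

lemma null_cos : volume {x : ℝ | cos x = 0} = 0 := by
  have h1 : {x : ℝ | cos x = 0} = range fun k : ℤ => (2 * (k : ℝ) + 1) * π / 2 := by
    ext x
    rw [mem_ofPred_eq, Real.cos_eq_zero_iff, mem_range]
    exact exists_congr fun k => eq_comm
  rw [h1]
  exact (countable_range _).measure_zero _

lemma tan_branch {x : ℝ} (hx : cos x ≠ 0) : ∃ k : ℤ, arctan (tan x) + k * π = x := by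
  have hpi := Real.pi_pos
  refine ⟨⌊x / π + 1 / 2⌋, ?_⟩
  set k : ℤ := ⌊x / π + 1 / 2⌋ with hk
  have h1 : (k : ℝ) ≤ x / π + 1 / 2 := Int.floor_le _
  have h2 : x / π + 1 / 2 < k + 1 := Int.lt_floor_add_one _
  have e1 : x / π * π = x := div_mul_cancel₀ _ hpi.ne'
  have h3 : -(π / 2) ≤ x - k * π := by nlinarith
  have h4 : x - k * π < π / 2 := by nlinarith
  have h5 : -(π / 2) ≠ x - k * π := by
    intro h
    apply hx
    have h6 : x = -(π / 2) + k * π := by linarith
    rw [h6, Real.cos_add_int_mul_pi, Real.cos_neg, Real.cos_pi_div_two, mul_zero]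
  have h7 : arctan (tan x) = x - k * π := by
    rw [← Real.tan_sub_int_mul_pi x k]
    exact Real.arctan_tan (lt_of_le_of_ne h3 h5) h4
  rw [h7]
  ring

lemma null_tan {N : Set ℝ} (hN : volume N = 0) : volume (Real.tan ⁻¹' N) = 0 := by
  have h1 : Real.tan ⁻¹' N ⊆ {x | cos x = 0} ∪ ⋃ k : ℤ, (fun y => arctan y + k * π) '' N := by
    intro x hx
    by_cases hc : cos x = 0
    · exact Or.inl hc
    · obtain ⟨k, hk⟩ := tan_branch hc
      exact Or.inr (mem_iUnion.2 ⟨k, tan x, hx, hk⟩)
  refine measure_mono_null h1 (measure_union_null null_cos (measure_iUnion_null fun k => ?_))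
  refine addHaar_image_eq_zero_of_differentiableOn_of_addHaar_eq_zero volume ?_ hN
  exact (Real.differentiable_arctan.add_const _).differentiableOn

lemma qmp_tan : Measure.QuasiMeasurePreserving Real.tan (volume : Measure ℝ) volume := by
  have hm : Measurable Real.tan := by
    have h : Real.tan = fun x => sin x / cos x := by
      ext x
      exact Real.tan_eq_sin_div_cos x
    rw [h]
    exact Real.measurable_sin.div Real.measurable_cos
  refine ⟨hm, Measure.AbsolutelyContinuous.mk fun s hs h0 => ?_⟩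
  rw [Measure.map_apply hm hs]
  exact null_tan h0

lemma ae_tan2 {N : Set (ℝ × ℝ)} (hN : volume N = 0) :
    ∀ᵐ p : ℝ × ℝ, (tan p.1, tan p.2) ∉ N := by
  have h1 : Measure.QuasiMeasurePreserving (Prod.map Real.tan Real.tan)
      ((volume : Measure ℝ).prod volume) ((volume : Measure ℝ).prod volume) :=
    MeasureTheory.QuasiMeasurePreserving.prodMap qmp_tan qmp_tan
  have h2 := h1.preimage_null (s := N) hN
  rw [← Measure.volume_eq_prod] at h2
  exact measure_eq_zero_iff_ae_notMem.1 h2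

lemma ae_fst {N : Set ℝ} (hN : volume N = 0) : ∀ᵐ p : ℝ × ℝ, p.1 ∉ N := by
  have h2 := (Measure.quasiMeasurePreserving_fst (μ := (volume : Measure ℝ))
    (ν := (volume : Measure ℝ))).preimage_null (s := N) hN
  rw [← Measure.volume_eq_prod] at h2
  exact measure_eq_zero_iff_ae_notMem.1 h2

lemma ae_snd {N : Set ℝ} (hN : volume N = 0) : ∀ᵐ p : ℝ × ℝ, p.2 ∉ N := by
  have h2 := (Measure.quasiMeasurePreserving_snd (μ := (volume : Measure ℝ))
    (ν := (volume : Measure ℝ))).preimage_null (s := N) hN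
  rw [← Measure.volume_eq_prod] at h2
  exact measure_eq_zero_iff_ae_notMem.1 h2

/-! ### Polynomials -/

lemma ev_add (P Q : MvPolynomial (Fin 2) ℝ) : ev (P + Q) = fun z => ev P z + ev Q z := by
  ext z
  exact map_add _ _ _

lemma hasFDerivAt_ev (P : MvPolynomial (Fin 2) ℝ) (z : ℝ × ℝ) :
    HasFDerivAt (fun z : ℝ × ℝ => MvPolynomial.eval ![z.1, z.2] P)
      (MvPolynomial.eval ![z.1, z.2] (pderiv 0 P) • ContinuousLinearMap.fst ℝ ℝ ℝ +
        MvPolynomial.eval ![z.1, z.2] (pderiv 1 P) • ContinuousLinearMap.snd ℝ ℝ ℝ) z := by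
  induction P using MvPolynomial.induction_on with
  | C a =>
    simp only [MvPolynomial.eval_C, MvPolynomial.pderiv_C, map_zero, zero_smul, add_zero]
    exact hasFDerivAt_const _ _
  | add p q hp hq =>
    simp only [map_add]
    refine (hp.add hq).congr_fderiv ?_
    ext <;> simp
  | mul_X p i hp =>
    simp only [map_mul, MvPolynomial.eval_X]
    fin_cases i
    · refine (hp.mul hasFDerivAt_fst).congr_fderiv ?_
      ext <;> simp [MvPolynomial.pderiv_X]
    · refine (hp.mul hasFDerivAt_snd).congr_fderiv ?_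
      ext <;> simp [MvPolynomial.pderiv_X]

lemma ev_fderiv (P : MvPolynomial (Fin 2) ℝ) (z v : ℝ × ℝ) :
    fderiv ℝ (ev P) z v = ev (pderiv 0 P) z * v.1 + ev (pderiv 1 P) z * v.2 := by
  have h : HasFDerivAt (ev P) _ z := hasFDerivAt_ev P z
  rw [h.fderiv]
  simp [ev]

lemma deg_pderiv {n : ℕ} (F : MvPolynomial (Fin 2) ℝ) (hF : F.totalDegree ≤ n) (i : Fin 2) :
    (pderiv i F).totalDegree ≤ n := by
  have h1 : pderiv i F = ∑ v ∈ F.support,
      MvPolynomial.monomial (v - Finsupp.single i 1) (MvPolynomial.coeff v F * (v i : ℝ)) := by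
    conv_lhs => rw [F.as_sum]
    rw [map_sum]
    simp only [MvPolynomial.pderiv_monomial]
  rw [h1]
  refine MvPolynomial.totalDegree_finsetSum_le fun v hv => ?_
  refine (MvPolynomial.totalDegree_monomial_le _ _).trans ?_
  refine le_trans ?_ ((MvPolynomial.le_totalDegree hv).trans hF)
  refine Finsupp.sum_le_sum_index tsub_le_self (fun _ _ => monotone_id) (fun _ _ => rfl)

lemma deg_mulp {n : ℕ} (P Q : MvPolynomial (Fin 2) ℝ) (hP : P.totalDegree ≤ n)
    (hQ : Q.totalDegree ≤ n) (i : Fin 2) :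
    (P * pderiv i Q - Q * pderiv i P).totalDegree ≤ 2 * n := by
  refine (MvPolynomial.totalDegree_sub _ _).trans (max_le ?_ ?_)
  · refine (MvPolynomial.totalDegree_mul _ _).trans ?_
    have := deg_pderiv Q hQ i
    omega
  · refine (MvPolynomial.totalDegree_mul _ _).trans ?_
    have := deg_pderiv P hP i
    omega

/-! ### The map -/

variable (P Q A B : MvPolynomial (Fin 2) ℝ)

/-- the map `(Q / P, A / B)` -/
def th (z : ℝ × ℝ) : ℝ × ℝ := (ev Q z / ev P z, ev A z / ev B z)

variable {P Q A B}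

lemma th_fderiv {z : ℝ × ℝ} (hz : ev P z ≠ 0) (hz' : ev B z ≠ 0) : HasFDerivAt (th P Q A B)
    (((ev P z ^ 2)⁻¹ • (ev P z • fderiv ℝ (ev Q) z - ev Q z • fderiv ℝ (ev P) z)).prod
      ((ev B z ^ 2)⁻¹ • (ev B z • fderiv ℝ (ev A) z - ev A z • fderiv ℝ (ev B) z))) z :=
  (quot_fderiv hz).prodMk (quot_fderiv hz')

/-- every value is taken at most `m n` times at the regular points -/
lemma mult {n m : ℕ} (hP : P.totalDegree ≤ n) (hQ : Q.totalDegree ≤ n) (hA : A.totalDegree ≤ m)
    (hB : B.totalDegree ≤ m) (y : ℝ × ℝ) :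
    {x | (ev P x ≠ 0 ∧ ev B x ≠ 0 ∧ (fderiv ℝ (th P Q A B) x).det ≠ 0) ∧
      th P Q A B x = y}.encard ≤ ((m * n : ℕ) : ℕ∞) := by
  classical
  set A' := A - MvPolynomial.C y.2 * B with hA'
  set B' := Q - MvPolynomial.C y.1 * P with hB'
  have eA : ev A' = fun z => ev A z - y.2 * ev B z := by
    rw [hA', ev_sub, ev_mul, ev_C]
  have eB : ev B' = fun z => ev Q z - y.1 * ev P z := by
    rw [hB', ev_sub, ev_mul, ev_C]
  have dA : ∀ z v, fderiv ℝ (ev A') z v = fderiv ℝ (ev A) z v - y.2 * fderiv ℝ (ev B) z v := by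
    intro z v
    rw [eA, fderiv_fun_sub (ev_diff A z) ((ev_diff B z).const_mul _), fderiv_const_mul (ev_diff B z)]
    rfl
  have dB : ∀ z v, fderiv ℝ (ev B') z v = fderiv ℝ (ev Q) z v - y.1 * fderiv ℝ (ev P) z v := by
    intro z v
    rw [eB, fderiv_fun_sub (ev_diff Q z) ((ev_diff P z).const_mul _), fderiv_const_mul (ev_diff P z)]
    rfl
  -- the equations
  have key : ∀ x, (ev P x ≠ 0 ∧ ev B x ≠ 0 ∧ (fderiv ℝ (th P Q A B) x).det ≠ 0) →
      th P Q A B x = y → ev A' x = 0 ∧ ev B' x = 0 ∧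
      fderiv ℝ (ev A') x (1, 0) * fderiv ℝ (ev B') x (0, 1) -
        fderiv ℝ (ev A') x (0, 1) * fderiv ℝ (ev B') x (1, 0) ≠ 0 := by
    intro x hx hxy
    have h1 : ev Q x / ev P x = y.1 := congrArg Prod.fst hxy
    have h2 : ev A x / ev B x = y.2 := congrArg Prod.snd hxy
    have h3 : ev Q x = y.1 * ev P x := by rw [← h1, div_mul_cancel₀ _ hx.1]
    have h4 : ev A x = y.2 * ev B x := by rw [← h2, div_mul_cancel₀ _ hx.2.1]
    refine ⟨?_, ?_, fun h0 => ?_⟩
    · rw [eA]
      show ev A x - y.2 * ev B x = 0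
      rw [h4, sub_self]
    · rw [eB]
      show ev Q x - y.1 * ev P x = 0
      rw [h3, sub_self]
    apply hx.2.2
    rw [(th_fderiv hx.1 hx.2.1).fderiv, det_eq]
    simp only [ContinuousLinearMap.prod_apply, ContinuousLinearMap.smul_apply,
      ContinuousLinearMap.sub_apply, smul_eq_mul]
    have h6 : ∀ v, ev P x * fderiv ℝ (ev Q) x v - ev Q x * fderiv ℝ (ev P) x v =
        ev P x * fderiv ℝ (ev B') x v := by
      intro v
      rw [dB, h3]
      ring
    have h7 : ∀ v, ev B x * fderiv ℝ (ev A) x v - ev A x * fderiv ℝ (ev B) x v =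
        ev B x * fderiv ℝ (ev A') x v := by
      intro v
      rw [dA, h4]
      ring
    rw [h6, h6, h7, h7]
    linear_combination -((ev P x ^ 2)⁻¹ * ev P x * (ev B x ^ 2)⁻¹ * ev B x) * h0
  by_cases hAB : A' = 0 ∨ B' = 0
  · have : {x | (ev P x ≠ 0 ∧ ev B x ≠ 0 ∧ (fderiv ℝ (th P Q A B) x).det ≠ 0) ∧
        th P Q A B x = y} = ∅ := by
      ext x
      simp only [mem_ofPred_eq, mem_empty_iff_false, iff_false]
      rintro ⟨hx, hxy⟩
      obtain ⟨-, -, h3⟩ := key x hx hxy
      apply h3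
      have hz : ∀ z v, fderiv ℝ (ev (0 : MvPolynomial (Fin 2) ℝ)) z v = 0 := by
        intro z v
        have : ev (0 : MvPolynomial (Fin 2) ℝ) = fun _ => (0:ℝ) := by
          ext w
          exact map_zero _
        rw [this]
        simp
      rcases hAB with h | h
      · rw [h, hz, hz]; ring
      · rw [h, hz, hz]; ring
    rw [this, encard_empty]
    exact zero_le
  push Not at hAB
  obtain ⟨u, v, g, huv, hu, hv⟩ := UniqueFactorizationMonoid.exists_reduced_factors A' hAB.1 B'
  have hg0 : g ≠ 0 := by rintro rfl; exact hAB.1 (by rw [← hu, zero_mul])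
  have hu0 : u ≠ 0 := by rintro rfl; exact hAB.1 (by rw [← hu, mul_zero])
  have hv0 : v ≠ 0 := by rintro rfl; exact hAB.2 (by rw [← hv, mul_zero])
  have hdu : u.totalDegree ≤ m := by
    have h1 := MvPolynomial.totalDegree_mul_of_isDomain hg0 hu0
    rw [hu] at h1
    have h2 : A'.totalDegree ≤ m := by
      rw [hA']
      refine (MvPolynomial.totalDegree_sub _ _).trans (max_le hA ?_)
      refine (MvPolynomial.totalDegree_mul _ _).trans ?_
      rw [MvPolynomial.totalDegree_C, zero_add]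
      exact hB
    omega
  have hdv : v.totalDegree ≤ n := by
    have h1 := MvPolynomial.totalDegree_mul_of_isDomain hg0 hv0
    rw [hv] at h1
    have h2 : B'.totalDegree ≤ n := by
      rw [hB']
      refine (MvPolynomial.totalDegree_sub _ _).trans (max_le hQ ?_)
      refine (MvPolynomial.totalDegree_mul _ _).trans ?_
      rw [MvPolynomial.totalDegree_C, zero_add]
      exact hP
    omega
  have hzero : ∀ x, (ev P x ≠ 0 ∧ ev B x ≠ 0 ∧ (fderiv ℝ (th P Q A B) x).det ≠ 0) →
      th P Q A B x = y → ev u x = 0 ∧ ev v x = 0 := by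
    intro x hx hxy
    obtain ⟨h1, h2, h3⟩ := key x hx hxy
    have eA' : ev A' = fun z => ev g z * ev u z := by rw [← hu, ev_mul]
    have eB' : ev B' = fun z => ev g z * ev v z := by rw [← hv, ev_mul]
    have hgx : ev g x ≠ 0 := by
      intro hg
      apply h3
      have h4 : ∀ w, fderiv ℝ (ev A') x w = ev u x * fderiv ℝ (ev g) x w := by
        intro w
        rw [eA', fderiv_fun_mul (ev_diff g x) (ev_diff u x)]
        simp [hg]
      have h5 : ∀ w, fderiv ℝ (ev B') x w = ev v x * fderiv ℝ (ev g) x w := by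
        intro w
        rw [eB', fderiv_fun_mul (ev_diff g x) (ev_diff v x)]
        simp [hg]
      rw [h4, h4, h5, h5]
      ring
    rw [eA'] at h1
    rw [eB'] at h2
    exact ⟨(mul_eq_zero.1 h1).resolve_left hgx, (mul_eq_zero.1 h2).resolve_left hgx⟩
  by_contra hcon
  push Not at hcon
  have h1 : ((m * n + 1 : ℕ) : ℕ∞) ≤ {x | (ev P x ≠ 0 ∧ ev B x ≠ 0 ∧
      (fderiv ℝ (th P Q A B) x).det ≠ 0) ∧ th P Q A B x = y}.encard := by
    rw [Nat.cast_add, Nat.cast_one]
    exact Order.add_one_le_of_lt hcon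
  obtain ⟨t, ht, htc⟩ := Set.exists_subset_encard_eq h1
  have htf : t.Finite := Set.finite_of_encard_eq_coe htc
  have hinj : Function.Injective (fun z : ℝ × ℝ => (![z.1, z.2] : Fin 2 → ℝ)) := by
    intro z w h
    have h0 := congrFun h 0
    have h1 := congrFun h 1
    simp at h0 h1
    exact Prod.ext h0 h1
  have h2 := Pool.Agent.H709U.B3.bezout u v hv0 huv
    (htf.toFinset.image fun z : ℝ × ℝ => (![z.1, z.2] : Fin 2 → ℝ)) (by
      intro w hw
      rw [Finset.mem_image] at hw
      obtain ⟨z, hz, rfl⟩ := hw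
      have h3 := ht (htf.mem_toFinset.1 hz)
      exact hzero z h3.1 h3.2)
  rw [Finset.card_image_of_injective _ hinj] at h2
  have h3 : htf.toFinset.card = m * n + 1 := by
    have h4 := htf.encard_eq_coe_toFinset_card
    rw [htc] at h4
    exact_mod_cast h4.symm
  have h4 : u.totalDegree * v.totalDegree ≤ m * n := Nat.mul_le_mul hdu hdv
  omega

end

end Pool.Agent.N224.SF.BEZ

namespace Pool.Agent.N224.SF

open Pool.Agent.H709R2 (wedge field)
open Pool.Agent.N224.Hil.A2 (ev ev_cd ev_diff ev_mul ev_sub ev_C det_eq quot_fderiv)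
open MvPolynomial (pderiv)

open BEZ in
theorem bez (hS : S_SARD) : S_BEZ := by
  intro n P Q hP hQ _
  set A : MvPolynomial (Fin 2) ℝ := -(P * pderiv 0 Q - Q * pderiv 0 P) with hA
  set B : MvPolynomial (Fin 2) ℝ := P * pderiv 1 Q - Q * pderiv 1 P with hB
  have hdA : A.totalDegree ≤ 2 * n := by
    rw [hA, MvPolynomial.totalDegree_neg]
    exact deg_mulp P Q hP hQ 0
  have hdB : B.totalDegree ≤ 2 * n := deg_mulp P Q hP hQ 1
  have eA : ∀ z, ev A z = -(ev P z * ev (pderiv 0 Q) z - ev Q z * ev (pderiv 0 P) z) := by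
    intro z
    simp [hA, ev]
  have eB : ∀ z, ev B z = ev P z * ev (pderiv 1 Q) z - ev Q z * ev (pderiv 1 P) z := by
    intro z
    simp [hB, ev]
  have hcP : ContDiff ℝ 3 (ev P) := Pool.Agent.H709R2.contDiff_evalPoly P
  have hcQ : ContDiff ℝ 3 (ev Q) := Pool.Agent.H709R2.contDiff_evalPoly Q
  have hU : IsOpen {z : ℝ × ℝ | ev P z ≠ 0} := isOpen_ne_fun hcP.continuous continuous_const
  have N1 := hS {z : ℝ × ℝ | ev P z ≠ 0} (fun z => ev Q z / ev P z) hU
    (hcQ.contDiffOn.div hcP.contDiffOn fun z hz => hz)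
  have N2 : volume (th P Q A B '' {z | (ev P z ≠ 0 ∧ ev B z ≠ 0) ∧
      (fderiv ℝ (th P Q A B) z).det = 0}) = 0 :=
    addHaar_image_eq_zero_of_det_fderivWithin_eq_zero volume
      (fun z hz => (th_fderiv hz.1.1 hz.1.2).differentiableAt.hasFDerivAt.hasFDerivWithinAt)
      (fun z hz => hz.2)
  filter_upwards [ae_fst null_cos, ae_snd null_cos, ae_fst (null_tan N1), ae_tan2 N2]
    with p hc1 hc2 h1 h2
  have hc1' : cos p.1 ≠ 0 := hc1
  have hc2' : cos p.2 ≠ 0 := hc2
  refine le_trans (encard_le_encard ?_)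
    ((mult hP hQ hdA hdB (tan p.1, tan p.2)).trans (le_of_eq ?_))
  · rintro z ⟨hz1, hz2, hz3⟩
    have e1 : cos p.1 * ev Q z - sin p.1 * ev P z = 0 := hz2
    have hPz : ev P z ≠ 0 := by
      intro h0
      rw [h0, mul_zero, sub_zero] at e1
      have h3 : ev Q z = 0 := (mul_eq_zero.1 e1).resolve_left hc1'
      apply hz1
      show (ev P z, ev Q z) = 0
      rw [h0, h3]
      rfl
    have e2 : cos p.1 * (ev (pderiv 0 Q) z * cos p.2 + ev (pderiv 1 Q) z * sin p.2) -
        sin p.1 * (ev (pderiv 0 P) z * cos p.2 + ev (pderiv 1 P) z * sin p.2) = 0 := by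
      have h3 : kd (field P Q) p.1 p.2 z = fderiv ℝ (fun z => cos p.1 * ev Q z - sin p.1 * ev P z) z
          (tau p.2) := rfl
      rw [h3, fderiv_fun_sub ((ev_diff Q z).const_mul _) ((ev_diff P z).const_mul _),
        fderiv_const_mul (ev_diff P z), fderiv_const_mul (ev_diff Q z)] at hz3
      have h4 : cos p.1 * fderiv ℝ (ev Q) z (tau p.2) - sin p.1 * fderiv ℝ (ev P) z (tau p.2) = 0 :=
        hz3
      rw [ev_fderiv, ev_fderiv] at h4
      exact h4
    have e3 : -ev A z * cos p.2 + ev B z * sin p.2 = 0 := by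
      have h3 : cos p.1 * (-ev A z * cos p.2 + ev B z * sin p.2) = 0 := by
        rw [eA, eB]
        linear_combination ev P z * e2 -
          (ev (pderiv 0 P) z * cos p.2 + ev (pderiv 1 P) z * sin p.2) * e1
      exact (mul_eq_zero.1 h3).resolve_left hc1'
    have t1 : tan p.1 = ev Q z / ev P z := by
      rw [Real.tan_eq_sin_div_cos, div_eq_div_iff hc1' hPz]
      linarith
    have hBz : ev B z ≠ 0 := by
      intro h0
      have h3 : ev A z = 0 := by
        rw [h0, zero_mul, add_zero] at e3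
        have := (mul_eq_zero.1 e3).resolve_right hc2'
        linarith
      apply h1
      refine ⟨z, ⟨hPz, ?_⟩, t1.symm⟩
      rw [(quot_fderiv (Q := Q) hPz).fderiv]
      have h4 := eA z
      have h5 := eB z
      rw [h3] at h4
      rw [h0] at h5
      refine ContinuousLinearMap.ext fun v => ?_
      simp only [ContinuousLinearMap.smul_apply, ContinuousLinearMap.sub_apply, smul_eq_mul,
        ev_fderiv, ContinuousLinearMap.zero_apply]
      have h6 : ev P z * (ev (pderiv 0 Q) z * v.1 + ev (pderiv 1 Q) z * v.2) -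
          ev Q z * (ev (pderiv 0 P) z * v.1 + ev (pderiv 1 P) z * v.2) = 0 := by
        linear_combination v.1 * h4 - v.2 * h5
      rw [h6, mul_zero]
    have t2 : tan p.2 = ev A z / ev B z := by
      rw [Real.tan_eq_sin_div_cos, div_eq_div_iff hc2' hBz]
      linarith
    have t3 : th P Q A B z = (tan p.1, tan p.2) := by
      rw [t1, t2]
      rfl
    refine ⟨⟨hPz, hBz, fun h0 => h2 ⟨z, ⟨⟨hPz, hBz⟩, h0⟩, t3⟩⟩, t3⟩
  · congr 1
    ring

end Pool.Agent.N224.SF
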