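import Pool.Agent.N224.SF.D0

/-! Project SF: the direction of the field between two consecutive points of the grid (CELL). -/

set_option autoImplicit false

open Real Set MeasureTheory Topology Filter

namespace Pool.Agent.N224.SF

open Pool.Agent.H709R2 (rot wedge field)

namespace CELL

theorem wedge_add_angle (A h : ℝ) (u : ℝ × ℝ) :
    wedge (tau (A + h)) u =
      cos h * wedge (tau A) u - sin h * (cos A * u.1 + sin A * u.2) := by
  unfold wedge tau
  simp only
  rw [cos_add, sin_add]
  ring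

theorem norm_id (A : ℝ) (u : ℝ × ℝ) :
    u = (cos A * u.1 + sin A * u.2) • tau A + wedge (tau A) u • (-sin A, cos A) := by
  have h := sin_sq_add_cos_sq A
  unfold wedge tau
  ext
  · simp only [Prod.fst_add, Prod.smul_fst, smul_eq_mul]
    linear_combination (-u.1) * h
  · simp only [Prod.snd_add, Prod.smul_snd, smul_eq_mul]
    linear_combination (-u.2) * h

/-- vectors in a closed sector -/
theorem sector {A h : ℝ} (h0 : 0 < h) (h1 : h < π / 2) {u : ℝ × ℝ} (hu : u ≠ 0)
    (hP : 0 ≤ wedge (tau A) u) (hQ : wedge (tau (A + h)) u ≤ 0) :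
    ∃ r θ : ℝ, 0 < r ∧ θ ∈ Icc A (A + h) ∧ u = r • tau θ ∧
      (wedge (tau A) u = 0 → θ = A) ∧ (wedge (tau (A + h)) u = 0 → θ = A + h) := by
  have hsin : 0 < sin h := sin_pos_of_pos_of_lt_pi h0 (by linarith [pi_pos])
  have hcos : 0 < cos h := cos_pos_of_mem_Ioo ⟨by linarith, h1⟩
  have hid := norm_id A u
  set P := wedge (tau A) u with hPd
  set D := cos A * u.1 + sin A * u.2 with hDd
  have hQ' : cos h * P - sin h * D ≤ 0 := by
    rw [← wedge_add_angle]
    exact hQ
  have hD0 : 0 ≤ D := by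
    by_contra hlt
    have : sin h * D < 0 := mul_neg_of_pos_of_neg hsin (not_le.1 hlt)
    have := mul_nonneg hcos.le hP
    linarith
  have hD : 0 < D := by
    rcases hD0.lt_or_eq with h2 | h2
    · exact h2
    · exfalso
      rw [← h2, mul_zero, sub_zero] at hQ'
      have hP0 : P = 0 := by
        by_contra hne
        have : 0 < P := lt_of_le_of_ne hP (Ne.symm hne)
        have := mul_pos hcos this
        linarith
      apply hu
      rw [hid, ← h2, hP0, zero_smul, zero_smul, add_zero]
  have hx : 0 ≤ P / D := div_nonneg hP hD.le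
  have htan : P / D ≤ tan h := by
    rw [tan_eq_sin_div_cos, div_le_div_iff₀ hD hcos]
    linarith
  have harc : arctan (P / D) ≤ h := by
    rw [← arctan_tan (by linarith) h1]
    exact arctan_strictMono.monotone htan
  have hsq : 0 < 1 + (P / D) ^ 2 := by positivity
  have hs0 : 0 < √(1 + (P / D) ^ 2) := sqrt_pos.2 hsq
  refine ⟨D * √(1 + (P / D) ^ 2), A + arctan (P / D), by positivity,
    ⟨by linarith [arctan_nonneg.2 hx], by linarith⟩, ?_, ?_, ?_⟩
  · have e1 : D * √(1 + (P / D) ^ 2) * cos (arctan (P / D)) = D := by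
      rw [cos_arctan]
      field_simp
    have e2 : D * √(1 + (P / D) ^ 2) * sin (arctan (P / D)) = P := by
      rw [sin_arctan]
      field_simp
    rw [hid]
    ext
    · simp only [tau, Prod.fst_add, Prod.smul_fst, smul_eq_mul]
      rw [cos_add]
      linear_combination (-cos A) * e1 + sin A * e2
    · simp only [tau, Prod.snd_add, Prod.smul_snd, smul_eq_mul]
      rw [sin_add]
      linear_combination (-sin A) * e1 - cos A * e2
  · intro h2
    rw [h2, zero_div, arctan_zero, add_zero]
  · intro h2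
    rw [wedge_add_angle] at h2
    have h3 : P / D = tan h := by
      rw [tan_eq_sin_div_cos, div_eq_div_iff hD.ne' hcos.ne']
      linarith
    rw [h3, arctan_tan (by linarith) h1]

theorem wedge_tau (A B r : ℝ) : wedge (tau A) (r • tau B) = r * sin (B - A) := by
  unfold wedge tau
  simp only [Prod.smul_mk, smul_eq_mul]
  rw [sin_sub]
  ring

theorem rot_tau (α A r : ℝ) : rot α (r • tau A) = r • tau (A + α) := by
  unfold rot tau
  simp only [Prod.smul_mk, smul_eq_mul]
  rw [cos_add, sin_add]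
  ext <;> simp <;> ring

theorem wedge_rot_tau (α A : ℝ) (v : ℝ × ℝ) : wedge (tau (A + α)) (rot α v) = wedge (tau A) v := by
  unfold wedge rot tau
  simp only
  rw [cos_add, sin_add]
  linear_combination (cos A * v.2 - sin A * v.1) * sin_sq_add_cos_sq α

theorem lab_succ (φ : ℝ) (k : ℕ) (m : ℤ) : lab φ k (m + 1) = lab φ k m + π / k := by
  unfold lab
  push_cast
  ring

theorem continuous_wedge (A : ℝ) : Continuous fun u : ℝ × ℝ => wedge (tau A) u := by
  unfold wedge tau
  fun_prop

theorem tau_inj {θ θ' r r' : ℝ} (hr : 0 < r) (hr' : 0 < r') (h : r • tau θ = r' • tau θ') :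
    ∃ l : ℤ, θ - θ' = 2 * π * l := by
  have h1 : r * cos θ = r' * cos θ' := congrArg Prod.fst h
  have h2 : r * sin θ = r' * sin θ' := congrArg Prod.snd h
  have h3 : r ^ 2 = r' ^ 2 := by
    have e1 := sin_sq_add_cos_sq θ
    have e2 := sin_sq_add_cos_sq θ'
    have e3 : (r * cos θ) ^ 2 + (r * sin θ) ^ 2 = (r' * cos θ') ^ 2 + (r' * sin θ') ^ 2 := by
      rw [h1, h2]
    linear_combination e3 - r ^ 2 * e1 + r' ^ 2 * e2
  have h4 : r = r' := by
    rcases sq_eq_sq_iff_eq_or_eq_neg.1 h3 with h5 | h5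
    · exact h5
    · linarith
  rw [h4] at h1 h2
  have h5 : cos θ = cos θ' := mul_left_cancel₀ hr'.ne' h1
  have h6 : sin θ = sin θ' := mul_left_cancel₀ hr'.ne' h2
  exact Real.Angle.angle_eq_iff_two_pi_dvd_sub.1 (Real.Angle.cos_sin_inj h5 h6)

end CELL

open CELL

theorem cell : S_CELL := by
  intro F hF φ k α j s w L hk hs hL hw hne hw0 hkd hgrid hwL m hm1 hm2
  have hkpos : (0 : ℝ) < k := by
    have : 0 < k := by omega
    exact_mod_cast this
  have hh0 : 0 < π / k := div_pos pi_pos hkpos
  have hk4 : (4 : ℝ) ≤ k := by exact_mod_cast hk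
  have hh1 : π / k < π / 2 := by
    rw [div_lt_div_iff_of_pos_left pi_pos hkpos (by norm_num)]
    linarith
  set A := lab φ k m with hA
  rw [lab_succ, ← hA]
  have hsinh : 0 < sin (π / k) := sin_pos_of_pos_of_lt_pi hh0 (by linarith [pi_pos])
  -- continuity
  have hFc : Continuous F := hF.continuous
  have hwc : ∀ t ∈ Icc 0 L, ContinuousAt w t := fun t ht => (hw t ht).continuousAt
  have hvc : ∀ B : ℝ, ∀ t ∈ Icc 0 L, ContinuousAt (fun t => wedge (tau B) (F (w t))) t :=
    fun B t ht => (continuous_wedge B).continuousAt.comp (hFc.continuousAt.comp (hwc t ht))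
  have h00 : (0 : ℝ) ∈ Icc 0 L := ⟨le_rfl, hL.le⟩
  obtain ⟨r₀, hr₀, hF0⟩ := hw0
  -- derivative at zero
  have hder : HasDerivAt (fun t => iso F (lab φ k j) (w t))
      (r₀ * kd F (lab φ k j) (lab φ k j + α) (w 0)) 0 := by
    have hd : DifferentiableAt ℝ (iso F (lab φ k j)) (w 0) := by
      have h1 : Differentiable ℝ F := hF.differentiable (by norm_num)
      have h2 : Differentiable ℝ fun z : ℝ × ℝ => wedge (tau (lab φ k j)) (F z) := by
        unfold wedge tau
        fun_prop
      exact h2 (w 0)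
    have h1 := hd.hasFDerivAt.comp_hasDerivAt 0 (hw 0 h00)
    have h2 : fderiv ℝ (iso F (lab φ k j)) (w 0) (rot α (F (w 0))) =
        r₀ * kd F (lab φ k j) (lab φ k j + α) (w 0) := by
      rw [hF0, rot_tau, map_smul, smul_eq_mul]
      rfl
    rw [h2] at h1
    exact h1
  have hiso0 : iso F (lab φ k j) (w 0) = 0 := by
    unfold iso
    rw [hF0, wedge_tau, sub_self, sin_zero, mul_zero]
  -- sign for small times
  have hsmall : ∀ᶠ t in 𝓝[>] (0 : ℝ), 0 < s * iso F (lab φ k j) (w t) := by
    have h1 : HasDerivAt (fun t => s * iso F (lab φ k j) (w t))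
        (s * (r₀ * kd F (lab φ k j) (lab φ k j + α) (w 0))) 0 := hder.const_mul s
    have h2 : 0 < s * (r₀ * kd F (lab φ k j) (lab φ k j + α) (w 0)) := by
      have := mul_pos hr₀ hkd
      nlinarith
    have h3 := h1.hasDerivWithinAt (s := Ioi 0)
    rw [hasDerivWithinAt_iff_tendsto_slope' (by simp)] at h3
    filter_upwards [h3.eventually (lt_mem_nhds h2), self_mem_nhdsWithin] with t ht ht0
    rw [slope_def_field] at ht
    have h4 : 0 < t - 0 := by
      rw [sub_zero]
      exact ht0
    have h5 := mul_pos ht h4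
    rw [div_mul_cancel₀ _ h4.ne', hiso0, mul_zero, sub_zero] at h5
    exact h5
  have hstart : ∀ᶠ t in 𝓝[>] (0 : ℝ), 0 < wedge (tau A) (F (w t)) ∧
      wedge (tau (A + π / k)) (F (w t)) < 0 := by
    rcases hs with hs1 | hs1
    · have hmj := hm1 hs1
      subst hmj
      have h1 : wedge (tau (A + π / k)) (F (w 0)) < 0 := by
        rw [hF0, wedge_tau]
        have e : A - (A + π / k) = -(π / k) := by ring
        rw [← hA, e, sin_neg]
        have := mul_pos hr₀ hsinh
        linarith
      have h2 : ∀ᶠ t in 𝓝[>] (0 : ℝ), wedge (tau (A + π / k)) (F (w t)) < 0 :=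
        ((hvc (A + π / k) 0 h00).eventually (gt_mem_nhds h1)).filter_mono nhdsWithin_le_nhds
      filter_upwards [hsmall, h2] with t h3 h4
      refine ⟨?_, h4⟩
      rw [hs1, one_mul] at h3
      exact h3
    · have hmj := hm2 hs1
      have hj : lab φ k j = A + π / k := by
        rw [hA, ← lab_succ, hmj]
        congr 1
        ring
      have h1 : 0 < wedge (tau A) (F (w 0)) := by
        rw [hF0, wedge_tau, hj]
        have e : A + π / k - A = π / k := by ring
        rw [e]
        exact mul_pos hr₀ hsinh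
      have h2 : ∀ᶠ t in 𝓝[>] (0 : ℝ), 0 < wedge (tau A) (F (w t)) :=
        ((hvc A 0 h00).eventually (lt_mem_nhds h1)).filter_mono nhdsWithin_le_nhds
      filter_upwards [hsmall, h2] with t h3 h4
      refine ⟨h4, ?_⟩
      rw [hs1, hj] at h3
      unfold iso at h3
      linarith
  -- the open interval
  have hopen : ∀ t ∈ Ioo 0 L, 0 < wedge (tau A) (F (w t)) ∧
      wedge (tau (A + π / k)) (F (w t)) < 0 := by
    set U : Set ℝ := Ioo 0 L ∩ {t | 0 < wedge (tau A) (F (w t)) ∧
      wedge (tau (A + π / k)) (F (w t)) < 0} with hU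
    have hUo : IsOpen U := by
      rw [isOpen_iff_mem_nhds]
      rintro t ⟨ht, ht1, ht2⟩
      have ht' : t ∈ Icc 0 L := Ioo_subset_Icc_self ht
      refine Filter.inter_mem (isOpen_Ioo.mem_nhds ht) ?_
      filter_upwards [(hvc A t ht').eventually (lt_mem_nhds ht1),
        (hvc (A + π / k) t ht').eventually (gt_mem_nhds ht2)] with t' h1 h2
      exact ⟨h1, h2⟩
    have hUne : (Ioo 0 L ∩ U).Nonempty := by
      have h1 : ∀ᶠ t in 𝓝[>] (0 : ℝ), t ∈ Ioo 0 L := Ioo_mem_nhdsGT hL
      obtain ⟨t, ht1, ht2⟩ := (h1.and hstart).exists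
      exact ⟨t, ht1, ht1, ht2⟩
    have hUc : closure U ∩ Ioo 0 L ⊆ U := by
      rintro t ⟨htc, ht⟩
      have ht' : t ∈ Icc 0 L := Ioo_subset_Icc_self ht
      have hcl : ∀ B : ℝ, ∀ e : ℝ, (∀ t' ∈ U, 0 ≤ e * wedge (tau B) (F (w t'))) →
          0 ≤ e * wedge (tau B) (F (w t)) := by
        intro B e hBe
        have hc1 : ContinuousWithinAt (fun t => e * wedge (tau B) (F (w t))) U t :=
          (continuousAt_const.mul (hvc B t ht')).continuousWithinAt
        have hne' : (𝓝[U] t).NeBot := mem_closure_iff_nhdsWithin_neBot.1 htc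
        refine ge_of_tendsto hc1 ?_
        filter_upwards [self_mem_nhdsWithin] with t' ht'
        exact hBe t' ht'
      have hP0 : 0 ≤ wedge (tau A) (F (w t)) := by
        have := hcl A 1 fun t' ht' => by
          rw [one_mul]
          exact ht'.2.1.le
        rwa [one_mul] at this
      have hQ0 : wedge (tau (A + π / k)) (F (w t)) ≤ 0 := by
        have := hcl (A + π / k) (-1) fun t' ht' => by
          have := ht'.2.2
          linarith
        linarith
      obtain ⟨r, θ, hr, hθ, huθ, hz1, hz2⟩ := sector hh0 hh1 (hne t ht') hP0 hQ0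
      refine ⟨ht, lt_of_le_of_ne hP0 ?_, lt_of_le_of_ne hQ0 ?_⟩
      · intro h0
        refine hgrid t ht ⟨m, r, hr, ?_⟩
        rw [huθ, hz1 h0.symm]
      · intro h0
        refine hgrid t ht ⟨m + 1, r, hr, ?_⟩
        rw [huθ, hz2 h0, lab_succ]
    have hsub := isPreconnected_Ioo.subset_of_closure_inter_subset hUo hUne hUc
    exact fun t ht => (hsub ht).2
  -- the closed interval
  have hclosed : ∀ t ∈ Icc 0 L, 0 ≤ wedge (tau A) (F (w t)) ∧
      wedge (tau (A + π / k)) (F (w t)) ≤ 0 := by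
    intro t ht
    have htc : t ∈ closure (Ioo 0 L) := by
      rw [closure_Ioo hL.ne]
      exact ht
    have hne' : (𝓝[Ioo 0 L] t).NeBot := mem_closure_iff_nhdsWithin_neBot.1 htc
    constructor
    · have hc1 : ContinuousWithinAt (fun t => wedge (tau A) (F (w t))) (Ioo 0 L) t :=
        (hvc A t ht).continuousWithinAt
      refine ge_of_tendsto hc1 ?_
      filter_upwards [self_mem_nhdsWithin] with t' ht'
      exact (hopen t' ht').1.le
    · have hc1 : ContinuousWithinAt (fun t => wedge (tau (A + π / k)) (F (w t))) (Ioo 0 L) t :=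
        (hvc (A + π / k) t ht).continuousWithinAt
      refine le_of_tendsto hc1 ?_
      filter_upwards [self_mem_nhdsWithin] with t' ht'
      exact (hopen t' ht').2.le
  have hdir : ∀ t ∈ Icc 0 L, ∃ θ ∈ Icc A (A + π / k), w t ∈ Gam F θ := by
    intro t ht
    obtain ⟨h1, h2⟩ := hclosed t ht
    obtain ⟨r, θ, hr, hθ, huθ, _⟩ := sector hh0 hh1 (hne t ht) h1 h2
    exact ⟨θ, hθ, r, hr, huθ⟩
  refine ⟨hdir, ?_, ?_⟩
  · obtain ⟨θ, hθ, r, hr, hrθ⟩ := hdir L ⟨hL.le, le_rfl⟩
    obtain ⟨i, r', hr', hi⟩ := hwL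
    obtain ⟨l, hl⟩ := tau_inj hr hr' (hrθ.symm.trans hi)
    -- `θ = lab (i + 2 k l)`
    have h1 : θ = φ + ((i + 2 * k * l : ℤ) : ℝ) * (π / k) := by
      have e : θ = lab φ k i + 2 * π * l := by linarith
      rw [e]
      unfold lab
      push_cast
      field_simp
      ring
    have h2 : (m : ℝ) ≤ ((i + 2 * k * l : ℤ) : ℝ) := by
      have := hθ.1
      rw [h1, hA] at this
      unfold lab at this
      have h3 : (m : ℝ) * (π / k) ≤ ((i + 2 * k * l : ℤ) : ℝ) * (π / k) := by linarith
      exact le_of_mul_le_mul_right h3 hh0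
    have h3 : ((i + 2 * k * l : ℤ) : ℝ) ≤ (m : ℝ) + 1 := by
      have := hθ.2
      rw [h1, hA] at this
      unfold lab at this
      have h4 : ((i + 2 * k * l : ℤ) : ℝ) * (π / k) ≤ ((m : ℝ) + 1) * (π / k) := by linarith
      exact le_of_mul_le_mul_right h4 hh0
    have h4 : m ≤ i + 2 * k * l := by exact_mod_cast h2
    have h5 : i + 2 * k * l ≤ m + 1 := by exact_mod_cast h3
    rcases (by omega : i + 2 * k * l = m ∨ i + 2 * k * l = m + 1) with h6 | h6
    · left
      refine ⟨r, hr, ?_⟩
      rw [hrθ, h1, h6]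
      rfl
    · right
      refine ⟨r, hr, ?_⟩
      rw [hrθ, h1, h6, ← lab_succ]
      rfl
  · intro t₁ ht₁ t₂ ht₂ hlt
    have hD : ∀ B : ℝ, ∀ t ∈ Icc 0 L,
        HasDerivAt (fun t => wedge (tau (B + α)) (w t)) (wedge (tau B) (F (w t))) t := by
      intro B t ht
      have h1 := hw t ht
      have h2 : HasDerivAt (fun t => (w t).1) (rot α (F (w t))).1 t := h1.fst
      have h3 : HasDerivAt (fun t => (w t).2) (rot α (F (w t))).2 t := h1.snd
      rw [← wedge_rot_tau α B]
      exact (h3.const_mul _).sub (h2.const_mul _)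
    have hinc : wedge (tau (A + α)) (w t₁) < wedge (tau (A + α)) (w t₂) := by
      refine strictMonoOn_of_deriv_pos (convex_Icc 0 L)
        (fun t ht => ((hD A t ht).continuousAt).continuousWithinAt) ?_ ht₁ ht₂ hlt
      intro t ht
      rw [interior_Icc] at ht
      rw [(hD A t (Ioo_subset_Icc_self ht)).deriv]
      exact (hopen t ht).1
    have hdec : wedge (tau (A + π / k + α)) (w t₂) < wedge (tau (A + π / k + α)) (w t₁) := by
      refine strictAntiOn_of_deriv_neg (convex_Icc 0 L)
        (fun t ht => ((hD (A + π / k) t ht).continuousAt).continuousWithinAt) ?_ ht₁ ht₂ hlt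
      intro t ht
      rw [interior_Icc] at ht
      rw [(hD (A + π / k) t (Ioo_subset_Icc_self ht)).deriv]
      exact (hopen t ht).2
    have hsub : ∀ B : ℝ, wedge (tau B) (w t₂ - w t₁) =
        wedge (tau B) (w t₂) - wedge (tau B) (w t₁) := by
      intro B
      unfold wedge
      simp only [Prod.fst_sub, Prod.snd_sub]
      ring
    have h1 : 0 < wedge (tau (A + α)) (w t₂ - w t₁) := by
      rw [hsub]
      linarith
    have e1 : A + π / k + α = A + α + π / k := by ring
    have h2 : wedge (tau (A + α + π / k)) (w t₂ - w t₁) < 0 := by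
      rw [hsub, ← e1]
      linarith
    have h3 : w t₂ - w t₁ ≠ 0 := by
      intro h0
      rw [h0] at h1
      simp [wedge] at h1
    obtain ⟨r, θ, hr, hθ, hrθ, _⟩ := sector hh0 hh1 h3 h1.le h2.le
    refine ⟨r, θ, hr, ?_, hrθ⟩
    rw [e1]
    exact hθ

end Pool.Agent.N224.SF
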