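import Pool.Agent.N224.SF.D1
import Pool.Agent.N224.Hil.T
import Pool.Agent.N224.Hil.W

/-! Project SF, part CHAIN: from a family of triples to configurations which overlap at most
twice. -/

set_option autoImplicit false

open Real Set MeasureTheory Topology Filter
open scoped ENNReal

namespace Pool.Agent.N224.SF.CHAIN

/-! ### Combinatorics -/

section Comb

open Finset

variable {α : Type*} {N : ℕ}

/-- the abstract statement -/
theorem comb (Z : Finset α) (P Q R : Fin N → Set α)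
    (hL : ∀ A : Finset (Finset α), (∀ a ∈ A, a.Nonempty ∧ a ⊆ Z) →
      (∀ a ∈ A, ∀ b ∈ A, a ⊆ b ∨ b ⊆ a ∨ Disjoint a b) → A.card ≤ 2 * Z.card)
    (hQR : ∀ i, Q i ⊆ R i) (hRP : ∀ i, R i ⊆ P i) (hne : ∀ i, ¬ P i ⊆ Q i)
    (h3 : ∀ i l, i ≠ l → P i ⊆ Q l ∨ P l ⊆ Q i ∨ Disjoint (P i) (P l))
    (hz : ∀ i, ∃ z ∈ Z, z ∈ Q i) (hz' : ∀ i, ∀ z ∈ Z, z ∈ P i → z ∈ Q i) :
    ∃ (S : Finset (Fin N)) (nx : Fin N → Fin N), N ≤ S.card + 2 * Z.card ∧
      (∀ i ∈ S, P (nx i) ⊆ Q i ∧ ∀ z ∈ Z, z ∈ P i → z ∈ Q (nx i)) ∧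
      ∀ (z : α) (S' : Finset (Fin N)), S' ⊆ S → (∀ i ∈ S', z ∈ P i \ R (nx i)) → S'.card ≤ 2 := by
  classical
  have hQP : ∀ i, Q i ⊆ P i := fun i => (hQR i).trans (hRP i)
  have htr : ∀ i j l, P i ⊆ Q j → P j ⊆ Q l → P i ⊆ Q l := fun i j l h1 h2 =>
    h1.trans ((hQP j).trans h2)
  set Y : Fin N → Finset α := fun i => Z.filter (fun z => z ∈ Q i) with hY
  have hYm : ∀ i z, z ∈ Y i ↔ z ∈ Z ∧ z ∈ Q i := fun i z => by rw [hY, mem_filter]
  have hYP : ∀ i z, z ∈ Y i ↔ z ∈ Z ∧ z ∈ P i := fun i z =>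
    (hYm i z).trans ⟨fun h => ⟨h.1, hQP i h.2⟩, fun h => ⟨h.1, hz' i z h.1 h.2⟩⟩
  have hYn : ∀ i, (Y i).Nonempty := fun i => by
    obtain ⟨z, h1, h2⟩ := hz i
    exact ⟨z, (hYm i z).2 ⟨h1, h2⟩⟩
  have hYs : ∀ i j, P i ⊆ Q j → Y i ⊆ Y j := fun i j h z hz =>
    (hYm j z).2 ⟨((hYP i z).1 hz).1, h ((hYP i z).1 hz).2⟩
  have hYd : ∀ i j, Disjoint (P i) (P j) → Disjoint (Y i) (Y j) := fun i j h =>
    Finset.disjoint_left.2 fun z h1 h2 =>
      Set.disjoint_left.1 h ((hYP i z).1 h1).2 ((hYP j z).1 h2).2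
  -- the rank
  set r : Fin N → ℕ := fun i => (univ.filter fun j => P j ⊆ Q i).card with hr
  have hrl : ∀ i j, P i ⊆ Q j → r i < r j := by
    intro i j h
    refine card_lt_card ?_
    rw [Finset.ssubset_iff_of_subset (fun l hl => mem_filter.2 ⟨mem_univ _,
      htr l i j (mem_filter.1 hl).2 h⟩)]
    exact ⟨i, mem_filter.2 ⟨mem_univ _, h⟩, fun h' => hne i (mem_filter.1 h').2⟩
  set S : Finset (Fin N) := univ.filter fun i => ∃ l, Y l = Y i ∧ P l ⊆ Q i with hS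
  have hnx : ∀ i, ∃ l, i ∈ S → (Y l = Y i ∧ P l ⊆ Q i) ∧
      ∀ m, Y m = Y i → P m ⊆ Q i → ¬ P l ⊆ Q m := by
    intro i
    by_cases hi : i ∈ S
    · obtain ⟨l₀, h1, h2⟩ := (mem_filter.1 hi).2
      obtain ⟨l, hl, hmax⟩ := exists_max_image (univ.filter fun l => Y l = Y i ∧ P l ⊆ Q i) r
        ⟨l₀, mem_filter.2 ⟨mem_univ _, h1, h2⟩⟩
      refine ⟨l, fun _ => ⟨(mem_filter.1 hl).2, fun m h3 h4 h5 => ?_⟩⟩
      have := hmax m (mem_filter.2 ⟨mem_univ _, h3, h4⟩)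
      have := hrl l m h5
      omega
    · exact ⟨i, fun h => absurd h hi⟩
  choose nx hnx using hnx
  refine ⟨S, nx, ?_, ?_, ?_⟩
  · -- counting
    have h1 : Sᶜ.card ≤ (Finset.image Y Finset.univ).card := by
      refine card_le_card_of_injOn Y (fun i _ => mem_coe.2 (mem_image_of_mem _ (mem_univ i))) ?_
      intro i hi j hj hij
      by_contra hne'
      have hi' := mem_compl.1 (mem_coe.1 hi)
      have hj' := mem_compl.1 (mem_coe.1 hj)
      rcases h3 i j hne' with h | h | h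
      · exact hj' (mem_filter.2 ⟨mem_univ _, i, hij, h⟩)
      · exact hi' (mem_filter.2 ⟨mem_univ _, j, hij.symm, h⟩)
      · have h4 := hYd i j h
        rw [hij] at h4
        exact (hYn j).ne_empty (disjoint_self.1 h4)
    have h2 : (Finset.image Y Finset.univ).card ≤ 2 * Z.card := by
      refine hL _ ?_ ?_
      · intro a ha
        obtain ⟨i, -, rfl⟩ := mem_image.1 ha
        exact ⟨hYn i, filter_subset _ _⟩
      · intro a ha b hb
        obtain ⟨i, -, rfl⟩ := mem_image.1 ha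
        obtain ⟨j, -, rfl⟩ := mem_image.1 hb
        by_cases hij : i = j
        · subst hij
          exact Or.inl (Finset.Subset.refl _)
        · rcases h3 i j hij with h | h | h
          · exact Or.inl (hYs i j h)
          · exact Or.inr (Or.inl (hYs j i h))
          · exact Or.inr (Or.inr (hYd i j h))
    have h3' : S.card + Sᶜ.card = N := by
      rw [card_add_card_compl, Fintype.card_fin]
    omega
  · intro i hi
    obtain ⟨⟨h1, h2⟩, -⟩ := hnx i hi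
    refine ⟨h2, fun z hzZ hzP => ?_⟩
    have h4 : z ∈ Y i := (hYP i z).2 ⟨hzZ, hzP⟩
    rw [← h1] at h4
    exact ((hYm _ z).1 h4).2
  · intro z S' hS' hzS
    -- no chain of three
    have hchain : ∀ i₁ ∈ S', ∀ i₂ ∈ S', ∀ i₃ ∈ S', P i₁ ⊆ Q i₂ → P i₂ ⊆ Q i₃ → False := by
      intro i₁ hi₁ i₂ hi₂ i₃ hi₃ h12 h23
      obtain ⟨⟨h1, h2⟩, h4⟩ := hnx i₃ (hS' hi₃)
      have hz1 : z ∈ P i₁ := (hzS i₁ hi₁).1
      have hz3 : z ∉ R (nx i₃) := (hzS i₃ hi₃).2
      have hz2 : z ∈ Q i₂ := h12 hz1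
      by_cases hc : i₂ = nx i₃
      · exact hz3 (hc ▸ hQR i₂ hz2)
      · rcases h3 i₂ (nx i₃) hc with h | h | h
        · exact hz3 (hQR _ (h (hQP _ hz2)))
        · have h5 : Y i₂ = Y i₃ := by
            refine Finset.Subset.antisymm (hYs _ _ h23) ?_
            rw [← h1]
            exact hYs _ _ h
          exact h4 i₂ h5 h23 h
        · have h5 := hYs _ _ h23
          rw [← h1] at h5
          obtain ⟨y, hy⟩ := hYn i₂
          exact Finset.disjoint_left.1 (hYd _ _ h) hy (h5 hy)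
    have hnest : ∀ i ∈ S', ∀ j ∈ S', i ≠ j → P i ⊆ Q j ∨ P j ⊆ Q i := by
      intro i hi j hj hij
      rcases h3 i j hij with h | h | h
      · exact Or.inl h
      · exact Or.inr h
      · exact absurd (hzS j hj).1 (Set.disjoint_left.1 h (hzS i hi).1)
    by_contra hcard
    push Not at hcard
    obtain ⟨a, b, c, ha, hb, hc, hab, hac, hbc⟩ := Finset.two_lt_card_iff.1 hcard
    rcases hnest a ha b hb hab with h1 | h1
    · rcases hnest b hb c hc hbc with h2 | h2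
      · exact hchain a ha b hb c hc h1 h2
      · rcases hnest a ha c hc hac with h4 | h4
        · exact hchain a ha c hc b hb h4 h2
        · exact hchain c hc a ha b hb h4 h1
    · rcases hnest b hb c hc hbc with h2 | h2
      · rcases hnest a ha c hc hac with h4 | h4
        · exact hchain b hb a ha c hc h1 h4
        · exact hchain b hb c hc a ha h2 h4
      · exact hchain c hc b hb a ha h2 h1

end Comb

/-! ### Geometry -/

section Geo

open Pool.Agent.H709R2 (rot wedge field continuous_rot)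
open Pool.Agent.H709U (rf Orb)
open Pool.Agent.N224.Hil (Loop wn ins fill tt t0 w1 w2 w3)

variable {F : ℝ × ℝ → ℝ × ℝ}

theorem ok_loop (hF : Continuous F) {O : Cyc} (h : O.Ok F) : Loop O.γ (O.V F) O.T where
  pos := h.orb.pos
  der := h.orb.ode
  cont := by
    have h1 : Continuous O.γ :=
      continuous_iff_continuousAt.2 fun t => (h.orb.ode t).continuousAt
    exact (continuous_rot O.ang).comp (hF.comp h1)
  per := h.orb.per

theorem rg_fl (O : Cyc) : O.rg ⊆ O.fl F := fun _ h => Or.inl h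

theorem inn_fl (O : Cyc) : O.inn F ⊆ O.fl F := fun _ h => Or.inr h

theorem rg_inn (O : Cyc) {z : ℝ × ℝ} (h : z ∈ O.rg) (h' : z ∈ O.inn F) : False := h'.1 h

theorem rg_ne (O : Cyc) : ∃ z, z ∈ O.rg := ⟨O.γ 0, 0, rfl⟩

theorem cyc_tt (hF : Continuous F) {O K : Cyc} (hO : O.Ok F) (hK : K.Ok F)
    (hd : Disjoint O.rg K.rg) : O.fl F ⊆ K.inn F ∨ K.fl F ⊆ O.inn F ∨
      Disjoint (O.fl F) (K.fl F) :=
  tt w1 w2 w3 (t0 w1 w2 w3) _ _ _ _ _ _ (ok_loop hF hO) (ok_loop hF hK) hd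

variable {a b c : ℝ}

theorem KO {O M K : Cyc} (h : Std F a b c O M K) : K.fl F ⊆ O.inn F :=
  h.KM.trans ((inn_fl M).trans h.MO)

theorem half (hF : Continuous F) {O M K O' M' K' : Cyc} (h : Std F a b c O M K)
    (h' : Std F a b c O' M' K') (hd : Disjoint (O.fl F \ K.inn F) (O'.fl F \ K'.inn F))
    (hs : O.fl F ⊆ O'.inn F) : O.fl F ⊆ K'.inn F := by
  have hd' := Set.disjoint_left.1 hd
  have hOr : ∀ z ∈ O.rg, z ∈ O.fl F \ K.inn F := fun z hz =>
    ⟨rg_fl O hz, fun hz' => rg_inn O hz (KO h (inn_fl K hz'))⟩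
  have hKr : ∀ z ∈ K.rg, z ∈ O.fl F \ K.inn F := fun z hz =>
    ⟨inn_fl O (KO h (rg_fl K hz)), fun hz' => rg_inn K hz hz'⟩
  have hKr' : ∀ z ∈ K'.rg, z ∈ O'.fl F \ K'.inn F := fun z hz =>
    ⟨inn_fl O' (KO h' (rg_fl K' hz)), fun hz' => rg_inn K' hz hz'⟩
  have h1 : ∀ z ∈ O.rg, z ∈ K'.inn F := by
    intro z hz
    by_contra hz'
    exact hd' (hOr z hz) ⟨inn_fl O' (hs (rg_fl O hz)), hz'⟩
  have hdOK : Disjoint O.rg K'.rg := Set.disjoint_left.2 fun z hz hz' =>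
    hd' (hOr z hz) (hKr' z hz')
  have hdKK : Disjoint K.rg K'.rg := Set.disjoint_left.2 fun z hz hz' =>
    hd' (hKr z hz) (hKr' z hz')
  rcases cyc_tt hF h.oO h'.oK hdOK with h2 | h2 | h2
  · exact h2
  · exfalso
    have h3 : ∀ z ∈ K'.rg, z ∈ K.inn F := by
      intro z hz
      by_contra hz'
      exact hd' ⟨inn_fl O (h2 (rg_fl K' hz)), hz'⟩ (hKr' z hz)
    obtain ⟨z, hz⟩ := rg_ne K'
    rcases cyc_tt hF h.oK h'.oK hdKK with h4 | h4 | h4
    · exact rg_inn K' hz (h4 (inn_fl K (h3 z hz)))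
    · obtain ⟨y, hy⟩ := rg_ne O
      exact rg_inn O hy (KO h (inn_fl K (h4 (inn_fl K' (h1 y hy)))))
    · exact Set.disjoint_left.1 h4 (inn_fl K (h3 z hz)) (rg_fl K' hz)
  · exfalso
    obtain ⟨y, hy⟩ := rg_ne O
    exact Set.disjoint_left.1 h2 (rg_fl O hy) (inn_fl K' (h1 y hy))

theorem tri (hF : Continuous F) {O M K O' M' K' : Cyc} (h : Std F a b c O M K)
    (h' : Std F a b c O' M' K') (hd : Disjoint (O.fl F \ K.inn F) (O'.fl F \ K'.inn F)) :
    O.fl F ⊆ K'.inn F ∨ O'.fl F ⊆ K.inn F ∨ Disjoint (O.fl F) (O'.fl F) := by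
  have hd' := Set.disjoint_left.1 hd
  have hOr : ∀ z ∈ O.rg, z ∈ O.fl F \ K.inn F := fun z hz =>
    ⟨rg_fl O hz, fun hz' => rg_inn O hz (KO h (inn_fl K hz'))⟩
  have hOr' : ∀ z ∈ O'.rg, z ∈ O'.fl F \ K'.inn F := fun z hz =>
    ⟨rg_fl O' hz, fun hz' => rg_inn O' hz (KO h' (inn_fl K' hz'))⟩
  have hdOO : Disjoint O.rg O'.rg := Set.disjoint_left.2 fun z hz hz' =>
    hd' (hOr z hz) (hOr' z hz')
  rcases cyc_tt hF h.oO h'.oO hdOO with h1 | h1 | h1
  · exact Or.inl (half hF h h' hd h1)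
  · exact Or.inr (Or.inl (half hF h' h hd.symm h1))
  · exact Or.inr (Or.inr h1)

end Geo

end Pool.Agent.N224.SF.CHAIN

namespace Pool.Agent.N224.SF

theorem chain (hZ : S_ZERO) (hL : S_LAM) : S_CHAIN := by
  intro F Z a b c N O M K hF hz hab hbc hca hstd hdis
  have hFc : Continuous F := hF.continuous
  obtain ⟨S, nx, h1, h2, h3⟩ := CHAIN.comb Z (fun i => (O i).fl F) (fun i => (K i).inn F)
    (fun i => (M i).inn F) (hL Z)
    (fun i => (CHAIN.inn_fl (K i)).trans (hstd i).KM)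
    (fun i => (CHAIN.inn_fl (M i)).trans ((hstd i).MO.trans (CHAIN.inn_fl (O i))))
    (fun i h => by
      obtain ⟨z, hz⟩ := CHAIN.rg_ne (O i)
      exact CHAIN.rg_inn (O i) hz (CHAIN.KO (hstd i) (CHAIN.inn_fl (K i) (h (CHAIN.rg_fl _ hz)))))
    (fun i l hil => CHAIN.tri hFc (hstd i) (hstd l) (hdis i l hil))
    (fun i => by
      obtain ⟨z, h1, h2⟩ := hZ F (K i) (hF.of_le (by norm_num)) (hstd i).oK.orb
      exact ⟨z, (hz z).1 h2, h1⟩)
    (fun i z hzZ hzP => by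
      by_contra hzQ
      exact (hstd i).ne z ⟨hzP, hzQ⟩ ((hz z).2 hzZ))
  refine ⟨S, nx, h1, fun i hi => ?_, h3⟩
  obtain ⟨h4, h5⟩ := h2 i hi
  have hs := hstd i
  have hs' := hstd (nx i)
  exact
    { smooth := hF
      oO := hs.oO
      oM := hs.oM
      oK := hs.oK
      oN := hs'.oM.orb
      aN := by rw [hs.aM, hs'.aM]
      ab := by rw [hs.aO, hs.aM]; exact hab
      bc := by rw [hs.aM, hs.aK]; exact hbc
      ca := by rw [hs.aO, hs.aK]; exact hca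
      MO := hs.MO
      KM := hs.KM
      NK := hs'.MO.trans ((CHAIN.inn_fl _).trans h4)
      ne := fun z hz1 hz2 => hz1.2
        (hs'.KM (CHAIN.inn_fl _ (h5 z ((hz z).1 hz2) hz1.1))) }

end Pool.Agent.N224.SF
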