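import Pool.Agent.N224.SF.D1

/-! Project SF (helper224): every good configuration contributes to the turning of the isoclines. -/

set_option autoImplicit false

open Real Set MeasureTheory Topology Filter

namespace Pool.Agent.N224.SF

namespace CORE

noncomputable section

open Pool.Agent.H709R2 (rot wedge field)
open Pool.Agent.H709U (rf Orb)
open Pool.Agent.N224.Hil (Loop wn ins fill)

lemma rot_smooth {F : ℝ × ℝ → ℝ × ℝ} {n : WithTop ℕ∞} (hF : ContDiff ℝ n F) (α : ℝ) :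
    ContDiff ℝ n (fun z => rot α (F z)) := by
  unfold rot
  fun_prop

lemma rot_zero_iff {α : ℝ} {v : ℝ × ℝ} (h : rot α v = 0) : v = 0 := by
  have h1 := congrArg Prod.fst h
  have h2 := congrArg Prod.snd h
  simp only [rot, Prod.fst_zero, Prod.snd_zero] at h1 h2
  have hs := Real.sin_sq_add_cos_sq α
  ext
  · simp only [Prod.fst_zero]
    linear_combination (Real.cos α) * h1 + (Real.sin α) * h2 - v.1 * hs
  · simp only [Prod.snd_zero]
    linear_combination (-Real.sin α) * h1 + (Real.cos α) * h2 - v.2 * hs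

lemma rot_zero' (α : ℝ) : rot α 0 = 0 := by
  unfold rot; ext <;> simp

/-- two solutions on `[0,L]` which agree at `t₁` agree before -/
lemma uniq_left {Y : ℝ × ℝ → ℝ × ℝ} (hY : ContDiff ℝ 1 Y) {w w' : ℝ → ℝ × ℝ} {L : ℝ}
    (h : ∀ t ∈ Icc 0 L, HasDerivAt w (Y (w t)) t) (h' : ∀ t ∈ Icc 0 L, HasDerivAt w' (Y (w' t)) t)
    {t₁ : ℝ} (ht₁ : t₁ ∈ Icc 0 L) (he : w t₁ = w' t₁) : EqOn w w' (Icc 0 t₁) := by
  have c : ContinuousOn w (Icc 0 L) := fun t ht => (h t ht).continuousAt.continuousWithinAt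
  have c' : ContinuousOn w' (Icc 0 L) := fun t ht => (h' t ht).continuousAt.continuousWithinAt
  have hb : Bornology.IsBounded (w '' Icc 0 L ∪ w' '' Icc 0 L) :=
    ((isCompact_Icc.image_of_continuousOn c).union
      (isCompact_Icc.image_of_continuousOn c')).isBounded
  obtain ⟨R, hR⟩ := hb.subset_closedBall 0
  obtain ⟨K, hK⟩ := (hY.contDiffOn (s := Metric.closedBall 0 R)).exists_lipschitzOnWith
    one_ne_zero (convex_closedBall 0 R) (isCompact_closedBall 0 R)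
  have hs : Icc 0 t₁ ⊆ Icc 0 L := Icc_subset_Icc_right ht₁.2
  exact ODE_solution_unique_of_mem_Icc_left (v := fun _ => Y) (s := fun _ => Metric.closedBall 0 R)
    (K := K) (fun _ _ => hK) (c.mono hs)
    (fun t ht => (h t (hs (Ioc_subset_Icc_self ht))).hasDerivWithinAt)
    (fun t ht => hR (Or.inl ⟨t, hs (Ioc_subset_Icc_self ht), rfl⟩)) (c'.mono hs)
    (fun t ht => (h' t (hs (Ioc_subset_Icc_self ht))).hasDerivWithinAt)
    (fun t ht => hR (Or.inr ⟨t, hs (Ioc_subset_Icc_self ht), rfl⟩)) he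

lemma sol_ne_zero {F : ℝ × ℝ → ℝ × ℝ} (hF : ContDiff ℝ 4 F) {α L : ℝ} {w : ℝ → ℝ × ℝ}
    (h : ∀ t ∈ Icc 0 L, HasDerivAt w (rot α (F (w t))) t) (h0 : F (w 0) ≠ 0) :
    ∀ t ∈ Icc 0 L, F (w t) ≠ 0 := by
  intro t ht hz
  have h1 : ContDiff ℝ 1 (fun z => rot α (F z)) := (rot_smooth hF α).of_le (by norm_num)
  have h2 := uniq_left (w := w) (w' := fun _ => w t) h1 h (fun s _ => by
    simp only [hz, rot_zero']
    exact hasDerivAt_const s _) ht rfl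
  have h3 := h2 (x := 0) ⟨le_rfl, ht.1⟩
  apply h0
  rw [h3, hz]

lemma gam_ne {F : ℝ × ℝ → ℝ × ℝ} {ψ : ℝ} {z : ℝ × ℝ} (h : z ∈ Gam F ψ) : F z ≠ 0 := by
  obtain ⟨r, hr, hF⟩ := h
  rw [hF]
  intro h0
  have h1 := congrArg Prod.fst h0
  have h2 := congrArg Prod.snd h0
  simp only [tau, Prod.smul_mk, smul_eq_mul, Prod.fst_zero, Prod.snd_zero] at h1 h2
  have hs := Real.sin_sq_add_cos_sq ψ
  have h3 : Real.cos ψ = 0 := by
    rcases mul_eq_zero.1 h1 with h | h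
    · exact absurd h hr.ne'
    · exact h
  have h4 : Real.sin ψ = 0 := by
    rcases mul_eq_zero.1 h2 with h | h
    · exact absurd h hr.ne'
    · exact h
  rw [h3, h4] at hs
  norm_num at hs

lemma gam_iso {F : ℝ × ℝ → ℝ × ℝ} {ψ : ℝ} {z : ℝ × ℝ} (h : z ∈ Gam F ψ) : iso F ψ z = 0 := by
  obtain ⟨r, hr, hF⟩ := h
  unfold iso
  rw [hF]
  simp only [wedge, tau, Prod.smul_mk, smul_eq_mul]
  ring

lemma sq_smul_tau (r a : ℝ) : H709R2.sq (r • tau a) = r ^ 2 := by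
  simp only [H709R2.sq, tau, Prod.smul_mk, smul_eq_mul]
  linear_combination r ^ 2 * Real.sin_sq_add_cos_sq a

/-- two isoclines with a common point have the same angle modulo `2 π` -/
lemma gam_angle {F : ℝ × ℝ → ℝ × ℝ} {ψ ψ' : ℝ} {z : ℝ × ℝ} (h : z ∈ Gam F ψ) (h' : z ∈ Gam F ψ') :
    ∃ l : ℤ, ψ' = ψ + 2 * π * l := by
  obtain ⟨r, hr, hF⟩ := h
  obtain ⟨r', hr', hF'⟩ := h'
  have he : r • tau ψ = r' • tau ψ' := by rw [← hF, hF']
  have h1 : r ^ 2 = r' ^ 2 := by rw [← sq_smul_tau r ψ, he, sq_smul_tau]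
  have h2 : r = r' := by
    have h3 := sq_eq_sq₀ hr.le hr'.le
    exact h3.1 h1
  subst h2
  have h3 : tau ψ = tau ψ' := smul_right_injective _ hr.ne' he
  simp only [tau, Prod.mk.injEq] at h3
  obtain ⟨hc, hs⟩ := h3
  have h4 : Real.cos (ψ' - ψ) = 1 := by
    rw [Real.cos_sub, hc, hs]
    linear_combination Real.sin_sq_add_cos_sq ψ'
  obtain ⟨l, hl⟩ := (Real.cos_eq_one_iff _).1 h4
  exact ⟨l, by linear_combination -hl⟩

end

end CORE

open CORE in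
open Pool.Agent.H709R2 (rot wedge) in
theorem core (h1 : S_GOOD) (h2 : S_STRAND) (h3 : S_DISJ) (h4 : S_ADJ) (h5 : S_CYC) (h6 : S_CELL)
    (h7 : S_LEN) (h8 : S_TURN) (h9 : S_SUM) : S_CORE := by
  classical
  intro F O M K N φ k ρ hρ hρ1 hk hkρ hab hbc hC hNC
  have hk1 : 1 ≤ k := le_trans (by norm_num) hk
  have hG : Gd F φ k O M K N := h1 F O M K N φ k hk1 hC hNC
  have hkR : (0:ℝ) < k := by exact_mod_cast (lt_of_lt_of_le (by norm_num) hk : 0 < k)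
  set h : ℝ := π / k with hh
  have hh0 : 0 < h := div_pos Real.pi_pos hkR
  obtain ⟨m, x, hm, hper, hmem, hinj, hnx⟩ := h5 F O M K N φ k hk1 hG
  have hF := hC.smooth
  -- a strand for every point
  have hst : ∀ p : ℝ × ℝ, ∃ (j : ℤ) (s : ℝ) (σ : ℝ → ℝ × ℝ) (L₁ L₂ δ u v : ℝ),
      p ∈ M.rg ∧ p ∈ Grid F φ k → Strand F O M K N (lab φ k j) s σ L₁ L₂ δ ∧ σ 0 = p ∧
        u ∈ Icc (lab φ k j + K.ang) (lab φ k j + O.ang + π) ∧
        v ∈ Icc (lab φ k j + K.ang) (lab φ k j + O.ang + π) ∧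
        (∃ r : ℝ, 0 < r ∧ σ L₁ - σ 0 = r • tau u) ∧ (∃ r : ℝ, 0 < r ∧ σ L₂ - σ L₁ = r • tau v) ∧
        ∀ ω ∈ Ioo (min u v) (max u v), ∃ t ∈ Ioo 0 L₂, kd F (lab φ k j) ω (σ t) = 0 := by
    intro p
    by_cases hp : p ∈ M.rg ∧ p ∈ Grid F φ k
    · obtain ⟨hp1, j, hj⟩ := hp
      obtain ⟨s, σ, L₁, L₂, δ, hS, hs0⟩ := h2 F O M K N φ k hG j p hp1 hj
      obtain ⟨u, v, hu, hv, hu', hv', ht⟩ := h8 F O M K N (lab φ k j) s σ L₁ L₂ δ hF
        (hC.ab.trans hC.bc) hC.ca hS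
      exact ⟨j, s, σ, L₁, L₂, δ, u, v, fun _ => ⟨hS, hs0, hu, hv, hu', hv', ht⟩⟩
    · exact ⟨0, 0, 0, 0, 0, 0, 0, 0, fun h => absurd h hp⟩
  choose j s σ L₁ L₂ δ u v hst using hst
  -- the cell index
  set mm : ℝ × ℝ → ℤ := fun p => if s p = 1 then j p else j p - 1 with hmm
  set e : ℕ → ℝ × ℝ := fun i => σ (x i) (L₁ (x i)) with he
  set n : ℕ → ℝ × ℝ := fun i => σ (x i) (L₂ (x i)) with hn
  have hS : ∀ i, Strand F O M K N (lab φ k (j (x i))) (s (x i)) (σ (x i)) (L₁ (x i)) (L₂ (x i))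
      (δ (x i)) := fun i => (hst (x i) (hmem i)).1
  have hσ0 : ∀ i, σ (x i) 0 = x i := fun i => (hst (x i) (hmem i)).2.1
  have hm1 : ∀ i, s (x i) = 1 → mm (x i) = j (x i) := fun i hs => by simp [hmm, hs]
  have hm2 : ∀ i, s (x i) = -1 → mm (x i) = j (x i) - 1 := fun i hs => by
    have : s (x i) ≠ 1 := by rw [hs]; norm_num
    simp [hmm, this]
  have hadj := fun i => h4 F O M K N φ k hk hG _ _ _ _ _ _ _ _ _ _ _ _ (hS i) (hS (i + 1))
    (by rw [hσ0, hσ0]; exact hnx i)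
  have haK : K.ang ∈ Icc O.ang K.ang := ⟨(hC.ab.trans hC.bc).le, le_rfl⟩
  have haM : M.ang ∈ Icc O.ang K.ang := ⟨hC.ab.le, hC.bc.le⟩
  have haN : N.ang ∈ Icc O.ang K.ang := by rw [hC.aN]; exact haM
  -- the pieces
  have piece : ∀ (i : ℕ) (α : ℝ) (t : ℝ), α ∈ Icc O.ang K.ang → t ∈ Icc 0 (L₂ (x i)) →
      ∀ y, Nx F φ k 1 α (σ (x i) t) y → ∃ (w : ℝ → ℝ × ℝ) (L : ℝ), 0 < L ∧ w 0 = σ (x i) t ∧
        w L = y ∧ (∀ t ∈ Icc 0 L, HasDerivAt w (rot α (F (w t))) t) ∧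
        (y ∈ Gam F (lab φ k (mm (x i))) ∨ y ∈ Gam F (lab φ k (mm (x i) + 1))) ∧
        ∀ t₁ ∈ Icc 0 L, ∀ t₂ ∈ Icc 0 L, t₁ < t₂ → ∃ r θ : ℝ, 0 < r ∧
          θ ∈ Icc (lab φ k (mm (x i)) + α) (lab φ k (mm (x i) + 1) + α) ∧
          w t₂ - w t₁ = r • tau θ := by
    intro i α t hα ht y hy
    obtain ⟨w, L, hL, hw0, hwL, hder, hg0, hgL, hgt⟩ := hy
    simp only [one_smul] at hder
    have htt : t ∈ Ioo (-(δ (x i))) (L₂ (x i) + δ (x i)) :=
      ⟨by linarith [(hS i).δ0, ht.1], by linarith [(hS i).δ0, ht.2]⟩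
    have hg := (hS i).gam t htt
    have hpos := (hS i).pos t ht α hα
    have hne : ∀ t ∈ Icc 0 L, F (w t) ≠ 0 := by
      apply sol_ne_zero hF hder
      rw [hw0]
      exact gam_ne hg
    have hc := h6 F hF φ k α (j (x i)) (s (x i)) w L hk (hS i).s1 hL hder hne
      (by rw [hw0]; exact hg) (by rw [hw0]; exact hpos) hgt (by rw [hwL]; exact hgL)
      (mm (x i)) (hm1 i) (hm2 i)
    refine ⟨w, L, hL, hw0, hwL, hder, ?_, hc.2.2⟩
    rw [← hwL]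
    exact hc.2.1
  have m0 : ∀ i, (0:ℝ) ∈ Icc 0 (L₂ (x i)) := fun i =>
    ⟨le_rfl, ((hS i).L0.trans (hS i).L12).le⟩
  have mL1 : ∀ i, L₁ (x i) ∈ Icc 0 (L₂ (x i)) := fun i => ⟨(hS i).L0.le, (hS i).L12.le⟩
  have mL2 : ∀ i, L₂ (x i) ∈ Icc 0 (L₂ (x i)) := fun i =>
    ⟨((hS i).L0.trans (hS i).L12).le, le_rfl⟩
  have pM := fun i => piece i M.ang 0 haM (m0 i) (x (i + 1)) (by rw [hσ0]; exact hnx i)
  have pK := fun i => piece i K.ang (L₁ (x i)) haK (mL1 i) (e (i + 1)) (hadj i).1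
  have pN := fun i => piece i N.ang (L₂ (x i)) haN (mL2 i) (n (i + 1)) (hadj i).2
  set ψ : ℕ → ℝ := fun i => lab φ k (j (x i)) with hψ
  set β : ℕ → ℝ := fun i => lab φ k (mm (x i)) + M.ang with hβ
  have hlab : ∀ i : ℤ, lab φ k (i + 1) = lab φ k i + h := fun i => by
    simp only [lab]; push_cast; ring
  have hlab' : ∀ i : ℤ, lab φ k (i - 1) = lab φ k i - h := fun i => by
    simp only [lab]; push_cast; ring
  -- the bound of the chords by the pieces of `K`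
  obtain ⟨i₀, hi₀, hmax⟩ := Finset.exists_max_image (Finset.range m)
    (fun i => √(H709R2.sq (n i - e i))) ⟨0, Finset.mem_range.2 hm⟩
  set D : ℝ := √(H709R2.sq (n i₀ - e i₀)) with hD
  have hD0 : 0 < D := by
    obtain ⟨r, hr, hrv⟩ := (hst (x i₀) (hmem i₀)).2.2.2.2.2.1
    rw [hD]
    apply Real.sqrt_pos.2
    show 0 < H709R2.sq (σ (x i₀) (L₂ (x i₀)) - σ (x i₀) (L₁ (x i₀)))
    rw [hrv, sq_smul_tau]
    positivity
  have hperall : ∀ i, x (i + m) = x i ∧ e (i + m) = e i ∧ n (i + m) = n i ∧ ψ (i + m) = ψ i ∧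
      β (i + m) = β i ∧ u (x (i + m)) = u (x i) ∧ v (x (i + m)) = v (x i) := by
    intro i
    simp only [he, hn, hψ, hβ, hper i, and_self]
  have hmod : ∀ i, x i = x (i % m) := by
    intro i
    have hp : Function.Periodic x m := hper
    exact (hp.map_mod_nat i).symm
  have hDall : ∀ i, √(H709R2.sq (n i - e i)) ≤ D := by
    intro i
    have h10 := hmax (i % m) (Finset.mem_range.2 (Nat.mod_lt i hm))
    have h11 : √(H709R2.sq (n i - e i)) = √(H709R2.sq (n (i % m) - e (i % m))) := by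
      simp only [he, hn]
      rw [← hmod i]
    rw [h11]
    exact h10
  have hsum := h9 m ρ h O.ang M.ang K.ang D x e n ψ β (fun i => u (x i)) (fun i => v (x i)) hm hρ hρ1
    hh0 hkρ hab hbc hC.ca hD0 hperall ?_ ?_ ?_ ?_ ?_ ?_ ?_ ?_ hDall ?_
  · -- the conclusion
    have hch : ∀ (i : Fin m) (ω : ℝ), ∃ t : ℝ, ω ∈ Ioo (min (u (x i)) (v (x i)))
        (max (u (x i)) (v (x i))) → t ∈ Ioo 0 (L₂ (x i)) ∧
        kd F (lab φ k (j (x i))) ω (σ (x i) t) = 0 := by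
      intro i ω
      by_cases hω : ω ∈ Ioo (min (u (x i)) (v (x i))) (max (u (x i)) (v (x i)))
      · obtain ⟨t, ht, ht'⟩ := (hst (x i) (hmem i)).2.2.2.2.2.2 ω hω
        exact ⟨t, fun _ => ⟨ht, ht'⟩⟩
      · exact ⟨0, fun h => absurd h hω⟩
    choose tt htt using hch
    have inO : ∀ (i : ℕ) (t : ℝ), t ∈ Ioo 0 (L₂ (x i)) → σ (x i) t ∈ O.fl F \ N.inn F := by
      intro i t ht
      have hNN : N.inn F ⊆ N.fl F := subset_union_right
      have hKK : K.inn F ⊆ K.fl F := subset_union_right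
      have hMM : M.inn F ⊆ M.fl F := subset_union_right
      have hOO : O.inn F ⊆ O.fl F := subset_union_right
      have hrgK : K.rg ⊆ K.fl F := subset_union_left
      have hdisK : ∀ z ∈ K.rg, z ∉ K.inn F := fun z hz hz' => hz'.1 hz
      rcases lt_trichotomy t (L₁ (x i)) with hlt | heq | hgt
      · obtain ⟨ha, hb⟩ := (hS i).mid₁ t ⟨ht.1, hlt⟩
        exact ⟨hOO (hC.MO (hMM ha)), fun hc => hb (hKK (hC.NK (hNN hc)))⟩
      · rw [heq]
        have hz := (hS i).atK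
        exact ⟨hOO (hC.MO (hMM (hC.KM (hrgK hz)))), fun hc => hdisK _ hz (hC.NK (hNN hc))⟩
      · obtain ⟨ha, hb⟩ := (hS i).mid₂ t ⟨hgt, ht.2⟩
        exact ⟨hOO (hC.MO (hMM (hC.KM (hKK ha)))), fun hc => hb (hNN hc)⟩
    refine ⟨m, fun i => min (u (x i)) (v (x i)), fun i => max (u (x i)) (v (x i)),
      fun i => j (x i), fun i ω => σ (x i) (tt i ω), ?_, ?_, ?_, ?_⟩
    · intro i
      refine ⟨min_le_max, ?_⟩
      have hu := (hst (x i) (hmem i)).2.2.1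
      have hv := (hst (x i) (hmem i)).2.2.2.1
      have hac := hC.ab.trans hC.bc
      rw [max_sub_min_eq_abs]
      rw [abs_lt]
      constructor <;> linarith [hu.1, hu.2, hv.1, hv.2]
    · intro i ω hω
      obtain ⟨ht, hk0⟩ := htt i ω hω
      have hz := inO i _ ht
      have hg := (hS i).gam (tt i ω) ⟨by linarith [(hS i).δ0, ht.1], by linarith [(hS i).δ0, ht.2]⟩
      exact ⟨hz, gam_ne hg, gam_iso hg, hk0⟩
    · intro i i' hii ω hω ω' hω' heq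
      obtain ⟨ht, -⟩ := htt i ω hω
      obtain ⟨ht', -⟩ := htt i' ω' hω'
      have h10 := h3 F O M K N φ k hG _ _ _ _ _ _ _ _ _ _ _ _ (hS i) (hS i') (tt i ω)
        (Ioo_subset_Icc_self ht) (tt i' ω') (Ioo_subset_Icc_self ht') heq
      rw [hσ0, hσ0] at h10
      exact hii (Fin.ext (hinj i i.2 i' i'.2 h10))
    · rw [Fin.sum_univ_eq_sum_range (fun i => max (u (x i)) (v (x i)) - min (u (x i)) (v (x i))) m]
      refine hsum.trans (le_of_eq ?_)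
      refine Finset.sum_congr rfl fun i _ => ?_
      rw [max_sub_min_eq_abs, abs_sub_comm]
  · intro i
    rcases (hS i).s1 with hs | hs
    · left
      simp only [hβ, hψ, hm1 i hs]
    · right
      simp only [hβ, hψ, hm2 i hs, hlab']
      ring
  · intro i
    obtain ⟨w, L, -, -, -, -, hg, -⟩ := pM i
    have hg' : x (i + 1) ∈ Gam F (ψ (i + 1)) := by
      have := (hS (i + 1)).gam 0 ⟨by linarith [(hS (i + 1)).δ0],
        by linarith [(hS (i + 1)).δ0, (hS (i + 1)).L0, (hS (i + 1)).L12]⟩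
      rwa [hσ0] at this
    rcases hg with hg | hg
    · obtain ⟨l, hl⟩ := gam_angle hg hg'
      exact ⟨l, Or.inl (by rw [hl]; simp only [hβ]; ring)⟩
    · obtain ⟨l, hl⟩ := gam_angle hg hg'
      exact ⟨l, Or.inr (by rw [hl, hlab]; simp only [hβ]; ring)⟩
  · intro i
    exact ⟨(hst (x i) (hmem i)).2.2.1, (hst (x i) (hmem i)).2.2.2.1⟩
  · intro i
    have := (hst (x i) (hmem i)).2.2.2.2.1
    rwa [hσ0] at this
  · intro i
    exact (hst (x i) (hmem i)).2.2.2.2.2.1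
  · intro i
    obtain ⟨w, L, hL, hw0, hwL, -, -, hd⟩ := pM i
    obtain ⟨r, θ, hr, hθ, hd⟩ := hd 0 ⟨le_rfl, hL.le⟩ L ⟨hL.le, le_rfl⟩ hL
    refine ⟨r, θ, hr, ?_, ?_⟩
    · simp only [hβ]
      refine ⟨hθ.1, hθ.2.trans (le_of_eq ?_)⟩
      rw [hlab]; ring
    · rw [← hd, hw0, hwL, hσ0]
  · intro i
    obtain ⟨w, L, hL, hw0, hwL, -, -, hd⟩ := pK i
    obtain ⟨r, θ, hr, hθ, hd⟩ := hd 0 ⟨le_rfl, hL.le⟩ L ⟨hL.le, le_rfl⟩ hL
    refine ⟨r, θ, hr, ?_, ?_⟩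
    · simp only [hβ]
      refine ⟨le_trans (le_of_eq ?_) hθ.1, hθ.2.trans (le_of_eq ?_)⟩
      · ring
      · rw [hlab]; ring
    · rw [← hd, hw0, hwL]
  · intro i
    obtain ⟨w, L, hL, hw0, hwL, -, -, hd⟩ := pN i
    obtain ⟨r, θ, hr, hθ, hd⟩ := hd 0 ⟨le_rfl, hL.le⟩ L ⟨hL.le, le_rfl⟩ hL
    refine ⟨r, θ, hr, ?_, ?_⟩
    · simp only [hβ]
      rw [hC.aN] at hθ
      refine ⟨hθ.1, hθ.2.trans (le_of_eq ?_)⟩
      rw [hlab]; ring
    · rw [← hd, hw0, hwL]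
  · have hpi := Real.pi_gt_three
    have hlen := h7 F K (K.ang - M.ang) h m e β hF hC.oK (by linarith) hh0
      (by linarith [hC.ca]) hm (fun i => (hperall i).2.1) (hS 0).atK (fun i => ?_)
    · refine hlen (n i₀) ?_ (e i₀) (hS i₀).atK
      exact subset_union_right (hC.NK (subset_union_left (hS i₀).atN))
    · obtain ⟨w, L, hL, hw0, hwL, hder, -, hd⟩ := pK i
      refine ⟨w, L, hL, hw0, hwL, hder, fun t₁ ht₁ t₂ ht₂ hlt => ?_⟩
      obtain ⟨r, θ, hr, hθ, hd⟩ := hd t₁ ht₁ t₂ ht₂ hlt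
      refine ⟨r, θ, hr, ?_, hd⟩
      simp only [hβ]
      refine ⟨le_trans (le_of_eq ?_) hθ.1, hθ.2.trans (le_of_eq ?_)⟩
      · ring
      · rw [hlab]; ring

end Pool.Agent.N224.SF
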