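import Pool.Agent.N224.SF.D3
import Pool.Agent.N224.SF.CORE

/-! Project SF (helper224): every good configuration contributes to the turning of the isoclines,
measured by the cotangent. -/

set_option autoImplicit false

open Real Set MeasureTheory Topology Filter

namespace Pool.Agent.N224.SF

namespace CORE2

lemma ct_anti {x y : ℝ} (hx : x ∈ Ioo 0 π) (hy : y ∈ Ioo 0 π) (h : x ≤ y) : ct y ≤ ct x := by
  have h1 := Real.sin_pos_of_pos_of_lt_pi hx.1 hx.2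
  have h2 := Real.sin_pos_of_pos_of_lt_pi hy.1 hy.2
  unfold ct
  rw [div_le_div_iff₀ h2 h1]
  have h3 : 0 ≤ Real.sin (y - x) :=
    Real.sin_nonneg_of_nonneg_of_le_pi (by linarith) (by linarith [hx.1, hy.2])
  rw [Real.sin_sub] at h3
  linarith

end CORE2

open CORE in
open Pool.Agent.H709R2 (rot wedge) in
theorem core2 (h1 : S_GOOD) (h2 : S_STRAND) (h3 : S_DISJ) (h4 : S_ADJ) (h5 : S_CYC) (h6 : S_CELL)
    (h7 : S_LEN) (h8 : S_TURN) (h9 : S_SUM2) : S_CORE2 := by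
  classical
  intro F O M K N φ k ρ hρ hρ1 hk hkρ hab hbc hC hNC
  have hk1 : 1 ≤ k := le_trans (by norm_num) hk
  have hG : Gd F φ k O M K N := h1 F O M K N φ k hk1 hC hNC
  have hkR : (0:ℝ) < k := by exact_mod_cast (lt_of_lt_of_le (by norm_num) hk : 0 < k)
  set h : ℝ := π / k with hh
  have hh0 : 0 < h := div_pos Real.pi_pos hkR
  obtain ⟨m, x, hm, hper, hmem, hinj, hnx⟩ := h5 F O M K N φ k hk1 hG
  have hF := hC.smooth
  -- a strand for every point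
  have hst : ∀ p : ℝ × ℝ, ∃ (j : ℤ) (s : ℝ) (σ : ℝ → ℝ × ℝ) (L₁ L₂ δ u v : ℝ),
      p ∈ M.rg ∧ p ∈ Grid F φ k → Strand F O M K N (lab φ k j) s σ L₁ L₂ δ ∧ σ 0 = p ∧
        u ∈ Icc (lab φ k j + K.ang) (lab φ k j + O.ang + π) ∧
        v ∈ Icc (lab φ k j + K.ang) (lab φ k j + O.ang + π) ∧
        (∃ r : ℝ, 0 < r ∧ σ L₁ - σ 0 = r • tau u) ∧ (∃ r : ℝ, 0 < r ∧ σ L₂ - σ L₁ = r • tau v) ∧
        ∀ ω ∈ Ioo (min u v) (max u v), ∃ t ∈ Ioo 0 L₂, kd F (lab φ k j) ω (σ t) = 0 := by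
    intro p
    by_cases hp : p ∈ M.rg ∧ p ∈ Grid F φ k
    · obtain ⟨hp1, j, hj⟩ := hp
      obtain ⟨s, σ, L₁, L₂, δ, hS, hs0⟩ := h2 F O M K N φ k hG j p hp1 hj
      obtain ⟨u, v, hu, hv, hu', hv', ht⟩ := h8 F O M K N (lab φ k j) s σ L₁ L₂ δ hF
        (hC.ab.trans hC.bc) hC.ca hS
      exact ⟨j, s, σ, L₁, L₂, δ, u, v, fun _ => ⟨hS, hs0, hu, hv, hu', hv', ht⟩⟩
    · exact ⟨0, 0, 0, 0, 0, 0, 0, 0, fun h => absurd h hp⟩
  choose j s σ L₁ L₂ δ u v hst using hst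
  -- the cell index
  set mm : ℝ × ℝ → ℤ := fun p => if s p = 1 then j p else j p - 1 with hmm
  set e : ℕ → ℝ × ℝ := fun i => σ (x i) (L₁ (x i)) with he
  set n : ℕ → ℝ × ℝ := fun i => σ (x i) (L₂ (x i)) with hn
  have hS : ∀ i, Strand F O M K N (lab φ k (j (x i))) (s (x i)) (σ (x i)) (L₁ (x i)) (L₂ (x i))
      (δ (x i)) := fun i => (hst (x i) (hmem i)).1
  have hσ0 : ∀ i, σ (x i) 0 = x i := fun i => (hst (x i) (hmem i)).2.1
  have hm1 : ∀ i, s (x i) = 1 → mm (x i) = j (x i) := fun i hs => by simp [hmm, hs]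
  have hm2 : ∀ i, s (x i) = -1 → mm (x i) = j (x i) - 1 := fun i hs => by
    have : s (x i) ≠ 1 := by rw [hs]; norm_num
    simp [hmm, this]
  have hadj := fun i => h4 F O M K N φ k hk hG _ _ _ _ _ _ _ _ _ _ _ _ (hS i) (hS (i + 1))
    (by rw [hσ0, hσ0]; exact hnx i)
  have haK : K.ang ∈ Icc O.ang K.ang := ⟨(hC.ab.trans hC.bc).le, le_rfl⟩
  have haM : M.ang ∈ Icc O.ang K.ang := ⟨hC.ab.le, hC.bc.le⟩
  have haN : N.ang ∈ Icc O.ang K.ang := by rw [hC.aN]; exact haM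
  -- the pieces
  have piece : ∀ (i : ℕ) (α : ℝ) (t : ℝ), α ∈ Icc O.ang K.ang → t ∈ Icc 0 (L₂ (x i)) →
      ∀ y, Nx F φ k 1 α (σ (x i) t) y → ∃ (w : ℝ → ℝ × ℝ) (L : ℝ), 0 < L ∧ w 0 = σ (x i) t ∧
        w L = y ∧ (∀ t ∈ Icc 0 L, HasDerivAt w (rot α (F (w t))) t) ∧
        (y ∈ Gam F (lab φ k (mm (x i))) ∨ y ∈ Gam F (lab φ k (mm (x i) + 1))) ∧
        ∀ t₁ ∈ Icc 0 L, ∀ t₂ ∈ Icc 0 L, t₁ < t₂ → ∃ r θ : ℝ, 0 < r ∧
          θ ∈ Icc (lab φ k (mm (x i)) + α) (lab φ k (mm (x i) + 1) + α) ∧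
          w t₂ - w t₁ = r • tau θ := by
    intro i α t hα ht y hy
    obtain ⟨w, L, hL, hw0, hwL, hder, hg0, hgL, hgt⟩ := hy
    simp only [one_smul] at hder
    have htt : t ∈ Ioo (-(δ (x i))) (L₂ (x i) + δ (x i)) :=
      ⟨by linarith [(hS i).δ0, ht.1], by linarith [(hS i).δ0, ht.2]⟩
    have hg := (hS i).gam t htt
    have hpos := (hS i).pos t ht α hα
    have hne : ∀ t ∈ Icc 0 L, F (w t) ≠ 0 := by
      apply sol_ne_zero hF hder
      rw [hw0]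
      exact gam_ne hg
    have hc := h6 F hF φ k α (j (x i)) (s (x i)) w L hk (hS i).s1 hL hder hne
      (by rw [hw0]; exact hg) (by rw [hw0]; exact hpos) hgt (by rw [hwL]; exact hgL)
      (mm (x i)) (hm1 i) (hm2 i)
    refine ⟨w, L, hL, hw0, hwL, hder, ?_, hc.2.2⟩
    rw [← hwL]
    exact hc.2.1
  have m0 : ∀ i, (0:ℝ) ∈ Icc 0 (L₂ (x i)) := fun i =>
    ⟨le_rfl, ((hS i).L0.trans (hS i).L12).le⟩
  have mL1 : ∀ i, L₁ (x i) ∈ Icc 0 (L₂ (x i)) := fun i => ⟨(hS i).L0.le, (hS i).L12.le⟩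
  have mL2 : ∀ i, L₂ (x i) ∈ Icc 0 (L₂ (x i)) := fun i =>
    ⟨((hS i).L0.trans (hS i).L12).le, le_rfl⟩
  have pM := fun i => piece i M.ang 0 haM (m0 i) (x (i + 1)) (by rw [hσ0]; exact hnx i)
  have pK := fun i => piece i K.ang (L₁ (x i)) haK (mL1 i) (e (i + 1)) (hadj i).1
  have pN := fun i => piece i N.ang (L₂ (x i)) haN (mL2 i) (n (i + 1)) (hadj i).2
  set ψ : ℕ → ℝ := fun i => lab φ k (j (x i)) with hψ
  set β : ℕ → ℝ := fun i => lab φ k (mm (x i)) + M.ang with hβ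
  have hlab : ∀ i : ℤ, lab φ k (i + 1) = lab φ k i + h := fun i => by
    simp only [lab]; push_cast; ring
  have hlab' : ∀ i : ℤ, lab φ k (i - 1) = lab φ k i - h := fun i => by
    simp only [lab]; push_cast; ring
  -- the bound of the chords by the pieces of `K`
  obtain ⟨i₀, hi₀, hmax⟩ := Finset.exists_max_image (Finset.range m)
    (fun i => √(H709R2.sq (n i - e i))) ⟨0, Finset.mem_range.2 hm⟩
  set D : ℝ := √(H709R2.sq (n i₀ - e i₀)) with hD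
  have hD0 : 0 < D := by
    obtain ⟨r, hr, hrv⟩ := (hst (x i₀) (hmem i₀)).2.2.2.2.2.1
    rw [hD]
    apply Real.sqrt_pos.2
    show 0 < H709R2.sq (σ (x i₀) (L₂ (x i₀)) - σ (x i₀) (L₁ (x i₀)))
    rw [hrv, sq_smul_tau]
    positivity
  have hperall : ∀ i, x (i + m) = x i ∧ e (i + m) = e i ∧ n (i + m) = n i ∧ ψ (i + m) = ψ i ∧
      β (i + m) = β i ∧ u (x (i + m)) = u (x i) ∧ v (x (i + m)) = v (x i) := by
    intro i
    simp only [he, hn, hψ, hβ, hper i, and_self]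
  have hmod : ∀ i, x i = x (i % m) := by
    intro i
    have hp : Function.Periodic x m := hper
    exact (hp.map_mod_nat i).symm
  have hDall : ∀ i, √(H709R2.sq (n i - e i)) ≤ D := by
    intro i
    have h10 := hmax (i % m) (Finset.mem_range.2 (Nat.mod_lt i hm))
    have h11 : √(H709R2.sq (n i - e i)) = √(H709R2.sq (n (i % m) - e (i % m))) := by
      simp only [he, hn]
      rw [← hmod i]
    rw [h11]
    exact h10
  have hsum := h9 m ρ h O.ang M.ang K.ang D x e n ψ β (fun i => u (x i)) (fun i => v (x i)) hm hρ hρ1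
    hh0 hkρ hab hbc hC.ca hD0 hperall ?_ ?_ ?_ ?_ ?_ ?_ ?_ ?_ hDall ?_
  · -- the conclusion
    have hch : ∀ (i : Fin m) (ω : ℝ), ∃ t : ℝ, ω ∈ Ioo (min (u (x i)) (v (x i)))
        (max (u (x i)) (v (x i))) → t ∈ Ioo 0 (L₂ (x i)) ∧
        kd F (lab φ k (j (x i))) ω (σ (x i) t) = 0 := by
      intro i ω
      by_cases hω : ω ∈ Ioo (min (u (x i)) (v (x i))) (max (u (x i)) (v (x i)))
      · obtain ⟨t, ht, ht'⟩ := (hst (x i) (hmem i)).2.2.2.2.2.2 ω hω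
        exact ⟨t, fun _ => ⟨ht, ht'⟩⟩
      · exact ⟨0, fun h => absurd h hω⟩
    choose tt htt using hch
    have inO : ∀ (i : ℕ) (t : ℝ), t ∈ Ioo 0 (L₂ (x i)) → σ (x i) t ∈ O.fl F \ N.inn F := by
      intro i t ht
      have hNN : N.inn F ⊆ N.fl F := subset_union_right
      have hKK : K.inn F ⊆ K.fl F := subset_union_right
      have hMM : M.inn F ⊆ M.fl F := subset_union_right
      have hOO : O.inn F ⊆ O.fl F := subset_union_right
      have hrgK : K.rg ⊆ K.fl F := subset_union_left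
      have hdisK : ∀ z ∈ K.rg, z ∉ K.inn F := fun z hz hz' => hz'.1 hz
      rcases lt_trichotomy t (L₁ (x i)) with hlt | heq | hgt
      · obtain ⟨ha, hb⟩ := (hS i).mid₁ t ⟨ht.1, hlt⟩
        exact ⟨hOO (hC.MO (hMM ha)), fun hc => hb (hKK (hC.NK (hNN hc)))⟩
      · rw [heq]
        have hz := (hS i).atK
        exact ⟨hOO (hC.MO (hMM (hC.KM (hrgK hz)))), fun hc => hdisK _ hz (hC.NK (hNN hc))⟩
      · obtain ⟨ha, hb⟩ := (hS i).mid₂ t ⟨hgt, ht.2⟩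
        exact ⟨hOO (hC.MO (hMM (hC.KM (hKK ha)))), fun hc => hb (hNN hc)⟩
    refine ⟨m, fun i => min (u (x i)) (v (x i)), fun i => max (u (x i)) (v (x i)),
      fun i => j (x i), fun i ω => σ (x i) (tt i ω), ?_, ?_, ?_, ?_⟩
    · intro i
      have hu := (hst (x i) (hmem i)).2.2.1
      have hv := (hst (x i) (hmem i)).2.2.2.1
      exact ⟨min_le_max, le_min hu.1 hv.1, max_le hu.2 hv.2⟩
    · intro i ω hω
      obtain ⟨ht, hk0⟩ := htt i ω hω
      have hz := inO i _ ht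
      have hg := (hS i).gam (tt i ω) ⟨by linarith [(hS i).δ0, ht.1], by linarith [(hS i).δ0, ht.2]⟩
      exact ⟨hz, gam_ne hg, gam_iso hg, hk0⟩
    · intro i i' hii ω hω ω' hω' heq
      obtain ⟨ht, -⟩ := htt i ω hω
      obtain ⟨ht', -⟩ := htt i' ω' hω'
      have h10 := h3 F O M K N φ k hG _ _ _ _ _ _ _ _ _ _ _ _ (hS i) (hS i') (tt i ω)
        (Ioo_subset_Icc_self ht) (tt i' ω') (Ioo_subset_Icc_self ht') heq
      rw [hσ0, hσ0] at h10
      exact hii (Fin.ext (hinj i i.2 i' i'.2 h10))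
    · rw [Fin.sum_univ_eq_sum_range (fun i =>
        ct (min (u (x i)) (v (x i)) - lab φ k (j (x i)) - M.ang) -
          ct (max (u (x i)) (v (x i)) - lab φ k (j (x i)) - M.ang)) m]
      refine hsum.trans (le_of_eq ?_)
      refine Finset.sum_congr rfl fun i _ => ?_
      have hu := (hst (x i) (hmem i)).2.2.1
      have hv := (hst (x i) (hmem i)).2.2.2.1
      have b1 : ∀ y ∈ Icc (lab φ k (j (x i)) + K.ang) (lab φ k (j (x i)) + O.ang + π),
          y - lab φ k (j (x i)) - M.ang ∈ Ioo 0 π := fun y hy =>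
        ⟨by linarith [hy.1], by linarith [hy.2]⟩
      show |ct (u (x i) - lab φ k (j (x i)) - M.ang) - ct (v (x i) - lab φ k (j (x i)) - M.ang)| = _
      rcases le_total (u (x i)) (v (x i)) with huv | huv
      · rw [min_eq_left huv, max_eq_right huv]
        exact abs_of_nonneg (sub_nonneg.2 (CORE2.ct_anti (b1 _ hu) (b1 _ hv) (by linarith)))
      · rw [min_eq_right huv, max_eq_left huv, abs_sub_comm]
        exact abs_of_nonneg (sub_nonneg.2 (CORE2.ct_anti (b1 _ hv) (b1 _ hu) (by linarith)))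
  · intro i
    rcases (hS i).s1 with hs | hs
    · left
      simp only [hβ, hψ, hm1 i hs]
    · right
      simp only [hβ, hψ, hm2 i hs, hlab']
      ring
  · intro i
    obtain ⟨w, L, -, -, -, -, hg, -⟩ := pM i
    have hg' : x (i + 1) ∈ Gam F (ψ (i + 1)) := by
      have := (hS (i + 1)).gam 0 ⟨by linarith [(hS (i + 1)).δ0],
        by linarith [(hS (i + 1)).δ0, (hS (i + 1)).L0, (hS (i + 1)).L12]⟩
      rwa [hσ0] at this
    rcases hg with hg | hg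
    · obtain ⟨l, hl⟩ := gam_angle hg hg'
      exact ⟨l, Or.inl (by rw [hl]; simp only [hβ]; ring)⟩
    · obtain ⟨l, hl⟩ := gam_angle hg hg'
      exact ⟨l, Or.inr (by rw [hl, hlab]; simp only [hβ]; ring)⟩
  · intro i
    exact ⟨(hst (x i) (hmem i)).2.2.1, (hst (x i) (hmem i)).2.2.2.1⟩
  · intro i
    have := (hst (x i) (hmem i)).2.2.2.2.1
    rwa [hσ0] at this
  · intro i
    exact (hst (x i) (hmem i)).2.2.2.2.2.1
  · intro i
    obtain ⟨w, L, hL, hw0, hwL, -, -, hd⟩ := pM i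
    obtain ⟨r, θ, hr, hθ, hd⟩ := hd 0 ⟨le_rfl, hL.le⟩ L ⟨hL.le, le_rfl⟩ hL
    refine ⟨r, θ, hr, ?_, ?_⟩
    · simp only [hβ]
      refine ⟨hθ.1, hθ.2.trans (le_of_eq ?_)⟩
      rw [hlab]; ring
    · rw [← hd, hw0, hwL, hσ0]
  · intro i
    obtain ⟨w, L, hL, hw0, hwL, -, -, hd⟩ := pK i
    obtain ⟨r, θ, hr, hθ, hd⟩ := hd 0 ⟨le_rfl, hL.le⟩ L ⟨hL.le, le_rfl⟩ hL
    refine ⟨r, θ, hr, ?_, ?_⟩
    · simp only [hβ]
      refine ⟨le_trans (le_of_eq ?_) hθ.1, hθ.2.trans (le_of_eq ?_)⟩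
      · ring
      · rw [hlab]; ring
    · rw [← hd, hw0, hwL]
  · intro i
    obtain ⟨w, L, hL, hw0, hwL, -, -, hd⟩ := pN i
    obtain ⟨r, θ, hr, hθ, hd⟩ := hd 0 ⟨le_rfl, hL.le⟩ L ⟨hL.le, le_rfl⟩ hL
    refine ⟨r, θ, hr, ?_, ?_⟩
    · simp only [hβ]
      rw [hC.aN] at hθ
      refine ⟨hθ.1, hθ.2.trans (le_of_eq ?_)⟩
      rw [hlab]; ring
    · rw [← hd, hw0, hwL]
  · have hpi := Real.pi_gt_three
    have hlen := h7 F K (K.ang - M.ang) h m e β hF hC.oK (by linarith) hh0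
      (by linarith [hC.ca]) hm (fun i => (hperall i).2.1) (hS 0).atK (fun i => ?_)
    · refine hlen (n i₀) ?_ (e i₀) (hS i₀).atK
      exact subset_union_right (hC.NK (subset_union_left (hS i₀).atN))
    · obtain ⟨w, L, hL, hw0, hwL, hder, -, hd⟩ := pK i
      refine ⟨w, L, hL, hw0, hwL, hder, fun t₁ ht₁ t₂ ht₂ hlt => ?_⟩
      obtain ⟨r, θ, hr, hθ, hd⟩ := hd t₁ ht₁ t₂ ht₂ hlt
      refine ⟨r, θ, hr, ?_, hd⟩
      simp only [hβ]
      refine ⟨le_trans (le_of_eq ?_) hθ.1, hθ.2.trans (le_of_eq ?_)⟩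
      · ring
      · rw [hlab]; ring

end Pool.Agent.N224.SF
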