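import Pool.Agent.N224.SF.D1
import Pool.Agent.H709U.B3

/-! Project SF (helper224): assembly of the count of triples. -/

set_option autoImplicit false

open Real Set MeasureTheory Topology Filter
open scoped ENNReal

namespace Pool.Agent.N224.SF

noncomputable section

open Pool.Agent.H709R2 (rot wedge field)
open Pool.Agent.H709U (rf Orb)
open Pool.Agent.N224.Hil (Loop wn ins fill)

namespace COUNT

/-- the points of the isocline with the angle `ψ` (or `ψ + π`) where it has the direction `ω` -/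
def A (F : ℝ × ℝ → ℝ × ℝ) (ψ ω : ℝ) : Set (ℝ × ℝ) := {z | F z ≠ 0 ∧ iso F ψ z = 0 ∧ kd F ψ ω z = 0}

lemma tau_int (ψ : ℝ) (l : ℤ) : tau (ψ + l * π) = tau ψ ∨ tau (ψ + l * π) = -tau ψ := by
  unfold tau
  rw [Real.cos_add_int_mul_pi, Real.sin_add_int_mul_pi]
  rcases Int.even_or_odd l with h | h
  · left; rw [h.neg_one_zpow, one_mul, one_mul]
  · right; rw [h.neg_one_zpow]; ext <;> simp

lemma shift (F : ℝ × ℝ → ℝ × ℝ) (ψ ω : ℝ) (l l' : ℤ) :
    A F (ψ + l * π) (ω + l' * π) = A F ψ ω := by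
  have hiso : iso F (ψ + l * π) = iso F ψ ∨ iso F (ψ + l * π) = fun z => -iso F ψ z := by
    rcases tau_int ψ l with h | h
    · left; funext z; unfold iso; rw [h]
    · right; funext z; unfold iso; rw [h]; unfold wedge; simp; ring
  ext z
  unfold A kd
  simp only [mem_ofPred_eq]
  refine and_congr_right fun _ => ?_
  rcases hiso with h1 | h1 <;> rcases tau_int ω l' with h2 | h2 <;> rw [h1, h2]
  · rw [map_neg, neg_eq_zero]
  · rw [fderiv_fun_neg, _root_.neg_apply, neg_eq_zero, neg_eq_zero]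
  · rw [fderiv_fun_neg, _root_.neg_apply, map_neg, neg_neg, neg_eq_zero]

lemma lab_mod (φ : ℝ) {k : ℕ} (hk : 0 < k) (j : ℤ) :
    ∃ (j0 : ℕ) (l : ℤ), j0 < k ∧ lab φ k j = lab φ k (j0 : ℤ) + l * π := by
  have hk' : (0 : ℤ) < k := by exact_mod_cast hk
  refine ⟨(j % k).toNat, j / k, ?_, ?_⟩
  · have := Int.emod_lt_of_pos j hk'
    have := Int.emod_nonneg j hk'.ne'
    omega
  · have h0 := Int.emod_nonneg j hk'.ne'
    have h1 : (((j % k).toNat : ℤ) : ℝ) = ((j % k : ℤ) : ℝ) := by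
      rw [Int.toNat_of_nonneg h0]
    unfold lab
    rw [h1]
    have h2 : (j : ℝ) = ((j % k : ℤ) : ℝ) + (k : ℝ) * ((j / k : ℤ) : ℝ) := by
      have := Int.emod_add_mul_ediv j k
      exact_mod_cast this.symm
    have hk0 : (k : ℝ) ≠ 0 := by positivity
    calc φ + j * (π / k) = φ + (((j % k : ℤ) : ℝ) + (k : ℝ) * ((j / k : ℤ) : ℝ)) * (π / k) := by
          rw [← h2]
      _ = _ := by field_simp; ring

/-- the part of a period which is covered by the translates of an interval -/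
def Bs (u v : ℝ) : Set ℝ := {ω | ω ∈ Ico 0 π ∧ ∃ t : ℤ, ω + t * π ∈ Ioo u v}

lemma meas_Bs (u v : ℝ) : MeasurableSet (Bs u v) := by
  have : Bs u v = Ico 0 π ∩ ⋃ t : ℤ, (fun ω : ℝ => ω + t * π) ⁻¹' Ioo u v := by
    ext ω
    simp only [Bs, mem_ofPred_eq, mem_inter_iff, mem_iUnion, mem_preimage]
  rw [this]
  refine measurableSet_Ico.inter (MeasurableSet.iUnion fun t => ?_)
  exact (measurable_id.add_const _) measurableSet_Ioo

lemma vol_Bs {u v : ℝ} (huv : u ≤ v) (h : v - u < π) :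
    ENNReal.ofReal (v - u) ≤ volume (Bs u v) := by
  have hπ := Real.pi_pos
  obtain ⟨t, u', hu, hu0, hu1⟩ : ∃ (t : ℤ) (u' : ℝ), u = t * π + u' ∧ 0 ≤ u' ∧ u' < π := by
    refine ⟨⌊u / π⌋, u - ⌊u / π⌋ * π, by ring, ?_, ?_⟩
    · have := Int.floor_le (u / π)
      rw [le_div_iff₀ hπ] at this
      linarith
    · have := Int.lt_floor_add_one (u / π)
      rw [div_lt_iff₀ hπ] at this
      linarith
  obtain ⟨v', hv⟩ : ∃ v' : ℝ, v = t * π + v' := ⟨v - t * π, by ring⟩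
  have hw : v - u = v' - u' := by rw [hu, hv]; ring
  have huv' : u' ≤ v' := by linarith
  rcases le_or_gt v' π with hc | hc
  · have hsub : Ioo u' v' ⊆ Bs u v := by
      intro ω hω
      refine ⟨⟨hu0.trans hω.1.le, lt_of_lt_of_le hω.2 hc⟩, t, ?_⟩
      rw [hu, hv]
      constructor
      · linarith [hω.1]
      · linarith [hω.2]
    calc ENNReal.ofReal (v - u) = volume (Ioo u' v') := by rw [Real.volume_Ioo, hw]
      _ ≤ _ := measure_mono hsub
  · have hsub : Ioo u' π ∪ Ico 0 (v' - π) ⊆ Bs u v := by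
      rintro ω (hω | hω)
      · refine ⟨⟨hu0.trans hω.1.le, hω.2⟩, t, ?_⟩
        rw [hu, hv]
        constructor
        · linarith [hω.1]
        · linarith [hω.2]
      · refine ⟨⟨hω.1, by linarith [hω.2]⟩, t + 1, ?_⟩
        rw [hu, hv]
        push_cast
        constructor
        · linarith [hω.1]
        · linarith [hω.2]
    have hd : Disjoint (Ioo u' π) (Ico 0 (v' - π)) := by
      rw [Set.disjoint_left]
      intro ω h1 h2
      linarith [h1.1, h2.2]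
    calc ENNReal.ofReal (v - u) = ENNReal.ofReal (π - u') + ENNReal.ofReal (v' - π - 0) := by
          rw [← ENNReal.ofReal_add (by linarith) (by linarith), hw]
          congr 1; ring
      _ = volume (Ioo u' π) + volume (Ico 0 (v' - π)) := by rw [Real.volume_Ioo, Real.volume_Ico]
      _ = volume (Ioo u' π ∪ Ico 0 (v' - π)) := (measure_union hd measurableSet_Ico).symm
      _ ≤ _ := measure_mono hsub

lemma finA {n : ℕ} {s : Set (ℝ × ℝ)} (h : s.encard ≤ ((2 * n ^ 2 : ℕ) : ℕ∞)) :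
    ∃ t : Finset (ℝ × ℝ), t.card ≤ 2 * n ^ 2 ∧ ∀ z ∈ s, z ∈ t := by
  have hf : s.Finite := Set.finite_of_encard_le_coe h
  refine ⟨hf.toFinset, ?_, fun z hz => hf.mem_toFinset.2 hz⟩
  rw [hf.encard_eq_coe_toFinset_card] at h
  exact_mod_cast h

/-- the count over one angle -/
lemma one_angle {n k : ℕ} (hk : 0 < k) (F : ℝ × ℝ → ℝ × ℝ) (φ : ℝ) {ι : Type} [Fintype ι]
    (u v : ι → ℝ) (j : ι → ℤ) (pt : ι → ℝ → ℝ × ℝ)
    (h2 : ∀ i, ∀ ω ∈ Ioo (u i) (v i), pt i ω ∈ A F (lab φ k (j i)) ω)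
    (h3 : ∀ (z : ℝ × ℝ) (T : Finset ι) (w : ι → ℝ),
      (∀ i ∈ T, w i ∈ Ioo (u i) (v i) ∧ pt i (w i) = z) → T.card ≤ 2)
    (ω : ℝ) (h4 : ∀ j0 : ℕ, (A F (lab φ k (j0 : ℤ)) ω).encard ≤ ((2 * n ^ 2 : ℕ) : ℕ∞))
    (T : Finset ι) (hT : ∀ i ∈ T, ∃ t : ℤ, ω + t * π ∈ Ioo (u i) (v i)) :
    T.card ≤ 4 * k * n ^ 2 := by
  classical
  choose E hE1 hE2 using fun j0 => finA (h4 j0)
  let EE : Finset (ℝ × ℝ) := (Finset.range k).biUnion E
  have hEE : EE.card ≤ k * (2 * n ^ 2) := by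
    refine (Finset.card_biUnion_le_card_mul _ _ (2 * n ^ 2) fun j0 _ => hE1 j0).trans ?_
    rw [Finset.card_range]
  choose! t ht using hT
  have hmap : ∀ i ∈ T, pt i (ω + t i * π) ∈ EE := by
    intro i hi
    have h5 := h2 i _ (ht i hi)
    obtain ⟨j0, l, hj0, hl⟩ := lab_mod φ hk (j i)
    rw [hl, shift] at h5
    exact Finset.mem_biUnion.2 ⟨j0, Finset.mem_range.2 hj0, hE2 j0 _ h5⟩
  have hcard := Finset.card_le_mul_card_image_of_maps_to hmap 2 (fun z _ =>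
    h3 z _ (fun i => ω + t i * π) (fun i hi => by
      rw [Finset.mem_filter] at hi
      exact ⟨ht i hi.1, hi.2⟩))
  calc T.card ≤ 2 * EE.card := hcard
    _ ≤ 2 * (k * (2 * n ^ 2)) := Nat.mul_le_mul_left _ hEE
    _ = 4 * k * n ^ 2 := by ring

/-- the total length of the intervals -/
lemma total {n k : ℕ} (hk : 0 < k) (F : ℝ × ℝ → ℝ × ℝ) (φ : ℝ) {ι : Type} [Fintype ι]
    (u v : ι → ℝ) (j : ι → ℤ) (pt : ι → ℝ → ℝ × ℝ)
    (h1 : ∀ i, u i ≤ v i ∧ v i - u i < π)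
    (h2 : ∀ i, ∀ ω ∈ Ioo (u i) (v i), pt i ω ∈ A F (lab φ k (j i)) ω)
    (h3 : ∀ (z : ℝ × ℝ) (T : Finset ι) (w : ι → ℝ),
      (∀ i ∈ T, w i ∈ Ioo (u i) (v i) ∧ pt i (w i) = z) → T.card ≤ 2)
    (h4 : ∀ j0 : ℕ, ∀ᵐ ω, (A F (lab φ k (j0 : ℤ)) ω).encard ≤ ((2 * n ^ 2 : ℕ) : ℕ∞)) :
    ∑ i, (v i - u i) ≤ 4 * k * n ^ 2 * π := by
  classical
  have hπ := Real.pi_pos
  have h5 : ∀ᵐ ω : ℝ, ∑ i, (Bs (u i) (v i)).indicator (fun _ => (1 : ℝ≥0∞)) ω
      ≤ (Ico 0 π).indicator (fun _ => ((4 * k * n ^ 2 : ℕ) : ℝ≥0∞)) ω := by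
    filter_upwards [ae_all_iff.2 h4] with ω hω
    by_cases hI : ω ∈ Ico 0 π
    · rw [indicator_of_mem hI]
      have e : ∑ i, (Bs (u i) (v i)).indicator (fun _ => (1 : ℝ≥0∞)) ω
          = ((Finset.univ.filter fun i => ω ∈ Bs (u i) (v i)).card : ℝ≥0∞) := by
        rw [Finset.card_filter]
        push_cast
        exact Finset.sum_congr rfl fun i _ => by rw [indicator_apply]
      rw [e]
      have := one_angle hk F φ u v j pt h2 h3 ω hω
        (Finset.univ.filter fun i => ω ∈ Bs (u i) (v i))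
        (fun i hi => (Finset.mem_filter.1 hi).2.2)
      exact_mod_cast this
    · rw [indicator_of_notMem hI]
      refine (Finset.sum_eq_zero fun i _ => indicator_of_notMem (fun h => hI h.1) _).le
  have h6 : ∑ i, ENNReal.ofReal (v i - u i) ≤ ((4 * k * n ^ 2 : ℕ) : ℝ≥0∞) * ENNReal.ofReal π := by
    calc ∑ i, ENNReal.ofReal (v i - u i) ≤ ∑ i, volume (Bs (u i) (v i)) :=
          Finset.sum_le_sum fun i _ => vol_Bs (h1 i).1 (h1 i).2
      _ = ∑ i, ∫⁻ ω, (Bs (u i) (v i)).indicator (fun _ => (1 : ℝ≥0∞)) ω :=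
          Finset.sum_congr rfl fun i _ => by
            rw [lintegral_indicator (meas_Bs _ _), setLIntegral_one]
      _ = ∫⁻ ω, ∑ i, (Bs (u i) (v i)).indicator (fun _ => (1 : ℝ≥0∞)) ω := by
          rw [lintegral_finsetSum]
          exact fun i _ => measurable_const.indicator (meas_Bs _ _)
      _ ≤ ∫⁻ ω, (Ico 0 π).indicator (fun _ => ((4 * k * n ^ 2 : ℕ) : ℝ≥0∞)) ω :=
          lintegral_mono_ae h5
      _ = ((4 * k * n ^ 2 : ℕ) : ℝ≥0∞) * ENNReal.ofReal π := by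
          rw [lintegral_indicator measurableSet_Ico, setLIntegral_const, Real.volume_Ico, sub_zero]
  rw [← ENNReal.ofReal_sum_of_nonneg (fun i _ => by linarith [(h1 i).1]),
    ← ENNReal.ofReal_natCast, ← ENNReal.ofReal_mul (by positivity),
    ENNReal.ofReal_le_ofReal_iff (by positivity)] at h6
  push_cast at h6
  exact h6

end COUNT

open COUNT

/-- COUNT -/
theorem count (hC : S_CORE) (hB : S_BEZ) (hZ : S_CHAIN) : S_COUNT := by
  classical
  intro n P Q hP hQ hrel ρ a b c hρ hab hbc hca ga gb gc N O M K hstd hdis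
  obtain ⟨Z, hZc, hZ0⟩ := Pool.Agent.H709U.b3 n P Q hP hQ hrel
  have hsm : ContDiff ℝ 4 (field P Q) := Pool.Agent.H709R2.contDiff_field P Q
  have hbez := hB n P Q hP hQ hrel
  generalize field P Q = F at *
  have hπ := Real.pi_pos
  have hρ2 : ρ ≤ 1 / 2 := by linarith
  obtain ⟨k, hk⟩ : ∃ k : ℕ, k = ⌈100 * π / ρ⌉₊ := ⟨_, rfl⟩
  have hk1 : 100 * π / ρ ≤ k := by rw [hk]; exact Nat.le_ceil _
  have hk2 : (k : ℝ) ≤ 100 * π / ρ + 1 := by
    rw [hk]; exact (Nat.ceil_lt_add_one (by positivity)).le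
  have hk4 : 4 ≤ k := by
    have h1 : 100 * π ≤ 100 * π / ρ := by
      rw [le_div_iff₀ hρ]
      nlinarith
    have h2 : (4 : ℝ) ≤ k := by linarith [Real.pi_gt_three]
    exact_mod_cast h2
  have hk0 : 0 < k := by omega
  have hkR : (0 : ℝ) < k := by exact_mod_cast hk0
  have hkh : π / k ≤ ρ / 100 := by
    rw [div_le_iff₀ hρ] at hk1
    rw [div_le_div_iff₀ hkR (by norm_num)]
    linarith
  -- the choice of the angle
  have tr : ∀ {p : ℝ → Prop}, (∀ᵐ ψ : ℝ, p ψ) → ∀ᵐ φ : ℝ, ∀ j : ℤ, p (lab φ k j) := by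
    intro p hp
    rw [ae_all_iff]
    intro j
    exact (measurePreserving_add_right volume ((j : ℝ) * (π / k))).quasiMeasurePreserving.ae hp
  have hB' : ∀ᵐ ψ : ℝ, ∀ᵐ ω : ℝ, (A F ψ ω).encard ≤ ((2 * n ^ 2 : ℕ) : ℕ∞) :=
    Measure.ae_ae_of_ae_prod hbez
  obtain ⟨φ, hφa, hφb, hφc, hφB⟩ := ((tr ga).and ((tr gb).and ((tr gc).and (tr hB')))).exists
  -- the chain
  obtain ⟨S, nx, hS1, hS2, hS3⟩ := hZ F Z a b c N O M K hsm hZ0 (by linarith) (by linarith) hca
    hstd hdis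
  let S₁ : Finset (Fin N) := S.filter fun i => NC F φ k (O i) (M i) (K i) (M (nx i))
  let S₂ : Finset (Fin N) := S.filter fun i => ¬ NC F φ k (O i) (M i) (K i) (M (nx i))
  have hS12 : S₁.card + S₂.card = S.card := Finset.card_filter_add_card_filter_not _
  -- the second part
  have hc2 : S₂.card ≤ 12 * k * n ^ 2 := by
    let al : Fin 3 → ℝ := ![a, b, c]
    have hal : ∀ (q : Fin 3) (j : ℤ),
        (A F (lab φ k j) (lab φ k j + al q)).encard ≤ ((2 * n ^ 2 : ℕ) : ℕ∞) := by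
      intro q j
      fin_cases q
      · exact hφa j
      · exact hφb j
      · exact hφc j
    choose E hE1 hE2 using fun (p : Fin 3 × ℕ) => finA (hal p.1 (p.2 : ℤ))
    let EE : Finset (ℝ × ℝ) := ((Finset.univ : Finset (Fin 3)) ×ˢ Finset.range k).biUnion E
    have hEE : EE.card ≤ 3 * k * (2 * n ^ 2) := by
      refine (Finset.card_biUnion_le_card_mul _ _ (2 * n ^ 2) fun p _ => hE1 p).trans ?_
      rw [Finset.card_product, Finset.card_range, Finset.card_univ, Fintype.card_fin]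
    have hex : ∀ i ∈ S₂, ∃ z ∈ EE, z ∈ (O i).fl F \ (M (nx i)).inn F := by
      intro i hi
      obtain ⟨hiS, hnc⟩ := Finset.mem_filter.1 hi
      have hT : ∃ q : Fin 3, ¬ Tr F φ k ((O i).fl F \ (M (nx i)).inn F) (al q) := by
        by_contra hcon
        push Not at hcon
        apply hnc
        refine ⟨?_, ?_, ?_⟩
        · rw [(hstd i).aO]; exact hcon 0
        · rw [(hstd i).aM]; exact hcon 1
        · rw [(hstd i).aK]; exact hcon 2
      obtain ⟨q, hq⟩ := hT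
      unfold Tr at hq
      push Not at hq
      obtain ⟨z, hz, j, hj, hkd⟩ := hq
      have hzA : z ∈ A F (lab φ k j) (lab φ k j + al q) := by
        refine ⟨(hS2 i hiS).ne z hz, ?_, hkd⟩
        obtain ⟨r, hr, hFz⟩ := hj
        unfold iso wedge
        rw [hFz]
        simp
        ring
      obtain ⟨j0, l, hj0, hl⟩ := lab_mod φ hk0 j
      have e : lab φ k j + al q = (lab φ k (j0 : ℤ) + al q) + l * π := by rw [hl]; ring
      rw [e, hl, shift] at hzA
      exact ⟨z, Finset.mem_biUnion.2 ⟨(q, j0), Finset.mem_product.2 ⟨Finset.mem_univ _,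
        Finset.mem_range.2 hj0⟩, hE2 (q, j0) z hzA⟩, hz⟩
    choose! z hz1 hz2 using hex
    have := Finset.card_le_mul_card_image_of_maps_to hz1 2 (fun y _ =>
      hS3 y _ ((Finset.filter_subset _ _).trans (Finset.filter_subset _ _)) (fun i hi => by
        obtain ⟨h1, h2⟩ := Finset.mem_filter.1 hi
        rw [← h2]
        exact hz2 i h1))
    calc S₂.card ≤ 2 * EE.card := this
      _ ≤ 2 * (3 * k * (2 * n ^ 2)) := Nat.mul_le_mul_left _ hEE
      _ = 12 * k * n ^ 2 := by ring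
  -- the first part
  have hc1 : (S₁.card : ℝ) * (ρ ^ 3 / (20 * (π / k))) ≤ 4 * k * n ^ 2 * π := by
    have hcore : ∀ i : {i // i ∈ S₁}, _ := fun i =>
      hC F (O i) (M i) (K i) (M (nx i)) φ k ρ hρ hρ2 hk4 hkh
        (by rw [(hstd i).aO, (hstd i).aM]; exact hab)
        (by rw [(hstd i).aM, (hstd i).aK]; exact hbc)
        (hS2 i (Finset.mem_filter.1 i.2).1) (Finset.mem_filter.1 i.2).2
    choose m u v j pt q1 q2 q3 q4 using hcore
    have htot := total (n := n) (k := k) hk0 F φ (ι := Σ i : {i // i ∈ S₁}, Fin (m i))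
      (fun x => u x.1 x.2) (fun x => v x.1 x.2) (fun x => j x.1 x.2) (fun x => pt x.1 x.2)
      (fun x => q1 x.1 x.2)
      (fun x ω hω => by
        obtain ⟨_, h2, h3, h4⟩ := q2 x.1 x.2 ω hω
        exact ⟨h2, h3, h4⟩)
      (fun z T w hT => by
        have h1 : (T.image fun x => (x.1 : Fin N)).card ≤ 2 := by
          refine hS3 z _ ?_ ?_
          · intro i hi
            obtain ⟨x, _, rfl⟩ := Finset.mem_image.1 hi
            exact (Finset.mem_filter.1 x.1.2).1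
          · intro i hi
            obtain ⟨x, hx, rfl⟩ := Finset.mem_image.1 hi
            obtain ⟨h2, h3⟩ := hT x hx
            have := (q2 x.1 x.2 _ h2).1
            rw [← h3]
            exact this
        rwa [Finset.card_image_of_injOn] at h1
        intro x hx y hy hxy
        obtain ⟨i, l⟩ := x
        obtain ⟨i', l'⟩ := y
        have hii : i = i' := Subtype.ext hxy
        subst hii
        by_contra hne
        have hll : l ≠ l' := fun h => hne (by rw [h])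
        obtain ⟨h2, h3⟩ := hT _ hx
        obtain ⟨h4, h5⟩ := hT _ hy
        exact q3 i l l' hll _ h2 _ h4 (h3.trans h5.symm))
      (fun j0 => hφB j0)
    refine le_trans ?_ htot
    rw [Fintype.sum_sigma]
    calc (S₁.card : ℝ) * (ρ ^ 3 / (20 * (π / k)))
        = ∑ i : {i // i ∈ S₁}, (ρ ^ 3 / (20 * (π / k))) := by
          rw [Finset.sum_const, Finset.card_univ, Fintype.card_coe, nsmul_eq_mul]
      _ ≤ _ := Finset.sum_le_sum fun i _ => q4 i
  -- the end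
  have hN : (N : ℝ) ≤ S₁.card + S₂.card + 2 * n ^ 2 := by
    have h1 : N ≤ S₁.card + S₂.card + 2 * n ^ 2 := by rw [hS12]; omega
    exact_mod_cast h1
  have hc2' : (S₂.card : ℝ) ≤ 12 * k * n ^ 2 := by exact_mod_cast hc2
  have hc1' : (S₁.card : ℝ) * ρ ^ 3 ≤ 80 * π ^ 2 * n ^ 2 := by
    have e : (S₁.card : ℝ) * (ρ ^ 3 / (20 * (π / k))) = ((S₁.card : ℝ) * ρ ^ 3) * (k / (20 * π)) := by
      field_simp
    have e2 : 4 * (k : ℝ) * n ^ 2 * π = (80 * π ^ 2 * n ^ 2) * (k / (20 * π)) := by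
      field_simp
      ring
    rw [e, e2] at hc1
    exact le_of_mul_le_mul_right hc1 (by positivity)
  rw [le_div_iff₀ (by positivity)]
  have hn : (0 : ℝ) ≤ (n : ℝ) ^ 2 := by positivity
  have hρ3 : ρ ^ 3 ≤ 1 / 8 := by
    have := pow_le_pow_left₀ hρ.le hρ2 3
    norm_num at this ⊢
    exact this
  have hρ3' : 0 < ρ ^ 3 := by positivity
  have hkρ : k * ρ ^ 3 ≤ 25 * π + 1 / 8 := by
    have h1 : (k : ℝ) * ρ ^ 3 ≤ (100 * π / ρ + 1) * ρ ^ 3 := mul_le_mul_of_nonneg_right hk2 hρ3'.le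
    have h2 : (100 * π / ρ + 1) * ρ ^ 3 = 100 * π * ρ ^ 2 + ρ ^ 3 := by
      field_simp
    have h3 : ρ ^ 2 ≤ 1 / 4 := by nlinarith
    nlinarith
  have hp1 : π < 3.15 := Real.pi_lt_d2
  have hp2 : π ^ 2 ≤ 10 := by nlinarith [Real.pi_gt_three]
  have key : (N : ℝ) * ρ ^ 3 ≤ (80 * π ^ 2 + 12 * (k * ρ ^ 3) + 2 * ρ ^ 3) * n ^ 2 := by
    calc (N : ℝ) * ρ ^ 3 ≤ (S₁.card + S₂.card + 2 * n ^ 2) * ρ ^ 3 :=
          mul_le_mul_of_nonneg_right hN hρ3'.le
      _ = S₁.card * ρ ^ 3 + S₂.card * ρ ^ 3 + 2 * n ^ 2 * ρ ^ 3 := by ring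
      _ ≤ 80 * π ^ 2 * n ^ 2 + (12 * k * n ^ 2) * ρ ^ 3 + 2 * n ^ 2 * ρ ^ 3 := by
          have := mul_le_mul_of_nonneg_right hc2' hρ3'.le
          linarith
      _ = _ := by ring
  refine key.trans (mul_le_mul_of_nonneg_right ?_ hn)
  linarith

end

end Pool.Agent.N224.SF
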