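import Pool.Agent.N224.SF.D3
import Pool.Agent.N224.SF.COUNT

/-! Project SF (helper224): the sharper count of triples (helper572, after COUNT of helper832). -/

set_option autoImplicit false

open Real Set MeasureTheory Topology Filter
open scoped ENNReal

namespace Pool.Agent.N224.SF

noncomputable section

open Pool.Agent.H709R2 (rot wedge field)
open Pool.Agent.H709U (rf Orb)
open Pool.Agent.N224.Hil (Loop wn ins fill)
open COUNT (A shift lab_mod finA)

namespace COUNT2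

lemma sin_pos' {u v y : ℝ} (h0 : 0 < u) (h1 : v < π) (hy : y ∈ Icc u v) : 0 < sin y :=
  Real.sin_pos_of_pos_of_lt_pi (lt_of_lt_of_le h0 hy.1) (lt_of_le_of_lt hy.2 h1)

/-- the integral of `1 / sin²` -/
lemma integral_ct {u v : ℝ} (huv : u ≤ v) (h0 : 0 < u) (h1 : v < π) :
    IntegrableOn (fun y : ℝ => 1 / sin y ^ 2) (Ioo u v) ∧
      ∫ y in Ioo u v, 1 / sin y ^ 2 = ct u - ct v := by
  have hd : ∀ y ∈ uIcc u v, HasDerivAt (fun y => -ct y) (1 / sin y ^ 2) y := by
    intro y hy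
    rw [uIcc_of_le huv] at hy
    have hs := sin_pos' h0 h1 hy
    have h2 : HasDerivAt (fun y => -(cos y / sin y))
        (-((-sin y * sin y - cos y * cos y) / sin y ^ 2)) y :=
      ((Real.hasDerivAt_cos y).div (Real.hasDerivAt_sin y) hs.ne').neg
    have h3 : -((-sin y * sin y - cos y * cos y) / sin y ^ 2) = 1 / sin y ^ 2 := by
      rw [← neg_div]
      congr 1
      have := Real.sin_sq_add_cos_sq y
      nlinarith
    rw [h3] at h2
    exact h2
  have hc : ContinuousOn (fun y : ℝ => 1 / sin y ^ 2) (Icc u v) := by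
    refine continuousOn_const.div (Real.continuous_sin.pow 2).continuousOn fun y hy => ?_
    exact pow_ne_zero 2 (sin_pos' h0 h1 hy).ne'
  have hi : IntervalIntegrable (fun y : ℝ => 1 / sin y ^ 2) volume u v := by
    apply ContinuousOn.intervalIntegrable
    rwa [uIcc_of_le huv]
  refine ⟨(hc.integrableOn_compact isCompact_Icc).mono_set Ioo_subset_Icc_self, ?_⟩
  rw [← integral_Ioc_eq_integral_Ioo, ← intervalIntegral.integral_of_le huv,
    intervalIntegral.integral_eq_sub_of_hasDerivAt hd hi]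
  ring

lemma ct_anti {u v : ℝ} (huv : u ≤ v) (h0 : 0 < u) (h1 : v < π) : 0 ≤ ct u - ct v := by
  rw [← (integral_ct huv h0 h1).2]
  exact integral_nonneg fun y => by positivity

lemma lint_ct {u v : ℝ} (huv : u ≤ v) (h0 : 0 < u) (h1 : v < π) :
    ∫⁻ y in Ioo u v, ENNReal.ofReal (1 / sin y ^ 2) = ENNReal.ofReal (ct u - ct v) := by
  obtain ⟨h2, h3⟩ := integral_ct huv h0 h1
  rw [← h3, ofReal_integral_eq_lintegral_ofReal h2 (Eventually.of_forall fun y => by positivity)]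

/-- the count over one angle -/
lemma one_angle {n k : ℕ} (hk : 0 < k) (F : ℝ × ℝ → ℝ × ℝ) (φ : ℝ) {ι : Type} [Fintype ι]
    (u v : ι → ℝ) (j : ι → ℤ) (pt : ι → ℝ → ℝ × ℝ)
    (h2 : ∀ i, ∀ ω ∈ Ioo (u i) (v i), pt i ω ∈ A F (lab φ k (j i)) ω)
    (h3 : ∀ (z : ℝ × ℝ) (T : Finset ι) (w : ι → ℝ),
      (∀ i ∈ T, w i ∈ Ioo (u i) (v i) ∧ pt i (w i) = z) → T.card ≤ 2)
    (y : ℝ) (h4 : ∀ j0 : ℕ, (A F (lab φ k (j0 : ℤ)) (y + lab φ k (j0 : ℤ))).encard ≤
      ((2 * n ^ 2 : ℕ) : ℕ∞))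
    (T : Finset ι) (hT : ∀ i ∈ T, y + lab φ k (j i) ∈ Ioo (u i) (v i)) :
    T.card ≤ 4 * k * n ^ 2 := by
  classical
  choose E hE1 hE2 using fun j0 => finA (h4 j0)
  let EE : Finset (ℝ × ℝ) := (Finset.range k).biUnion E
  have hEE : EE.card ≤ k * (2 * n ^ 2) := by
    refine (Finset.card_biUnion_le_card_mul _ _ (2 * n ^ 2) fun j0 _ => hE1 j0).trans ?_
    rw [Finset.card_range]
  have hmap : ∀ i ∈ T, pt i (y + lab φ k (j i)) ∈ EE := by
    intro i hi
    have h5 := h2 i _ (hT i hi)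
    obtain ⟨j0, l, hj0, hl⟩ := lab_mod φ hk (j i)
    have e : y + lab φ k (j i) = (y + lab φ k (j0 : ℤ)) + l * π := by rw [hl]; ring
    have h6 : A F (lab φ k (j i)) (y + lab φ k (j i)) =
        A F (lab φ k (j0 : ℤ)) (y + lab φ k (j0 : ℤ)) := by
      rw [e, hl, shift]
    rw [h6] at h5
    exact Finset.mem_biUnion.2 ⟨j0, Finset.mem_range.2 hj0, hE2 j0 _ h5⟩
  have hcard := Finset.card_le_mul_card_image_of_maps_to hmap 2 (fun z _ =>
    h3 z _ (fun i => y + lab φ k (j i)) (fun i hi => by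
      rw [Finset.mem_filter] at hi
      exact ⟨hT i hi.1, hi.2⟩))
  calc T.card ≤ 2 * EE.card := hcard
    _ ≤ 2 * (k * (2 * n ^ 2)) := Nat.mul_le_mul_left _ hEE
    _ = 4 * k * n ^ 2 := by ring

/-- the total weight of the intervals -/
lemma total {n k : ℕ} (hk : 0 < k) (F : ℝ × ℝ → ℝ × ℝ) (φ : ℝ) {ι : Type} [Fintype ι]
    (u v : ι → ℝ) (j : ι → ℤ) (pt : ι → ℝ → ℝ × ℝ) {a b c : ℝ} (hab : a < b) (hbc : b < c)
    (hca : c ≤ a + π)
    (h1 : ∀ i, u i ≤ v i ∧ lab φ k (j i) + c ≤ u i ∧ v i ≤ lab φ k (j i) + a + π)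
    (h2 : ∀ i, ∀ ω ∈ Ioo (u i) (v i), pt i ω ∈ A F (lab φ k (j i)) ω)
    (h3 : ∀ (z : ℝ × ℝ) (T : Finset ι) (w : ι → ℝ),
      (∀ i ∈ T, w i ∈ Ioo (u i) (v i) ∧ pt i (w i) = z) → T.card ≤ 2)
    (h4 : ∀ j0 : ℕ, ∀ᵐ ω, (A F (lab φ k (j0 : ℤ)) ω).encard ≤ ((2 * n ^ 2 : ℕ) : ℕ∞)) :
    ∑ i, (ct (u i - lab φ k (j i) - b) - ct (v i - lab φ k (j i) - b)) ≤
      4 * k * n ^ 2 * (ct (c - b) - ct (a + π - b)) := by
  classical
  have hπ := Real.pi_pos
  have hc0 : 0 < c - b := by linarith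
  have ha0 : a + π - b < π := by linarith
  have hca' : c - b ≤ a + π - b := by linarith
  have hu0 : ∀ i, 0 < u i - lab φ k (j i) - b := fun i => by linarith [(h1 i).2.1]
  have hv0 : ∀ i, v i - lab φ k (j i) - b < π := fun i => by linarith [(h1 i).2.2]
  have huv : ∀ i, u i - lab φ k (j i) - b ≤ v i - lab φ k (j i) - b :=
    fun i => by linarith [(h1 i).1]
  have h4' : ∀ j0 : ℕ, ∀ᵐ y : ℝ, (A F (lab φ k (j0 : ℤ)) ((y + b) + lab φ k (j0 : ℤ))).encard ≤
      ((2 * n ^ 2 : ℕ) : ℕ∞) := by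
    intro j0
    have h5 := (measurePreserving_add_right volume (b + lab φ k (j0 : ℤ))).quasiMeasurePreserving.ae
      (h4 j0)
    filter_upwards [h5] with y hy
    rw [add_assoc]
    exact hy
  have h5 : ∀ᵐ y : ℝ, ∑ i, (Ioo (u i - lab φ k (j i) - b) (v i - lab φ k (j i) - b)).indicator
        (fun y => ENNReal.ofReal (1 / sin y ^ 2)) y
      ≤ (Ioo (c - b) (a + π - b)).indicator
        (fun y => ((4 * k * n ^ 2 : ℕ) : ℝ≥0∞) * ENNReal.ofReal (1 / sin y ^ 2)) y := by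
    filter_upwards [ae_all_iff.2 h4'] with y hy
    by_cases hI : y ∈ Ioo (c - b) (a + π - b)
    · rw [indicator_of_mem hI]
      have e : ∑ i, (Ioo (u i - lab φ k (j i) - b) (v i - lab φ k (j i) - b)).indicator
          (fun y => ENNReal.ofReal (1 / sin y ^ 2)) y
          = ((Finset.univ.filter fun i =>
            y ∈ Ioo (u i - lab φ k (j i) - b) (v i - lab φ k (j i) - b)).card : ℝ≥0∞) *
              ENNReal.ofReal (1 / sin y ^ 2) := by
        simp only [indicator_apply]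
        rw [← Finset.sum_filter, Finset.sum_const, nsmul_eq_mul]
      rw [e]
      have := one_angle hk F φ u v j pt h2 h3 (y + b) hy
        (Finset.univ.filter fun i =>
          y ∈ Ioo (u i - lab φ k (j i) - b) (v i - lab φ k (j i) - b))
        (fun i hi => by
          have h6 := (Finset.mem_filter.1 hi).2
          exact ⟨by linarith [h6.1], by linarith [h6.2]⟩)
      gcongr
    · rw [indicator_of_notMem hI]
      refine (Finset.sum_eq_zero fun i _ => indicator_of_notMem (fun h => hI ?_) _).le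
      exact ⟨by linarith [h.1, (h1 i).2.1], by linarith [h.2, (h1 i).2.2]⟩
  have hmeas : Measurable (fun y : ℝ => ENNReal.ofReal (1 / sin y ^ 2)) := by fun_prop
  have h6 : ∑ i, ENNReal.ofReal (ct (u i - lab φ k (j i) - b) - ct (v i - lab φ k (j i) - b)) ≤
      ((4 * k * n ^ 2 : ℕ) : ℝ≥0∞) * ENNReal.ofReal (ct (c - b) - ct (a + π - b)) := by
    calc ∑ i, ENNReal.ofReal (ct (u i - lab φ k (j i) - b) - ct (v i - lab φ k (j i) - b))
        = ∑ i, ∫⁻ y, (Ioo (u i - lab φ k (j i) - b) (v i - lab φ k (j i) - b)).indicator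
          (fun y => ENNReal.ofReal (1 / sin y ^ 2)) y :=
          Finset.sum_congr rfl fun i _ => by
            rw [lintegral_indicator measurableSet_Ioo, lint_ct (huv i) (hu0 i) (hv0 i)]
      _ = ∫⁻ y, ∑ i, (Ioo (u i - lab φ k (j i) - b) (v i - lab φ k (j i) - b)).indicator
          (fun y => ENNReal.ofReal (1 / sin y ^ 2)) y := by
          rw [lintegral_finsetSum]
          exact fun i _ => hmeas.indicator measurableSet_Ioo
      _ ≤ ∫⁻ y, (Ioo (c - b) (a + π - b)).indicator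
          (fun y => ((4 * k * n ^ 2 : ℕ) : ℝ≥0∞) * ENNReal.ofReal (1 / sin y ^ 2)) y :=
          lintegral_mono_ae h5
      _ = ((4 * k * n ^ 2 : ℕ) : ℝ≥0∞) * ENNReal.ofReal (ct (c - b) - ct (a + π - b)) := by
          rw [lintegral_indicator measurableSet_Ioo, lintegral_const_mul _ hmeas,
            lint_ct hca' hc0 ha0]
  have h7 := ct_anti hca' hc0 ha0
  rw [← ENNReal.ofReal_sum_of_nonneg (fun i _ => ct_anti (huv i) (hu0 i) (hv0 i)),
    ← ENNReal.ofReal_natCast, ← ENNReal.ofReal_mul (by positivity),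
    ENNReal.ofReal_le_ofReal_iff (by positivity)] at h6
  push_cast at h6
  exact h6

/-- the cotangent is at most `1 / x` -/
lemma ct_le {x ρ : ℝ} (hρ : 0 < ρ) (h0 : ρ ≤ x) (h1 : x ≤ 1) : ct x ≤ 1 / ρ := by
  have hx : 0 < x := by linarith
  have hp : x < π / 2 := by linarith [Real.pi_gt_three]
  have hcos : 0 < cos x := Real.cos_pos_of_mem_Ioo ⟨by linarith, hp⟩
  have hsin : 0 < sin x := Real.sin_pos_of_pos_of_lt_pi hx (by linarith)
  have h2 := Real.le_tan hx.le hp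
  rw [Real.tan_eq_sin_div_cos, le_div_iff₀ hcos] at h2
  unfold ct
  rw [div_le_div_iff₀ hsin hρ]
  nlinarith

lemma ct_pi_sub (x : ℝ) : ct (π - x) = -ct x := by
  unfold ct
  rw [Real.cos_pi_sub, Real.sin_pi_sub, neg_div]

end COUNT2

open COUNT2 in
/-- COUNT2 -/
theorem count2 (hC : S_CORE2) (hB : S_BEZ) (hZ : S_CHAIN) : S_COUNT2 := by
  classical
  intro n P Q hP hQ hrel ρ a b c hρ hab hbc hca ga gb gc N O M K hstd hdis
  obtain ⟨Z, hZc, hZ0⟩ := Pool.Agent.H709U.b3 n P Q hP hQ hrel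
  have hsm : ContDiff ℝ 4 (field P Q) := Pool.Agent.H709R2.contDiff_field P Q
  have hbez := hB n P Q hP hQ hrel
  generalize field P Q = F at *
  have hπ := Real.pi_pos
  have hρ2 : ρ ≤ 1 / 2 := by linarith
  obtain ⟨k, hk⟩ : ∃ k : ℕ, k = ⌈100 * π / ρ⌉₊ := ⟨_, rfl⟩
  have hk1 : 100 * π / ρ ≤ k := by rw [hk]; exact Nat.le_ceil _
  have hk2 : (k : ℝ) ≤ 100 * π / ρ + 1 := by
    rw [hk]; exact (Nat.ceil_lt_add_one (by positivity)).le
  have hk4 : 4 ≤ k := by
    have h1 : 100 * π ≤ 100 * π / ρ := by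
      rw [le_div_iff₀ hρ]
      nlinarith
    have h2 : (4 : ℝ) ≤ k := by linarith [Real.pi_gt_three]
    exact_mod_cast h2
  have hk0 : 0 < k := by omega
  have hkR : (0 : ℝ) < k := by exact_mod_cast hk0
  have hkh : π / k ≤ ρ / 100 := by
    rw [div_le_iff₀ hρ] at hk1
    rw [div_le_div_iff₀ hkR (by norm_num)]
    linarith
  -- the choice of the angle
  have tr : ∀ {p : ℝ → Prop}, (∀ᵐ ψ : ℝ, p ψ) → ∀ᵐ φ : ℝ, ∀ j : ℤ, p (lab φ k j) := by
    intro p hp
    rw [ae_all_iff]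
    intro j
    exact (measurePreserving_add_right volume ((j : ℝ) * (π / k))).quasiMeasurePreserving.ae hp
  have hB' : ∀ᵐ ψ : ℝ, ∀ᵐ ω : ℝ, (A F ψ ω).encard ≤ ((2 * n ^ 2 : ℕ) : ℕ∞) :=
    Measure.ae_ae_of_ae_prod hbez
  obtain ⟨φ, hφa, hφb, hφc, hφB⟩ := ((tr ga).and ((tr gb).and ((tr gc).and (tr hB')))).exists
  -- the chain
  obtain ⟨S, nx, hS1, hS2, hS3⟩ := hZ F Z a b c N O M K hsm hZ0 (by linarith) (by linarith) hca
    hstd hdis
  let S₁ : Finset (Fin N) := S.filter fun i => NC F φ k (O i) (M i) (K i) (M (nx i))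
  let S₂ : Finset (Fin N) := S.filter fun i => ¬ NC F φ k (O i) (M i) (K i) (M (nx i))
  have hS12 : S₁.card + S₂.card = S.card := Finset.card_filter_add_card_filter_not _
  -- the second part
  have hc2 : S₂.card ≤ 12 * k * n ^ 2 := by
    let al : Fin 3 → ℝ := ![a, b, c]
    have hal : ∀ (q : Fin 3) (j : ℤ),
        (A F (lab φ k j) (lab φ k j + al q)).encard ≤ ((2 * n ^ 2 : ℕ) : ℕ∞) := by
      intro q j
      fin_cases q
      · exact hφa j
      · exact hφb j
      · exact hφc j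
    choose E hE1 hE2 using fun (p : Fin 3 × ℕ) => finA (hal p.1 (p.2 : ℤ))
    let EE : Finset (ℝ × ℝ) := ((Finset.univ : Finset (Fin 3)) ×ˢ Finset.range k).biUnion E
    have hEE : EE.card ≤ 3 * k * (2 * n ^ 2) := by
      refine (Finset.card_biUnion_le_card_mul _ _ (2 * n ^ 2) fun p _ => hE1 p).trans ?_
      rw [Finset.card_product, Finset.card_range, Finset.card_univ, Fintype.card_fin]
    have hex : ∀ i ∈ S₂, ∃ z ∈ EE, z ∈ (O i).fl F \ (M (nx i)).inn F := by
      intro i hi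
      obtain ⟨hiS, hnc⟩ := Finset.mem_filter.1 hi
      have hT : ∃ q : Fin 3, ¬ Tr F φ k ((O i).fl F \ (M (nx i)).inn F) (al q) := by
        by_contra hcon
        push Not at hcon
        apply hnc
        refine ⟨?_, ?_, ?_⟩
        · rw [(hstd i).aO]; exact hcon 0
        · rw [(hstd i).aM]; exact hcon 1
        · rw [(hstd i).aK]; exact hcon 2
      obtain ⟨q, hq⟩ := hT
      unfold Tr at hq
      push Not at hq
      obtain ⟨z, hz, j, hj, hkd⟩ := hq
      have hzA : z ∈ A F (lab φ k j) (lab φ k j + al q) := by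
        refine ⟨(hS2 i hiS).ne z hz, ?_, hkd⟩
        obtain ⟨r, hr, hFz⟩ := hj
        unfold iso wedge
        rw [hFz]
        simp
        ring
      obtain ⟨j0, l, hj0, hl⟩ := lab_mod φ hk0 j
      have e : lab φ k j + al q = (lab φ k (j0 : ℤ) + al q) + l * π := by rw [hl]; ring
      rw [e, hl, shift] at hzA
      exact ⟨z, Finset.mem_biUnion.2 ⟨(q, j0), Finset.mem_product.2 ⟨Finset.mem_univ _,
        Finset.mem_range.2 hj0⟩, hE2 (q, j0) z hzA⟩, hz⟩
    choose! z hz1 hz2 using hex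
    have := Finset.card_le_mul_card_image_of_maps_to hz1 2 (fun y _ =>
      hS3 y _ ((Finset.filter_subset _ _).trans (Finset.filter_subset _ _)) (fun i hi => by
        obtain ⟨h1, h2⟩ := Finset.mem_filter.1 hi
        rw [← h2]
        exact hz2 i h1))
    calc S₂.card ≤ 2 * EE.card := this
      _ ≤ 2 * (3 * k * (2 * n ^ 2)) := Nat.mul_le_mul_left _ hEE
      _ = 12 * k * n ^ 2 := by ring
  -- the first part
  have hc1 : (S₁.card : ℝ) * (ρ / (20 * (π / k))) ≤ 4 * k * n ^ 2 * (2 / ρ) := by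
    have hcore : ∀ i : {i // i ∈ S₁}, _ := fun i =>
      hC F (O i) (M i) (K i) (M (nx i)) φ k ρ hρ hρ2 hk4 hkh
        (by rw [(hstd i).aO, (hstd i).aM]; exact hab)
        (by rw [(hstd i).aM, (hstd i).aK]; exact hbc)
        (hS2 i (Finset.mem_filter.1 i.2).1) (Finset.mem_filter.1 i.2).2
    choose m u v j pt q1 q2 q3 q4 using hcore
    have htot := total (n := n) (k := k) hk0 F φ (ι := Σ i : {i // i ∈ S₁}, Fin (m i))
      (fun x => u x.1 x.2) (fun x => v x.1 x.2) (fun x => j x.1 x.2) (fun x => pt x.1 x.2)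
      (a := a) (b := b) (c := c) (by linarith) (by linarith) (by linarith [Real.pi_gt_three])
      (fun x => by
        have h5 := q1 x.1 x.2
        rw [(hstd x.1).aO, (hstd x.1).aK] at h5
        exact h5)
      (fun x ω hω => by
        obtain ⟨_, h2, h3, h4⟩ := q2 x.1 x.2 ω hω
        exact ⟨h2, h3, h4⟩)
      (fun z T w hT => by
        have h1 : (T.image fun x => (x.1 : Fin N)).card ≤ 2 := by
          refine hS3 z _ ?_ ?_
          · intro i hi
            obtain ⟨x, _, rfl⟩ := Finset.mem_image.1 hi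
            exact (Finset.mem_filter.1 x.1.2).1
          · intro i hi
            obtain ⟨x, hx, rfl⟩ := Finset.mem_image.1 hi
            obtain ⟨h2, h3⟩ := hT x hx
            have := (q2 x.1 x.2 _ h2).1
            rw [← h3]
            exact this
        rwa [Finset.card_image_of_injOn] at h1
        intro x hx y hy hxy
        obtain ⟨i, l⟩ := x
        obtain ⟨i', l'⟩ := y
        have hii : i = i' := Subtype.ext hxy
        subst hii
        by_contra hne
        have hll : l ≠ l' := fun h => hne (by rw [h])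
        obtain ⟨h2, h3⟩ := hT _ hx
        obtain ⟨h4, h5⟩ := hT _ hy
        exact q3 i l l' hll _ h2 _ h4 (h3.trans h5.symm))
      (fun j0 => hφB j0)
    have hct : ct (c - b) - ct (a + π - b) ≤ 2 / ρ := by
      have e1 : a + π - b = π - (b - a) := by ring
      rw [e1, ct_pi_sub]
      have h1 := ct_le hρ hbc (by linarith : c - b ≤ 1)
      have h2 := ct_le hρ hab (by linarith : b - a ≤ 1)
      have h3 : 2 / ρ = 1 / ρ + 1 / ρ := by ring
      linarith
    refine le_trans (le_trans ?_ htot) (mul_le_mul_of_nonneg_left hct (by positivity))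
    rw [Fintype.sum_sigma]
    calc (S₁.card : ℝ) * (ρ / (20 * (π / k)))
        = ∑ i : {i // i ∈ S₁}, (ρ / (20 * (π / k))) := by
          rw [Finset.sum_const, Finset.card_univ, Fintype.card_coe, nsmul_eq_mul]
      _ ≤ _ := Finset.sum_le_sum fun i _ => by
          have h5 := q4 i
          rw [(hstd i).aM] at h5
          exact h5
  -- the end
  have hN : (N : ℝ) ≤ S₁.card + S₂.card + 2 * n ^ 2 := by
    have h1 : N ≤ S₁.card + S₂.card + 2 * n ^ 2 := by rw [hS12]; omega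
    exact_mod_cast h1
  have hc2' : (S₂.card : ℝ) ≤ 12 * k * n ^ 2 := by exact_mod_cast hc2
  have hc1' : (S₁.card : ℝ) * ρ ^ 2 ≤ 160 * π * n ^ 2 := by
    have e : (S₁.card : ℝ) * (ρ / (20 * (π / k))) =
        ((S₁.card : ℝ) * ρ ^ 2) * (k / (20 * π * ρ)) := by
      field_simp
    have e2 : 4 * (k : ℝ) * n ^ 2 * (2 / ρ) = (160 * π * n ^ 2) * (k / (20 * π * ρ)) := by
      field_simp
      ring
    rw [e, e2] at hc1
    exact le_of_mul_le_mul_right hc1 (by positivity)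
  rw [le_div_iff₀ (by positivity)]
  have hn : (0 : ℝ) ≤ (n : ℝ) ^ 2 := by positivity
  have hρs : ρ ^ 2 ≤ 1 / 4 := by nlinarith
  have hρs' : 0 < ρ ^ 2 := by positivity
  have hkρ : k * ρ ^ 2 ≤ 50 * π + 1 / 4 := by
    have h1 : (k : ℝ) * ρ ^ 2 ≤ (100 * π / ρ + 1) * ρ ^ 2 := mul_le_mul_of_nonneg_right hk2 hρs'.le
    have h2 : (100 * π / ρ + 1) * ρ ^ 2 = 100 * π * ρ + ρ ^ 2 := by
      field_simp
    nlinarith
  have hp1 : π < 3.15 := Real.pi_lt_d2
  have key : (N : ℝ) * ρ ^ 2 ≤ (160 * π + 12 * (k * ρ ^ 2) + 2 * ρ ^ 2) * n ^ 2 := by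
    calc (N : ℝ) * ρ ^ 2 ≤ (S₁.card + S₂.card + 2 * n ^ 2) * ρ ^ 2 :=
          mul_le_mul_of_nonneg_right hN hρs'.le
      _ = S₁.card * ρ ^ 2 + S₂.card * ρ ^ 2 + 2 * n ^ 2 * ρ ^ 2 := by ring
      _ ≤ 160 * π * n ^ 2 + (12 * k * n ^ 2) * ρ ^ 2 + 2 * n ^ 2 * ρ ^ 2 := by
          have := mul_le_mul_of_nonneg_right hc2' hρs'.le
          linarith
      _ = _ := by ring
  refine key.trans (mul_le_mul_of_nonneg_right ?_ hn)
  linarith

end

end Pool.Agent.N224.SF
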