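import Pool.Agent.N224.SF.D1

/-! Project SF (helper224), part CYC (helper749): the points of the grid on `M` form a cycle. -/

set_option autoImplicit false

open Real Set MeasureTheory Topology Filter
open scoped ENNReal

namespace Pool.Agent.N224.SF

noncomputable section

open Pool.Agent.H709R2 (rot wedge field)
open Pool.Agent.H709U (rf Orb)
open Pool.Agent.N224.Hil (Loop wn ins fill)

namespace CYC

theorem rot_smul_tau (b r ψ : ℝ) : rot b (r • tau ψ) = r • tau (ψ + b) := by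
  unfold rot tau
  ext
  · simp only [Prod.smul_mk, smul_eq_mul]
    rw [Real.cos_add]
    ring
  · simp only [Prod.smul_mk, smul_eq_mul]
    rw [Real.sin_add]
    ring

theorem wedge_tau_rot (φ b : ℝ) (v : ℝ × ℝ) : wedge (tau (φ + b)) (rot b v) = wedge (tau φ) v := by
  unfold wedge tau rot
  simp only
  rw [Real.cos_add, Real.sin_add]
  have := Real.sin_sq_add_cos_sq b
  linear_combination (cos φ * v.2 - sin φ * v.1) * this

/-- the component in the direction `ψ` -/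
def dt (ψ : ℝ) (v : ℝ × ℝ) : ℝ := cos ψ * v.1 + sin ψ * v.2

theorem eq_dt {ψ : ℝ} {v : ℝ × ℝ} (h : wedge (tau ψ) v = 0) : v = dt ψ v • tau ψ := by
  unfold wedge tau at h
  simp only at h
  have h1 := Real.sin_sq_add_cos_sq ψ
  unfold dt tau
  ext
  · simp only [Prod.smul_mk, smul_eq_mul]
    linear_combination (-v.1) * h1 - sin ψ * h
  · simp only [Prod.smul_mk, smul_eq_mul]
    linear_combination (-v.2) * h1 + cos ψ * h

theorem mem_Gam {F : ℝ × ℝ → ℝ × ℝ} {ψ : ℝ} {z : ℝ × ℝ} (hz : F z ≠ 0) :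
    z ∈ Gam F ψ ↔ iso F ψ z = 0 ∧ 0 ≤ dt ψ (F z) := by
  constructor
  · rintro ⟨r, hr, h⟩
    have h1 := Real.sin_sq_add_cos_sq ψ
    constructor
    · unfold iso wedge tau
      rw [h]
      unfold tau
      simp only [Prod.smul_mk, smul_eq_mul]
      ring
    · rw [h]
      unfold dt tau
      simp only [Prod.smul_mk, smul_eq_mul]
      have h2 : cos ψ * (r * cos ψ) + sin ψ * (r * sin ψ) = r := by
        linear_combination r * h1
      rw [h2]
      exact hr.le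
  · rintro ⟨h1, h2⟩
    have h3 := eq_dt (v := F z) h1
    refine ⟨dt ψ (F z), lt_of_le_of_ne h2 fun h => hz ?_, h3⟩
    rw [h3, ← h, zero_smul]

theorem lab_mod (φ : ℝ) {k : ℕ} (hk : 1 ≤ k) (j : ℤ) :
    tau (lab φ k j) = tau (lab φ k (j % (2 * k))) := by
  have hk0 : (k : ℝ) ≠ 0 := by
    have : 0 < k := hk
    positivity
  have h1 : lab φ k j = lab φ k (j % (2 * k)) + (j / (2 * k) : ℤ) * (2 * π) := by
    unfold lab
    have h2 : (j : ℝ) = ((j % (2 * k) : ℤ) : ℝ) + 2 * k * ((j / (2 * k) : ℤ) : ℝ) := by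
      have h3 := Int.emod_add_mul_ediv j (2 * k)
      exact_mod_cast h3.symm
    rw [h2]
    field_simp
    ring
  rw [h1]
  unfold tau
  rw [Real.cos_add_int_mul_two_pi, Real.sin_add_int_mul_two_pi]

variable {F : ℝ × ℝ → ℝ × ℝ}

theorem isoDiff (hF : ContDiff ℝ 4 F) (ψ : ℝ) : Differentiable ℝ (iso F ψ) := by
  have h1 : Differentiable ℝ F := hF.differentiable (by norm_num)
  have h2 : iso F ψ = fun z => cos ψ * (F z).2 - sin ψ * (F z).1 := by
    funext z
    unfold iso wedge tau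
    rfl
  rw [h2]
  exact (h1.snd.const_mul _).sub (h1.fst.const_mul _)

section orbit

variable {γ : ℝ → ℝ × ℝ} {T b : ℝ}

theorem der_iso (hF : ContDiff ℝ 4 F) (ho : Orb (rf F b) γ T) (ψ t : ℝ) :
    HasDerivAt (fun t => iso F ψ (γ t)) (fderiv ℝ (iso F ψ) (γ t) (rf F b (γ t))) t :=
  ((isoDiff hF ψ) (γ t)).hasFDerivAt.comp_hasDerivAt t (ho.ode t)

theorem F_ne (ho : Orb (rf F b) γ T) (t : ℝ) : F (γ t) ≠ 0 := by
  intro h
  apply ho.ne t
  unfold rf
  rw [h]
  unfold rot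
  simp

theorem cont (ho : Orb (rf F b) γ T) : Continuous γ :=
  continuous_iff_continuousAt.2 fun t => (ho.ode t).continuousAt

/-- The points on one isocline. -/
def P (F : ℝ × ℝ → ℝ × ℝ) (γ : ℝ → ℝ × ℝ) (ψ : ℝ) : Set ℝ := {t | γ t ∈ Gam F ψ}

theorem P_closed (hF : ContDiff ℝ 4 F) (ho : Orb (rf F b) γ T) (ψ : ℝ) : IsClosed (P F γ ψ) := by
  have h1 : P F γ ψ = {t | iso F ψ (γ t) = 0} ∩ {t | 0 ≤ dt ψ (F (γ t))} := by
    ext t
    exact mem_Gam (F_ne ho t)
  rw [h1]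
  have hc : Continuous fun t => F (γ t) := hF.continuous.comp (cont ho)
  refine (isClosed_eq ((isoDiff hF ψ).continuous.comp (cont ho)) continuous_const).inter
    (isClosed_le continuous_const ?_)
  unfold dt
  exact (continuous_const.mul hc.fst).add (continuous_const.mul hc.snd)

theorem P_fin (hF : ContDiff ℝ 4 F) (ho : Orb (rf F b) γ T) (ψ : ℝ)
    (hk : ∀ t, γ t ∈ Gam F ψ → kd F ψ (ψ + b) (γ t) ≠ 0) (u v : ℝ) :
    (P F γ ψ ∩ Icc u v).Finite := by
  by_contra hinf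
  obtain ⟨x, -, hx⟩ := Set.Infinite.exists_accPt_of_subset_isCompact hinf
    (isCompact_Icc (a := u) (b := v)) inter_subset_right
  have hcl : IsClosed (P F γ ψ ∩ Icc u v) := (P_closed hF ho ψ).inter isClosed_Icc
  have hx1 : x ∈ P F γ ψ ∩ Icc u v :=
    isClosed_iff_clusterPt.1 hcl x hx.clusterPt
  have hd := der_iso hF ho ψ x
  have hne : fderiv ℝ (iso F ψ) (γ x) (rf F b (γ x)) ≠ 0 := by
    obtain ⟨r, hr, h⟩ := hx1.1
    have h1 : rf F b (γ x) = r • tau (ψ + b) := by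
      unfold rf
      rw [h, rot_smul_tau]
    rw [h1, map_smul]
    exact smul_ne_zero hr.ne' (hk x hx1.1)
  have h1 := hd.eventually_ne (c := 0) hne
  rw [accPt_iff_frequently_nhdsNE] at hx
  obtain ⟨y, hy1, hy2⟩ := (hx.and_eventually h1).exists
  exact hy2 ((mem_Gam (F_ne ho y)).1 hy1.1).1

/-- The points of the grid. -/
def G (F : ℝ × ℝ → ℝ × ℝ) (γ : ℝ → ℝ × ℝ) (φ : ℝ) (k : ℕ) : Set ℝ := {t | γ t ∈ Grid F φ k}

theorem G_fin (hF : ContDiff ℝ 4 F) (ho : Orb (rf F b) γ T) (φ : ℝ) {k : ℕ} (hk1 : 1 ≤ k)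
    (hk : ∀ (t : ℝ) (j : ℤ), γ t ∈ Gam F (lab φ k j) →
      kd F (lab φ k j) (lab φ k j + b) (γ t) ≠ 0) (u v : ℝ) :
    (G F γ φ k ∩ Icc u v).Finite := by
  have h1 : G F γ φ k ∩ Icc u v ⊆ ⋃ j ∈ (Set.Ico (0 : ℤ) (2 * k)), (P F γ (lab φ k j) ∩ Icc u v) := by
    rintro t ⟨⟨j, hj⟩, ht⟩
    rw [mem_iUnion₂]
    have h2 : (0 : ℤ) < 2 * k := by omega
    refine ⟨j % (2 * k), ⟨Int.emod_nonneg _ h2.ne', Int.emod_lt_of_pos _ h2⟩, ?_, ht⟩
    obtain ⟨r, hr, h⟩ := hj
    refine ⟨r, hr, ?_⟩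
    rw [h, lab_mod φ hk1]
  refine Set.Finite.subset ?_ h1
  exact (Set.finite_Ico _ _).biUnion fun j _ => P_fin hF ho _ (fun t ht => hk t j ht) u v

theorem G_ne (ho : Orb (rf F b) γ T) (φ : ℝ) {k : ℕ} (hk1 : 1 ≤ k) : (G F γ φ k).Nonempty := by
  have hc := cont ho
  obtain ⟨t, -, ht⟩ := exists_hasDerivAt_eq_zero (f := fun t => wedge (tau (φ + b)) (γ t))
    (f' := fun t => wedge (tau (φ + b)) (rf F b (γ t))) ho.pos
    (by
      unfold wedge
      exact ((continuous_const.mul hc.snd).sub (continuous_const.mul hc.fst)).continuousOn)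
    (by
      have := ho.per 0
      rw [zero_add] at this
      show wedge (tau (φ + b)) (γ 0) = wedge (tau (φ + b)) (γ T)
      rw [this])
    (fun t _ => by
      have e1 : HasDerivAt (fun t => (γ t).1) (rf F b (γ t)).1 t :=
        (hasFDerivAt_fst (𝕜 := ℝ) (p := γ t)).comp_hasDerivAt t (ho.ode t)
      have e2 : HasDerivAt (fun t => (γ t).2) (rf F b (γ t)).2 t :=
        (hasFDerivAt_snd (𝕜 := ℝ) (p := γ t)).comp_hasDerivAt t (ho.ode t)
      unfold wedge
      exact (e2.const_mul _).sub (e1.const_mul _))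
  have h1 : wedge (tau φ) (F (γ t)) = 0 := by
    rw [← wedge_tau_rot φ b]
    exact ht
  have h2 := eq_dt h1
  have h3 : dt φ (F (γ t)) ≠ 0 := by
    intro h
    rw [h, zero_smul] at h2
    exact F_ne ho t h2
  have hk0 : (k : ℝ) ≠ 0 := by
    have : 0 < k := hk1
    positivity
  rcases lt_or_gt_of_ne h3 with h4 | h4
  · refine ⟨t, (k : ℤ), -dt φ (F (γ t)), by linarith, ?_⟩
    have h5 : lab φ k (k : ℤ) = φ + π := by
      unfold lab
      push_cast
      field_simp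
    rw [h5]
    have h6 : tau (φ + π) = -tau φ := by
      unfold tau
      rw [Real.cos_add_pi, Real.sin_add_pi]
      rfl
    rw [h6, smul_neg, neg_smul, neg_neg]
    exact h2
  · refine ⟨t, 0, dt φ (F (γ t)), h4, ?_⟩
    have h5 : lab φ k 0 = φ := by
      unfold lab
      simp
    rw [h5]
    exact h2

theorem per_nat (ho : Orb (rf F b) γ T) (t : ℝ) (n : ℕ) : γ (t + n * T) = γ t := by
  induction n with
  | zero => simp
  | succ n ih =>
    rw [← ih]
    have h1 : t + ((n + 1 : ℕ) : ℝ) * T = (t + n * T) + T := by push_cast; ring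
    rw [h1, ho.per]

/-- Enumeration of a discrete periodic set. -/
theorem enum {A : Set ℝ} {T t₀ : ℝ} (hT : 0 < T) (hfin : (A ∩ Ico t₀ (t₀ + T)).Finite)
    (h₀ : t₀ ∈ A) (hper : ∀ (t : ℝ) (n : ℕ), t + n * T ∈ A ↔ t ∈ A) :
    ∃ (m : ℕ) (t : ℕ → ℝ), 1 ≤ m ∧ (∀ i, t (i + m) = t i + T) ∧ (∀ i, t i ∈ A) ∧
      (∀ i < m, t i ∈ Ico t₀ (t₀ + T)) ∧ (∀ i < m, ∀ i' < m, t i = t i' → i = i') ∧
      (∀ i, t i < t (i + 1)) ∧ ∀ i, ∀ s ∈ Ioo (t i) (t (i + 1)), s ∉ A := by
  classical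
  set B : Finset ℝ := hfin.toFinset with hB
  have hmemB : ∀ s, s ∈ B ↔ s ∈ A ∧ s ∈ Ico t₀ (t₀ + T) := by
    intro s
    rw [hB, Set.Finite.mem_toFinset]
    rfl
  have h0B : t₀ ∈ B := (hmemB t₀).2 ⟨h₀, le_rfl, by linarith⟩
  set m := B.card with hm
  have hm1 : 1 ≤ m := Finset.card_pos.2 ⟨t₀, h0B⟩
  set e : Fin m ↪o ℝ := B.orderEmbOfFin hm.symm with he
  have heB : ∀ i, e i ∈ B := fun i => Finset.orderEmbOfFin_mem B hm.symm i
  have hsurj : ∀ s ∈ B, ∃ i, e i = s := by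
    intro s hs
    have h1 : s ∈ Set.range e := by
      rw [he, Finset.range_orderEmbOfFin]
      exact hs
    exact h1
  have he0 : e ⟨0, hm1⟩ = t₀ := by
    obtain ⟨i, hi⟩ := hsurj t₀ h0B
    have h1 : e ⟨0, hm1⟩ ≤ e i := e.monotone (Fin.mk_le_of_le_val (Nat.zero_le _))
    have h2 := ((hmemB _).1 (heB ⟨0, hm1⟩)).2.1
    linarith
  have hlt : ∀ i : ℕ, i % m < m := fun i => Nat.mod_lt _ hm1
  obtain ⟨t, ht⟩ : ∃ t : ℕ → ℝ, ∀ i, t i = e ⟨i % m, hlt i⟩ + ((i / m : ℕ) : ℝ) * T :=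
    ⟨fun i => e ⟨i % m, hlt i⟩ + ((i / m : ℕ) : ℝ) * T, fun _ => rfl⟩
  have ht' : ∀ (q r : ℕ) (hr : r < m), t (m * q + r) = e ⟨r, hr⟩ + (q : ℝ) * T := by
    intro q r hr
    rw [ht]
    have h1 : (m * q + r) % m = r := by
      rw [Nat.mul_add_mod]
      exact Nat.mod_eq_of_lt hr
    have h2 : (m * q + r) / m = q := by
      rw [Nat.mul_add_div hm1, Nat.div_eq_of_lt hr, add_zero]
    rw [h2]
    congr 2
    exact Fin.ext h1
  have hdec : ∀ i : ℕ, i = m * (i / m) + i % m := fun i => (Nat.div_add_mod i m).symm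
  -- the successor
  have hsucc : ∀ i : ℕ, (∃ (q r : ℕ) (hr : r + 1 < m), i = m * q + r ∧
      t i = e ⟨r, by omega⟩ + (q : ℝ) * T ∧ t (i + 1) = e ⟨r + 1, hr⟩ + (q : ℝ) * T) ∨
      ∃ (q r : ℕ) (hr : r + 1 = m), i = m * q + r ∧
      t i = e ⟨r, by omega⟩ + (q : ℝ) * T ∧ t (i + 1) = t₀ + T + (q : ℝ) * T := by
    intro i
    rcases Nat.lt_or_ge (i % m + 1) m with h | h
    · refine Or.inl ⟨i / m, i % m, h, hdec i, ht i, ?_⟩
      have h1 : i + 1 = m * (i / m) + (i % m + 1) := by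
        have := hdec i
        omega
      rw [h1]
      exact ht' _ _ h
    · have h2 : i % m + 1 = m := by
        have := hlt i
        omega
      refine Or.inr ⟨i / m, i % m, h2, hdec i, ht i, ?_⟩
      have h1 : i + 1 = m * (i / m + 1) + 0 := by
        have := hdec i
        rw [Nat.mul_add, Nat.mul_one]
        omega
      rw [h1, ht' _ 0 hm1, he0]
      push_cast
      ring
  refine ⟨m, t, hm1, ?_, ?_, ?_, ?_, ?_, ?_⟩
  · intro i
    rw [ht, ht]
    have h1 : (i + m) % m = i % m := Nat.add_mod_right i m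
    have h2 : (i + m) / m = i / m + 1 := Nat.add_div_right i hm1
    have h3 : (⟨(i + m) % m, hlt (i + m)⟩ : Fin m) = ⟨i % m, hlt i⟩ := Fin.ext h1
    rw [h2, h3]
    push_cast
    ring
  · intro i
    rw [ht, hper]
    exact ((hmemB _).1 (heB _)).1
  · intro i hi
    rw [ht, Nat.div_eq_of_lt hi]
    simp only [Nat.cast_zero, zero_mul, add_zero]
    exact ((hmemB _).1 (heB _)).2
  · intro i hi i' hi' h
    rw [ht, ht, Nat.div_eq_of_lt hi, Nat.div_eq_of_lt hi'] at h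
    simp only [Nat.cast_zero, zero_mul, add_zero] at h
    have h1 := e.injective h
    have h2 : i % m = i' % m := congrArg Fin.val h1
    rwa [Nat.mod_eq_of_lt hi, Nat.mod_eq_of_lt hi'] at h2
  · intro i
    rcases hsucc i with ⟨q, r, hr, -, h1, h2⟩ | ⟨q, r, hr, -, h1, h2⟩
    · rw [h1, h2]
      have h3 : e ⟨r, by omega⟩ < e ⟨r + 1, hr⟩ := e.strictMono (by
        rw [Fin.mk_lt_mk]
        omega)
      linarith
    · rw [h1, h2]
      have h3 := ((hmemB _).1 (heB ⟨r, by omega⟩)).2.2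
      linarith
  · intro i s hs hsA
    rcases hsucc i with ⟨q, r, hr, -, h1, h2⟩ | ⟨q, r, hr, -, h1, h2⟩
    · rw [h1, h2] at hs
      have h3 := ((hmemB _).1 (heB ⟨r, by omega⟩)).2
      have h4 := ((hmemB _).1 (heB ⟨r + 1, hr⟩)).2
      have h5 : s - q * T ∈ B := by
        rw [hmemB]
        refine ⟨?_, ?_, ?_⟩
        · rw [← hper (s - q * T) q, sub_add_cancel]
          exact hsA
        · linarith [hs.1, h3.1]
        · linarith [hs.2, h4.2]
      obtain ⟨j, hj⟩ := hsurj _ h5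
      have h6 : e ⟨r, by omega⟩ < e j := by
        rw [hj]
        linarith [hs.1]
      have h7 : e j < e ⟨r + 1, hr⟩ := by
        rw [hj]
        linarith [hs.2]
      have h8 := e.lt_iff_lt.1 h6
      have h9 := e.lt_iff_lt.1 h7
      rw [Fin.lt_def] at h8 h9
      simp only at h8 h9
      omega
    · rw [h1, h2] at hs
      have h3 := ((hmemB _).1 (heB ⟨r, by omega⟩)).2
      have h5 : s - q * T ∈ B := by
        rw [hmemB]
        refine ⟨?_, ?_, ?_⟩
        · rw [← hper (s - q * T) q, sub_add_cancel]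
          exact hsA
        · linarith [hs.1, h3.1]
        · linarith [hs.2]
      obtain ⟨j, hj⟩ := hsurj _ h5
      have h6 : e ⟨r, by omega⟩ < e j := by
        rw [hj]
        linarith [hs.1]
      have h8 := e.lt_iff_lt.1 h6
      rw [Fin.lt_def] at h8
      simp only at h8
      have := j.2
      omega

end orbit

end CYC

open CYC in
/-- **The points of the grid on `M` form a cycle.** -/
theorem cyc : S_CYC := by
  intro F O M K N φ k hk1 hG
  have ho : Orb (rf F M.ang) M.γ M.T := hG.cf.oM.orb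
  have hF := hG.cf.smooth
  -- the points of `M` are between `O` and `N`
  have hM : ∀ t, M.γ t ∈ O.fl F \ N.inn F := by
    intro t
    constructor
    · exact Or.inr (hG.cf.MO (Or.inl ⟨t, rfl⟩))
    · intro h
      have h1 : M.γ t ∈ M.inn F := hG.cf.KM (Or.inr (hG.cf.NK (Or.inr h)))
      exact h1.1 ⟨t, rfl⟩
  have hkd : ∀ (t : ℝ) (j : ℤ), M.γ t ∈ Gam F (lab φ k j) →
      kd F (lab φ k j) (lab φ k j + M.ang) (M.γ t) ≠ 0 := by
    intro t j h
    obtain ⟨s, -, hs⟩ := hG.gd _ (hM t) j h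
    have h1 := hs M.ang ⟨hG.cf.ab.le, hG.cf.bc.le⟩
    intro h2
    rw [h2, mul_zero] at h1
    exact lt_irrefl 0 h1
  obtain ⟨t₀, h₀⟩ := G_ne ho φ hk1
  have hfin : (G F M.γ φ k ∩ Ico t₀ (t₀ + M.T)).Finite :=
    (G_fin hF ho φ hk1 hkd t₀ (t₀ + M.T)).subset
      (inter_subset_inter_right _ Ico_subset_Icc_self)
  obtain ⟨m, t, hm1, hper, hA, hI, hinj, hlt, hno⟩ := enum ho.pos hfin h₀ (fun s n => by
    show M.γ (s + n * M.T) ∈ Grid F φ k ↔ M.γ s ∈ Grid F φ k
    rw [per_nat ho])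
  refine ⟨m, fun i => M.γ (t i), hm1, ?_, ?_, ?_, ?_⟩
  · intro i
    simp only
    rw [hper, ho.per]
  · intro i
    exact ⟨⟨t i, rfl⟩, hA i⟩
  · intro i hi i' hi' h
    apply hinj i hi i' hi'
    obtain ⟨l, hl⟩ := ho.inj _ _ h
    have h1 := hI i hi
    have h2 := hI i' hi'
    have hT := ho.pos
    have h3 : l = 0 := by
      have h4 : (l : ℝ) * M.T < 1 * M.T := by linarith [h1.2, h2.1]
      have h5 : (-1 : ℝ) * M.T < (l : ℝ) * M.T := by linarith [h1.1, h2.2]
      have h6 := lt_of_mul_lt_mul_right h4 hT.le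
      have h7 := lt_of_mul_lt_mul_right h5 hT.le
      have h8 : l < 1 := by exact_mod_cast h6
      have h9 : -1 < l := by exact_mod_cast h7
      omega
    rw [hl, h3]
    simp
  · intro i
    refine ⟨fun s => M.γ (t i + s), t (i + 1) - t i, by linarith [hlt i], ?_, ?_, ?_, hA i,
      hA (i + 1), ?_⟩
    · simp
    · simp
    · intro s _
      rw [one_smul]
      have h1 := ho.ode (t i + s)
      exact h1.comp_const_add (t i) s
    · intro s hs
      refine hno i (t i + s) ⟨by linarith [hs.1], by linarith [hs.2]⟩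

end

end Pool.Agent.N224.SF
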