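import Pool.Agent.N224.SF.D1
import Mathlib.Analysis.ODE.ExistUnique

/-!
# Task DISJ of project SF: disjointness of strands (helper918)
-/

set_option autoImplicit false

open Real Set MeasureTheory Topology Filter

namespace Pool.Agent.N224.SF

open Pool.Agent.H709R2 (rot wedge)

namespace DISJ

/-- uniqueness of solutions backwards in time, autonomous equation with a `C¹` right-hand side -/
lemma unique_left {X : ℝ × ℝ → ℝ × ℝ} (hX : ContDiff ℝ 1 X) {f g : ℝ → ℝ × ℝ} {a b : ℝ}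
    (hf : ∀ t ∈ Icc a b, HasDerivAt f (X (f t)) t) (hg : ∀ t ∈ Icc a b, HasDerivAt g (X (g t)) t)
    (hfg : f b = g b) : EqOn f g (Icc a b) := by
  have hfc : ContinuousOn f (Icc a b) := fun t ht => (hf t ht).continuousAt.continuousWithinAt
  have hgc : ContinuousOn g (Icc a b) := fun t ht => (hg t ht).continuousAt.continuousWithinAt
  set S : Set (ℝ × ℝ) := f '' Icc a b ∪ g '' Icc a b with hS
  have hSc : IsCompact S := (isCompact_Icc.image_of_continuousOn hfc).union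
    (isCompact_Icc.image_of_continuousOn hgc)
  obtain ⟨K, hK⟩ := LocallyLipschitzOn.exists_lipschitzOnWith_of_compact hSc
    (hX.locallyLipschitz.locallyLipschitzOn)
  exact ODE_solution_unique_of_mem_Icc_left (v := fun _ => X) (s := fun _ => S) (K := K)
    (fun t _ => hK) hfc (fun t ht => (hf t (Ioc_subset_Icc_self ht)).hasDerivWithinAt)
    (fun t ht => Or.inl ⟨t, Ioc_subset_Icc_self ht, rfl⟩) hgc
    (fun t ht => (hg t (Ioc_subset_Icc_self ht)).hasDerivWithinAt)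
    (fun t ht => Or.inr ⟨t, Ioc_subset_Icc_self ht, rfl⟩) hfg

lemma contDiff_iso {F : ℝ × ℝ → ℝ × ℝ} (hF : ContDiff ℝ 4 F) (ψ : ℝ) : ContDiff ℝ 4 (iso F ψ) := by
  unfold iso wedge
  exact (contDiff_const.mul hF.snd).sub (contDiff_const.mul hF.fst)

lemma contDiff_ham {F : ℝ × ℝ → ℝ × ℝ} (hF : ContDiff ℝ 4 F) (ψ s : ℝ) :
    ContDiff ℝ 1 (fun z => s • ham F ψ z) := by
  have h1 : ContDiff ℝ 1 (fderiv ℝ (iso F ψ)) := (contDiff_iso hF ψ).fderiv_right (by norm_num)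
  have h2 : ContDiff ℝ 1 (fun z => ham F ψ z) :=
    ((h1.clm_apply contDiff_const).neg).prodMk (h1.clm_apply contDiff_const)
  exact h2.const_smul s

/-- a strand meets `M` only at its start -/
lemma start {F : ℝ × ℝ → ℝ × ℝ} {O M K N : Cyc} (hC : Conf F O M K N) {ψ s : ℝ} {σ : ℝ → ℝ × ℝ}
    {L₁ L₂ δ : ℝ} (hS : Strand F O M K N ψ s σ L₁ L₂ δ) {r : ℝ} (hr : r ∈ Icc 0 L₂)
    (hM : σ r ∈ M.rg) : r = 0 := by
  by_contra hr0
  have hpos : 0 < r := lt_of_le_of_ne hr.1 (Ne.symm hr0)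
  have hin : σ r ∈ M.inn F := by
    rcases lt_trichotomy r L₁ with h | h | h
    · exact (hS.mid₁ r ⟨hpos, h⟩).1
    · rw [h]
      exact hC.KM (Or.inl hS.atK)
    · rcases lt_or_eq_of_le hr.2 with h' | h'
      · exact hC.KM (Or.inr (hS.mid₂ r ⟨h, h'⟩).1)
      · rw [h']
        exact hC.KM (Or.inr (hC.NK (Or.inl hS.atN)))
  exact hin.1 hM

lemma tau_eq {r r' ψ ψ' : ℝ} (hr : 0 < r) (hr' : 0 < r') (h : r • tau ψ = r' • tau ψ') :
    tau ψ = tau ψ' := by
  have h1 : r * cos ψ = r' * cos ψ' := congrArg Prod.fst h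
  have h2 : r * sin ψ = r' * sin ψ' := congrArg Prod.snd h
  have h3 : r ^ 2 = r' ^ 2 := by
    have e1 := Real.sin_sq_add_cos_sq ψ
    have e2 := Real.sin_sq_add_cos_sq ψ'
    calc r ^ 2 = (r * cos ψ) ^ 2 + (r * sin ψ) ^ 2 := by linear_combination (-r ^ 2) * e1
      _ = (r' * cos ψ') ^ 2 + (r' * sin ψ') ^ 2 := by rw [h1, h2]
      _ = r' ^ 2 := by linear_combination (r' ^ 2) * e2
  have h4 : r = r' := by
    have := (sq_eq_sq₀ hr.le hr'.le).1 h3
    exact this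
  rw [← h4] at h1 h2
  exact Prod.ext (mul_left_cancel₀ hr.ne' h1) (mul_left_cancel₀ hr.ne' h2)

lemma aux {F : ℝ × ℝ → ℝ × ℝ} {O M K N : Cyc} (hC : Conf F O M K N) {ψ ψ' s s' : ℝ}
    {σ σ' : ℝ → ℝ × ℝ} {L₁ L₂ δ L₁' L₂' δ' : ℝ} (hS : Strand F O M K N ψ s σ L₁ L₂ δ)
    (hS' : Strand F O M K N ψ' s' σ' L₁' L₂' δ') {t t' : ℝ} (ht : t ∈ Icc 0 L₂)
    (ht' : t' ∈ Icc 0 L₂') (htt : t ≤ t') (h : σ t = σ' t') : σ 0 = σ' 0 := by
  have hδ := hS.δ0
  have hδ' := hS'.δ0
  obtain ⟨r, hr, hFr⟩ := hS.gam t ⟨by linarith [ht.1], by linarith [ht.2]⟩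
  obtain ⟨r', hr', hFr'⟩ := hS'.gam t' ⟨by linarith [ht'.1], by linarith [ht'.2]⟩
  have htau : tau ψ = tau ψ' := by
    apply tau_eq hr hr'
    rw [← hFr, ← hFr', h]
  have hiso : iso F ψ = iso F ψ' := by
    funext z
    unfold iso
    rw [htau]
  have hham : ham F ψ = ham F ψ' := by
    funext z
    unfold ham
    rw [hiso]
  have hc1 : cos ψ = cos ψ' := congrArg Prod.fst htau
  have hs1 : sin ψ = sin ψ' := congrArg Prod.snd htau
  have hkd : ∀ α z, kd F ψ (ψ + α) z = kd F ψ' (ψ' + α) z := by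
    intro α z
    have h1 : tau (ψ + α) = tau (ψ' + α) := by
      unfold tau
      rw [Real.cos_add, Real.sin_add, Real.cos_add, Real.sin_add, hc1, hs1]
    unfold kd
    rw [hiso, h1]
  have hα : M.ang ∈ Icc O.ang K.ang := ⟨hC.ab.le, hC.bc.le⟩
  have hss : s = s' := by
    have p1 := hS.pos t ht M.ang hα
    have p2 := hS'.pos t' ht' M.ang hα
    rw [← h, ← hkd] at p2
    rcases hS.s1 with e | e <;> rcases hS'.s1 with e' | e' <;> rw [e] at p1 <;> rw [e'] at p2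
    · rw [e, e']
    · linarith
    · linarith
    · rw [e, e']
  have hX := contDiff_ham hC.smooth ψ s
  have heq := unique_left hX (f := σ) (g := fun r => σ' (r + (t' - t))) (a := 0) (b := t)
    (fun r hr => hS.der r ⟨by linarith [hr.1], by linarith [hr.2, ht.2]⟩)
    (fun r hr => by
      have h1 := hS'.der (r + (t' - t)) ⟨by linarith [hr.1], by linarith [hr.2, ht'.2]⟩
      rw [← hss, ← hham] at h1
      exact h1.comp_add_const r (t' - t))
    (by
      show σ t = σ' (t + (t' - t))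
      rw [h]
      congr 1
      ring)
  have h0 := heq (⟨le_refl _, ht.1⟩ : (0:ℝ) ∈ Icc 0 t)
  have h0' : σ 0 = σ' (t' - t) := by
    have : σ 0 = σ' (0 + (t' - t)) := h0
    rwa [zero_add] at this
  have hz : t' - t = 0 := by
    apply start hC hS' (r := t' - t) ⟨by linarith, by linarith [ht.1, ht'.2]⟩
    rw [← h0']
    exact hS.atM
  rw [h0', hz]

end DISJ

open DISJ in
theorem disj : S_DISJ := by
  intro F O M K N φ k hG j j' s s' σ σ' L₁ L₂ δ L₁' L₂' δ' hS hS' t ht t' ht' h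
  rcases le_total t t' with htt | htt
  · exact aux hG.cf hS hS' ht ht' htt h
  · exact (aux hG.cf hS' hS ht' ht htt h.symm).symm

end Pool.Agent.N224.SF
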