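import Pool.Agent.N224.SF.D2

/-! Project SF (helper224), part FAM (helper622): triples of nested closed orbits from surviving
closed orbits. -/

set_option autoImplicit false

open Real Set MeasureTheory Topology Filter
open scoped ENNReal

namespace Pool.Agent.N224.SF

noncomputable section

open Pool.Agent.H709R2 (rot wedge field ClosedOrbit)
open Pool.Agent.H709U (rf Orb)
open Pool.Agent.N224.Hil (Loop wn ins fill)
open Pool.Agent.W960.HP (Path Good PersG)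

namespace FAM

/-- paths which agree at some inner points start at the same closed orbit -/
lemma agree {X : ℝ → ℝ × ℝ → ℝ × ℝ} {η : ℝ} {a a' : ℝ → ℝ} {γ γ' : ℝ → ℝ → ℝ × ℝ} {T T' : ℝ → ℝ}
    (hX : Good X η) (hη : 0 < η) (P : Path X η a γ T) (P' : Path X η a' γ' T') {s s' : ℝ}
    (hs : s ∈ Ioo (0:ℝ) 1) (hs' : s' ∈ Ioo (0:ℝ) 1) (h : range (γ s) = range (γ' s')) :
    range (γ 0) = range (γ' 0) := by
  set K : Set ℝ := {τ | τ ∈ Icc (0:ℝ) 1 ∧ ∃ τ' ∈ Icc (0:ℝ) 1, range (γ τ) = range (γ' τ')} with hK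
  have hKc : IsClosed K := P.isClosed_agree hX hη.le P' le_rfl
  set A : Set ℝ := K ∩ Ioo 0 1 with hA
  have hAo : IsOpen A := by
    rw [isOpen_iff_mem_nhds]
    rintro x ⟨⟨hx1, y, hy, hxy⟩, hx2⟩
    have hang := P.angle_eq hX hη.le P' hx1 hy hxy
    have hax := P.am x hx2
    have hy0 : 0 < y := by
      rcases eq_or_lt_of_le hy.1 with h0 | h0
      · rw [← h0, P'.a0] at hang
        linarith [hax.1]
      · exact h0
    have hyt : y < 1 := by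
      rcases eq_or_lt_of_le hy.2 with h0 | h0
      · rw [h0, P'.a1] at hang
        linarith [hax.2]
      · exact h0
    filter_upwards [P.cover hX hη.le P' hx2 ⟨hy0, hyt⟩ hxy one_pos, Ioo_mem_nhds hx2.1 hx2.2]
      with w hw hw'
    obtain ⟨y', -, hy', he⟩ := hw
    exact ⟨⟨Ioo_subset_Icc_self hw', y', hy', he⟩, hw'⟩
  have hsub : Ioo 0 1 ⊆ A := by
    refine isPreconnected_Ioo.subset_of_closure_inter_subset hAo
      ⟨s, hs, ⟨Ioo_subset_Icc_self hs, s', Ioo_subset_Icc_self hs', h⟩, hs⟩ ?_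
    rintro x ⟨hx1, hx2⟩
    exact ⟨(hKc.closure_subset_iff.2 inter_subset_left) hx1, hx2⟩
  have h0 : (0:ℝ) ∈ K := by
    refine (hKc.closure_subset_iff.2 (hsub.trans inter_subset_left)) ?_
    rw [closure_Ioo zero_ne_one]
    exact ⟨le_rfl, zero_le_one⟩
  obtain ⟨h01, y, hy, hxy⟩ := h0
  have hang := P.angle_eq hX hη.le P' h01 hy hxy
  rw [P.a0] at hang
  have hy0 : y = 0 := by
    by_contra hcon
    rcases eq_or_lt_of_le hy.2 with h1 | h1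
    · rw [h1, P'.a1] at hang
      linarith
    · have hy' : y ∈ Ioo (0:ℝ) 1 := ⟨lt_of_le_of_ne hy.1 (Ne.symm hcon), h1⟩
      linarith [(P'.am y hy').1]
  rw [hy0] at hxy
  exact hxy

/-- first hitting times are ordered as the values -/
lemma hit_lt {a : ℝ → ℝ} {b b' τ τ' : ℝ} (hbb : b < b') (hτ' : τ' ∈ Ioo (0:ℝ) 1)
    (e : a τ = b) (e' : a τ' = b') (l : ∀ x ∈ Ico 0 τ, a x < b) : τ < τ' := by
  by_contra hcon
  rcases eq_or_lt_of_le (not_lt.1 hcon) with h | h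
  · rw [h, e] at e'
    linarith
  · have := l τ' ⟨hτ'.1.le, h⟩
    linarith

/-- a region which is the union of members of a path -/
lemma region {X : ℝ → ℝ × ℝ → ℝ × ℝ} {η : ℝ} {a : ℝ → ℝ} {γ : ℝ → ℝ → ℝ × ℝ} {T : ℝ → ℝ}
    (P : Path X η a γ T) {τ₀ τ₂ : ℝ} (h0 : τ₀ ∈ Ioo (0:ℝ) 1) (h2 : τ₂ ∈ Ioo (0:ℝ) 1)
    {A B : Set (ℝ × ℝ)} (hA : ∀ s ∈ Icc τ₀ τ₂, range (γ s) ⊆ A)
    (hB : ∀ s ∈ Icc τ₀ τ₂, ∀ z ∈ B, z ∉ range (γ s))
    (hAB : ∀ z ∈ A \ B, ∃ s ∈ Icc τ₀ τ₂, z ∈ range (γ s)) :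
    IsPreconnected (A \ B) := by
  have h : A \ B = (fun q : ℝ × ℝ => γ q.1 q.2) '' (Icc τ₀ τ₂ ×ˢ univ) := by
    ext z
    constructor
    · intro hz
      obtain ⟨s, hs, t, ht⟩ := hAB z hz
      exact ⟨(s, t), ⟨hs, mem_univ _⟩, ht⟩
    · rintro ⟨⟨s, t⟩, ⟨hs, -⟩, rfl⟩
      exact ⟨hA s hs ⟨t, rfl⟩, fun hz => hB s hs _ hz ⟨t, rfl⟩⟩
  rw [h]
  refine IsPreconnected.image (isPreconnected_Icc.prod isPreconnected_univ) _ ?_
  exact P.cont.mono fun q hq => ⟨⟨h0.1.le.trans hq.1.1, hq.1.2.trans h2.2.le⟩, mem_univ _⟩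

/-- the triple of a path -/
lemma triple (hN : S_NEST) (hR : S_REP) {F : ℝ × ℝ → ℝ × ℝ} (hF : ContDiff ℝ 2 F) {σ η : ℝ}
    (hσ : σ = 1 ∨ σ = -1) (hη : 0 < η) (hη1 : η ≤ 1) {α₀ β α₁ : ℝ} (h0 : 0 < α₀) (h01 : α₀ < β)
    (h12 : β < α₁) (h2 : α₁ < η) {a : ℝ → ℝ} {γ : ℝ → ℝ → ℝ × ℝ} {T : ℝ → ℝ}
    (P : Path (fun a => rf F (σ * a)) η a γ T) :
    ∃ (O M K : Cyc) (ε : ℝ), Tri F (σ * α₀) (σ * β) (σ * α₁) ε O M K ∧
      ∀ z ∈ O.fl F \ K.inn F, ∃ s ∈ Ioo (0:ℝ) 1, z ∈ range (γ s) := by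
  have hX : Good (fun a => rf F (σ * a)) η :=
    W960.HP.good_rf hF hσ (by linarith [Real.pi_gt_three])
  obtain ⟨τ₀, m0, e0, l0⟩ := P.exists_hit (b := α₀) ⟨h0, by linarith⟩
  obtain ⟨τ₁, m1, e1, l1⟩ := P.exists_hit (b := β) ⟨by linarith, by linarith⟩
  obtain ⟨τ₂, m2, e2, l2⟩ := P.exists_hit (b := α₁) ⟨by linarith, h2⟩
  have t01 : τ₀ < τ₁ := hit_lt h01 m1 e0 e1 l0
  have t12 : τ₁ < τ₂ := hit_lt h12 m2 e1 e2 l1
  obtain ⟨hnest, ε, hε, hw⟩ := hN _ η a γ T hX hη P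
  have i0 := Ioo_subset_Icc_self m0
  have i1 := Ioo_subset_Icc_self m1
  have i2 := Ioo_subset_Icc_self m2
  have rep : ∀ τ ∈ Icc (0:ℝ) 1, ∃ O : Cyc, O.ang = σ * a τ ∧ Orb (rf F O.ang) O.γ O.T ∧
      O.rg = range (γ τ) ∧ O.fl F = fill (γ τ) (fun t => rf F (σ * a τ) (γ τ t)) (T τ) ∧
      O.inn F = ins (γ τ) (fun t => rf F (σ * a τ) (γ τ t)) (T τ) ∧
      ∀ z ∉ range O.γ, wn O.γ (O.V F) O.T z = 0 ∨ wn O.γ (O.V F) O.T z = ε :=
    fun τ hτ => hR F hF (σ * a τ) ε (γ τ) (T τ) hε (P.pos τ hτ) (P.ode τ hτ) (P.per τ hτ)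
      (P.nc τ hτ) (hw τ hτ)
  obtain ⟨A, aA, oA, -, fA, nA, wA⟩ := rep τ₀ i0
  obtain ⟨M, aM, oM, -, fM, nM, wM⟩ := rep τ₁ i1
  obtain ⟨B, aB, oB, -, fB, nB, wB⟩ := rep τ₂ i2
  rw [e0] at aA
  rw [e1] at aM
  rw [e2] at aB
  have hne : ∀ s ∈ Icc (0:ℝ) 1, ∀ z ∈ range (γ s), F z ≠ 0 := by
    intro s hs z hz hFz
    have h := W960.HP.ne_zero (hX.smooth (a s)) (P.closed hs) hz
    apply h
    show rot (σ * a s) (F z) = 0
    rw [hFz]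
    simp [rot]
  rcases hnest with hn | hn
  · -- the members shrink
    have hreg : ∀ z ∈ A.fl F \ B.inn F, ∃ s ∈ Icc τ₀ τ₂, z ∈ range (γ s) := by
      rw [fA, nB]
      exact (hn τ₀ i0 τ₂ i2 (t01.trans t12)).2
    refine ⟨A, M, B, ε, ⟨hε, Or.inl ⟨aA, aB⟩, aM, oA, oM, oB, wA, wM, wB, ?_, ?_, ?_, ?_⟩, ?_⟩
    · rw [fM, nA]
      exact (hn τ₀ i0 τ₁ i1 t01).1
    · rw [fB, nM]
      exact (hn τ₁ i1 τ₂ i2 t12).1
    · refine region P m0 m2 (fun s hs => ?_) (fun s hs z hz => ?_) hreg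
      · rw [fA]
        rcases eq_or_lt_of_le hs.1 with h | h
        · rw [← h]
          exact subset_union_left
        · have hs1 : s ∈ Icc (0:ℝ) 1 := ⟨m0.1.le.trans hs.1, hs.2.trans m2.2.le⟩
          exact (subset_union_left.trans (hn τ₀ i0 s hs1 h).1).trans subset_union_right
      · rw [nB] at hz
        rcases eq_or_lt_of_le hs.2 with h | h
        · rw [h]
          exact hz.1
        · have hs1 : s ∈ Icc (0:ℝ) 1 := ⟨m0.1.le.trans hs.1, hs.2.trans m2.2.le⟩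
          exact ((hn s hs1 τ₂ i2 h).1 (Or.inr hz)).1
    · intro z hz
      obtain ⟨s, hs, hzs⟩ := hreg z hz
      exact hne s ⟨m0.1.le.trans hs.1, hs.2.trans m2.2.le⟩ z hzs
    · intro z hz
      obtain ⟨s, hs, hzs⟩ := hreg z hz
      exact ⟨s, ⟨m0.1.trans_le hs.1, hs.2.trans_lt m2.2⟩, hzs⟩
  · -- the members grow
    have hreg : ∀ z ∈ B.fl F \ A.inn F, ∃ s ∈ Icc τ₀ τ₂, z ∈ range (γ s) := by
      rw [fB, nA]
      exact (hn τ₀ i0 τ₂ i2 (t01.trans t12)).2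
    refine ⟨B, M, A, ε, ⟨hε, Or.inr ⟨aB, aA⟩, aM, oB, oM, oA, wB, wM, wA, ?_, ?_, ?_, ?_⟩, ?_⟩
    · rw [fM, nB]
      exact (hn τ₁ i1 τ₂ i2 t12).1
    · rw [fA, nM]
      exact (hn τ₀ i0 τ₁ i1 t01).1
    · refine region P m0 m2 (fun s hs => ?_) (fun s hs z hz => ?_) hreg
      · rw [fB]
        rcases eq_or_lt_of_le hs.2 with h | h
        · rw [h]
          exact subset_union_left
        · have hs1 : s ∈ Icc (0:ℝ) 1 := ⟨m0.1.le.trans hs.1, hs.2.trans m2.2.le⟩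
          exact (subset_union_left.trans (hn s hs1 τ₂ i2 h).1).trans subset_union_right
      · rw [nA] at hz
        rcases eq_or_lt_of_le hs.1 with h | h
        · rw [← h]
          exact hz.1
        · have hs1 : s ∈ Icc (0:ℝ) 1 := ⟨m0.1.le.trans hs.1, hs.2.trans m2.2.le⟩
          exact ((hn τ₀ i0 s hs1 h).1 (Or.inr hz)).1
    · intro z hz
      obtain ⟨s, hs, hzs⟩ := hreg z hz
      exact hne s ⟨m0.1.le.trans hs.1, hs.2.trans m2.2.le⟩ z hzs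
    · intro z hz
      obtain ⟨s, hs, hzs⟩ := hreg z hz
      exact ⟨s, ⟨m0.1.trans_le hs.1, hs.2.trans_lt m2.2⟩, hzs⟩

end FAM

theorem fam (hN : S_NEST) (hR : S_REP) : S_FAM := by
  classical
  intro F hF σ η hσ hη hη1 α₀ β α₁ h0 h01 h12 h2
  have hX : Good (fun a => rf F (σ * a)) η :=
    W960.HP.good_rf hF hσ (by linarith [Real.pi_gt_three])
  have hch : ∀ C : Set (ℝ × ℝ), ∃ (O M K : Cyc) (ε : ℝ),
      PersG F (fun _ _ => True) (σ * η) C → Tri F (σ * α₀) (σ * β) (σ * α₁) ε O M K ∧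
      ∃ (a : ℝ → ℝ) (γ : ℝ → ℝ → ℝ × ℝ) (T : ℝ → ℝ), Path (fun a => rf F (σ * a)) η a γ T ∧
        C = range (γ 0) ∧ ∀ z ∈ O.fl F \ K.inn F, ∃ s ∈ Ioo (0:ℝ) 1, z ∈ range (γ s) := by
    intro C
    by_cases h : PersG F (fun _ _ => True) (σ * η) C
    · obtain ⟨a, γ, T, P, -, hC⟩ := (W960.HP.persG_iff hσ hη).1 h
      obtain ⟨O, M, K, ε, hT, hreg⟩ := FAM.triple hN hR hF hσ hη hη1 h0 h01 h12 h2 P
      exact ⟨O, M, K, ε, fun _ => ⟨hT, a, γ, T, P, hC, hreg⟩⟩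
    · exact ⟨⟨0, fun _ => 0, 0⟩, ⟨0, fun _ => 0, 0⟩, ⟨0, fun _ => 0, 0⟩, 0,
        fun h' => absurd h' h⟩
  choose O M K ε hch using hch
  refine ⟨O, M, K, ε, fun C hC => (hch C hC).1, fun C C' hC hC' hne => ?_⟩
  obtain ⟨-, a, γ, T, P, hC0, hreg⟩ := hch C hC
  obtain ⟨-, a', γ', T', P', hC0', hreg'⟩ := hch C' hC'
  rw [Set.disjoint_left]
  intro z hz hz'
  obtain ⟨s, hs, t, ht⟩ := hreg z hz
  obtain ⟨s', hs', t', ht'⟩ := hreg' z hz'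
  apply hne
  rw [hC0, hC0']
  exact FAM.agree hX hη P P' hs hs' (P.meet hX hη.le P' (Ioo_subset_Icc_self hs)
    (Ioo_subset_Icc_self hs') (ht.trans ht'.symm)).2

end

end Pool.Agent.N224.SF
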