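import Pool.Agent.N224.SF.D2

/-! Project SF (helper224): the number of surviving closed orbits from the number of triples. -/

set_option autoImplicit false

open Real Set MeasureTheory Topology Filter
open scoped ENNReal

namespace Pool.Agent.N224.SF

namespace FIN

open Pool.Agent.H709R2 (rot wedge field ClosedOrbit)
open Pool.Agent.H709U (rf Orb)
open Pool.Agent.N224.Hil (Loop wn ins fill)
open Pool.Agent.W960.HP (PersG)

/-- for almost every angle the count is bounded for almost every direction -/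
lemma gen_ae (hB : S_BEZ) {n : ℕ} {P Q : MvPolynomial (Fin 2) ℝ} (hP : P.totalDegree ≤ n)
    (hQ : Q.totalDegree ≤ n) (hrel : IsRelPrime P Q) : ∀ᵐ α : ℝ, Gen n (field P Q) α := by
  have h1 := hB n P Q hP hQ hrel
  -- the shear `(α, ψ) ↦ (ψ, ψ + α)`
  have hsh : MeasurePreserving (fun p : ℝ × ℝ => (p.2, p.2 + p.1)) volume volume := by
    have h2 : MeasurePreserving (fun p : ℝ × ℝ => (p.2, p.1)) volume volume :=
      Measure.measurePreserving_swap
    have h3 : MeasurePreserving (fun p : ℝ × ℝ => (p.1, p.1 + p.2)) volume volume := by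
      exact measurePreserving_prod_add volume volume
    exact h3.comp h2
  have h2 : ∀ᵐ p : ℝ × ℝ, {z | field P Q z ≠ 0 ∧ iso (field P Q) p.2 z = 0 ∧
      kd (field P Q) p.2 (p.2 + p.1) z = 0}.encard ≤ ((2 * n ^ 2 : ℕ) : ℕ∞) :=
    hsh.quasiMeasurePreserving.ae h1
  exact Measure.ae_ae_of_ae_prod h2

/-- exchange of the variables -/
noncomputable def sp (P : MvPolynomial (Fin 2) ℝ) : MvPolynomial (Fin 2) ℝ :=
  MvPolynomial.rename (Equiv.swap (0 : Fin 2) 1) P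

lemma sp_sp (P : MvPolynomial (Fin 2) ℝ) : sp (sp P) = P := by
  unfold sp
  rw [MvPolynomial.rename_rename]
  have : (⇑(Equiv.swap (0 : Fin 2) 1) ∘ ⇑(Equiv.swap (0 : Fin 2) 1)) = id := by
    funext i
    simp
  rw [this]
  exact MvPolynomial.rename_id_apply P

lemma sp_deg (P : MvPolynomial (Fin 2) ℝ) : (sp P).totalDegree ≤ P.totalDegree :=
  MvPolynomial.totalDegree_rename_le _ _

lemma sp_eval (P : MvPolynomial (Fin 2) ℝ) (x y : ℝ) :
    MvPolynomial.eval ![x, y] (sp P) = MvPolynomial.eval ![y, x] P := by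
  unfold sp
  rw [MvPolynomial.eval_rename]
  congr 2
  funext i
  fin_cases i <;> simp

lemma sp_dvd {d P : MvPolynomial (Fin 2) ℝ} (h : d ∣ P) : sp d ∣ sp P :=
  map_dvd (MvPolynomial.rename (Equiv.swap (0 : Fin 2) 1)) h

lemma sp_rel {P Q : MvPolynomial (Fin 2) ℝ} (h : IsRelPrime P Q) : IsRelPrime (-sp Q) (-sp P) := by
  intro d hd hd'
  have h1 : sp d ∣ Q := by
    have := sp_dvd ((dvd_neg).1 hd)
    rwa [sp_sp] at this
  have h2 : sp d ∣ P := by
    have := sp_dvd ((dvd_neg).1 hd')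
    rwa [sp_sp] at this
  have h3 : IsUnit (sp d) := h h2 h1
  have h4 : IsUnit (sp (sp d)) := h3.map (MvPolynomial.rename (Equiv.swap (0 : Fin 2) 1))
  rwa [sp_sp] at h4

lemma neg_rel {P Q : MvPolynomial (Fin 2) ℝ} (h : IsRelPrime P Q) : IsRelPrime (-P) (-Q) := by
  intro d hd hd'
  exact h ((dvd_neg).1 hd) ((dvd_neg).1 hd')

lemma field_neg (P Q : MvPolynomial (Fin 2) ℝ) : field (-P) (-Q) = fun z => -field P Q z := by
  funext z
  simp only [field, map_neg]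
  rfl

lemma field_hat (P Q : MvPolynomial (Fin 2) ℝ) : field (-sp Q) (-sp P) = hatF (field P Q) := by
  funext z
  simp only [field, map_neg, sp_eval, hatF, sw]
  rfl

/-- a triple of nested closed orbits -/
structure T3 (F : ℝ × ℝ → ℝ × ℝ) (ε : ℝ) (O M K : Cyc) : Prop where
  oO : Orb (rf F O.ang) O.γ O.T
  oM : Orb (rf F M.ang) M.γ M.T
  oK : Orb (rf F K.ang) K.γ K.T
  wO : ∀ z ∉ range O.γ, wn O.γ (O.V F) O.T z = 0 ∨ wn O.γ (O.V F) O.T z = ε
  wM : ∀ z ∉ range M.γ, wn M.γ (M.V F) M.T z = 0 ∨ wn M.γ (M.V F) M.T z = ε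
  wK : ∀ z ∉ range K.γ, wn K.γ (K.V F) K.T z = 0 ∨ wn K.γ (K.V F) K.T z = ε
  MO : M.fl F ⊆ O.inn F
  KM : K.fl F ⊆ M.inn F
  ne : ∀ z ∈ O.fl F \ K.inn F, F z ≠ 0

lemma neg_wn (hS : S_SYM) {F : ℝ × ℝ → ℝ × ℝ} {O : Cyc} (hF : Continuous F) {ε : ℝ}
    (h : Orb (rf F O.ang) O.γ O.T)
    (hw : ∀ z ∉ range O.γ, wn O.γ (O.V F) O.T z = 0 ∨ wn O.γ (O.V F) O.T z = ε) :
    ∀ z ∉ range O.neg.γ, wn O.neg.γ (O.neg.V (fun z => -F z)) O.neg.T z = 0 ∨
      wn O.neg.γ (O.neg.V (fun z => -F z)) O.neg.T z = -ε := by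
  intro z hz
  have hz' : z ∉ range O.γ := by
    rintro ⟨t, rfl⟩
    exact hz ⟨-t, by simp [Cyc.neg]⟩
  rw [(hS F O hF h).1.2.2.2 z]
  rcases hw z hz' with h1 | h1
  · left; rw [h1, neg_zero]
  · right; rw [h1]

lemma hat_wn (hS : S_SYM) {F : ℝ × ℝ → ℝ × ℝ} {O : Cyc} (hF : Continuous F) {ε : ℝ}
    (h : Orb (rf F O.ang) O.γ O.T)
    (hw : ∀ z ∉ range O.γ, wn O.γ (O.V F) O.T z = 0 ∨ wn O.γ (O.V F) O.T z = ε) :
    ∀ z ∉ range O.hat.γ, wn O.hat.γ (O.hat.V (hatF F)) O.hat.T z = 0 ∨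
      wn O.hat.γ (O.hat.V (hatF F)) O.hat.T z = ε := by
  intro z hz
  have hz' : sw z ∉ range O.γ := by
    rintro ⟨t, ht⟩
    exact hz ⟨-t, by simp [Cyc.hat, ht, sw]⟩
  rw [(hS F O hF h).2.2.2.2 z]
  exact hw _ hz'

lemma T3.neg (hS : S_SYM) {F : ℝ × ℝ → ℝ × ℝ} (hF : Continuous F) {ε : ℝ} {O M K : Cyc}
    (h : T3 F ε O M K) : T3 (fun z => -F z) (-ε) O.neg M.neg K.neg ∧
      O.neg.fl (fun z => -F z) \ K.neg.inn (fun z => -F z) = O.fl F \ K.inn F := by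
  have hO := (hS F O hF h.oO).1
  have hM := (hS F M hF h.oM).1
  have hK := (hS F K hF h.oK).1
  refine ⟨⟨hO.1, hM.1, hK.1, neg_wn hS hF h.oO h.wO, neg_wn hS hF h.oM h.wM,
    neg_wn hS hF h.oK h.wK, ?_, ?_, ?_⟩, ?_⟩
  · rw [hM.2.1, hO.2.2.1]; exact h.MO
  · rw [hK.2.1, hM.2.2.1]; exact h.KM
  · rw [hO.2.1, hK.2.2.1]
    intro z hz h0
    exact h.ne z hz (neg_eq_zero.1 h0)
  · rw [hO.2.1, hK.2.2.1]

lemma T3.hat (hS : S_SYM) {F : ℝ × ℝ → ℝ × ℝ} (hF : Continuous F) {ε : ℝ} {O M K : Cyc}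
    (h : T3 F ε O M K) : T3 (hatF F) ε O.hat M.hat K.hat ∧
      O.hat.fl (hatF F) \ K.hat.inn (hatF F) = sw ⁻¹' (O.fl F \ K.inn F) := by
  have hO := (hS F O hF h.oO).2
  have hM := (hS F M hF h.oM).2
  have hK := (hS F K hF h.oK).2
  refine ⟨⟨hO.1, hM.1, hK.1, hat_wn hS hF h.oO h.wO, hat_wn hS hF h.oM h.wM,
    hat_wn hS hF h.oK h.wK, ?_, ?_, ?_⟩, ?_⟩
  · rw [hM.2.1, hO.2.2.1]; exact preimage_mono h.MO
  · rw [hK.2.1, hM.2.2.1]; exact preimage_mono h.KM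
  · rw [hO.2.1, hK.2.2.1]
    intro z hz h0
    apply h.ne (sw z) hz
    have h1 : sw (F (sw z)) = 0 := neg_eq_zero.1 h0
    have h2 : sw (sw (F (sw z))) = F (sw z) := rfl
    rw [← h2, h1]
    rfl
  · rw [hO.2.1, hK.2.2.1, preimage_sdiff]

lemma T3.std {F : ℝ × ℝ → ℝ × ℝ} {O M K : Cyc} {a b c : ℝ} (h : T3 F 1 O M K) (ha : O.ang = a)
    (hb : M.ang = b) (hc : K.ang = c) : Std F a b c O M K :=
  ⟨ha, hb, hc, ⟨h.oO, h.wO⟩, ⟨h.oM, h.wM⟩, ⟨h.oK, h.wK⟩, h.MO, h.KM, h.ne⟩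

/-- both orientations -/
lemma count2 (hC : S_COUNT) (hS : S_SYM) {n : ℕ} {P Q : MvPolynomial (Fin 2) ℝ}
    (hP : P.totalDegree ≤ n) (hQ : Q.totalDegree ≤ n) (hrel : IsRelPrime P Q) {ρ a b c : ℝ}
    (hρ : 0 < ρ) (hab : ρ ≤ b - a) (hbc : ρ ≤ c - b) (hca : c - a ≤ 1)
    (g : ∀ x ∈ ({a, b, c} : Set ℝ), Gen n (field P Q) x ∧ Gen n (field (-P) (-Q)) x) {ε : ℝ}
    (hε : ε = 1 ∨ ε = -1) {N : ℕ} (O M K : Fin N → Cyc)
    (hT : ∀ i, T3 (field P Q) ε (O i) (M i) (K i)) (haO : ∀ i, (O i).ang = a)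
    (haM : ∀ i, (M i).ang = b) (haK : ∀ i, (K i).ang = c)
    (hd : ∀ i i', i ≠ i' → Disjoint ((O i).fl (field P Q) \ (K i).inn (field P Q))
      ((O i').fl (field P Q) \ (K i').inn (field P Q))) :
    (N : ℝ) ≤ 2000 * n ^ 2 / ρ ^ 3 := by
  have hcont : Continuous (field P Q) :=
    ((H709R2.contDiff_evalPoly P (m := 0)).continuous).prodMk
      (H709R2.contDiff_evalPoly Q (m := 0)).continuous
  rcases hε with rfl | rfl
  · exact hC n P Q hP hQ hrel ρ a b c hρ hab hbc hca (g a (by simp)).1 (g b (by simp)).1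
      (g c (by simp)).1 N O M K (fun i => (hT i).std (haO i) (haM i) (haK i)) hd
  · have hF : (fun z => -field P Q z) = field (-P) (-Q) := (field_neg P Q).symm
    refine hC n (-P) (-Q) (by rwa [MvPolynomial.totalDegree_neg])
      (by rwa [MvPolynomial.totalDegree_neg]) (neg_rel hrel) ρ a b c hρ hab hbc hca
      (g a (by simp)).2 (g b (by simp)).2 (g c (by simp)).2 N (fun i => (O i).neg)
      (fun i => (M i).neg) (fun i => (K i).neg) (fun i => ?_) ?_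
    · have h1 := ((hT i).neg hS hcont).1
      rw [neg_neg, hF] at h1
      exact h1.std (haO i) (haM i) (haK i)
    · intro i i' hii
      have h1 := ((hT i).neg hS hcont).2
      have h2 := ((hT i').neg hS hcont).2
      rw [hF] at h1 h2
      rw [h1, h2]
      exact hd i i' hii

/-- both orders of the angles -/
lemma count4 (hC : S_COUNT) (hS : S_SYM) {n : ℕ} {P Q : MvPolynomial (Fin 2) ℝ}
    (hP : P.totalDegree ≤ n) (hQ : Q.totalDegree ≤ n) (hrel : IsRelPrime P Q) {ρ a b c : ℝ}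
    (hρ : 0 < ρ) (hab : ρ ≤ a - b) (hbc : ρ ≤ b - c) (hca : a - c ≤ 1)
    (g : ∀ x ∈ ({a, b, c} : Set ℝ), Gen n (field (-sp Q) (-sp P)) (-x) ∧
      Gen n (field (- -sp Q) (- -sp P)) (-x)) {ε : ℝ}
    (hε : ε = 1 ∨ ε = -1) {N : ℕ} (O M K : Fin N → Cyc)
    (hT : ∀ i, T3 (field P Q) ε (O i) (M i) (K i)) (haO : ∀ i, (O i).ang = a)
    (haM : ∀ i, (M i).ang = b) (haK : ∀ i, (K i).ang = c)
    (hd : ∀ i i', i ≠ i' → Disjoint ((O i).fl (field P Q) \ (K i).inn (field P Q))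
      ((O i').fl (field P Q) \ (K i').inn (field P Q))) :
    (N : ℝ) ≤ 2000 * n ^ 2 / ρ ^ 3 := by
  have hcont : Continuous (field P Q) :=
    ((H709R2.contDiff_evalPoly P (m := 0)).continuous).prodMk
      (H709R2.contDiff_evalPoly Q (m := 0)).continuous
  have hF : hatF (field P Q) = field (-sp Q) (-sp P) := (field_hat P Q).symm
  refine count2 hC hS (P := -sp Q) (Q := -sp P) (a := -a) (b := -b) (c := -c) (ε := ε)
    (by rw [MvPolynomial.totalDegree_neg]; exact (sp_deg Q).trans hQ)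
    (by rw [MvPolynomial.totalDegree_neg]; exact (sp_deg P).trans hP) (sp_rel hrel) hρ
    (by linarith) (by linarith) (by linarith) ?_ hε (fun i => (O i).hat) (fun i => (M i).hat)
    (fun i => (K i).hat) (fun i => ?_) (fun i => ?_) (fun i => ?_) (fun i => ?_) ?_
  · intro x hx
    simp only [mem_insert_iff, mem_singleton_iff] at hx
    rcases hx with rfl | rfl | rfl
    · exact g a (by simp)
    · exact g b (by simp)
    · exact g c (by simp)
  · have h1 := ((hT i).hat hS hcont).1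
    rwa [hF] at h1
  · show -(O i).ang = -a
    rw [haO]
  · show -(M i).ang = -b
    rw [haM]
  · show -(K i).ang = -c
    rw [haK]
  · intro i i' hii
    have h1 := ((hT i).hat hS hcont).2
    have h2 := ((hT i').hat hS hcont).2
    rw [hF] at h1 h2
    rw [h1, h2]
    exact (hd i i' hii).preimage _

lemma encard_of_card {X : Type*} {A : Set X} {B : ℝ} (hB : 0 ≤ B)
    (h : ∀ s : Finset X, (s : Set X) ⊆ A → (s.card : ℝ) ≤ B) :
    ∃ N : ℕ, A.encard ≤ N ∧ (N : ℝ) ≤ B := by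
  classical
  refine ⟨⌊B⌋₊, ?_, Nat.floor_le hB⟩
  by_contra hcon
  have h1 : ((⌊B⌋₊ + 1 : ℕ) : ℕ∞) ≤ A.encard := by
    rw [not_le] at hcon
    have := Order.add_one_le_of_lt hcon
    exact_mod_cast this
  obtain ⟨t, htA, ht⟩ := Set.exists_subset_encard_eq h1
  have hfin : t.Finite := Set.finite_of_encard_eq_coe ht
  have h2 := h hfin.toFinset (by simpa using htA)
  have h3 : hfin.toFinset.card = ⌊B⌋₊ + 1 := by
    have := hfin.encard_eq_coe_toFinset_card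
    rw [ht] at this
    exact_mod_cast this.symm
  rw [h3] at h2
  have h4 := Nat.lt_floor_add_one B
  push_cast at h2
  linarith

/-- a point of an interval with a property that holds almost everywhere -/
lemma pick {p : ℝ → Prop} (h : ∀ᵐ x : ℝ, p x) {a b : ℝ} (hab : a < b) : ∃ x ∈ Ioo a b, p x := by
  by_contra hcon
  push Not at hcon
  have h1 : Ioo a b ⊆ {x | ¬ p x} := fun x hx => hcon x hx
  have h2 : volume (Ioo a b) = 0 := measure_mono_null h1 h
  rw [Real.volume_Ioo] at h2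
  simp only [ENNReal.ofReal_eq_zero] at h2
  linarith

end FIN

open FIN in
open Pool.Agent.H709R2 (rot wedge field ClosedOrbit) in
open Pool.Agent.W960.HP (PersG) in
theorem fin' (hF : S_FAM) (hC : S_COUNT) (hS : S_SYM) (hB : S_BEZ) (n : ℕ)
    (P Q : MvPolynomial (Fin 2) ℝ) (hP : P.totalDegree ≤ n) (hQ : Q.totalDegree ≤ n)
    (hrel : IsRelPrime P Q) (σ η : ℝ) (hσ : σ = 1 ∨ σ = -1) (hη : 0 < η) (hη1 : η ≤ 1) :
    ∃ N : ℕ, {C | PersG (field P Q) (fun _ _ => True) (σ * η) C}.encard ≤ N ∧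
      (N : ℝ) ≤ 125000 * n ^ 2 / η ^ 3 := by
  classical
  -- generic angles
  set F := field P Q with hFdef
  have hsm : ContDiff ℝ 2 F :=
    (H709R2.contDiff_evalPoly P).prodMk (H709R2.contDiff_evalPoly Q)
  have g1 := gen_ae hB hP hQ hrel
  have g2 := gen_ae hB (n := n) (P := -P) (Q := -Q) (by rwa [MvPolynomial.totalDegree_neg])
    (by rwa [MvPolynomial.totalDegree_neg]) (neg_rel hrel)
  have d1 : (-sp Q).totalDegree ≤ n := by
    rw [MvPolynomial.totalDegree_neg]; exact (sp_deg Q).trans hQ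
  have d2 : (-sp P).totalDegree ≤ n := by
    rw [MvPolynomial.totalDegree_neg]; exact (sp_deg P).trans hP
  have g3 := gen_ae hB d1 d2 (sp_rel hrel)
  have g4 := gen_ae hB (n := n) (P := - -sp Q) (Q := - -sp P) (by rwa [MvPolynomial.totalDegree_neg])
    (by rwa [MvPolynomial.totalDegree_neg]) (neg_rel (sp_rel hrel))
  have hneg : ∀ {p : ℝ → Prop}, (∀ᵐ x : ℝ, p x) → ∀ᵐ x : ℝ, p (-x) := fun h =>
    (Measure.measurePreserving_neg (volume : Measure ℝ)).quasiMeasurePreserving.ae h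
  have gall : ∀ᵐ x : ℝ, ∀ y ∈ ({x, -x} : Set ℝ), Gen n (field P Q) y ∧ Gen n (field (-P) (-Q)) y ∧
      Gen n (field (-sp Q) (-sp P)) y ∧ Gen n (field (- -sp Q) (- -sp P)) y := by
    filter_upwards [g1, g2, g3, g4, hneg g1, hneg g2, hneg g3, hneg g4] with x a1 a2 a3 a4 b1 b2 b3 b4
    intro y hy
    simp only [mem_insert_iff, mem_singleton_iff] at hy
    rcases hy with rfl | rfl
    · exact ⟨a1, a2, a3, a4⟩
    · exact ⟨b1, b2, b3, b4⟩
  obtain ⟨α₀, hα₀, q₀⟩ := pick gall (show (0:ℝ) < η / 40 by positivity)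
  obtain ⟨β, hβ, qb⟩ := pick gall (show η / 2 - η / 40 < η / 2 + η / 40 by linarith)
  obtain ⟨α₁, hα₁, q₁⟩ := pick gall (show η - η / 40 < η by linarith)
  obtain ⟨O, M, K, ε, hTri, hdis⟩ := hF F hsm σ η hσ hη hη1 α₀ β α₁ hα₀.1
    (by linarith [hα₀.2, hβ.1]) (by linarith [hβ.2, hα₁.1]) hα₁.2
  set ρ : ℝ := 2 * η / 5 with hρ
  have hρ0 : 0 < ρ := by positivity
  have hr1 : ρ ≤ β - α₀ := by rw [hρ]; linarith [hα₀.2, hβ.1]
  have hr2 : ρ ≤ α₁ - β := by rw [hρ]; linarith [hβ.2, hα₁.1]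
  have hr3 : α₁ - α₀ ≤ 1 := by linarith [hα₀.1, hα₁.2]
  -- membership of the signed angles
  have hmem : ∀ x : ℝ, σ * x ∈ ({x, -x} : Set ℝ) ∧ -(σ * x) ∈ ({x, -x} : Set ℝ) := by
    intro x
    rcases hσ with rfl | rfl <;> simp
  have hgen : ∀ x ∈ ({α₀, β, α₁} : Set ℝ), ∀ y ∈ ({σ * x, -(σ * x)} : Set ℝ),
      Gen n (field P Q) y ∧ Gen n (field (-P) (-Q)) y ∧
      Gen n (field (-sp Q) (-sp P)) y ∧ Gen n (field (- -sp Q) (- -sp P)) y := by
    intro x hx y hy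
    simp only [mem_insert_iff, mem_singleton_iff] at hx hy
    have h1 : y ∈ ({x, -x} : Set ℝ) := by
      rcases hy with rfl | rfl
      · exact (hmem x).1
      · exact (hmem x).2
    rcases hx with rfl | rfl | rfl
    · exact q₀ y h1
    · exact qb y h1
    · exact q₁ y h1
  -- one class
  have cls : ∀ (s : Finset (Set (ℝ × ℝ))) (e o k : ℝ), (e = 1 ∨ e = -1) →
      (o = α₀ ∧ k = α₁ ∨ o = α₁ ∧ k = α₀) →
      (∀ C ∈ s, PersG F (fun _ _ => True) (σ * η) C ∧ ε C = e ∧ (O C).ang = σ * o ∧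
        (K C).ang = σ * k) → (s.card : ℝ) ≤ 2000 * n ^ 2 / ρ ^ 3 := by
    intro s e o k he hok hs
    set f : Fin s.card → Set (ℝ × ℝ) := fun i => (s.equivFin.symm i : Set (ℝ × ℝ)) with hf
    have hfs : ∀ i, f i ∈ s := fun i => (s.equivFin.symm i).2
    have hfinj : Function.Injective f := fun i i' h => by
      have := Subtype.ext h
      exact s.equivFin.symm.injective this
    have hT : ∀ i, T3 (field P Q) e (O (f i)) (M (f i)) (K (f i)) := by
      intro i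
      obtain ⟨h1, h2, -, -⟩ := hs _ (hfs i)
      have h3 := hTri _ h1
      rw [h2] at h3
      exact ⟨h3.oO, h3.oM, h3.oK, h3.wO, h3.wM, h3.wK, h3.MO, h3.KM, h3.ne⟩
    have haO : ∀ i, (O (f i)).ang = σ * o := fun i => (hs _ (hfs i)).2.2.1
    have haK : ∀ i, (K (f i)).ang = σ * k := fun i => (hs _ (hfs i)).2.2.2
    have haM : ∀ i, (M (f i)).ang = σ * β := fun i => (hTri _ (hs _ (hfs i)).1).aM
    have hd : ∀ i i', i ≠ i' → Disjoint ((O (f i)).fl (field P Q) \ (K (f i)).inn (field P Q))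
        ((O (f i')).fl (field P Q) \ (K (f i')).inn (field P Q)) := fun i i' hii =>
      hdis _ _ (hs _ (hfs i)).1 (hs _ (hfs i')).1 (fun h => hii (hfinj h))
    have ho : o ∈ ({α₀, β, α₁} : Set ℝ) := by
      rcases hok with ⟨rfl, rfl⟩ | ⟨rfl, rfl⟩ <;> simp
    have hk : k ∈ ({α₀, β, α₁} : Set ℝ) := by
      rcases hok with ⟨rfl, rfl⟩ | ⟨rfl, rfl⟩ <;> simp
    have hb : β ∈ ({α₀, β, α₁} : Set ℝ) := by simp
    -- increasing or decreasing
    by_cases hinc : σ * o < σ * k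
    · have e1 : ρ ≤ σ * β - σ * o ∧ ρ ≤ σ * k - σ * β ∧ σ * k - σ * o ≤ 1 := by
        rcases hσ with rfl | rfl <;> rcases hok with ⟨rfl, rfl⟩ | ⟨rfl, rfl⟩ <;>
          refine ⟨?_, ?_, ?_⟩ <;> linarith
      refine count2 hC hS hP hQ hrel hρ0 e1.1 e1.2.1 e1.2.2 ?_ he (fun i => O (f i))
        (fun i => M (f i)) (fun i => K (f i)) hT haO haM haK hd
      intro x hx
      simp only [mem_insert_iff, mem_singleton_iff] at hx
      rcases hx with rfl | rfl | rfl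
      · exact ⟨(hgen o ho _ (by simp)).1, (hgen o ho _ (by simp)).2.1⟩
      · exact ⟨(hgen β hb _ (by simp)).1, (hgen β hb _ (by simp)).2.1⟩
      · exact ⟨(hgen k hk _ (by simp)).1, (hgen k hk _ (by simp)).2.1⟩
    · have e1 : ρ ≤ σ * o - σ * β ∧ ρ ≤ σ * β - σ * k ∧ σ * o - σ * k ≤ 1 := by
        rcases hσ with rfl | rfl <;> rcases hok with ⟨rfl, rfl⟩ | ⟨rfl, rfl⟩ <;>
          refine ⟨?_, ?_, ?_⟩ <;> linarith
      refine count4 hC hS hP hQ hrel hρ0 e1.1 e1.2.1 e1.2.2 ?_ he (fun i => O (f i))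
        (fun i => M (f i)) (fun i => K (f i)) hT haO haM haK hd
      intro x hx
      simp only [mem_insert_iff, mem_singleton_iff] at hx
      rcases hx with rfl | rfl | rfl
      · exact ⟨(hgen o ho _ (by simp)).2.2.1, (hgen o ho _ (by simp)).2.2.2⟩
      · exact ⟨(hgen β hb _ (by simp)).2.2.1, (hgen β hb _ (by simp)).2.2.2⟩
      · exact ⟨(hgen k hk _ (by simp)).2.2.1, (hgen k hk _ (by simp)).2.2.2⟩
  refine encard_of_card (by positivity) fun s hs => ?_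
  -- the four classes
  set p : Set (ℝ × ℝ) → Prop := fun C => ε C = 1 with hp
  set q : Set (ℝ × ℝ) → Prop := fun C => (O C).ang = σ * α₀ ∧ (K C).ang = σ * α₁ with hq
  have c1 := cls ((s.filter p).filter q) 1 α₀ α₁ (Or.inl rfl) (Or.inl ⟨rfl, rfl⟩) (by
    intro C hC'
    simp only [Finset.mem_filter] at hC'
    exact ⟨hs hC'.1.1, hC'.1.2, hC'.2.1, hC'.2.2⟩)
  have c2 := cls ((s.filter p).filter fun C => ¬ q C) 1 α₁ α₀ (Or.inl rfl) (Or.inr ⟨rfl, rfl⟩) (by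
    intro C hC'
    simp only [Finset.mem_filter] at hC'
    have h3 := (hTri C (hs hC'.1.1)).ang.resolve_left hC'.2
    exact ⟨hs hC'.1.1, hC'.1.2, h3.1, h3.2⟩)
  have c3 := cls ((s.filter fun C => ¬ p C).filter q) (-1) α₀ α₁ (Or.inr rfl)
    (Or.inl ⟨rfl, rfl⟩) (by
    intro C hC'
    simp only [Finset.mem_filter] at hC'
    exact ⟨hs hC'.1.1, (hTri C (hs hC'.1.1)).e1.resolve_left hC'.1.2, hC'.2.1, hC'.2.2⟩)
  have c4 := cls ((s.filter fun C => ¬ p C).filter fun C => ¬ q C) (-1) α₁ α₀ (Or.inr rfl)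
    (Or.inr ⟨rfl, rfl⟩) (by
    intro C hC'
    simp only [Finset.mem_filter] at hC'
    have h3 := (hTri C (hs hC'.1.1)).ang.resolve_left hC'.2
    exact ⟨hs hC'.1.1, (hTri C (hs hC'.1.1)).e1.resolve_left hC'.1.2, h3.1, h3.2⟩)
  have k1 := Finset.card_filter_add_card_filter_not (s := s) p
  have k2 := Finset.card_filter_add_card_filter_not (s := s.filter p) q
  have k3 := Finset.card_filter_add_card_filter_not (s := s.filter fun C => ¬ p C) q
  have hcard : (s.card : ℝ) = ((s.filter p).filter q).card + ((s.filter p).filter fun C => ¬ q C).card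
      + (((s.filter fun C => ¬ p C).filter q).card +
        ((s.filter fun C => ¬ p C).filter fun C => ¬ q C).card) := by
    rw [← k1, ← k2, ← k3]
    push_cast
    ring
  rw [hcard]
  have hfin : 2000 * (n:ℝ) ^ 2 / ρ ^ 3 = 31250 * n ^ 2 / η ^ 3 := by
    rw [hρ]
    field_simp
    ring
  rw [hfin] at c1 c2 c3 c4
  have : 125000 * (n:ℝ) ^ 2 / η ^ 3 = 31250 * n ^ 2 / η ^ 3 + 31250 * n ^ 2 / η ^ 3 +
    (31250 * n ^ 2 / η ^ 3 + 31250 * n ^ 2 / η ^ 3) := by ring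
  rw [this]
  linarith

end Pool.Agent.N224.SF
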