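import Pool.Agent.N224.SF.D1

/-! Project SF (helper224), definitions and statements of the parts, fourth file: the sharper count
`n² / ρ²` of triples, with the cotangent of the angle between the isocline and the field as measure
for the turning. -/

set_option autoImplicit false

open Real Set MeasureTheory Topology Filter
open scoped ENNReal

namespace Pool.Agent.N224.SF

noncomputable section

open Pool.Agent.H709R2 (rot wedge field)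

/-- the cotangent -/
def ct (x : ℝ) : ℝ := cos x / sin x

/-- SUM2: a cycle of cells -/
def S_SUM2 : Prop := ∀ (m : ℕ) (ρ h a b c D : ℝ) (x e n : ℕ → ℝ × ℝ) (ψ β u v : ℕ → ℝ),
  1 ≤ m → 0 < ρ → ρ ≤ 1 / 2 → 0 < h → h ≤ ρ / 100 → ρ ≤ b - a → ρ ≤ c - b → c - a ≤ 1 → 0 < D →
  (∀ i, x (i + m) = x i ∧ e (i + m) = e i ∧ n (i + m) = n i ∧ ψ (i + m) = ψ i ∧
    β (i + m) = β i ∧ u (i + m) = u i ∧ v (i + m) = v i) →
  (∀ i, β i = ψ i + b ∨ β i = ψ i + b - h) →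
  (∀ i, ∃ l : ℤ, ψ (i + 1) + b = β i + 2 * π * l ∨ ψ (i + 1) + b = β i + h + 2 * π * l) →
  (∀ i, u i ∈ Icc (ψ i + c) (ψ i + a + π) ∧ v i ∈ Icc (ψ i + c) (ψ i + a + π)) →
  (∀ i, ∃ r : ℝ, 0 < r ∧ e i - x i = r • tau (u i)) →
  (∀ i, ∃ r : ℝ, 0 < r ∧ n i - e i = r • tau (v i)) →
  (∀ i, ∃ r θ : ℝ, 0 < r ∧ θ ∈ Icc (β i) (β i + h) ∧ x (i + 1) - x i = r • tau θ) →
  (∀ i, ∃ r θ : ℝ, 0 < r ∧ θ ∈ Icc (β i + (c - b)) (β i + (c - b) + h) ∧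
    e (i + 1) - e i = r • tau θ) →
  (∀ i, ∃ r θ : ℝ, 0 < r ∧ θ ∈ Icc (β i) (β i + h) ∧ n (i + 1) - n i = r • tau θ) →
  (∀ i, √(H709R2.sq (n i - e i)) ≤ D) →
  Real.sin (c - b) * D ≤ ∑ i ∈ Finset.range m, wedge (tau (β i)) (e (i + 1) - e i) →
  ρ / (20 * h) ≤ ∑ i ∈ Finset.range m, |ct (u i - ψ i - b) - ct (v i - ψ i - b)|

/-- CORE2 -/
def S_CORE2 : Prop := ∀ (F : ℝ × ℝ → ℝ × ℝ) (O M K N : Cyc) (φ : ℝ) (k : ℕ) (ρ : ℝ), 0 < ρ →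
  ρ ≤ 1 / 2 → 4 ≤ k → π / k ≤ ρ / 100 → ρ ≤ M.ang - O.ang → ρ ≤ K.ang - M.ang →
  Conf F O M K N → NC F φ k O M K N →
  ∃ (m : ℕ) (u v : Fin m → ℝ) (j : Fin m → ℤ) (pt : Fin m → ℝ → ℝ × ℝ),
    (∀ i, u i ≤ v i ∧ lab φ k (j i) + K.ang ≤ u i ∧ v i ≤ lab φ k (j i) + O.ang + π) ∧
    (∀ i, ∀ ω ∈ Ioo (u i) (v i), pt i ω ∈ O.fl F \ N.inn F ∧ F (pt i ω) ≠ 0 ∧
      iso F (lab φ k (j i)) (pt i ω) = 0 ∧ kd F (lab φ k (j i)) ω (pt i ω) = 0) ∧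
    (∀ i i', i ≠ i' → ∀ ω ∈ Ioo (u i) (v i), ∀ ω' ∈ Ioo (u i') (v i'), pt i ω ≠ pt i' ω') ∧
    ρ / (20 * (π / k)) ≤
      ∑ i, (ct (u i - lab φ k (j i) - M.ang) - ct (v i - lab φ k (j i) - M.ang))

/-- COUNT2: the number of triples -/
def S_COUNT2 : Prop := ∀ (n : ℕ) (P Q : MvPolynomial (Fin 2) ℝ), P.totalDegree ≤ n →
  Q.totalDegree ≤ n → IsRelPrime P Q → ∀ ρ a b c : ℝ, 0 < ρ → ρ ≤ b - a → ρ ≤ c - b →
  c - a ≤ 1 → Gen n (field P Q) a → Gen n (field P Q) b → Gen n (field P Q) c →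
  ∀ (N : ℕ) (O M K : Fin N → Cyc), (∀ i, Std (field P Q) a b c (O i) (M i) (K i)) →
  (∀ i i', i ≠ i' → Disjoint ((O i).fl (field P Q) \ (K i).inn (field P Q))
    ((O i').fl (field P Q) \ (K i').inn (field P Q))) →
  (N : ℝ) ≤ 2500 * n ^ 2 / ρ ^ 2

end

end Pool.Agent.N224.SF
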