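import Pool.Agent.N224.SF.FIN
import Pool.Agent.N224.SF.D3
import Pool.Agent.H709U.B1

/-! Project SF (helper224): the number of surviving closed orbits from the number of triples, sharper
form, also for fields whose components have a common factor. -/

set_option autoImplicit false

open Real Set MeasureTheory Topology Filter
open scoped ENNReal

namespace Pool.Agent.N224.SF

namespace FIN2

open FIN
open Pool.Agent.H709R2 (rot wedge field ClosedOrbit)
open Pool.Agent.H709U (rf Orb)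
open Pool.Agent.N224.Hil (Loop wn ins fill)
open Pool.Agent.W960.HP (PersG)

/-- both orientations -/
lemma two (hC : S_COUNT2) (hS : S_SYM) {n : ℕ} {P Q : MvPolynomial (Fin 2) ℝ}
    (hP : P.totalDegree ≤ n) (hQ : Q.totalDegree ≤ n) (hrel : IsRelPrime P Q) {ρ a b c : ℝ}
    (hρ : 0 < ρ) (hab : ρ ≤ b - a) (hbc : ρ ≤ c - b) (hca : c - a ≤ 1)
    (g : ∀ x ∈ ({a, b, c} : Set ℝ), Gen n (field P Q) x ∧ Gen n (field (-P) (-Q)) x) {ε : ℝ}
    (hε : ε = 1 ∨ ε = -1) {N : ℕ} (O M K : Fin N → Cyc)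
    (hT : ∀ i, T3 (field P Q) ε (O i) (M i) (K i)) (haO : ∀ i, (O i).ang = a)
    (haM : ∀ i, (M i).ang = b) (haK : ∀ i, (K i).ang = c)
    (hd : ∀ i i', i ≠ i' → Disjoint ((O i).fl (field P Q) \ (K i).inn (field P Q))
      ((O i').fl (field P Q) \ (K i').inn (field P Q))) :
    (N : ℝ) ≤ 2500 * n ^ 2 / ρ ^ 2 := by
  have hcont : Continuous (field P Q) :=
    ((H709R2.contDiff_evalPoly P (m := 0)).continuous).prodMk
      (H709R2.contDiff_evalPoly Q (m := 0)).continuous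
  rcases hε with rfl | rfl
  · exact hC n P Q hP hQ hrel ρ a b c hρ hab hbc hca (g a (by simp)).1 (g b (by simp)).1
      (g c (by simp)).1 N O M K (fun i => (hT i).std (haO i) (haM i) (haK i)) hd
  · have hF : (fun z => -field P Q z) = field (-P) (-Q) := (field_neg P Q).symm
    refine hC n (-P) (-Q) (by rwa [MvPolynomial.totalDegree_neg])
      (by rwa [MvPolynomial.totalDegree_neg]) (neg_rel hrel) ρ a b c hρ hab hbc hca
      (g a (by simp)).2 (g b (by simp)).2 (g c (by simp)).2 N (fun i => (O i).neg)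
      (fun i => (M i).neg) (fun i => (K i).neg) (fun i => ?_) ?_
    · have h1 := ((hT i).neg hS hcont).1
      rw [neg_neg, hF] at h1
      exact h1.std (haO i) (haM i) (haK i)
    · intro i i' hii
      have h1 := ((hT i).neg hS hcont).2
      have h2 := ((hT i').neg hS hcont).2
      rw [hF] at h1 h2
      rw [h1, h2]
      exact hd i i' hii

/-- both orders of the angles -/
lemma four (hC : S_COUNT2) (hS : S_SYM) {n : ℕ} {P Q : MvPolynomial (Fin 2) ℝ}
    (hP : P.totalDegree ≤ n) (hQ : Q.totalDegree ≤ n) (hrel : IsRelPrime P Q) {ρ a b c : ℝ}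
    (hρ : 0 < ρ) (hab : ρ ≤ a - b) (hbc : ρ ≤ b - c) (hca : a - c ≤ 1)
    (g : ∀ x ∈ ({a, b, c} : Set ℝ), Gen n (field (-sp Q) (-sp P)) (-x) ∧
      Gen n (field (- -sp Q) (- -sp P)) (-x)) {ε : ℝ}
    (hε : ε = 1 ∨ ε = -1) {N : ℕ} (O M K : Fin N → Cyc)
    (hT : ∀ i, T3 (field P Q) ε (O i) (M i) (K i)) (haO : ∀ i, (O i).ang = a)
    (haM : ∀ i, (M i).ang = b) (haK : ∀ i, (K i).ang = c)
    (hd : ∀ i i', i ≠ i' → Disjoint ((O i).fl (field P Q) \ (K i).inn (field P Q))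
      ((O i').fl (field P Q) \ (K i').inn (field P Q))) :
    (N : ℝ) ≤ 2500 * n ^ 2 / ρ ^ 2 := by
  have hcont : Continuous (field P Q) :=
    ((H709R2.contDiff_evalPoly P (m := 0)).continuous).prodMk
      (H709R2.contDiff_evalPoly Q (m := 0)).continuous
  have hF : hatF (field P Q) = field (-sp Q) (-sp P) := (field_hat P Q).symm
  refine two hC hS (P := -sp Q) (Q := -sp P) (a := -a) (b := -b) (c := -c) (ε := ε)
    (by rw [MvPolynomial.totalDegree_neg]; exact (sp_deg Q).trans hQ)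
    (by rw [MvPolynomial.totalDegree_neg]; exact (sp_deg P).trans hP) (sp_rel hrel) hρ
    (by linarith) (by linarith) (by linarith) ?_ hε (fun i => (O i).hat) (fun i => (M i).hat)
    (fun i => (K i).hat) (fun i => ?_) (fun i => ?_) (fun i => ?_) (fun i => ?_) ?_
  · intro x hx
    simp only [mem_insert_iff, mem_singleton_iff] at hx
    rcases hx with rfl | rfl | rfl
    · exact g a (by simp)
    · exact g b (by simp)
    · exact g c (by simp)
  · have h1 := ((hT i).hat hS hcont).1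
    rwa [hF] at h1
  · show -(O i).ang = -a
    rw [haO]
  · show -(M i).ang = -b
    rw [haM]
  · show -(K i).ang = -c
    rw [haK]
  · intro i i' hii
    have h1 := ((hT i).hat hS hcont).2
    have h2 := ((hT i').hat hS hcont).2
    rw [hF] at h1 h2
    rw [h1, h2]
    exact (hd i i' hii).preimage _

/-- generic angles -/
lemma angles (hB : S_BEZ) {n : ℕ} {P Q : MvPolynomial (Fin 2) ℝ} (hP : P.totalDegree ≤ n)
    (hQ : Q.totalDegree ≤ n) (hrel : IsRelPrime P Q) :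
    ∀ᵐ x : ℝ, ∀ y ∈ ({x, -x} : Set ℝ), Gen n (field P Q) y ∧ Gen n (field (-P) (-Q)) y ∧
      Gen n (field (-sp Q) (-sp P)) y ∧ Gen n (field (- -sp Q) (- -sp P)) y := by
  have g1 := gen_ae hB hP hQ hrel
  have g2 := gen_ae hB (n := n) (P := -P) (Q := -Q) (by rwa [MvPolynomial.totalDegree_neg])
    (by rwa [MvPolynomial.totalDegree_neg]) (neg_rel hrel)
  have d1 : (-sp Q).totalDegree ≤ n := by
    rw [MvPolynomial.totalDegree_neg]; exact (sp_deg Q).trans hQ
  have d2 : (-sp P).totalDegree ≤ n := by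
    rw [MvPolynomial.totalDegree_neg]; exact (sp_deg P).trans hP
  have g3 := gen_ae hB d1 d2 (sp_rel hrel)
  have g4 := gen_ae hB (n := n) (P := - -sp Q) (Q := - -sp P)
    (by rwa [MvPolynomial.totalDegree_neg])
    (by rwa [MvPolynomial.totalDegree_neg]) (neg_rel (sp_rel hrel))
  have hneg : ∀ {p : ℝ → Prop}, (∀ᵐ x : ℝ, p x) → ∀ᵐ x : ℝ, p (-x) := fun h =>
    (Measure.measurePreserving_neg (volume : Measure ℝ)).quasiMeasurePreserving.ae h
  filter_upwards [g1, g2, g3, g4, hneg g1, hneg g2, hneg g3, hneg g4] with x a1 a2 a3 a4 b1 b2 b3 b4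
  intro y hy
  simp only [mem_insert_iff, mem_singleton_iff] at hy
  rcases hy with rfl | rfl
  · exact ⟨a1, a2, a3, a4⟩
  · exact ⟨b1, b2, b3, b4⟩

/-- the count of a set of objects `C`, each with a triple, the regions being disjoint -/
lemma classes (hC : S_COUNT2) (hS : S_SYM) {n : ℕ} {P Q : MvPolynomial (Fin 2) ℝ}
    (hP : P.totalDegree ≤ n) (hQ : Q.totalDegree ≤ n) (hrel : IsRelPrime P Q) {σ η α₀ β α₁ : ℝ}
    (hσ : σ = 1 ∨ σ = -1) (hη : 0 < η) (hη1 : η ≤ 1) (hα₀ : α₀ ∈ Ioo 0 (η / 40))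
    (hβ : β ∈ Ioo (η / 2 - η / 40) (η / 2 + η / 40)) (hα₁ : α₁ ∈ Ioo (η - η / 40) η)
    (hg : ∀ x ∈ ({α₀, β, α₁} : Set ℝ), ∀ y ∈ ({x, -x} : Set ℝ), Gen n (field P Q) y ∧
      Gen n (field (-P) (-Q)) y ∧ Gen n (field (-sp Q) (-sp P)) y ∧
      Gen n (field (- -sp Q) (- -sp P)) y) {X : Type*} (A : Set X) (ε : X → ℝ) (O M K : X → Cyc)
    (hε : ∀ C ∈ A, ε C = 1 ∨ ε C = -1) (hT : ∀ C ∈ A, T3 (field P Q) (ε C) (O C) (M C) (K C))
    (hang : ∀ C ∈ A, ((O C).ang = σ * α₀ ∧ (K C).ang = σ * α₁) ∨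
      ((O C).ang = σ * α₁ ∧ (K C).ang = σ * α₀)) (haM : ∀ C ∈ A, (M C).ang = σ * β)
    (hdis : ∀ C ∈ A, ∀ C' ∈ A, C ≠ C' → Disjoint ((O C).fl (field P Q) \ (K C).inn (field P Q))
      ((O C').fl (field P Q) \ (K C').inn (field P Q))) :
    ∃ N : ℕ, A.encard ≤ N ∧ (N : ℝ) ≤ 50000 * n ^ 2 / η ^ 2 := by
  classical
  set ρ : ℝ := 9 * η / 20 with hρ
  have hρ0 : 0 < ρ := by positivity
  have hr1 : ρ ≤ β - α₀ := by rw [hρ]; linarith [hα₀.2, hβ.1]
  have hr2 : ρ ≤ α₁ - β := by rw [hρ]; linarith [hβ.2, hα₁.1]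
  have hr3 : α₁ - α₀ ≤ 1 := by linarith [hα₀.1, hα₁.2]
  have hmem : ∀ x : ℝ, σ * x ∈ ({x, -x} : Set ℝ) ∧ -(σ * x) ∈ ({x, -x} : Set ℝ) := by
    intro x
    rcases hσ with rfl | rfl <;> simp
  have hgen : ∀ x ∈ ({α₀, β, α₁} : Set ℝ), ∀ y ∈ ({σ * x, -(σ * x)} : Set ℝ),
      Gen n (field P Q) y ∧ Gen n (field (-P) (-Q)) y ∧
      Gen n (field (-sp Q) (-sp P)) y ∧ Gen n (field (- -sp Q) (- -sp P)) y := by
    intro x hx y hy
    simp only [mem_insert_iff, mem_singleton_iff] at hy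
    have h1 : y ∈ ({x, -x} : Set ℝ) := by
      rcases hy with rfl | rfl
      · exact (hmem x).1
      · exact (hmem x).2
    exact hg x hx y h1
  -- one class
  have cls : ∀ (s : Finset X) (e o k : ℝ), (e = 1 ∨ e = -1) →
      (o = α₀ ∧ k = α₁ ∨ o = α₁ ∧ k = α₀) →
      (∀ C ∈ s, C ∈ A ∧ ε C = e ∧ (O C).ang = σ * o ∧ (K C).ang = σ * k) →
      (s.card : ℝ) ≤ 2500 * n ^ 2 / ρ ^ 2 := by
    intro s e o k he hok hs
    set f : Fin s.card → X := fun i => (s.equivFin.symm i : X) with hf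
    have hfs : ∀ i, f i ∈ s := fun i => (s.equivFin.symm i).2
    have hfinj : Function.Injective f := fun i i' h => by
      have := Subtype.ext h
      exact s.equivFin.symm.injective this
    have hT' : ∀ i, T3 (field P Q) e (O (f i)) (M (f i)) (K (f i)) := by
      intro i
      obtain ⟨h1, h2, -, -⟩ := hs _ (hfs i)
      have h3 := hT _ h1
      rwa [h2] at h3
    have haO : ∀ i, (O (f i)).ang = σ * o := fun i => (hs _ (hfs i)).2.2.1
    have haK : ∀ i, (K (f i)).ang = σ * k := fun i => (hs _ (hfs i)).2.2.2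
    have haM' : ∀ i, (M (f i)).ang = σ * β := fun i => haM _ (hs _ (hfs i)).1
    have hd : ∀ i i', i ≠ i' → Disjoint ((O (f i)).fl (field P Q) \ (K (f i)).inn (field P Q))
        ((O (f i')).fl (field P Q) \ (K (f i')).inn (field P Q)) := fun i i' hii =>
      hdis _ (hs _ (hfs i)).1 _ (hs _ (hfs i')).1 (fun h => hii (hfinj h))
    have ho : o ∈ ({α₀, β, α₁} : Set ℝ) := by
      rcases hok with ⟨rfl, rfl⟩ | ⟨rfl, rfl⟩ <;> simp
    have hk : k ∈ ({α₀, β, α₁} : Set ℝ) := by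
      rcases hok with ⟨rfl, rfl⟩ | ⟨rfl, rfl⟩ <;> simp
    have hb : β ∈ ({α₀, β, α₁} : Set ℝ) := by simp
    by_cases hinc : σ * o < σ * k
    · have e1 : ρ ≤ σ * β - σ * o ∧ ρ ≤ σ * k - σ * β ∧ σ * k - σ * o ≤ 1 := by
        rcases hσ with rfl | rfl <;> rcases hok with ⟨rfl, rfl⟩ | ⟨rfl, rfl⟩ <;>
          refine ⟨?_, ?_, ?_⟩ <;> linarith
      refine two hC hS hP hQ hrel hρ0 e1.1 e1.2.1 e1.2.2 ?_ he (fun i => O (f i))
        (fun i => M (f i)) (fun i => K (f i)) hT' haO haM' haK hd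
      intro x hx
      simp only [mem_insert_iff, mem_singleton_iff] at hx
      rcases hx with rfl | rfl | rfl
      · exact ⟨(hgen o ho _ (by simp)).1, (hgen o ho _ (by simp)).2.1⟩
      · exact ⟨(hgen β hb _ (by simp)).1, (hgen β hb _ (by simp)).2.1⟩
      · exact ⟨(hgen k hk _ (by simp)).1, (hgen k hk _ (by simp)).2.1⟩
    · have e1 : ρ ≤ σ * o - σ * β ∧ ρ ≤ σ * β - σ * k ∧ σ * o - σ * k ≤ 1 := by
        rcases hσ with rfl | rfl <;> rcases hok with ⟨rfl, rfl⟩ | ⟨rfl, rfl⟩ <;>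
          refine ⟨?_, ?_, ?_⟩ <;> linarith
      refine four hC hS hP hQ hrel hρ0 e1.1 e1.2.1 e1.2.2 ?_ he (fun i => O (f i))
        (fun i => M (f i)) (fun i => K (f i)) hT' haO haM' haK hd
      intro x hx
      simp only [mem_insert_iff, mem_singleton_iff] at hx
      rcases hx with rfl | rfl | rfl
      · exact ⟨(hgen o ho _ (by simp)).2.2.1, (hgen o ho _ (by simp)).2.2.2⟩
      · exact ⟨(hgen β hb _ (by simp)).2.2.1, (hgen β hb _ (by simp)).2.2.2⟩
      · exact ⟨(hgen k hk _ (by simp)).2.2.1, (hgen k hk _ (by simp)).2.2.2⟩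
  refine encard_of_card (by positivity) fun s hs => ?_
  -- the four classes
  set p : X → Prop := fun C => ε C = 1 with hp
  set q : X → Prop := fun C => (O C).ang = σ * α₀ ∧ (K C).ang = σ * α₁ with hq
  have c1 := cls ((s.filter p).filter q) 1 α₀ α₁ (Or.inl rfl) (Or.inl ⟨rfl, rfl⟩) (by
    intro C hC'
    simp only [Finset.mem_filter] at hC'
    exact ⟨hs hC'.1.1, hC'.1.2, hC'.2.1, hC'.2.2⟩)
  have c2 := cls ((s.filter p).filter fun C => ¬ q C) 1 α₁ α₀ (Or.inl rfl) (Or.inr ⟨rfl, rfl⟩) (by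
    intro C hC'
    simp only [Finset.mem_filter] at hC'
    have h3 := (hang C (hs hC'.1.1)).resolve_left hC'.2
    exact ⟨hs hC'.1.1, hC'.1.2, h3.1, h3.2⟩)
  have c3 := cls ((s.filter fun C => ¬ p C).filter q) (-1) α₀ α₁ (Or.inr rfl)
    (Or.inl ⟨rfl, rfl⟩) (by
    intro C hC'
    simp only [Finset.mem_filter] at hC'
    exact ⟨hs hC'.1.1, (hε C (hs hC'.1.1)).resolve_left hC'.1.2, hC'.2.1, hC'.2.2⟩)
  have c4 := cls ((s.filter fun C => ¬ p C).filter fun C => ¬ q C) (-1) α₁ α₀ (Or.inr rfl)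
    (Or.inr ⟨rfl, rfl⟩) (by
    intro C hC'
    simp only [Finset.mem_filter] at hC'
    have h3 := (hang C (hs hC'.1.1)).resolve_left hC'.2
    exact ⟨hs hC'.1.1, (hε C (hs hC'.1.1)).resolve_left hC'.1.2, h3.1, h3.2⟩)
  have k1 := Finset.card_filter_add_card_filter_not (s := s) p
  have k2 := Finset.card_filter_add_card_filter_not (s := s.filter p) q
  have k3 := Finset.card_filter_add_card_filter_not (s := s.filter fun C => ¬ p C) q
  have hcard : (s.card : ℝ) = ((s.filter p).filter q).card + ((s.filter p).filter fun C => ¬ q C).card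
      + (((s.filter fun C => ¬ p C).filter q).card +
        ((s.filter fun C => ¬ p C).filter fun C => ¬ q C).card) := by
    rw [← k1, ← k2, ← k3]
    push_cast
    ring
  rw [hcard]
  have hfin : 2500 * (n:ℝ) ^ 2 / ρ ^ 2 = (1000000 / 81) * (n ^ 2 / η ^ 2) := by
    rw [hρ]
    field_simp
    ring
  rw [hfin] at c1 c2 c3 c4
  have h0 : 0 ≤ (n:ℝ) ^ 2 / η ^ 2 := by positivity
  have : 50000 * (n:ℝ) ^ 2 / η ^ 2 = 50000 * (n ^ 2 / η ^ 2) := by ring
  rw [this]
  linarith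

/-- a triple for `g • F` gives a triple for `F` -/
lemma red (hS : S_SYM) (hT : S_TIME) {F : ℝ × ℝ → ℝ × ℝ} {g : ℝ × ℝ → ℝ} (hF : ContDiff ℝ 2 F)
    (hg : ContDiff ℝ 2 g) {a₀ b a₁ ε : ℝ} {O M K : Cyc}
    (h : Tri (fun z => g z • F z) a₀ b a₁ ε O M K) :
    ∃ (ε' : ℝ) (O' M' K' : Cyc), (ε' = 1 ∨ ε' = -1) ∧ T3 F ε' O' M' K' ∧ O'.ang = O.ang ∧
      M'.ang = M.ang ∧ K'.ang = K.ang ∧
      O'.fl F \ K'.inn F = O.fl (fun z => g z • F z) \ K.inn (fun z => g z • F z) := by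
  set G : ℝ × ℝ → ℝ × ℝ := fun z => g z • F z with hG
  set R := O.fl G \ K.inn G with hR
  have hne : ∀ z ∈ R, g z ≠ 0 := fun z hz h0 => h.ne z hz (by simp [hG, h0])
  -- the curves are in the region
  have rO : ∀ t, O.γ t ∈ R := fun t =>
    ⟨Or.inl ⟨t, rfl⟩, fun hc => (h.MO (Or.inr (h.KM (Or.inr hc)))).1 ⟨t, rfl⟩⟩
  have rM : ∀ t, M.γ t ∈ R := fun t =>
    ⟨Or.inr (h.MO (Or.inl ⟨t, rfl⟩)), fun hc => (h.KM (Or.inr hc)).1 ⟨t, rfl⟩⟩
  have rK : ∀ t, K.γ t ∈ R := fun t =>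
    ⟨Or.inr (h.MO (Or.inr (h.KM (Or.inl ⟨t, rfl⟩)))), fun hc => hc.1 ⟨t, rfl⟩⟩
  have hsign : (∀ z ∈ R, 0 < g z) ∨ (∀ z ∈ R, g z < 0) := by
    by_contra hcon
    push Not at hcon
    obtain ⟨⟨z, hz, hz'⟩, ⟨w, hw, hw'⟩⟩ := hcon
    have h1 := h.conn.image g hg.continuous.continuousOn
    have h2 : Icc (g z) (g w) ⊆ g '' R := h1.Icc_subset ⟨z, hz, rfl⟩ ⟨w, hw, rfl⟩
    obtain ⟨y, hy, hy0⟩ := h2 ⟨hz', hw'⟩
    exact hne y hy hy0
  -- a copy for a positive factor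
  have step : ∀ (F' : ℝ × ℝ → ℝ × ℝ) (g' : ℝ × ℝ → ℝ), ContDiff ℝ 2 F' → ContDiff ℝ 2 g' →
      (fun z => g' z • F' z) = G → (∀ z ∈ R, 0 < g' z) → ∃ O' M' K' : Cyc,
      T3 F' ε O' M' K' ∧ O'.ang = O.ang ∧ M'.ang = M.ang ∧ K'.ang = K.ang ∧
      O'.fl F' \ K'.inn F' = R := by
    intro F' g' hF' hg' heq hpos
    have hO := h.oO
    have hM := h.oM
    have hK := h.oK
    obtain ⟨O', aO, oO, rgO, flO, inO, wO⟩ := hT F' g' O hF' hg' (by rw [heq]; exact hO)
      fun t => hpos _ (rO t)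
    obtain ⟨M', aM, oM, rgM, flM, inM, wM⟩ := hT F' g' M hF' hg' (by rw [heq]; exact hM)
      fun t => hpos _ (rM t)
    obtain ⟨K', aK, oK, rgK, flK, inK, wK⟩ := hT F' g' K hF' hg' (by rw [heq]; exact hK)
      fun t => hpos _ (rK t)
    rw [heq] at flO inO wO flM inM wM flK inK wK
    refine ⟨O', M', K', ⟨oO, oM, oK, ?_, ?_, ?_, ?_, ?_, ?_⟩, aO, aM, aK, ?_⟩
    · intro z hz
      rw [wO z hz]
      have : z ∉ range O.γ := by
        intro hc
        apply hz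
        have : z ∈ O'.rg := by rw [rgO]; exact hc
        exact this
      exact h.wO z this
    · intro z hz
      rw [wM z hz]
      have : z ∉ range M.γ := by
        intro hc
        apply hz
        have : z ∈ M'.rg := by rw [rgM]; exact hc
        exact this
      exact h.wM z this
    · intro z hz
      rw [wK z hz]
      have : z ∉ range K.γ := by
        intro hc
        apply hz
        have : z ∈ K'.rg := by rw [rgK]; exact hc
        exact this
      exact h.wK z this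
    · rw [flM, inO]; exact h.MO
    · rw [flK, inM]; exact h.KM
    · rw [flO, inK]
      intro z hz h0
      apply h.ne z hz
      have h1 : G z = g' z • F' z := by rw [← heq]
      rw [h1, h0, smul_zero]
    · rw [flO, inK]
  rcases hsign with hp | hn
  · obtain ⟨O', M', K', h1, h2, h3, h4, h5⟩ := step F g hF hg rfl hp
    exact ⟨ε, O', M', K', h.e1, h1, h2, h3, h4, h5⟩
  · obtain ⟨O', M', K', h1, h2, h3, h4, h5⟩ := step (fun z => -F z) (fun z => -g z) hF.neg hg.neg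
      (by funext z; simp [hG]) (fun z hz => by linarith [hn z hz])
    have hcont : Continuous (fun z => -F z) := hF.continuous.neg
    obtain ⟨h6, h7⟩ := h1.neg hS hcont
    simp only [neg_neg] at h6 h7
    refine ⟨-ε, O'.neg, M'.neg, K'.neg, ?_, h6, h2, h3, h4, ?_⟩
    · rcases h.e1 with h8 | h8 <;> rw [h8] <;> simp
    · rw [h7, h5]

end FIN2

open FIN FIN2 in
open Pool.Agent.H709R2 (rot wedge field ClosedOrbit) in
open Pool.Agent.W960.HP (PersG) in
theorem fin2 (hF : S_FAM) (hC : S_COUNT2) (hS : S_SYM) (hB : S_BEZ) (hTi : S_TIME) (n : ℕ)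
    (P Q : MvPolynomial (Fin 2) ℝ) (hP : P.totalDegree ≤ n) (hQ : Q.totalDegree ≤ n)
    (σ η : ℝ) (hσ : σ = 1 ∨ σ = -1) (hη : 0 < η) (hη1 : η ≤ 1) :
    ∃ N : ℕ, {C | PersG (field P Q) (fun _ _ => True) (σ * η) C}.encard ≤ N ∧
      (N : ℝ) ≤ 50000 * n ^ 2 / η ^ 2 := by
  classical
  by_cases h0 : P ≠ 0 ∨ Q ≠ 0
  swap
  · -- the zero field has no closed orbits
    push Not at h0
    refine ⟨0, ?_, by push_cast; positivity⟩
    have : {C | PersG (field P Q) (fun _ _ => True) (σ * η) C} = ∅ := by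
      rw [eq_empty_iff_forall_notMem]
      rintro C ⟨a, γ, T, -, -, -, -, -, -, h1, -, -⟩
      obtain ⟨-, h2, -, ⟨s, t, hst⟩, -⟩ := h1 0 ⟨le_rfl, zero_le_one⟩
      apply hst
      have hz : ∀ z, H709U.rf (field P Q) (a 0) z = 0 := by
        intro z
        rw [h0.1, h0.2]
        simp [H709U.rf, field, rot]
      have h3 : ∀ t, HasDerivAt (γ 0) 0 t := fun t => by
        have := h2 t
        rwa [hz] at this
      exact is_const_of_deriv_eq_zero (fun t => (h3 t).differentiableAt) (fun t => (h3 t).deriv) s t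
    rw [this]
    simp
  obtain ⟨h, P₁, Q₁, hPh, hQh, hrel, hP₁, hQ₁⟩ := H709U.b1 n P Q hP hQ h0
  have hsm : ContDiff ℝ 2 (field P Q) :=
    (H709R2.contDiff_evalPoly P).prodMk (H709R2.contDiff_evalPoly Q)
  have hsm₁ : ContDiff ℝ 2 (field P₁ Q₁) :=
    (H709R2.contDiff_evalPoly P₁).prodMk (H709R2.contDiff_evalPoly Q₁)
  set g : ℝ × ℝ → ℝ := fun z => MvPolynomial.eval ![z.1, z.2] h with hgdef
  have hgs : ContDiff ℝ 2 g := H709R2.contDiff_evalPoly h
  have hfac : field P Q = fun z => g z • field P₁ Q₁ z := by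
    funext z
    rw [hPh, hQh]
    simp only [field, map_mul, hgdef, Prod.smul_mk, smul_eq_mul]
  have gall := angles hB hP₁ hQ₁ hrel
  obtain ⟨α₀, hα₀, q₀⟩ := pick gall (show (0:ℝ) < η / 40 by positivity)
  obtain ⟨β, hβ, qb⟩ := pick gall (show η / 2 - η / 40 < η / 2 + η / 40 by linarith)
  obtain ⟨α₁, hα₁, q₁⟩ := pick gall (show η - η / 40 < η by linarith)
  obtain ⟨O, M, K, ε, hTri, hdis⟩ := hF (field P Q) hsm σ η hσ hη hη1 α₀ β α₁ hα₀.1
    (by linarith [hα₀.2, hβ.1]) (by linarith [hβ.2, hα₁.1]) hα₁.2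
  set A : Set (Set (ℝ × ℝ)) := {C | PersG (field P Q) (fun _ _ => True) (σ * η) C} with hA
  have hred : ∀ C : Set (ℝ × ℝ), ∃ (ε' : ℝ) (O' M' K' : Cyc), C ∈ A → (ε' = 1 ∨ ε' = -1) ∧
      T3 (field P₁ Q₁) ε' O' M' K' ∧ O'.ang = (O C).ang ∧ M'.ang = (M C).ang ∧
      K'.ang = (K C).ang ∧ O'.fl (field P₁ Q₁) \ K'.inn (field P₁ Q₁) =
        (O C).fl (field P Q) \ (K C).inn (field P Q) := by
    intro C
    by_cases hCA : C ∈ A
    · have h1 := hTri C hCA
      rw [hfac] at h1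
      obtain ⟨ε', O', M', K', h2⟩ := red hS hTi hsm₁ hgs h1
      refine ⟨ε', O', M', K', fun _ => ?_⟩
      rw [hfac]
      exact h2
    · exact ⟨0, O C, M C, K C, fun h => absurd h hCA⟩
  choose ε' O' M' K' hred using hred
  refine classes hC hS hP₁ hQ₁ hrel hσ hη hη1 hα₀ hβ hα₁ ?_ A ε' O' M' K'
    (fun C hC' => (hred C hC').1) (fun C hC' => (hred C hC').2.1) (fun C hC' => ?_)
    (fun C hC' => ?_) (fun C hC' C₂ hC₂ hne => ?_)
  · intro x hx
    simp only [mem_insert_iff, mem_singleton_iff] at hx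
    rcases hx with rfl | rfl | rfl
    · exact q₀
    · exact qb
    · exact q₁
  · have h1 := (hTri C hC').ang
    rwa [← (hred C hC').2.2.1, ← (hred C hC').2.2.2.2.1] at h1
  · rw [(hred C hC').2.2.2.1]
    exact (hTri C hC').aM
  · rw [(hred C hC').2.2.2.2.2, (hred C₂ hC₂).2.2.2.2.2]
    exact hdis C C₂ hC' hC₂ hne

end Pool.Agent.N224.SF
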