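import Pool.Agent.N224.SF.D0

/-! Project SF (helper224): the inequality for one cell. -/

set_option autoImplicit false

open Real Set

namespace Pool.Agent.N224.SF

theorem gap : S_GAP := by
  intro A A' At At' ax ax' kx ky px py rx ry c₀ g hA hA' hAt hAt' e1 e2 hc hg hcg hpy hpy' hry hry'
    hky hkx hax hax' hatx hatx'
  set lam := ax / A with hlam
  set lam' := ax' / A' with hlam'
  set mu := (ax + kx - px) / At with hmu
  set mu' := (ax' + rx - kx) / At' with hmu'
  have hl : |lam| ≤ c₀ := by
    rw [hlam, abs_div, abs_of_pos hA, div_le_iff₀ hA]; exact hax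
  have hm' : |mu'| ≤ c₀ := by
    rw [hmu', abs_div, abs_of_pos hAt', div_le_iff₀ hAt']; exact hatx'
  have ex : ax = lam * A := by rw [hlam]; field_simp
  have ex' : ax' = lam' * A' := by rw [hlam']; field_simp
  have et : ax + kx - px = mu * At := by rw [hmu]; field_simp
  have et' : ax' + rx - kx = mu' * At' := by rw [hmu']; field_simp
  -- the logarithms
  have hlog1 : (ky - py) / At ≤ Real.log (At / A) := by
    have h := Real.one_sub_inv_le_log_of_pos (div_pos hAt hA)
    have h2 : 1 - (At / A)⁻¹ = (ky - py) / At := by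
      rw [inv_div, e1]
      have : A + ky - py ≠ 0 := by rw [← e1]; exact hAt.ne'
      field_simp
      ring
    linarith
  have hlog2 : (ky - ry) / A' ≤ - Real.log (At' / A') := by
    have h := Real.log_le_sub_one_of_pos (div_pos hAt' hA')
    have h2 : At' / A' - 1 = - ((ky - ry) / A') := by
      rw [e2]; field_simp; ring
    linarith
  have hlog : Real.log (At / At') - Real.log (A / A') =
      Real.log (At / A) - Real.log (At' / A') := by
    rw [Real.log_div hAt.ne' hAt'.ne', Real.log_div hA.ne' hA'.ne', Real.log_div hAt.ne' hA.ne',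
      Real.log_div hAt'.ne' hA'.ne']
    ring
  rw [hlog]
  set E := ky / At + ky / A' with hE
  set S := px / At + rx / A' with hS
  set Pp := py / At + ry / A' with hP
  have hP1 : Pp ≤ g * S := by
    have h1 : py / At ≤ g * px / At := by gcongr
    have h2 : ry / A' ≤ g * rx / A' := by gcongr
    rw [hP, hS]
    calc py / At + ry / A' ≤ g * px / At + g * rx / A' := by linarith
      _ = g * (px / At + rx / A') := by ring
  have hP0 : 0 ≤ Pp := by rw [hP]; positivity
  -- the main identity
  have hS1 : S = (lam - lam') - (mu - mu') - lam * ((ky - py) / At) - mu' * ((ky - ry) / A') +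
      (kx / At + kx / A') := by
    have h1 : px = lam * A - mu * At + kx := by linarith
    have h2 : rx = mu' * At' - lam' * A' + kx := by linarith
    have h3 : px / At = lam - mu - lam * ((ky - py) / At) + kx / At := by
      rw [h1]
      have : A = At - (ky - py) := by rw [e1]; ring
      rw [this]
      field_simp
      ring
    have h4 : rx / A' = mu' - lam' - mu' * ((ky - ry) / A') + kx / A' := by
      rw [h2, e2]
      field_simp
      ring
    rw [hS, h3, h4]
    ring
  have hb1 : - (lam * ((ky - py) / At)) ≤ c₀ * (ky / At + py / At) := by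
    have h1 : - (lam * ((ky - py) / At)) ≤ |lam| * |(ky - py) / At| := by
      rw [← abs_mul]; exact neg_le_abs _
    have h2 : |(ky - py) / At| ≤ ky / At + py / At := by
      rw [abs_div, abs_of_pos hAt, ← add_div]
      gcongr
      rw [abs_le]; constructor <;> linarith
    calc - (lam * ((ky - py) / At)) ≤ |lam| * |(ky - py) / At| := h1
      _ ≤ c₀ * (ky / At + py / At) := by gcongr
  have hb2 : - (mu' * ((ky - ry) / A')) ≤ c₀ * (ky / A' + ry / A') := by
    have h1 : - (mu' * ((ky - ry) / A')) ≤ |mu'| * |(ky - ry) / A'| := by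
      rw [← abs_mul]; exact neg_le_abs _
    have h2 : |(ky - ry) / A'| ≤ ky / A' + ry / A' := by
      rw [abs_div, abs_of_pos hA', ← add_div]
      gcongr
      rw [abs_le]; constructor <;> linarith
    calc - (mu' * ((ky - ry) / A')) ≤ |mu'| * |(ky - ry) / A'| := h1
      _ ≤ c₀ * (ky / A' + ry / A') := by gcongr
  have hb3 : kx / At + kx / A' ≤ c₀ * E := by
    have h1 : kx ≤ c₀ * ky := (le_abs_self _).trans hkx
    have h2 : kx / At ≤ c₀ * ky / At := by gcongr
    have h3 : kx / A' ≤ c₀ * ky / A' := by gcongr
    rw [hE]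
    calc kx / At + kx / A' ≤ c₀ * ky / At + c₀ * ky / A' := by linarith
      _ = c₀ * (ky / At + ky / A') := by ring
  have hb4 : (lam - lam') - (mu - mu') ≤ |lam - lam'| + |mu - mu'| := by
    have h1 := le_abs_self (lam - lam')
    have h2 := neg_abs_le (mu - mu')
    linarith
  have hS2 : S ≤ (|lam - lam'| + |mu - mu'|) + 2 * c₀ * E + c₀ * Pp := by
    have : c₀ * (ky / At + py / At) + c₀ * (ky / A' + ry / A') = c₀ * E + c₀ * Pp := by
      rw [hE, hP]; ring
    linarith
  set q := |lam - lam'| + |mu - mu'| with hq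
  have hq0 : 0 ≤ q := by positivity
  have hE0 : 0 ≤ E := by rw [hE]; positivity
  have hP2 : Pp ≤ g * q + 2 * (c₀ * g) * E + (c₀ * g) * Pp := by
    calc Pp ≤ g * S := hP1
      _ ≤ g * (q + 2 * c₀ * E + c₀ * Pp) := by gcongr
      _ = _ := by ring
  have hP3 : 7 / 8 * Pp ≤ g * q + E / 4 := by
    have h1 : (c₀ * g) * E ≤ 1 / 8 * E := by gcongr
    have h2 : (c₀ * g) * Pp ≤ 1 / 8 * Pp := by gcongr
    linarith
  have hE1 : ky / A' ≤ E := by
    rw [hE]
    have : 0 ≤ ky / At := by positivity
    linarith
  have hfin : ky / (2 * A') = ky / A' / 2 := by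
    rw [div_div, mul_comm]
  rw [hfin]
  have hgq : 0 ≤ g * q := by positivity
  have hs : (ky - py) / At + (ky - ry) / A' = E - Pp := by
    rw [hE, hP]; ring
  have h2q : 2 * g * q = 2 * (g * q) := by ring
  rw [h2q]
  linarith

end Pool.Agent.N224.SF
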