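import Pool.Agent.N224.SF.D1
import Pool.Agent.N224.Hil.J
import Pool.Agent.N224.Hil.W
import Pool.Agent.N224.Hil.T

/-! Project SF: transversality of the isoclines on the whole ring between the outermost and the
innermost closed orbit, and the orientation of the innermost one. -/

set_option autoImplicit false

open Real Set MeasureTheory Topology Filter

namespace Pool.Agent.N224.SF

open Pool.Agent.H709R2 (rot wedge field)
open Pool.Agent.H709U (rf Orb)
open Pool.Agent.N224.Hil (Loop wn ins fill)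

namespace GOOD

/-! ### linear algebra -/

theorem kd_eq (F : ℝ × ℝ → ℝ × ℝ) (ψ ω : ℝ) (z : ℝ × ℝ) :
    kd F ψ ω z = wedge (tau ω) (ham F ψ z) := by
  unfold kd wedge ham
  have h : tau ω = cos ω • ((1 : ℝ), (0 : ℝ)) + sin ω • ((0 : ℝ), (1 : ℝ)) := by
    unfold tau
    ext <;> simp
  have h1 : (tau ω).1 = cos ω := rfl
  have h2 : (tau ω).2 = sin ω := rfl
  rw [h1, h2, h, map_add, map_smul, map_smul, smul_eq_mul, smul_eq_mul]
  ring

theorem rf_gam {F : ℝ × ℝ → ℝ × ℝ} {ψ r : ℝ} {z : ℝ × ℝ} (hz : F z = r • tau ψ) (α : ℝ) :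
    rf F α z = r • tau (ψ + α) := by
  show rot α (F z) = r • tau (ψ + α)
  rw [hz]
  unfold rot tau
  rw [cos_add, sin_add]
  ext
  · simp
    ring
  · simp
    ring

theorem wedge_gam {F : ℝ × ℝ → ℝ × ℝ} {ψ r : ℝ} {z : ℝ × ℝ} (hz : F z = r • tau ψ) (α s : ℝ) :
    wedge (rf F α z) (s • ham F ψ z) = r * (s * kd F ψ (ψ + α) z) := by
  rw [rf_gam hz, kd_eq]
  unfold wedge
  simp only [Prod.smul_fst, Prod.smul_snd, smul_eq_mul]
  ring

theorem sgn {s p q : ℝ} (h1 : 0 < s * p) (h2 : 0 < p * q) : 0 < s * q := by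
  have h3 : 0 < (s * q) * p ^ 2 := by nlinarith [mul_pos h1 h2]
  exact pos_of_mul_pos_left h3 (sq_nonneg p)

theorem sgn' {s p q : ℝ} (h1 : s * p < 0) (h2 : 0 < p * q) : s * q < 0 := by
  have h3 : 0 < (-s) * p := by linarith
  have := sgn h3 h2
  linarith

/-! ### curves -/

theorem loop_of {F : ℝ × ℝ → ℝ × ℝ} (hF : Continuous F) {O : Cyc}
    (h : Orb (rf F O.ang) O.γ O.T) : Loop O.γ (O.V F) O.T := by
  have hc : Continuous O.γ := continuous_iff_continuousAt.2 fun t => (h.ode t).continuousAt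
  exact ⟨h.pos, h.ode, (Pool.Agent.H709R2.continuous_rot O.ang).comp (hF.comp hc), h.per⟩

theorem sc_of {F : ℝ × ℝ → ℝ × ℝ} (hF : Continuous F) {O : Cyc} (h : O.Ok F) :
    Sc O.γ (O.V F) O.T 1 :=
  ⟨loop_of hF h.orb, h.orb.ne, h.orb.inj, Or.inl rfl, h.ccw⟩

theorem sc_of' {F : ℝ × ℝ → ℝ × ℝ} (hF : Continuous F) {O : Cyc}
    (h : Orb (rf F O.ang) O.γ O.T) : ∃ ε, Sc O.γ (O.V F) O.T ε := by
  obtain ⟨ε, he, hw, -⟩ := Hil.j Hil.w1 Hil.w2 Hil.w3 O.γ (O.V F) O.T (loop_of hF h) h.ne h.inj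
  exact ⟨ε, loop_of hF h, h.ne, h.inj, he, hw⟩

theorem topo {γ V : ℝ → ℝ × ℝ} {T ε : ℝ} (h : Sc γ V T ε) :
    IsOpen (ins γ V T) ∧ IsCompact (fill γ V T) :=
  Hil.t0 Hil.w1 Hil.w2 Hil.w3 γ V T h.loop

/-- a curve which is directed inwards at the outer curve and outwards at the inner curve remains a
little longer in the region between them -/
theorem stay (h1 : S_SIDE) {γ V : ℝ → ℝ × ℝ} {T ε : ℝ} {δ U : ℝ → ℝ × ℝ} {S ε' : ℝ}
    (hγ : Sc γ V T ε) (hδ : Sc δ U S ε') {σ : ℝ → ℝ × ℝ}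
    {v : ℝ × ℝ} {L : ℝ} (hd : HasDerivAt σ v L) (hL : σ L ∈ fill γ V T \ ins δ U S)
    (ho : ∀ t, σ L = γ t → 0 < ε * wedge (V t) v)
    (hi : ∀ t, σ L = δ t → ε' * wedge (U t) v < 0) :
    ∀ᶠ t in 𝓝[>] L, σ t ∈ fill γ V T \ ins δ U S := by
  have hopen := (topo hγ).1
  have hcl : IsClosed (fill δ U S) := (topo hδ).2.isClosed
  have hcont := hd.continuousAt
  have hA : ∀ᶠ t in 𝓝[>] L, σ t ∈ ins γ V T := by
    by_cases hr : σ L ∈ range γ
    · obtain ⟨t, ht⟩ := hr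
      exact (h1 γ V T ε hγ σ v L t hd ht.symm (ho t ht.symm)).1
    · have hin : σ L ∈ ins γ V T := by
        rcases hL.1 with h | h
        · exact absurd h hr
        · exact h
      exact (hcont.eventually (hopen.mem_nhds hin)).filter_mono nhdsWithin_le_nhds
  have hB : ∀ᶠ t in 𝓝[>] L, σ t ∉ fill δ U S := by
    by_cases hr : σ L ∈ range δ
    · obtain ⟨t, ht⟩ := hr
      have hrev : HasDerivAt (fun x : ℝ => σ (2 * L - x)) (-v) L := by
        have h2 : HasDerivAt (fun x : ℝ => 2 * L - x) (-1) L := by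
          simpa using (hasDerivAt_id L).const_sub (2 * L)
        have h3 : HasDerivAt σ v (2 * L - L) := by
          have : 2 * L - L = L := by ring
          rw [this]
          exact hd
        have h4 := h3.scomp L h2
        have e : (-1 : ℝ) • v = -v := by simp
        rw [e] at h4
        exact h4
      have hw : wedge (U t) (-v) = -wedge (U t) v := by
        unfold wedge
        simp only [Prod.fst_neg, Prod.snd_neg]
        ring
      have h5 := (h1 δ U S ε' hδ (fun x => σ (2 * L - x)) (-v) L t hrev (by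
        have : 2 * L - L = L := by ring
        show σ (2 * L - L) = δ t
        rw [this]
        exact ht.symm) (by
        rw [hw]
        have := hi t ht.symm
        linarith)).2
      have htend : Tendsto (fun x : ℝ => 2 * L - x) (𝓝[>] L) (𝓝[<] L) := by
        rw [tendsto_nhdsWithin_iff]
        constructor
        · have hc : Continuous fun x : ℝ => 2 * L - x := by fun_prop
          have h6 := hc.tendsto L
          have : 2 * L - L = L := by ring
          rw [this] at h6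
          exact h6.mono_left nhdsWithin_le_nhds
        · filter_upwards [self_mem_nhdsWithin] with x hx
          have : L < x := hx
          show 2 * L - x < L
          linarith
      have h7 := htend.eventually h5
      filter_upwards [h7] with x hx
      have : 2 * L - (2 * L - x) = x := by ring
      simpa only [this] using hx
    · have hn : σ L ∉ fill δ U S := fun h => by
        rcases h with h | h
        · exact hr h
        · exact hL.2 h
      exact (hcont.eventually (hcl.isOpen_compl.mem_nhds hn)).filter_mono nhdsWithin_le_nhds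
  filter_upwards [hA, hB] with t h2 h3
  exact ⟨Or.inr h2, fun h => h3 (Or.inr h)⟩

/-- an isocline through the region between two nested closed orbits is directed outwards at the
outer one or inwards at the inner one -/
theorem no_run (h1 : S_SIDE) (h3 : S_RUN) {F : ℝ × ℝ → ℝ × ℝ} (hF : ContDiff ℝ 4 F) {A B : Cyc}
    {ε ε' : ℝ} (hA : Sc A.γ (A.V F) A.T ε) (hB : Sc B.γ (B.V F) B.T ε')
    (hne : ∀ z ∈ A.fl F \ B.inn F, F z ≠ 0) (ψ ω s : ℝ) (hs : s = 1 ∨ s = -1)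
    (hω : ∀ z ∈ A.fl F \ B.inn F, z ∈ Gam F ψ → kd F ψ ω z ≠ 0) (z₀ : ℝ × ℝ)
    (hz₀ : z₀ ∈ A.fl F \ B.inn F) (hz₀' : z₀ ∈ Gam F ψ)
    (H : ∀ z ∈ A.fl F \ B.inn F, z ∈ Gam F ψ →
      (∀ ω', (∀ y ∈ A.fl F \ B.inn F, y ∈ Gam F ψ → kd F ψ ω' y ≠ 0) →
        0 < kd F ψ ω' z₀ * kd F ψ ω' z) →
      (z ∈ A.rg → 0 < ε * (s * kd F ψ (ψ + A.ang) z)) ∧
      (z ∈ B.rg → ε' * (s * kd F ψ (ψ + B.ang) z) < 0)) : False := by
  have hcomp : IsCompact (A.fl F \ B.inn F) := (topo hA).2.diff (topo hB).1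
  obtain ⟨σ, L, δ, hL0, hδ, -, hσ, hR, hout, hsig⟩ :=
    h3 F hF _ hcomp hne ψ ω s hs hω z₀ hz₀ hz₀'
  have hLm : L ∈ Icc 0 L := right_mem_Icc.2 hL0
  have hLd : L ∈ Ioo (-δ) (L + δ) := ⟨by linarith, by linarith⟩
  obtain ⟨hd, hg⟩ := hσ L hLd
  obtain ⟨hHA, hHB⟩ := H (σ L) (hR L hLm) hg fun ω' hω' => hsig L hLm ω' hω'
  obtain ⟨r, hr, hFr⟩ := hg
  have hstay := stay h1 hA hB hd (hR L hLm) (fun t ht => by
    show 0 < ε * wedge (rf F A.ang (A.γ t)) (s • ham F ψ (σ L))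
    rw [← ht, wedge_gam hFr]
    have h4 := hHA ⟨t, ht.symm⟩
    have h5 := mul_pos hr h4
    nlinarith) (fun t ht => by
    show ε' * wedge (rf F B.ang (B.γ t)) (s • ham F ψ (σ L)) < 0
    rw [← ht, wedge_gam hFr]
    have h4 := hHB ⟨t, ht.symm⟩
    nlinarith)
  obtain ⟨u, hu, hsub⟩ := mem_nhdsGT_iff_exists_Ioo_subset.1 hstay
  have hu' : L < u := hu
  obtain ⟨t, ht, hnot⟩ := hout (u - L) (by linarith)
  have ht' : t ∈ Ioo L u := ⟨ht.1, by have := ht.2; linarith⟩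
  exact hnot (hsub ht')

theorem exists_sign {p : ℝ} (hp : p ≠ 0) : ∃ s : ℝ, (s = 1 ∨ s = -1) ∧ 0 < s * p := by
  rcases lt_or_gt_of_ne hp with h | h
  · exact ⟨-1, Or.inr rfl, by linarith⟩
  · exact ⟨1, Or.inl rfl, by linarith⟩

theorem sgn2 {s p q : ℝ} (h1 : 0 < s * p) (h2 : p * q < 0) : s * q < 0 := by
  have h3 : 0 < p * (-q) := by linarith
  have := sgn h1 h3
  linarith

section

variable {F : ℝ × ℝ → ℝ × ℝ} {O M K N : Cyc} {φ : ℝ} {k : ℕ}

theorem R1_sub (hc : Conf F O M K N) : O.fl F \ K.inn F ⊆ O.fl F \ N.inn F :=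
  fun _ hz => ⟨hz.1, fun h => hz.2 (hc.NK (Or.inr h))⟩

theorem R2_sub (hc : Conf F O M K N) : K.fl F \ N.inn F ⊆ O.fl F \ N.inn F :=
  fun _ hz => ⟨Or.inr (hc.MO (Or.inr (hc.KM hz.1))), hz.2⟩

theorem step1 (h1 : S_SIDE) (h3 : S_RUN) (hc : Conf F O M K N) (hn : NC F φ k O M K N) (j : ℤ)
    (z₀ : ℝ × ℝ) (hz : z₀ ∈ O.fl F \ K.inn F) (hg : z₀ ∈ Gam F (lab φ k j)) :
    0 < kd F (lab φ k j) (lab φ k j + O.ang) z₀ * kd F (lab φ k j) (lab φ k j + K.ang) z₀ := by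
  have hF : Continuous F := hc.smooth.continuous
  have na : ∀ z ∈ O.fl F \ K.inn F, z ∈ Gam F (lab φ k j) →
      kd F (lab φ k j) (lab φ k j + O.ang) z ≠ 0 := fun z hz hg => hn.1 z (R1_sub hc hz) j hg
  have nc : ∀ z ∈ O.fl F \ K.inn F, z ∈ Gam F (lab φ k j) →
      kd F (lab φ k j) (lab φ k j + K.ang) z ≠ 0 := fun z hz hg => hn.2.2 z (R1_sub hc hz) j hg
  by_contra hcon
  have hlt := lt_of_le_of_ne (not_lt.1 hcon) (mul_ne_zero (na z₀ hz hg) (nc z₀ hz hg))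
  obtain ⟨s, hs, hsa⟩ := exists_sign (na z₀ hz hg)
  have hsc := sgn2 hsa hlt
  refine no_run h1 h3 hc.smooth (sc_of hF hc.oO) (sc_of hF hc.oK)
    (fun z hz => hc.ne z (R1_sub hc hz)) (lab φ k j) (lab φ k j + O.ang) s hs na z₀ hz hg ?_
  intro z _ _ hp
  refine ⟨fun _ => ?_, fun _ => ?_⟩
  · rw [one_mul]
    exact sgn hsa (hp _ na)
  · rw [one_mul]
    exact sgn' hsc (hp _ nc)

theorem step2 (h1 : S_SIDE) (h3 : S_RUN) (hc : Conf F O M K N) (hn : NC F φ k O M K N) (j : ℤ)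
    (z₀ : ℝ × ℝ) (hz : z₀ ∈ K.fl F \ N.inn F) (hg : z₀ ∈ Gam F (lab φ k j)) :
    0 < kd F (lab φ k j) (lab φ k j + O.ang) z₀ * kd F (lab φ k j) (lab φ k j + K.ang) z₀ := by
  have hF : Continuous F := hc.smooth.continuous
  obtain ⟨ε, hN⟩ := sc_of' hF hc.oN
  have na : ∀ z ∈ K.fl F \ N.inn F, z ∈ Gam F (lab φ k j) →
      kd F (lab φ k j) (lab φ k j + O.ang) z ≠ 0 := fun z hz hg => hn.1 z (R2_sub hc hz) j hg
  have nb : ∀ z ∈ K.fl F \ N.inn F, z ∈ Gam F (lab φ k j) →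
      kd F (lab φ k j) (lab φ k j + M.ang) z ≠ 0 := fun z hz hg => hn.2.1 z (R2_sub hc hz) j hg
  have nc : ∀ z ∈ K.fl F \ N.inn F, z ∈ Gam F (lab φ k j) →
      kd F (lab φ k j) (lab φ k j + K.ang) z ≠ 0 := fun z hz hg => hn.2.2 z (R2_sub hc hz) j hg
  by_contra hcon
  have hlt := lt_of_le_of_ne (not_lt.1 hcon) (mul_ne_zero (na z₀ hz hg) (nc z₀ hz hg))
  obtain ⟨s, hs, hsb⟩ := exists_sign (nb z₀ hz hg)
  have hε : ε * ε = 1 := by
    rcases hN.e1 with h | h <;> rw [h] <;> norm_num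
  have hs' : -(ε * s) = 1 ∨ -(ε * s) = -1 := by
    rcases hN.e1 with h | h <;> rcases hs with h' | h' <;> rw [h, h'] <;> norm_num
  refine no_run h1 h3 hc.smooth (sc_of hF hc.oK) hN
    (fun z hz => hc.ne z (R2_sub hc hz)) (lab φ k j) (lab φ k j + M.ang) (-(ε * s)) hs' nb z₀ hz
    hg ?_
  intro z hz1 hz2 hp
  refine ⟨fun hzK => ?_, fun _ => ?_⟩
  · exfalso
    have hR1 : z ∈ O.fl F \ K.inn F :=
      ⟨Or.inr (hc.MO (Or.inr (hc.KM (Or.inl hzK)))), fun h => h.1 hzK⟩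
    have h4 := step1 h1 h3 hc hn j z hR1 hz2
    have h5 := hp _ na
    have h6 := hp _ nc
    have h7 := mul_pos h5 h6
    have h8 := mul_pos_of_neg_of_neg hlt (by linarith : -(kd F (lab φ k j) (lab φ k j + O.ang) z *
      kd F (lab φ k j) (lab φ k j + K.ang) z) < 0)
    nlinarith
  · rw [hc.aN]
    have h4 : (-s) * kd F (lab φ k j) (lab φ k j + M.ang) z₀ < 0 := by linarith
    have h5 := sgn' h4 (hp _ nb)
    have e1 : ε * (-(ε * s) * kd F (lab φ k j) (lab φ k j + M.ang) z) =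
        (ε * ε) * ((-s) * kd F (lab φ k j) (lab φ k j + M.ang) z) := by ring
    rw [e1, hε, one_mul]
    exact h5

theorem step12 (h1 : S_SIDE) (h3 : S_RUN) (hc : Conf F O M K N) (hn : NC F φ k O M K N) (j : ℤ)
    (z₀ : ℝ × ℝ) (hz : z₀ ∈ O.fl F \ N.inn F) (hg : z₀ ∈ Gam F (lab φ k j)) :
    0 < kd F (lab φ k j) (lab φ k j + O.ang) z₀ * kd F (lab φ k j) (lab φ k j + K.ang) z₀ := by
  by_cases h : z₀ ∈ K.inn F
  · exact step2 h1 h3 hc hn j z₀ ⟨Or.inr h, hz.2⟩ hg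
  · exact step1 h1 h3 hc hn j z₀ ⟨hz.1, h⟩ hg

theorem kd_id (F : ℝ × ℝ → ℝ × ℝ) (ψ a c α : ℝ) (z : ℝ × ℝ) :
    sin (c - a) * kd F ψ (ψ + α) z =
      sin (c - α) * kd F ψ (ψ + a) z + sin (α - a) * kd F ψ (ψ + c) z := by
  rw [kd_eq, kd_eq, kd_eq]
  have e1 : c - a = (ψ + c) - (ψ + a) := by ring
  have e2 : c - α = (ψ + c) - (ψ + α) := by ring
  have e3 : α - a = (ψ + α) - (ψ + a) := by ring
  rw [e1, e2, e3, sin_sub, sin_sub, sin_sub]
  unfold wedge tau
  ring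

theorem step3 {ψ a c s : ℝ} {z : ℝ × ℝ} (hac : a < c) (hca : c - a ≤ 1)
    (h1 : 0 < s * kd F ψ (ψ + a) z) (h2 : 0 < s * kd F ψ (ψ + c) z) :
    ∀ α ∈ Icc a c, 0 < s * kd F ψ (ψ + α) z := by
  intro α hα
  have hpi : (1 : ℝ) < π := by linarith [pi_gt_three]
  have h3 : 0 < sin (c - a) := sin_pos_of_pos_of_lt_pi (by linarith) (by linarith)
  have h4 : 0 ≤ sin (c - α) := sin_nonneg_of_nonneg_of_le_pi (by linarith [hα.2]) (by linarith [hα.1])
  have h5 : 0 ≤ sin (α - a) := sin_nonneg_of_nonneg_of_le_pi (by linarith [hα.1]) (by linarith [hα.2])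
  have h6 := kd_id F ψ a c α z
  have h7 : sin (c - a) * (s * kd F ψ (ψ + α) z) =
      sin (c - α) * (s * kd F ψ (ψ + a) z) + sin (α - a) * (s * kd F ψ (ψ + c) z) := by
    linear_combination s * h6
  have h8 : 0 < sin (c - α) * (s * kd F ψ (ψ + a) z) + sin (α - a) * (s * kd F ψ (ψ + c) z) := by
    rcases eq_or_lt_of_le hα.1 with h | h
    · rw [← h]
      have h9 := mul_pos h3 h1
      have h10 : sin (a - a) = 0 := by rw [sub_self, sin_zero]
      rw [h10, zero_mul, add_zero]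
      exact h9
    · have h9 : 0 < sin (α - a) := sin_pos_of_pos_of_lt_pi (by linarith) (by linarith [hα.2])
      have h10 := mul_pos h9 h2
      have h11 := mul_nonneg h4 h1.le
      linarith
  rw [← h7] at h8
  exact pos_of_mul_pos_right h8 h3.le

/-- the signs at all angles -/
theorem gd_of (h1 : S_SIDE) (h3 : S_RUN) (hc : Conf F O M K N) (hn : NC F φ k O M K N) (j : ℤ)
    (z : ℝ × ℝ) (hz : z ∈ O.fl F \ N.inn F) (hg : z ∈ Gam F (lab φ k j)) :
    ∃ s : ℝ, (s = 1 ∨ s = -1) ∧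
    ∀ α ∈ Icc O.ang K.ang, 0 < s * kd F (lab φ k j) (lab φ k j + α) z := by
  have h4 := step12 h1 h3 hc hn j z hz hg
  obtain ⟨s, hs, hsa⟩ := exists_sign (hn.1 z hz j hg)
  exact ⟨s, hs, step3 (hc.ab.trans hc.bc) hc.ca hsa (sgn hsa h4)⟩

/-- a point of the grid on a closed orbit -/
theorem grid_pt (hF : Continuous F) (hM : Orb (rf F M.ang) M.γ M.T) (φ : ℝ) (hk : 1 ≤ k) :
    ∃ x ∈ M.rg, ∃ j : ℤ, x ∈ Gam F (lab φ k j) := by
  have hcomp : IsCompact (range M.γ) := Hil.T.compact_range (loop_of hF hM)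
  have hcont : Continuous fun z : ℝ × ℝ => wedge (tau (φ + M.ang)) z := by
    unfold wedge
    fun_prop
  obtain ⟨z, hz, hmax⟩ := hcomp.exists_isMaxOn (range_nonempty _) hcont.continuousOn
  obtain ⟨t, rfl⟩ := hz
  have hder : HasDerivAt (fun u : ℝ => wedge (tau (φ + M.ang)) (M.γ u))
      (wedge (tau (φ + M.ang)) (rf F M.ang (M.γ t))) t := by
    have h1 := hM.ode t
    have h2 : HasDerivAt (fun u : ℝ => (M.γ u).1) (rf F M.ang (M.γ t)).1 t :=
      (ContinuousLinearMap.fst ℝ ℝ ℝ).hasFDerivAt.comp_hasDerivAt t h1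
    have h3 : HasDerivAt (fun u : ℝ => (M.γ u).2) (rf F M.ang (M.γ t)).2 t :=
      (ContinuousLinearMap.snd ℝ ℝ ℝ).hasFDerivAt.comp_hasDerivAt t h1
    exact (h3.const_mul _).sub (h2.const_mul _)
  have hloc : IsLocalMax (fun u : ℝ => wedge (tau (φ + M.ang)) (M.γ u)) t :=
    Eventually.of_forall fun u => hmax ⟨u, rfl⟩
  have h0 := hloc.hasDerivAt_eq_zero hder
  have hne : F (M.γ t) ≠ 0 := by
    intro h
    apply hM.ne t
    show rot M.ang (F (M.γ t)) = 0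
    rw [h]
    unfold rot
    simp
  have hrot : ∀ (u v : ℝ × ℝ), wedge (rot M.ang u) (rot M.ang v) = wedge u v := by
    intro u v
    unfold wedge rot
    have := sin_sq_add_cos_sq M.ang
    simp only
    linear_combination (u.1 * v.2 - u.2 * v.1) * this
  have htau : tau (φ + M.ang) = rot M.ang (tau φ) := by
    unfold tau rot
    rw [cos_add, sin_add]
    ext
    · simp
      ring
    · simp
      ring
  have h1 : wedge (tau φ) (F (M.γ t)) = 0 := by
    rw [htau] at h0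
    have h2 := hrot (tau φ) (F (M.γ t))
    rw [← h2]
    exact h0
  have h2 : F (M.γ t) = (cos φ * (F (M.γ t)).1 + sin φ * (F (M.γ t)).2) • tau φ := by
    have h3 : cos φ * (F (M.γ t)).2 - sin φ * (F (M.γ t)).1 = 0 := h1
    have h4 := sin_sq_add_cos_sq φ
    unfold tau
    ext
    · simp only [Prod.smul_fst, smul_eq_mul]
      linear_combination (-(F (M.γ t)).1) * h4 - sin φ * h3
    · simp only [Prod.smul_snd, smul_eq_mul]
      linear_combination (-(F (M.γ t)).2) * h4 + cos φ * h3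
  generalize cos φ * (F (M.γ t)).1 + sin φ * (F (M.γ t)).2 = l at h2
  have hl : l ≠ 0 := by
    rintro rfl
    rw [zero_smul] at h2
    exact hne h2
  refine ⟨M.γ t, ⟨t, rfl⟩, ?_⟩
  rcases lt_or_gt_of_ne hl with h | h
  · refine ⟨k, -l, by linarith, ?_⟩
    have hk0 : (k : ℝ) ≠ 0 := by
      have : 0 < k := hk
      positivity
    have e1 : lab φ k k = φ + π := by
      unfold lab
      push_cast
      field_simp
    rw [e1, h2]
    unfold tau
    rw [cos_add_pi, sin_add_pi]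
    ext <;> simp
  · refine ⟨0, l, h, ?_⟩
    have e1 : lab φ k 0 = φ := by
      unfold lab
      simp
    rw [e1]
    exact h2

end

end GOOD

open GOOD in
/-- **GOOD** -/
theorem good (h1 : S_SIDE) (_h2 : S_INV) (h3 : S_RUN) : S_GOOD := by
  intro F O M K N φ k hk hc hn
  have hF : Continuous F := hc.smooth.continuous
  refine ⟨hc, ⟨hc.oN, ?_⟩, fun z hz j hg => gd_of h1 h3 hc hn j z hz hg⟩
  obtain ⟨ε, hN⟩ := sc_of' hF hc.oN
  rcases hN.e1 with h | h
  · have h4 := hN.wn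
    rw [h] at h4
    exact h4
  · exfalso
    obtain ⟨x, hx, j, hg⟩ := grid_pt hF hc.oM.orb φ hk
    have hxa : x ∈ O.fl F \ N.inn F :=
      ⟨Or.inr (hc.MO (Or.inl hx)), fun h' => (hc.KM (Or.inr (hc.NK (Or.inr h')))).1 hx⟩
    obtain ⟨s, hs, hsα⟩ := gd_of h1 h3 hc hn j x hxa hg
    have hac := hc.ab.trans hc.bc
    refine no_run h1 h3 hc.smooth (sc_of hF hc.oO) hN hc.ne (lab φ k j) (lab φ k j + O.ang) s hs
      (fun z hz hg => hn.1 z hz j hg) x hxa hg ?_
    intro z _ _ hp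
    refine ⟨fun _ => ?_, fun _ => ?_⟩
    · rw [one_mul]
      exact sgn (hsα O.ang ⟨le_rfl, hac.le⟩) (hp _ fun z hz hg => hn.1 z hz j hg)
    · rw [hc.aN, h]
      have h5 := sgn (hsα M.ang ⟨hc.ab.le, hc.bc.le⟩) (hp _ fun z hz hg => hn.2.1 z hz j hg)
      linarith

end Pool.Agent.N224.SF
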