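import Pool.Agent.N224.SF.D0
import Pool.Agent.H709R2.Cut
import Pool.Agent.H709R2.Flows

/-! Project SF, part HIT: the next point of the grid depends continuously on the data. -/

set_option autoImplicit false

open Real Set MeasureTheory Topology Filter
open scoped ENNReal

namespace Pool.Agent.N224.SF

noncomputable section

open Pool.Agent.H709R2 (rot wedge field RotFlow)
open Pool.Agent.N224.Hil (Loop wn ins fill)

namespace HIT

/-! ### The first return -/

lemma near0 {H D : ℝ → ℝ → ℝ} (hD : Continuous (fun q : ℝ × ℝ => D q.1 q.2))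
    (hd : ∀ p t, HasDerivAt (H p) (D p t) t) (h0 : ∀ p, H p 0 = 0) {p₀ : ℝ}
    (hne : D p₀ 0 ≠ 0) : ∃ ε > 0, ∀ᶠ p in 𝓝 p₀, ∀ t ∈ Ioc 0 ε, H p t ≠ 0 := by
  have h1 : ∀ᶠ q : ℝ × ℝ in 𝓝 (p₀, 0), D q.1 q.2 ≠ 0 :=
    hD.continuousAt.eventually_ne (x := (p₀, (0 : ℝ))) hne
  obtain ⟨ρ, hρ, hb⟩ := Metric.eventually_nhds_iff.1 h1
  refine ⟨ρ / 2, by linarith, ?_⟩
  filter_upwards [Metric.ball_mem_nhds p₀ hρ] with p hp t ht hc
  obtain ⟨s, hs, hs0⟩ := exists_hasDerivAt_eq_zero (f := H p) (f' := D p) ht.1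
    (fun s _ => (hd p s).continuousAt.continuousWithinAt) (by rw [h0, hc]) (fun s _ => hd p s)
  refine hb (y := (p, s)) ?_ hs0
  rw [Prod.dist_eq, max_lt_iff]
  refine ⟨hp, ?_⟩
  rw [Real.dist_eq, sub_zero, abs_of_pos hs.1]
  linarith [hs.2, ht.2]

lemma first_return {H D : ℝ → ℝ → ℝ} (hH : Continuous (fun q : ℝ × ℝ => H q.1 q.2))
    (hD : Continuous (fun q : ℝ × ℝ => D q.1 q.2))
    (hd : ∀ p t, HasDerivAt (H p) (D p t) t)
    (h0 : ∀ p, H p 0 = 0) (hne : ∀ p t, 0 ≤ t → H p t = 0 → D p t ≠ 0)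
    (hex : ∀ p, ∃ t, 0 < t ∧ H p t = 0) :
    ∃ τ : ℝ → ℝ, Continuous τ ∧
      ∀ p, 0 < τ p ∧ H p (τ p) = 0 ∧ ∀ t ∈ Ioo 0 (τ p), H p t ≠ 0 := by
  have hHp : ∀ p, Continuous (H p) := fun p =>
    continuous_iff_continuousAt.2 fun t => (hd p t).continuousAt
  have hn := fun p => near0 hD hd h0 (hne p 0 le_rfl (h0 p))
  choose ε hε hε2 using hn
  have key : ∀ p, ∃ T, 0 < T ∧ H p T = 0 ∧ ∀ t ∈ Ioo 0 T, H p t ≠ 0 := by
    intro p
    obtain ⟨t₁, ht₁, ht₁0⟩ := hex p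
    have hp := (hε2 p).self_of_nhds
    set Z : Set ℝ := {t | ε p ≤ t ∧ H p t = 0} with hZ
    have hZc : IsClosed Z := (isClosed_le continuous_const continuous_id).inter
      (isClosed_eq (hHp p) continuous_const)
    have hZn : Z.Nonempty := ⟨t₁, by
      by_contra hc
      exact hp t₁ ⟨ht₁, (not_le.1 hc).le⟩ ht₁0, ht₁0⟩
    have hZb : BddBelow Z := ⟨ε p, fun t ht => ht.1⟩
    have hm := hZc.csInf_mem hZn hZb
    refine ⟨sInf Z, lt_of_lt_of_le (hε p) hm.1, hm.2, fun t ht hc => ?_⟩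
    by_cases h : t ≤ ε p
    · exact hp t ⟨ht.1, h⟩ hc
    · exact absurd (csInf_le hZb ⟨(not_le.1 h).le, hc⟩) (not_le.2 ht.2)
  choose τ hτ0 hτ1 hτ2 using key
  refine ⟨τ, ?_, fun p => ⟨hτ0 p, hτ1 p, hτ2 p⟩⟩
  rw [Metric.continuous_iff']
  intro p₀ η₀ hη₀
  set T := τ p₀ with hT
  have hT0 : 0 < T := hτ0 p₀
  obtain ⟨η, hη, hη1, hη2⟩ : ∃ η > 0, η ≤ η₀ ∧ η < T :=
    ⟨min η₀ (T / 2), lt_min hη₀ (by linarith), min_le_left _ _,
      lt_of_le_of_lt (min_le_right _ _) (by linarith)⟩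
  -- zeros near `T`
  have hDT : D p₀ T ≠ 0 := hne p₀ T hT0.le (hτ1 p₀)
  have hsl := hasDerivAt_iff_tendsto_slope.1 (hd p₀ T)
  have hsl2 : ∀ᶠ t in 𝓝[≠] T, 0 < D p₀ T * slope (H p₀) T t := by
    have h1 := hsl.const_mul (D p₀ T)
    exact h1.eventually_const_lt (mul_self_pos.2 hDT)
  obtain ⟨δ, hδ, hδ2⟩ := Metric.mem_nhdsWithin_iff.1 hsl2
  obtain ⟨x, hx, hxδ, hxη⟩ : ∃ x > 0, x < δ ∧ x < η :=
    ⟨min δ η / 2, by positivity, by
      have := min_le_left δ η
      have := lt_min hδ hη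
      linarith, by
      have := min_le_right δ η
      have := lt_min hδ hη
      linarith⟩
  have g1 : D p₀ T * H p₀ (T - x) < 0 := by
    have h1 : 0 < D p₀ T * slope (H p₀) T (T - x) := by
      refine hδ2 ⟨?_, ?_⟩
      · rw [Metric.mem_ball, Real.dist_eq, sub_sub_cancel_left, abs_neg, abs_of_pos hx]
        exact hxδ
      · show T - x ≠ T
        linarith
    rw [slope_def_field, hτ1 p₀, sub_zero, sub_sub_cancel_left] at h1
    have h2 : D p₀ T * H p₀ (T - x) = -(x * (D p₀ T * (H p₀ (T - x) / -x))) := by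
      field_simp
    rw [h2]
    exact neg_neg_of_pos (mul_pos hx h1)
  have g2 : 0 < D p₀ T * H p₀ (T + x) := by
    have h1 : 0 < D p₀ T * slope (H p₀) T (T + x) := by
      refine hδ2 ⟨?_, ?_⟩
      · rw [Metric.mem_ball, Real.dist_eq, add_sub_cancel_left, abs_of_pos hx]
        exact hxδ
      · show T + x ≠ T
        linarith
    rw [slope_def_field, hτ1 p₀, sub_zero, add_sub_cancel_left] at h1
    have h2 : D p₀ T * H p₀ (T + x) = x * (D p₀ T * (H p₀ (T + x) / x)) := by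
      field_simp
    rw [h2]
    exact mul_pos hx h1
  have hHt : ∀ t, Continuous fun p => D p₀ T * H p t := fun t =>
    continuous_const.mul (hH.comp (continuous_id.prodMk continuous_const))
  have e1 : ∀ᶠ p in 𝓝 p₀, D p₀ T * H p (T - x) < 0 :=
    (hHt (T - x)).continuousAt.eventually (gt_mem_nhds g1)
  have e2 : ∀ᶠ p in 𝓝 p₀, 0 < D p₀ T * H p (T + x) :=
    (hHt (T + x)).continuousAt.eventually (lt_mem_nhds g2)
  -- no zeros before
  have e3 : ∀ᶠ p in 𝓝 p₀, ∀ t ∈ Icc (ε p₀) (T - η), H p t ≠ 0 := by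
    refine isCompact_Icc.eventually_forall_of_forall_eventually fun t ht => ?_
    refine hH.continuousAt.eventually_ne (x := (p₀, t)) ?_
    exact hτ2 p₀ t ⟨lt_of_lt_of_le (hε p₀) ht.1, by linarith [ht.2]⟩
  filter_upwards [e1, e2, e3, hε2 p₀] with p h1 h2 h3 h4
  rw [Real.dist_eq, abs_lt]
  constructor
  · by_contra hc
    have h5 : τ p ≤ T - η := by linarith
    by_cases h6 : τ p ≤ ε p₀
    · exact h4 (τ p) ⟨hτ0 p, h6⟩ (hτ1 p)
    · exact h3 (τ p) ⟨(not_le.1 h6).le, h5⟩ (hτ1 p)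
  · obtain ⟨t, ht, ht0⟩ := intermediate_value_Ioo (show T - x ≤ T + x by linarith)
      ((continuous_const.mul (hHp p)).continuousOn (f := fun t => D p₀ T * H p t)) ⟨h1, h2⟩
    have h5 : H p t = 0 := (mul_eq_zero.1 ht0).resolve_left hDT
    have h6 : τ p ≤ t := by
      by_contra hc
      exact hτ2 p t ⟨by linarith [ht.1], not_le.1 hc⟩ h5
    linarith [ht.2]

/-! ### Trigonometry -/

lemma wedge_tau (a b r : ℝ) : wedge (tau a) (r • tau b) = r * sin (b - a) := by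
  unfold wedge tau
  rw [sin_sub]
  simp only [Prod.smul_mk, smul_eq_mul]
  ring

lemma tau_ne (a : ℝ) : tau a ≠ 0 := by
  intro h
  have h1 : cos a = 0 := congrArg Prod.fst h
  have h2 : sin a = 0 := congrArg Prod.snd h
  have h3 := sin_sq_add_cos_sq a
  rw [h1, h2] at h3
  norm_num at h3

lemma rot_tau (α a r : ℝ) : rot α (r • tau a) = r • tau (a + α) := by
  unfold rot tau
  rw [cos_add, sin_add]
  simp only [Prod.smul_mk, smul_eq_mul]
  ext
  · show cos α * (r * cos a) - sin α * (r * sin a) = r * (cos a * cos α - sin a * sin α)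
    ring
  · show sin α * (r * cos a) + cos α * (r * sin a) = r * (sin a * cos α + cos a * sin α)
    ring

lemma tau_add_int (a : ℝ) (q : ℤ) : tau (a + q * π) = cos (q * π) • tau a := by
  unfold tau
  rw [cos_add, sin_add, sin_int_mul_pi]
  simp only [Prod.smul_mk, smul_eq_mul, mul_zero, sub_zero, add_zero]
  rw [mul_comm (cos a), mul_comm (sin a)]

lemma cos_int_sq (q : ℤ) : cos (q * π) * cos (q * π) = 1 := by
  have h := sin_sq_add_cos_sq (q * π)
  rw [sin_int_mul_pi] at h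
  linarith

lemma polar (v : ℝ × ℝ) (hv : v ≠ 0) : ∃ r θ : ℝ, 0 < r ∧ v = r • tau θ := by
  set z : ℂ := ⟨v.1, v.2⟩ with hz
  have hz0 : z ≠ 0 := by
    intro h
    apply hv
    ext
    · exact congrArg Complex.re h
    · exact congrArg Complex.im h
  refine ⟨‖z‖, Complex.arg z, norm_pos_iff.2 hz0, ?_⟩
  ext
  · show v.1 = ‖z‖ * cos (Complex.arg z)
    rw [Complex.cos_arg hz0]
    have : ‖z‖ ≠ 0 := norm_ne_zero_iff.2 hz0
    field_simp
    rfl
  · show v.2 = ‖z‖ * sin (Complex.arg z)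
    rw [Complex.sin_arg]
    have : ‖z‖ ≠ 0 := norm_ne_zero_iff.2 hz0
    field_simp
    rfl

/-- a vector with nonnegative components -/
lemma par_of_wedge {a : ℝ} {v : ℝ × ℝ} (h : wedge (tau a) v = 0) (hv : v ≠ 0) :
    (∃ r : ℝ, 0 < r ∧ v = r • tau a) ∨ ∃ r : ℝ, 0 < r ∧ v = r • tau (a + π) := by
  obtain ⟨r, θ, hr, rfl⟩ := polar v hv
  rw [wedge_tau] at h
  have h1 : sin (θ - a) = 0 := (mul_eq_zero.1 h).resolve_left hr.ne'
  obtain ⟨n, hn⟩ := sin_eq_zero_iff.1 h1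
  have h2 : θ = a + n * π := by linarith
  have h3 := cos_int_sq n
  have h4 : cos (n * π) = 1 ∨ cos (n * π) = -1 := by
    have : (cos (n * π) - 1) * (cos (n * π) + 1) = 0 := by linarith
    rcases mul_eq_zero.1 this with h | h
    · left; linarith
    · right; linarith
  rw [h2, tau_add_int]
  rcases h4 with h | h
  · left
    exact ⟨r, hr, by rw [h, one_smul]⟩
  · right
    refine ⟨r, hr, ?_⟩
    have e := tau_add_int a 1
    rw [Int.cast_one, one_mul, cos_pi] at e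
    rw [h, e]

/-! ### The grid -/

variable {F : ℝ × ℝ → ℝ × ℝ} {φ : ℝ} {k : ℕ}

lemma lab_sub (i j : ℤ) : lab φ k j - lab φ k i = ((j - i : ℤ) : ℝ) * (π / k) := by
  unfold lab
  push_cast
  ring

lemma lab_add (hk : 1 ≤ k) (i q : ℤ) : lab φ k (i + q * k) = lab φ k i + q * π := by
  unfold lab
  have : (k : ℝ) ≠ 0 := by positivity
  push_cast
  field_simp
  ring

/-- reduction modulo `k` -/
lemma exists_mod (hk : 1 ≤ k) (j : ℤ) : ∃ i < k, ∃ q : ℤ, j = i + q * k := by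
  have hk' : (k : ℤ) ≠ 0 := by omega
  have h1 := Int.emod_nonneg j hk'
  have h2 := Int.emod_lt_of_pos j (show (0 : ℤ) < k by omega)
  refine ⟨(j % k).toNat, by omega, j / k, ?_⟩
  rw [Int.toNat_of_nonneg h1]
  have := Int.emod_add_mul_ediv j k
  linarith

lemma iso_of_gam {z : ℝ × ℝ} {a b r : ℝ} (h : F z = r • tau b) :
    iso F a z = r * sin (b - a) := by
  unfold iso
  rw [h, wedge_tau]

lemma iso_ne {z : ℝ × ℝ} (hk : 1 ≤ k) {i j : ℕ} (hi : i < k) (hj : j < k) (hij : i ≠ j) {r : ℝ}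
    {q : ℤ} (hr : 0 < r) (h : F z = r • tau (lab φ k (j + q * k))) :
    iso F (lab φ k i) z ≠ 0 := by
  rw [iso_of_gam h]
  refine mul_ne_zero hr.ne' fun h1 => ?_
  obtain ⟨n, hn⟩ := sin_eq_zero_iff.1 h1
  rw [lab_sub] at hn
  have hk0 : (k : ℝ) ≠ 0 := by positivity
  have h2 : ((n * k : ℤ) : ℝ) = ((j + q * k - i : ℤ) : ℝ) := by
    have h3 : (n : ℝ) * π * k = ((j + q * k - i : ℤ) : ℝ) * π := by
      rw [hn]
      field_simp
    have h4 : ((n : ℝ) * k - ((j + q * k - i : ℤ) : ℝ)) * π = 0 := by linarith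
    have h5 := (mul_eq_zero.1 h4).resolve_right pi_ne_zero
    push_cast at h5 ⊢
    linarith
  have h3 : (n * k : ℤ) = j + q * k - i := by exact_mod_cast h2
  have h4 : (k : ℤ) ∣ j - i := ⟨n - q, by linarith⟩
  have h5 : |(j : ℤ) - i| < k := by
    rw [abs_lt]
    constructor <;> omega
  have h6 := Int.eq_zero_of_abs_lt_dvd h4 h5
  omega

lemma iso_zero_of_gam {z : ℝ × ℝ} (hk : 1 ≤ k) {j : ℕ} {r : ℝ} {q : ℤ}
    (h : F z = r • tau (lab φ k (j + q * k))) : iso F (lab φ k j) z = 0 := by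
  rw [iso_of_gam h, lab_add hk, add_sub_cancel_left, sin_int_mul_pi, mul_zero]

lemma grid_iff {z : ℝ × ℝ} (hk : 1 ≤ k) (hz : F z ≠ 0) :
    z ∈ Grid F φ k ↔ ∏ i ∈ Finset.range k, iso F (lab φ k i) z = 0 := by
  rw [Finset.prod_eq_zero_iff]
  constructor
  · rintro ⟨j, r, hr, h⟩
    obtain ⟨i, hi, q, rfl⟩ := exists_mod hk j
    exact ⟨i, Finset.mem_range.2 hi, iso_zero_of_gam hk h⟩
  · rintro ⟨i, hi, h⟩
    rcases par_of_wedge h hz with ⟨r, hr, h1⟩ | ⟨r, hr, h1⟩
    · exact ⟨i, r, hr, h1⟩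
    · refine ⟨i + 1 * k, r, hr, ?_⟩
      rw [lab_add hk, h1, Int.cast_one, one_mul]

/-- transversality on the grid -/
lemma deriv_ne (hk : 1 ≤ k) {w : ℝ × ℝ} (hw : w ∈ Grid F φ k) {e α : ℝ} (he : e = 1 ∨ e = -1)
    (hkd : ∀ j : ℤ, w ∈ Gam F (lab φ k j) → kd F (lab φ k j) (lab φ k j + α) w ≠ 0) :
    ∑ i ∈ Finset.range k, (∏ j ∈ (Finset.range k).erase i, iso F (lab φ k j) w) *
      fderiv ℝ (iso F (lab φ k i)) w (e • rot α (F w)) ≠ 0 := by
  obtain ⟨j, r, hr, h⟩ := hw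
  have hj := hkd j ⟨r, hr, h⟩
  obtain ⟨i, hi, q, rfl⟩ := exists_mod hk j
  have hz : iso F (lab φ k i) w = 0 := iso_zero_of_gam hk h
  rw [Finset.sum_eq_single i]
  · refine mul_ne_zero (Finset.prod_ne_zero_iff.2 fun i' hi' => ?_) ?_
    · rw [Finset.mem_erase, Finset.mem_range] at hi'
      exact iso_ne hk hi'.2 hi hi'.1 hr h
    · rw [h, rot_tau, map_smul, map_smul, smul_eq_mul, smul_eq_mul]
      refine mul_ne_zero (by rcases he with h | h <;> rw [h] <;> norm_num)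
        (mul_ne_zero hr.ne' fun hc => hj ?_)
      have e1 : iso F (lab φ k (i + q * k)) = cos (q * π) • iso F (lab φ k i) := by
        funext z
        show wedge (tau (lab φ k (i + q * k))) (F z) = cos (q * π) * wedge (tau (lab φ k i)) (F z)
        rw [lab_add hk, tau_add_int]
        unfold wedge
        simp only [Prod.smul_fst, Prod.smul_snd, smul_eq_mul]
        ring
      unfold kd
      rw [e1, fderiv_const_smul_field]
      show cos (q * π) • (fderiv ℝ (iso F (lab φ k i)) w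
        (tau (lab φ k (i + q * k) + α))) = 0
      rw [hc, smul_zero]
  · intro i' _ hi'
    rw [Finset.prod_eq_zero (Finset.mem_erase.2 ⟨hi'.symm, Finset.mem_range.2 hi⟩) hz, zero_mul]
  · intro h'
    exact absurd (Finset.mem_range.2 hi) h'

/-! ### The trajectories return to the grid -/

lemma cone {a δ : ℝ} (h0 : 0 < δ) (h1 : δ ≤ π / 4) {v : ℝ × ℝ} (hv1 : 0 < wedge (tau a) v)
    (hv2 : wedge (tau (a + δ)) v < 0) :
    ‖v‖ ≤ 2 * ((tau a).1 * v.1 + (tau a).2 * v.2) := by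
  set x := (tau a).1 * v.1 + (tau a).2 * v.2 with hx
  set y := wedge (tau a) v with hy
  have e1 : wedge (tau (a + δ)) v = cos δ * y - sin δ * x := by
    rw [hx, hy]
    unfold wedge tau
    rw [cos_add, sin_add]
    ring
  have hs : 0 < sin δ := sin_pos_of_pos_of_lt_pi h0 (by linarith [pi_pos])
  have hc : 0 < cos δ := cos_pos_of_mem_Ioo ⟨by linarith [pi_pos], by linarith [pi_pos]⟩
  have hsc : sin δ ≤ cos δ := by
    have e : sin δ = cos (π / 2 - δ) := (cos_pi_div_two_sub δ).symm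
    rw [e]
    exact cos_le_cos_of_nonneg_of_le_pi h0.le (by linarith [pi_pos]) (by linarith [pi_pos])
  rw [e1] at hv2
  have hx0 : 0 < x := by
    by_contra hcon
    have : x ≤ 0 := not_lt.1 hcon
    nlinarith
  have hyx : y < x := by
    by_contra hcon
    have : x ≤ y := not_lt.1 hcon
    nlinarith
  have h3 := sin_sq_add_cos_sq a
  have ev1 : v.1 = cos a * x - sin a * y := by
    rw [hx, hy]
    unfold wedge tau
    linear_combination (-v.1) * h3
  have ev2 : v.2 = sin a * x + cos a * y := by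
    rw [hx, hy]
    unfold wedge tau
    linear_combination (-v.2) * h3
  have b1 : |v.1| ≤ x + y := by
    rw [ev1]
    refine (abs_sub _ _).trans ?_
    rw [abs_mul, abs_mul, abs_of_pos hx0, abs_of_pos hv1]
    have := abs_cos_le_one a
    have := abs_sin_le_one a
    nlinarith
  have b2 : |v.2| ≤ x + y := by
    rw [ev2]
    refine (abs_add_le _ _).trans ?_
    rw [abs_mul, abs_mul, abs_of_pos hx0, abs_of_pos hv1]
    have := abs_cos_le_one a
    have := abs_sin_le_one a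
    nlinarith
  rw [Prod.norm_def]
  refine max_le ?_ ?_
  · rw [Real.norm_eq_abs]
    linarith
  · rw [Real.norm_eq_abs]
    linarith

lemma hits (hF : Continuous F) (hk : 4 ≤ k) {W : Set (ℝ × ℝ)} (hW : IsCompact W)
    (hne : ∀ z ∈ W, F z ≠ 0) {e α : ℝ} (he : e = 1 ∨ e = -1) {w : ℝ → ℝ × ℝ}
    (hw : ∀ t, 0 ≤ t → HasDerivAt w (e • rot α (F (w t))) t) (hwW : ∀ t, 0 ≤ t → w t ∈ W) :
    ∃ t, 0 < t ∧ w t ∈ Grid F φ k := by
  by_contra hcon
  push Not at hcon
  have hk0 : (0 : ℝ) < k := by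
    have : 0 < k := by omega
    exact_mod_cast this
  have hk1 : 1 ≤ k := by omega
  have hcw : ∀ t, 0 ≤ t → ContinuousAt w t := fun t ht => (hw t ht).continuousAt
  -- the functions `iso` do not vanish
  have hiso : ∀ j : ℤ, ∀ t, 0 < t → iso F (lab φ k j) (w t) ≠ 0 := by
    intro j t ht h
    rcases par_of_wedge h (hne _ (hwW t ht.le)) with ⟨r, hr, h1⟩ | ⟨r, hr, h1⟩
    · exact hcon t ht ⟨j, r, hr, h1⟩
    · refine hcon t ht ⟨j + 1 * k, r, hr, ?_⟩
      rw [lab_add hk1, h1, Int.cast_one, one_mul]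
  have hcont : ∀ j : ℤ, ∀ T, ContinuousOn (fun t => iso F (lab φ k j) (w t)) (Icc 1 T) := by
    intro j T t ht
    have h1 : Continuous (iso F (lab φ k j)) := by
      unfold iso wedge
      fun_prop
    exact (h1.continuousAt.comp (hcw t (by linarith [ht.1]))).continuousWithinAt
  have hpos : ∀ j : ℤ, 0 < iso F (lab φ k j) (w 1) → ∀ t, 1 ≤ t → 0 < iso F (lab φ k j) (w t) := by
    intro j h1 t ht
    by_contra hc
    obtain ⟨s, hs, hs0⟩ := intermediate_value_Icc' ht (hcont j t) ⟨not_lt.1 hc, h1.le⟩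
    exact hiso j s (by linarith [hs.1]) hs0
  have hneg : ∀ j : ℤ, iso F (lab φ k j) (w 1) < 0 → ∀ t, 1 ≤ t → iso F (lab φ k j) (w t) < 0 := by
    intro j h1 t ht
    by_contra hc
    obtain ⟨s, hs, hs0⟩ := intermediate_value_Icc ht (hcont j t) ⟨h1.le, not_lt.1 hc⟩
    exact hiso j s (by linarith [hs.1]) hs0
  -- the sector
  obtain ⟨r, θ, hr, hv⟩ := polar (F (w 1)) (hne _ (hwW 1 zero_le_one))
  set δ := π / k with hδ
  have hδ0 : 0 < δ := div_pos pi_pos hk0
  have hδ4 : δ ≤ π / 4 := by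
    rw [hδ]
    exact div_le_div_of_nonneg_left pi_pos.le (by norm_num) (by exact_mod_cast hk)
  set m : ℤ := ⌊(θ - φ) / δ⌋ with hm
  have hm1 : lab φ k m ≤ θ := by
    have h1 : (m : ℝ) ≤ (θ - φ) / δ := Int.floor_le _
    rw [le_div_iff₀ hδ0] at h1
    unfold lab
    linarith
  have hm2 : θ < lab φ k m + δ := by
    have h1 : (θ - φ) / δ < m + 1 := Int.lt_floor_add_one _
    rw [div_lt_iff₀ hδ0] at h1
    unfold lab
    rw [← hδ]
    linarith
  have hl : lab φ k (m + 1) = lab φ k m + δ := by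
    unfold lab
    rw [← hδ]
    push_cast
    ring
  have s1 : 0 < iso F (lab φ k m) (w 1) := by
    have h1 := hiso m 1 one_pos
    rw [iso_of_gam hv] at h1 ⊢
    have h2 : 0 ≤ sin (θ - lab φ k m) :=
      sin_nonneg_of_nonneg_of_le_pi (by linarith) (by linarith [pi_pos])
    exact lt_of_le_of_ne (mul_nonneg hr.le h2) (Ne.symm h1)
  have s2 : iso F (lab φ k (m + 1)) (w 1) < 0 := by
    rw [iso_of_gam hv, hl]
    have h2 : 0 < sin (lab φ k m + δ - θ) :=
      sin_pos_of_pos_of_lt_pi (by linarith) (by linarith [pi_pos])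
    have h3 : sin (θ - (lab φ k m + δ)) = -sin (lab φ k m + δ - θ) := by
      rw [← sin_neg]
      congr 1
      ring
    rw [h3]
    nlinarith
  have p1 := hpos m s1
  have p2 := hneg (m + 1) s2
  rw [hl] at p2
  -- the lower bound for the field
  obtain ⟨z₀, hz₀, hmin⟩ := hW.exists_isMinOn ⟨w 0, hwW 0 le_rfl⟩ (hF.norm.continuousOn)
  set c₀ := ‖F z₀‖ with hc₀
  have hc₀0 : 0 < c₀ := norm_pos_iff.2 (hne z₀ hz₀)
  obtain ⟨R, hR⟩ := hW.isBounded.exists_norm_le
  have he2 : e * e = 1 := by rcases he with h | h <;> rw [h] <;> norm_num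
  set c : ℝ × ℝ := e • tau (lab φ k m + α) with hcdef
  set g : ℝ → ℝ := fun t => c.1 * (w t).1 + c.2 * (w t).2 with hg
  have hgd : ∀ t, 0 ≤ t → HasDerivAt g ((tau (lab φ k m)).1 * (F (w t)).1 +
      (tau (lab φ k m)).2 * (F (w t)).2) t := by
    intro t ht
    have h1 := (ContinuousLinearMap.fst ℝ ℝ ℝ).hasFDerivAt.comp_hasDerivAt t (hw t ht)
    have h2 := (ContinuousLinearMap.snd ℝ ℝ ℝ).hasFDerivAt.comp_hasDerivAt t (hw t ht)
    have h3 := (h1.const_mul c.1).add (h2.const_mul c.2)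
    refine h3.congr_deriv ?_
    have h4 := sin_sq_add_cos_sq α
    rw [hcdef]
    unfold tau rot
    rw [cos_add, sin_add]
    simp only [Prod.smul_mk, smul_eq_mul, ContinuousLinearMap.coe_fst',
      ContinuousLinearMap.coe_snd']
    linear_combination (cos (lab φ k m) * (F (w t)).1 + sin (lab φ k m) * (F (w t)).2) *
      (sin α ^ 2 + cos α ^ 2) * he2 +
      (cos (lab φ k m) * (F (w t)).1 + sin (lab φ k m) * (F (w t)).2) * h4
  have hmono : MonotoneOn (fun t => g t - c₀ / 2 * t) (Ici 1) := by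
    have hd2 : ∀ t, 0 ≤ t → HasDerivAt (fun t => g t - c₀ / 2 * t)
        ((tau (lab φ k m)).1 * (F (w t)).1 + (tau (lab φ k m)).2 * (F (w t)).2 - c₀ / 2) t := by
      intro t ht
      have h1 := (hgd t ht).sub ((hasDerivAt_id' t).const_mul (c₀ / 2))
      rw [mul_one] at h1
      exact h1
    refine monotoneOn_of_deriv_nonneg (convex_Ici 1)
      (fun t ht => (hd2 t (by linarith [mem_Ici.1 ht])).continuousAt.continuousWithinAt) ?_ ?_
    · intro t ht
      rw [interior_Ici, mem_Ioi] at ht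
      exact (hd2 t (by linarith)).differentiableAt.differentiableWithinAt
    · intro t ht
      rw [interior_Ici, mem_Ioi] at ht
      rw [(hd2 t (by linarith)).deriv]
      have h1 := cone hδ0 hδ4 (p1 t ht.le) (p2 t ht.le)
      have h2 : c₀ ≤ ‖F (w t)‖ := hmin (hwW t (by linarith))
      linarith
  have hc1 : |c.1| ≤ 1 := by
    rw [hcdef]
    show |e * cos (lab φ k m + α)| ≤ 1
    rw [abs_mul]
    have h1 : |e| = 1 := by rcases he with h | h <;> rw [h] <;> norm_num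
    rw [h1, one_mul]
    exact abs_cos_le_one _
  have hc2 : |c.2| ≤ 1 := by
    rw [hcdef]
    show |e * sin (lab φ k m + α)| ≤ 1
    rw [abs_mul]
    have h1 : |e| = 1 := by rcases he with h | h <;> rw [h] <;> norm_num
    rw [h1, one_mul]
    exact abs_sin_le_one _
  have hgb : ∀ t, 0 ≤ t → |g t| ≤ 2 * R := by
    intro t ht
    have h1 := hR (w t) (hwW t ht)
    have h2 : |(w t).1| ≤ ‖w t‖ := norm_fst_le (w t)
    have h3 : |(w t).2| ≤ ‖w t‖ := norm_snd_le (w t)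
    refine (abs_add_le _ _).trans ?_
    rw [abs_mul, abs_mul]
    have h4 : |c.1| * |(w t).1| ≤ 1 * |(w t).1| := mul_le_mul_of_nonneg_right hc1 (abs_nonneg _)
    have h5 : |c.2| * |(w t).2| ≤ 1 * |(w t).2| := mul_le_mul_of_nonneg_right hc2 (abs_nonneg _)
    linarith
  have hR0 : 0 ≤ R := (norm_nonneg _).trans (hR _ (hwW 0 le_rfl))
  set T : ℝ := 1 + (8 * R + 2) / c₀ with hT
  have hT1 : 1 ≤ T := by
    rw [hT]
    have : 0 ≤ (8 * R + 2) / c₀ := by positivity
    linarith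
  have h1 := hmono (mem_Ici.2 le_rfl) (mem_Ici.2 hT1) hT1
  simp only at h1
  have h2 := (abs_le.1 (hgb 1 zero_le_one)).1
  have h3 := (abs_le.1 (hgb T (by linarith))).2
  have h4 : c₀ / 2 * T = c₀ / 2 + (4 * R + 1) := by
    rw [hT]
    field_simp
    ring
  rw [h4] at h1
  linarith

/-! ### The proof -/

theorem core (hF : ContDiff ℝ 4 F) (hk : 4 ≤ k) {e : ℝ} (he : e = 1 ∨ e = -1)
    {W : Set (ℝ × ℝ)} (hW : IsCompact W) (hne : ∀ z ∈ W, F z ≠ 0) {z : ℝ → ℝ × ℝ} {α : ℝ → ℝ}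
    (hz : Continuous z) (hα : Continuous α) (hzW : ∀ p, z p ∈ W ∧ z p ∈ Grid F φ k)
    (h1 : ∀ p, ∀ (w : ℝ → ℝ × ℝ) (L : ℝ), 0 ≤ L → w 0 = z p →
      (∀ t ∈ Icc 0 L, HasDerivAt w (e • rot (α p) (F (w t))) t) → ∀ t ∈ Icc 0 L, w t ∈ W)
    (h2 : ∀ p, ∀ y ∈ W, ∀ j : ℤ, y ∈ Gam F (lab φ k j) →
      kd F (lab φ k j) (lab φ k j + α p) y ≠ 0) :
    ∃ y : ℝ → ℝ × ℝ, Continuous y ∧ ∀ p, y p ∈ W ∧ Nx F φ k e (α p) (z p) (y p) := by
  have hk1 : 1 ≤ k := by omega
  obtain ⟨R, hR⟩ := hW.isBounded.exists_norm_le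
  obtain ⟨X, hX, ⟨K, hK⟩, ⟨M, hM⟩, hXF'⟩ :=
    Pool.Agent.H709R2.exists_cutoff (hF.of_le (by norm_num : (2 : WithTop ℕ∞) ≤ 4)) R
  have hXF : ∀ q ∈ W, X =ᶠ[𝓝 q] F := fun q hq => hXF' q (hR q hq)
  obtain ⟨Φ, hΦ⟩ := Pool.Agent.H709R2.exists_rotFlow hX hK hM
  set G : ℝ → ℝ → ℝ × ℝ := fun p t => Φ (e * t) (z p) (α p) with hG
  have hGc : Continuous (fun q : ℝ × ℝ => G q.1 q.2) := by
    have h3 : Continuous (fun q : ℝ × ℝ => ((e * q.2, (z q.1, α q.1)) : ℝ × (ℝ × ℝ) × ℝ)) := by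
      fun_prop
    exact hΦ.smooth.continuous.comp h3
  have hGd : ∀ p t, HasDerivAt (G p) (e • rot (α p) (X (G p t))) t := by
    intro p t
    have h3 : HasDerivAt (fun t : ℝ => e * t) e t := by
      have := (hasDerivAt_id' t).const_mul e
      rwa [mul_one] at this
    exact (hΦ.deriv (z p) (α p) (e * t)).scomp t h3
  have hG0 : ∀ p, G p 0 = z p := by
    intro p
    show Φ (e * 0) (z p) (α p) = z p
    rw [mul_zero, hΦ.zero]
  have hGp : ∀ p, Continuous (G p) := fun p =>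
    continuous_iff_continuousAt.2 fun t => (hGd p t).continuousAt
  have hGW : ∀ p t, 0 ≤ t → G p t ∈ W := by
    intro p
    by_contra hcon
    push Not at hcon
    obtain ⟨t₁, ht₁, ht₁W⟩ := hcon
    set B : Set ℝ := {t | 0 ≤ t ∧ G p t ∉ W} with hB
    have hBn : B.Nonempty := ⟨t₁, ht₁, ht₁W⟩
    have hBb : BddBelow B := ⟨0, fun t ht => ht.1⟩
    set T := sInf B with hT
    have hT0 : 0 ≤ T := le_csInf hBn fun t ht => ht.1
    have hlt : ∀ t, 0 ≤ t → t < T → G p t ∈ W := by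
      intro t ht htT
      by_contra hc
      exact absurd (csInf_le hBb ⟨ht, hc⟩) (not_le.2 htT)
    have hTW : G p T ∈ W := by
      rcases hT0.eq_or_lt with h | h
      · rw [← h, hG0]
        exact (hzW p).1
      · have hcl : IsClosed (G p ⁻¹' W) := hW.isClosed.preimage (hGp p)
        have hsub : Ico 0 T ⊆ G p ⁻¹' W := fun t ht => hlt t ht.1 ht.2
        have h3 := hcl.closure_subset_iff.2 hsub
        rw [closure_Ico h.ne] at h3
        exact h3 ⟨h.le, le_rfl⟩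
    have hev : ∀ᶠ t in 𝓝 T, X (G p t) = F (G p t) :=
      (hGp p).continuousAt.eventually (hXF _ hTW)
    obtain ⟨δ, hδ, hb⟩ := Metric.eventually_nhds_iff.1 hev
    have hL := h1 p (G p) (T + δ / 2) (by linarith) (hG0 p) (fun t ht => by
      have e1 : X (G p t) = F (G p t) := by
        rcases lt_or_ge t T with h | h
        · exact (hXF _ (hlt t ht.1 h)).eq_of_nhds
        · apply hb
          rw [Real.dist_eq, abs_of_nonneg (by linarith)]
          linarith [ht.2]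
      rw [← e1]
      exact hGd p t)
    have h3 : T + δ / 2 ≤ T := le_csInf hBn fun t ht => by
      by_contra hc
      exact ht.2 (hL t ⟨ht.1, (not_le.1 hc).le⟩)
    linarith
  have hXG : ∀ p t, 0 ≤ t → X (G p t) = F (G p t) := fun p t ht =>
    (hXF _ (hGW p t ht)).eq_of_nhds
  have hGd' : ∀ p t, 0 ≤ t → HasDerivAt (G p) (e • rot (α p) (F (G p t))) t := by
    intro p t ht
    rw [← hXG p t ht]
    exact hGd p t
  -- the functions
  have cd : ∀ ψ, ContDiff ℝ 2 (iso X ψ) := by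
    intro ψ
    unfold iso wedge
    exact (contDiff_const.mul (contDiff_snd.comp hX)).sub
      (contDiff_const.mul (contDiff_fst.comp hX))
  set H : ℝ → ℝ → ℝ := fun p t => ∏ i ∈ Finset.range k, iso X (lab φ k i) (G p t) with hH
  set D : ℝ → ℝ → ℝ := fun p t => ∑ i ∈ Finset.range k,
    (∏ j ∈ (Finset.range k).erase i, iso X (lab φ k j) (G p t)) *
      fderiv ℝ (iso X (lab φ k i)) (G p t) (e • rot (α p) (X (G p t))) with hD
  have hVc : Continuous (fun q : ℝ × ℝ => e • rot (α q.1) (X (G q.1 q.2))) := by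
    have h3 : Continuous (fun q : ℝ × ℝ => X (G q.1 q.2)) := hX.continuous.comp hGc
    unfold rot
    fun_prop
  have hHc : Continuous (fun q : ℝ × ℝ => H q.1 q.2) :=
    continuous_finsetProd _ fun i _ => (cd _).continuous.comp hGc
  have hDc : Continuous (fun q : ℝ × ℝ => D q.1 q.2) := by
    refine continuous_finsetSum _ fun i _ => Continuous.mul ?_ ?_
    · exact continuous_finsetProd _ fun j _ => (cd _).continuous.comp hGc
    · exact (((cd (lab φ k i)).continuous_fderiv (by norm_num)).comp hGc).clm_apply hVc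
  have hHd : ∀ p t, HasDerivAt (H p) (D p t) t := by
    intro p t
    have h3 : ∀ i ∈ Finset.range k, HasDerivAt (fun t => iso X (lab φ k i) (G p t))
        (fderiv ℝ (iso X (lab φ k i)) (G p t) (e • rot (α p) (X (G p t)))) t := fun i _ =>
      (((cd (lab φ k i)).differentiable (by norm_num)) (G p t)).hasFDerivAt.comp_hasDerivAt t
        (hGd p t)
    exact HasDerivAt.fun_finsetProd h3
  have hisoXF : ∀ q ∈ W, ∀ ψ, iso X ψ =ᶠ[𝓝 q] iso F ψ := by
    intro q hq ψ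
    filter_upwards [hXF q hq] with x hx
    unfold iso
    rw [hx]
  have hHF : ∀ p t, 0 ≤ t → H p t = ∏ i ∈ Finset.range k, iso F (lab φ k i) (G p t) :=
    fun p t ht => Finset.prod_congr rfl fun i _ => (hisoXF _ (hGW p t ht) _).eq_of_nhds
  have hgrid : ∀ p t, 0 ≤ t → (G p t ∈ Grid F φ k ↔ H p t = 0) := by
    intro p t ht
    rw [grid_iff hk1 (hne _ (hGW p t ht)), hHF p t ht]
  have hH0 : ∀ p, H p 0 = 0 := by
    intro p
    rw [← hgrid p 0 le_rfl, hG0]
    exact (hzW p).2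
  have hDne : ∀ p t, 0 ≤ t → H p t = 0 → D p t ≠ 0 := by
    intro p t ht h0
    have hw := (hgrid p t ht).2 h0
    have h3 := deriv_ne hk1 hw he (h2 p _ (hGW p t ht))
    have h4 : D p t = ∑ i ∈ Finset.range k,
        (∏ j ∈ (Finset.range k).erase i, iso F (lab φ k j) (G p t)) *
          fderiv ℝ (iso F (lab φ k i)) (G p t) (e • rot (α p) (F (G p t))) := by
      refine Finset.sum_congr rfl fun i _ => ?_
      rw [(hisoXF _ (hGW p t ht) (lab φ k i)).fderiv_eq, hXG p t ht]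
      congr 1
      exact Finset.prod_congr rfl fun j _ => (hisoXF _ (hGW p t ht) _).eq_of_nhds
    rw [h4]
    exact h3
  have hex : ∀ p, ∃ t, 0 < t ∧ H p t = 0 := by
    intro p
    obtain ⟨t, ht, htG⟩ := hits (φ := φ) hF.continuous hk hW hne he (hGd' p) (hGW p)
    exact ⟨t, ht, (hgrid p t ht.le).1 htG⟩
  obtain ⟨τ, hτc, hτ⟩ := first_return hHc hDc hHd hH0 hDne hex
  refine ⟨fun p => G p (τ p), hGc.comp (continuous_id.prodMk hτc), fun p => ?_⟩
  obtain ⟨g1, g2, g3⟩ := hτ p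
  refine ⟨hGW p _ g1.le, G p, τ p, g1, hG0 p, rfl, fun t ht => hGd' p t ht.1, (hzW p).2,
    (hgrid p _ g1.le).2 g2, fun t ht hc => g3 t ht ((hgrid p t ht.1.le).1 hc)⟩

end HIT

/-- HIT -/
theorem hit : S_HIT := by
  intro F hF φ k e hk he W hW hne z α hz hα hzW h1 h2
  have h01 : (0 : ℝ) ≤ 1 := zero_le_one
  obtain ⟨y, hy, hy2⟩ := HIT.core (φ := φ) hF hk he hW hne
    (z := fun p => z (projIcc 0 1 h01 p)) (α := fun p => α (projIcc 0 1 h01 p))
    (hz.restrict.comp continuous_projIcc) (hα.restrict.comp continuous_projIcc)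
    (fun p => hzW _ (projIcc 0 1 h01 p).2) (fun p => h1 _ (projIcc 0 1 h01 p).2)
    (fun p => h2 _ (projIcc 0 1 h01 p).2)
  refine ⟨y, hy.continuousOn, fun p hp => ?_⟩
  have h3 := hy2 p
  rw [projIcc_of_mem h01 hp] at h3
  exact h3

end

end Pool.Agent.N224.SF
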