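import Pool.Agent.N224.SF.D0
import Pool.Agent.N224.Hil.T
import Pool.Agent.N224.Hil.W

/-! Project SF: invariance of the region between two nested curves (`S_INV`). -/

set_option autoImplicit false

open Real Set MeasureTheory Topology Filter

namespace Pool.Agent.N224.SF

open Pool.Agent.H709R2 (rot wedge field)
open Pool.Agent.N224.Hil (Loop wn ins fill)

namespace INV

theorem fl (x : ℝ) : Tendsto (fun s : ℝ => 2 * x - s) (𝓝[>] x) (𝓝[<] x) := by
  apply tendsto_nhdsWithin_of_tendsto_nhds_of_eventually_within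
  · have h : Tendsto (fun s : ℝ => 2 * x - s) (𝓝 x) (𝓝 (2 * x - x)) :=
      (continuous_const.sub continuous_id).tendsto x
    rw [show 2 * x - x = x by ring] at h
    exact h.mono_left nhdsWithin_le_nhds
  · filter_upwards [self_mem_nhdsWithin] with s hs
    have hs' : x < s := hs
    change 2 * x - s < x
    linarith

theorem fr (x : ℝ) : Tendsto (fun s : ℝ => 2 * x - s) (𝓝[<] x) (𝓝[>] x) := by
  apply tendsto_nhdsWithin_of_tendsto_nhds_of_eventually_within
  · have h : Tendsto (fun s : ℝ => 2 * x - s) (𝓝 x) (𝓝 (2 * x - x)) :=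
      (continuous_const.sub continuous_id).tendsto x
    rw [show 2 * x - x = x by ring] at h
    exact h.mono_left nhdsWithin_le_nhds
  · filter_upwards [self_mem_nhdsWithin] with s hs
    have hs' : s < x := hs
    change x < 2 * x - s
    linarith

/-- the curve run through backwards -/
theorem rev (hS : S_SIDE) {δ U : ℝ → ℝ × ℝ} {S ε' : ℝ} (h : Sc δ U S ε') {w : ℝ → ℝ × ℝ}
    {v : ℝ × ℝ} {x s₀ : ℝ} (hw : HasDerivAt w v x) (h1 : w x = δ s₀)
    (h2 : ε' * wedge (U s₀) v < 0) :
    (∀ᶠ s in 𝓝[<] x, w s ∈ ins δ U S) ∧ (∀ᶠ s in 𝓝[>] x, w s ∉ fill δ U S) := by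
  have e1 : HasDerivAt (fun s : ℝ => 2 * x - s) (-1) x := by
    simpa using (hasDerivAt_id x).const_sub (2 * x)
  have e2 : HasDerivAt w v ((fun s : ℝ => 2 * x - s) x) := by
    have : (fun s : ℝ => 2 * x - s) x = x := by
      change 2 * x - x = x
      ring
    rw [this]
    exact hw
  have e3 : HasDerivAt (fun s : ℝ => w (2 * x - s)) (-v) x := by
    have e6 := e2.scomp x e1
    have e7 : (-1 : ℝ) • v = -v := by simp
    rw [e7] at e6
    exact e6
  have e4 : (fun s : ℝ => w (2 * x - s)) x = δ s₀ := by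
    change w (2 * x - x) = δ s₀
    rw [show 2 * x - x = x by ring]
    exact h1
  have e5 : 0 < ε' * wedge (U s₀) (-v) := by
    have : wedge (U s₀) (-v) = -wedge (U s₀) v := by
      unfold wedge
      simp only [Prod.fst_neg, Prod.snd_neg]
      ring
    rw [this]
    linarith
  obtain ⟨f1, f2⟩ := hS δ U S ε' h _ (-v) x s₀ e3 e4 e5
  constructor
  · have := (fr x).eventually f1
    filter_upwards [this] with s hs
    rwa [show 2 * x - (2 * x - s) = s by ring] at hs
  · have := (fl x).eventually f2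
    filter_upwards [this] with s hs
    rwa [show 2 * x - (2 * x - s) = s by ring] at hs

end INV

open INV in
theorem inv (hS : S_SIDE) : S_INV := by
  intro γ V T ε δ U S ε' hγ hδ hsub w w' t₀ t₁ ht hw h0 hg hd
  obtain ⟨oγ, cγ⟩ := Hil.t0 Hil.w1 Hil.w2 Hil.w3 γ V T hγ.loop
  obtain ⟨oδ, cδ⟩ := Hil.t0 Hil.w1 Hil.w2 Hil.w3 δ U S hδ.loop
  have hR : IsClosed (fill γ V T \ ins δ U S) := by
    rw [sdiff_eq]
    exact cγ.isClosed.inter oδ.isClosed_compl
  have hcont : ContinuousOn w (Icc t₀ t₁) := fun t ht => (hw t ht).continuousAt.continuousWithinAt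
  have key : Icc t₀ t₁ ⊆ {t | w t ∈ fill γ V T \ ins δ U S} := by
    apply IsClosed.Icc_subset_of_forall_mem_nhdsWithin
    · rw [inter_comm]
      exact hcont.preimage_isClosed_of_isClosed isClosed_Icc hR
    · exact h0
    · rintro x ⟨hx1, hx2⟩
      have hxI : x ∈ Icc t₀ t₁ := Ico_subset_Icc_self hx2
      have hwx := hw x hxI
      have hx1' : w x ∈ fill γ V T \ ins δ U S := hx1
      change ∀ᶠ s in 𝓝[>] x, w s ∈ fill γ V T \ ins δ U S
      by_cases c1 : w x ∈ range γ
      · obtain ⟨s, hs⟩ := c1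
        have e1 := (hS γ V T ε hγ w (w' x) x s hwx hs.symm (hg x hxI s hs.symm)).1
        have e2 : w x ∉ fill δ U S := by
          intro h
          exact (hsub h).1 ⟨s, hs⟩
        have e3 : ∀ᶠ s in 𝓝[>] x, w s ∈ (fill δ U S)ᶜ :=
          (hwx.continuousAt.eventually_mem (cδ.isClosed.isOpen_compl.mem_nhds e2)).filter_mono
            nhdsWithin_le_nhds
        filter_upwards [e1, e3] with s hs1 hs2
        exact ⟨Or.inr hs1, fun h => hs2 (Or.inr h)⟩
      · have e1 : w x ∈ ins γ V T := hx1'.1.resolve_left c1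
        have e2 : ∀ᶠ s in 𝓝[>] x, w s ∈ ins γ V T :=
          (hwx.continuousAt.eventually_mem (oγ.mem_nhds e1)).filter_mono nhdsWithin_le_nhds
        have e3 : ∀ᶠ s in 𝓝[>] x, w s ∉ fill δ U S := by
          by_cases c2 : w x ∈ range δ
          · obtain ⟨s, hs⟩ := c2
            exact (rev hS hδ hwx hs.symm (hd x hxI s hs.symm)).2
          · have e4 : w x ∉ fill δ U S := by
              rintro (h | h)
              · exact c2 h
              · exact hx1'.2 h
            exact (hwx.continuousAt.eventually_mem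
              (cδ.isClosed.isOpen_compl.mem_nhds e4)).filter_mono nhdsWithin_le_nhds
        filter_upwards [e2, e3] with s hs1 hs2
        exact ⟨Or.inr hs1, fun h => hs2 (Or.inr h)⟩
  refine ⟨key, fun t ht' => ?_⟩
  have htI : t ∈ Icc t₀ t₁ := Ioc_subset_Icc_self ht'
  have hwt := hw t htI
  obtain ⟨k1, k2⟩ := key htI
  have hev : ∀ᶠ s in 𝓝[<] t, w s ∈ fill γ V T \ ins δ U S := by
    filter_upwards [Ioo_mem_nhdsLT ht'.1] with s hs
    exact key ⟨hs.1.le, hs.2.le.trans ht'.2⟩
  constructor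
  · rcases k1 with h | h
    · exfalso
      obtain ⟨s, hs⟩ := h
      have e1 := (hS γ V T ε hγ w (w' t) t s hwt hs.symm (hg t htI s hs.symm)).2
      obtain ⟨r, hr1, hr2⟩ := (e1.and hev).exists
      exact hr1 hr2.1
    · exact h
  · rintro (h | h)
    · obtain ⟨s, hs⟩ := h
      have e1 := (rev hS hδ hwt hs.symm (hd t htI s hs.symm)).1
      obtain ⟨r, hr1, hr2⟩ := (e1.and hev).exists
      exact hr2.2 hr1
    · exact k2 h

end Pool.Agent.N224.SF
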