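import Pool.Agent.N224.SF.D1

/-! Project SF: invariance of the regions between the nested closed orbits under the rotated
fields. -/

set_option autoImplicit false

open Real Set MeasureTheory Topology Filter

namespace Pool.Agent.N224.SF

open Pool.Agent.H709R2 (rot wedge field)
open Pool.Agent.H709U (rf Orb)
open Pool.Agent.N224.Hil (Loop wn ins fill)

namespace INV2

theorem lip {G : ℝ × ℝ → ℝ × ℝ} (hG : ContDiff ℝ 1 G) (R : ℝ) :
    ∃ K : NNReal, LipschitzOnWith K G (Metric.closedBall 0 R) := by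
  have hc : Continuous (fun x => fderiv ℝ G x) := hG.continuous_fderiv (by norm_num)
  obtain ⟨C, hC⟩ := (isCompact_closedBall (0 : ℝ × ℝ) R).exists_bound_of_continuousOn hc.continuousOn
  refine ⟨⟨max C 0, le_max_right _ _⟩, ?_⟩
  refine Convex.lipschitzOnWith_of_nnnorm_fderiv_le
    (fun x _ => (hG.differentiable (by norm_num)) x) (fun x hx => ?_) (convex_closedBall _ _)
  have h := (hC x hx).trans (le_max_left C 0)
  exact h

theorem rot_cd (α : ℝ) {F : ℝ × ℝ → ℝ × ℝ} (hF : ContDiff ℝ 4 F) (e : ℝ) :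
    ContDiff ℝ 1 (fun x => e • rot α (F x)) := by
  have h1 : ContDiff ℝ 1 F := hF.of_le (by norm_num)
  have h2 : ContDiff ℝ 1 (rot α) := by
    unfold rot
    fun_prop
  exact (h2.comp h1).const_smul e

theorem uniq {F : ℝ × ℝ → ℝ × ℝ} (hF : ContDiff ℝ 4 F) {A : Cyc}
    (hA : Orb (rf F A.ang) A.γ A.T) (e : ℝ) {w : ℝ → ℝ × ℝ} {L t₁ : ℝ}
    (hw : ∀ t ∈ Icc 0 L, HasDerivAt w (e • rot A.ang (F (w t))) t) (ht₁ : t₁ ∈ Icc 0 L)
    (hm : w t₁ ∈ A.rg) : ∀ t ∈ Icc 0 L, w t ∈ A.rg := by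
  obtain ⟨u, hu⟩ := hm
  have hgc : Continuous A.γ := continuous_iff_continuousAt.2 fun t => (hA.ode t).continuousAt
  -- the comparison curve
  set y : ℝ → ℝ × ℝ := fun t => A.γ (u + e * (t - t₁)) with hy
  have hyd : ∀ t, HasDerivAt y (e • rot A.ang (F (y t))) t := by
    intro t
    have h1 : HasDerivAt (fun t : ℝ => u + e * (t - t₁)) e t := by
      simpa using ((((hasDerivAt_id t).sub_const t₁).const_mul e).const_add u)
    exact (hA.ode (u + e * (t - t₁))).scomp t h1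
  have hy1 : y t₁ = w t₁ := by
    rw [← hu]
    show A.γ (u + e * (t₁ - t₁)) = A.γ u
    rw [sub_self, mul_zero, add_zero]
  have hwc : ContinuousOn w (Icc 0 L) := fun t ht => (hw t ht).continuousAt.continuousWithinAt
  have hyc : Continuous y := continuous_iff_continuousAt.2 fun t => (hyd t).continuousAt
  obtain ⟨R, hR⟩ := (((isCompact_Icc (a := (0 : ℝ)) (b := L)).image_of_continuousOn hwc).union
    ((isCompact_Icc (a := (0 : ℝ)) (b := L)).image hyc)).isBounded.subset_closedBall 0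
  have hRw : ∀ t ∈ Icc 0 L, w t ∈ Metric.closedBall (0 : ℝ × ℝ) R := fun t ht =>
    hR (Or.inl ⟨t, ht, rfl⟩)
  have hRy : ∀ t ∈ Icc 0 L, y t ∈ Metric.closedBall (0 : ℝ × ℝ) R := fun t ht =>
    hR (Or.inr ⟨t, ht, rfl⟩)
  obtain ⟨K, hK⟩ := lip (rot_cd A.ang hF e) R
  have hright : EqOn w y (Icc t₁ L) := by
    refine ODE_solution_unique_of_mem_Icc_right (v := fun _ x => e • rot A.ang (F x))
      (s := fun _ => Metric.closedBall 0 R) (K := K) (fun t _ => hK)
      (hwc.mono (Icc_subset_Icc_left ht₁.1)) ?_ ?_ hyc.continuousOn ?_ ?_ hy1.symm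
    · intro t ht
      exact (hw t ⟨ht₁.1.trans ht.1, ht.2.le⟩).hasDerivWithinAt
    · intro t ht
      exact hRw t ⟨ht₁.1.trans ht.1, ht.2.le⟩
    · intro t ht
      exact (hyd t).hasDerivWithinAt
    · intro t ht
      exact hRy t ⟨ht₁.1.trans ht.1, ht.2.le⟩
  have hleft : EqOn w y (Icc 0 t₁) := by
    refine ODE_solution_unique_of_mem_Icc_left (v := fun _ x => e • rot A.ang (F x))
      (s := fun _ => Metric.closedBall 0 R) (K := K) (fun t _ => hK)
      (hwc.mono (Icc_subset_Icc_right ht₁.2)) ?_ ?_ hyc.continuousOn ?_ ?_ hy1.symm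
    · intro t ht
      exact (hw t ⟨ht.1.le, ht.2.trans ht₁.2⟩).hasDerivWithinAt
    · intro t ht
      exact hRw t ⟨ht.1.le, ht.2.trans ht₁.2⟩
    · intro t ht
      exact (hyd t).hasDerivWithinAt
    · intro t ht
      exact hRy t ⟨ht.1.le, ht.2.trans ht₁.2⟩
  intro t ht
  have h : w t = y t := by
    rcases le_total t t₁ with h | h
    · exact hleft ⟨ht.1, h⟩
    · exact hright ⟨h, ht.2⟩
  rw [h]
  exact ⟨_, rfl⟩

theorem sc_of {F : ℝ × ℝ → ℝ × ℝ} (hF : Continuous F) {O : Cyc} (h : O.Ok F) :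
    Sc O.γ (O.V F) O.T 1 := by
  have hc : Continuous O.γ := continuous_iff_continuousAt.2 fun t => (h.orb.ode t).continuousAt
  exact ⟨⟨h.orb.pos, h.orb.ode, (Pool.Agent.H709R2.continuous_rot O.ang).comp (hF.comp hc),
    h.orb.per⟩, h.orb.ne, h.orb.inj, Or.inl rfl, h.ccw⟩

theorem wedge_e (a α e : ℝ) (v : ℝ × ℝ) :
    wedge (rot a v) (e • rot α v) = e * (H709R2.sq v * sin (α - a)) := by
  rw [← Pool.Agent.H709R2.wedge_rot]
  unfold wedge
  simp only [Prod.smul_fst, Prod.smul_snd, smul_eq_mul]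
  ring

/-- invariance of the region between two nested closed orbits -/
theorem inv (h2 : S_INV) {F : ℝ × ℝ → ℝ × ℝ} (hF : ContDiff ℝ 4 F) {A B : Cyc} (hA : A.Ok F)
    (hB : B.Ok F) (hsub : B.fl F ⊆ A.inn F) (e α : ℝ)
    (ha : α = A.ang ∨ 0 < e * sin (α - A.ang)) (hb : α = B.ang ∨ e * sin (α - B.ang) < 0)
    {w : ℝ → ℝ × ℝ} {L : ℝ} (hL : 0 ≤ L) (h0 : w 0 ∈ A.fl F \ B.inn F)
    (hw : ∀ t ∈ Icc 0 L, HasDerivAt w (e • rot α (F (w t))) t) :
    ∀ t ∈ Icc 0 L, w t ∈ A.fl F \ B.inn F := by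
  by_cases hcA : α = A.ang ∧ ∃ t₁ ∈ Icc 0 L, w t₁ ∈ A.rg
  · obtain ⟨rfl, t₁, ht₁, hm⟩ := hcA
    intro t ht
    have h := uniq hF hA.orb e hw ht₁ hm t ht
    exact ⟨Or.inl h, fun h' => (hsub (Or.inr h')).1 h⟩
  by_cases hcB : α = B.ang ∧ ∃ t₁ ∈ Icc 0 L, w t₁ ∈ B.rg
  · obtain ⟨rfl, t₁, ht₁, hm⟩ := hcB
    intro t ht
    have h := uniq hF hB.orb e hw ht₁ hm t ht
    exact ⟨Or.inr (hsub (Or.inl h)), fun h' => h'.1 h⟩
  have hcont : Continuous F := hF.continuous
  have hpos : ∀ (C : Cyc), C.Ok F → ∀ s, 0 < H709R2.sq (F (C.γ s)) := by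
    intro C hC s
    apply Pool.Agent.H709R2.sq_pos
    intro h
    apply hC.orb.ne s
    show rot C.ang (F (C.γ s)) = 0
    rw [h]
    unfold rot
    simp
  refine (h2 A.γ (A.V F) A.T 1 B.γ (B.V F) B.T 1 (sc_of hcont hA) (sc_of hcont hB) hsub w
    (fun t => e • rot α (F (w t))) 0 L hL hw h0 ?_ ?_).1
  · intro t ht s hs
    have hne : α ≠ A.ang := fun h => hcA ⟨h, t, ht, ⟨s, hs.symm⟩⟩
    have h3 := ha.resolve_left hne
    show 0 < 1 * wedge (rot A.ang (F (A.γ s))) (e • rot α (F (w t)))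
    rw [hs, wedge_e, one_mul]
    have := mul_pos (hpos A hA s) h3
    nlinarith
  · intro t ht s hs
    have hne : α ≠ B.ang := fun h => hcB ⟨h, t, ht, ⟨s, hs.symm⟩⟩
    have h3 := hb.resolve_left hne
    show 1 * wedge (rot B.ang (F (B.γ s))) (e • rot α (F (w t))) < 0
    rw [hs, wedge_e, one_mul]
    have := mul_neg_of_pos_of_neg (hpos B hB s) h3
    nlinarith

end INV2

open INV2 in
/-- **INV2** -/
theorem inv2 (_h1 : S_SIDE) (h2 : S_INV) : S_INV2 := by
  intro F O M K N φ k hg α hα w L hL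
  have hc := hg.cf
  have hpi : (3 : ℝ) < π := pi_gt_three
  have hab := hc.ab
  have hbc := hc.bc
  have hca := hc.ca
  have hb : α = M.ang ∨ 0 < sin (α - M.ang) := by
    rcases eq_or_lt_of_le hα.1 with h | h
    · exact Or.inl h.symm
    · exact Or.inr (sin_pos_of_pos_of_lt_pi (by linarith) (by linarith [hα.2]))
  have hk : α = K.ang ∨ sin (α - K.ang) < 0 := by
    rcases eq_or_lt_of_le hα.2 with h | h
    · exact Or.inl h
    · exact Or.inr (sin_neg_of_neg_of_neg_pi_lt (by linarith) (by linarith [hα.1]))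
  refine ⟨fun h0 hw => ?_, fun h0 hw => ?_, ?_, ?_⟩
  · refine inv h2 hc.smooth hc.oM hc.oK hc.KM 1 α ?_ ?_ hL h0 hw
    · rw [one_mul]
      exact hb
    · rw [one_mul]
      exact hk
  · refine inv h2 hc.smooth hc.oK hg.nN hc.NK (-1) α ?_ ?_ hL h0 hw
    · rcases hk with h | h
      · exact Or.inl h
      · exact Or.inr (by linarith)
    · rw [hc.aN]
      rcases hb with h | h
      · exact Or.inl h
      · exact Or.inr (by linarith)
  · rintro rfl h0 hw
    exact uniq hc.smooth hc.oK.orb 1 hw (left_mem_Icc.2 hL) h0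
  · rintro rfl h0 hw
    have haN := hc.aN
    rw [← haN] at hw
    exact uniq hc.smooth hc.oN (-1) hw (left_mem_Icc.2 hL) h0

end Pool.Agent.N224.SF
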