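import Pool.Agent.N224.SF.D0

/-!
# Task LAM of project SF: laminar families (helper918)
-/

set_option autoImplicit false

namespace Pool.Agent.N224.SF

open Finset

namespace LAM

/-- at most one member of a laminar family arises from another member by removing `z` -/
lemma inter_card {α : Type*} [DecidableEq α] {A : Finset (Finset α)} {z : α}
    (hne : ∀ a ∈ A, a.Nonempty)
    (hlam : ∀ a ∈ A, ∀ b ∈ A, a ⊆ b ∨ b ⊆ a ∨ Disjoint a b) :
    ((A.filter fun a => z ∉ a) ∩ ((A.filter fun a => z ∈ a).image fun a => a.erase z)).card ≤ 1 := by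
  have key : ∀ a ∈ A, ∀ a' ∈ A, z ∈ a → z ∈ a' → a.erase z ∈ A → a'.erase z ∈ A → a ⊆ a' →
      a.erase z = a'.erase z := by
    intro a ha a' ha' hz _ hb hb' hsub
    have h1 : a.erase z ⊆ a'.erase z := erase_subset_erase z hsub
    have h2 : a'.erase z ⊆ a := by
      rcases hlam _ hb' _ ha with h | h | h
      · exact h
      · exact absurd (h hz) (notMem_erase z a')
      · exfalso
        obtain ⟨x, hx⟩ := hne _ hb
        exact (Finset.disjoint_left.1 h (h1 hx)) (erase_subset z a hx)
    apply Finset.Subset.antisymm h1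
    intro x hx
    rw [mem_erase]
    exact ⟨(mem_erase.1 hx).1, h2 hx⟩
  rw [card_le_one]
  intro b hb b' hb'
  rw [mem_inter, mem_filter, mem_image] at hb hb'
  obtain ⟨⟨hbA, -⟩, a, ha, rfl⟩ := hb
  obtain ⟨⟨hbA', -⟩, a', ha', rfl⟩ := hb'
  rw [mem_filter] at ha ha'
  rcases hlam a ha.1 a' ha'.1 with h | h | h
  · exact key a ha.1 a' ha'.1 ha.2 ha'.2 hbA hbA' h
  · exact (key a' ha'.1 a ha.1 ha'.2 ha.2 hbA' hbA h).symm
  · exact absurd ha'.2 (Finset.disjoint_left.1 h ha.2)

theorem main {α : Type*} [DecidableEq α] (Z : Finset α) : ∀ A : Finset (Finset α),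
    (∀ a ∈ A, a.Nonempty ∧ a ⊆ Z) → (∀ a ∈ A, ∀ b ∈ A, a ⊆ b ∨ b ⊆ a ∨ Disjoint a b) →
    A.card ≤ 2 * Z.card := by
  induction Z using Finset.induction_on with
  | empty =>
    intro A hA _
    have : A = ∅ := by
      rw [eq_empty_iff_forall_notMem]
      intro a ha
      obtain ⟨h1, h2⟩ := hA a ha
      exact h1.ne_empty (subset_empty.1 h2)
    rw [this]
    simp
  | insert z Z hz ih =>
    intro A hA hlam
    set A0 := A.filter fun a => z ∉ a with hA0
    set A1 := A.filter fun a => z ∈ a with hA1
    set A1' := A1.image fun a => a.erase z with hA1'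
    have hc : A1.card + A0.card = A.card := card_filter_add_card_filter_not (s := A) (fun a => z ∈ a)
    have hc1 : A1'.card = A1.card := by
      apply card_image_of_injOn
      intro a ha b hb hab
      have ha' := (mem_filter.1 (mem_coe.1 ha)).2
      have hb' := (mem_filter.1 (mem_coe.1 hb)).2
      have hab' : a.erase z = b.erase z := hab
      rw [← insert_erase ha', ← insert_erase hb', hab']
    have hi : (A0 ∩ A1').card ≤ 1 := inter_card (fun a ha => (hA a ha).1) hlam
    have hu := card_union_add_card_inter A0 A1'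
    have hcov : ∀ b ∈ A0 ∪ A1', ∃ a ∈ A, b = a.erase z := by
      intro b hb
      rcases mem_union.1 hb with h | h
      · rw [hA0, mem_filter] at h
        exact ⟨b, h.1, (erase_eq_of_notMem h.2).symm⟩
      · rw [hA1', mem_image] at h
        obtain ⟨a, ha, rfl⟩ := h
        exact ⟨a, (mem_filter.1 ha).1, rfl⟩
    have h1 := ih ((A0 ∪ A1').erase ∅) (by
      intro b hb
      rw [mem_erase] at hb
      refine ⟨nonempty_iff_ne_empty.2 hb.1, ?_⟩
      obtain ⟨a, ha, rfl⟩ := hcov b hb.2
      intro x hx
      rw [mem_erase] at hx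
      exact (mem_insert.1 ((hA a ha).2 hx.2)).resolve_left hx.1) (by
      intro b hb b' hb'
      obtain ⟨a, ha, rfl⟩ := hcov b (mem_erase.1 hb).2
      obtain ⟨a', ha', rfl⟩ := hcov b' (mem_erase.1 hb').2
      rcases hlam a ha a' ha' with h | h | h
      · exact Or.inl (erase_subset_erase z h)
      · exact Or.inr (Or.inl (erase_subset_erase z h))
      · exact Or.inr (Or.inr (Finset.disjoint_of_subset_left (erase_subset z a)
          (Finset.disjoint_of_subset_right (erase_subset z a') h))))
    have h2 := pred_card_le_card_erase (s := A0 ∪ A1') (a := ∅)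
    rw [card_insert_of_notMem hz]
    omega

end LAM

theorem lam : S_LAM := fun Z A h1 h2 => by
  classical
  exact LAM.main Z A h1 h2

end Pool.Agent.N224.SF
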