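import Pool.Agent.N224.SF.D0

/-! Project SF (helper224), part LOCAL: a continuous path in the intersection of `W` and the grid
which starts on an arc of an isocline that leaves `W` at both ends remains on this arc. -/

set_option autoImplicit false

open Real Set MeasureTheory Topology Filter
open scoped ENNReal

namespace Pool.Agent.N224.SF.LOCAL

noncomputable section

open Pool.Agent.H709R2 (rot wedge field)

/-- a strictly differentiable function with nonzero derivative and the linear function whose level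
lines are orthogonal to those of the derivative separate the points near `x` -/
lemma inj_aux {f : ℝ × ℝ → ℝ} {f' : ℝ × ℝ →L[ℝ] ℝ} {x : ℝ × ℝ} (hf : HasStrictFDerivAt f f' x)
    {a b : ℝ} (ha : f' (1, 0) = a) (hb : f' (0, 1) = b) (hab : ¬ (a = 0 ∧ b = 0)) :
    ∃ N ∈ 𝓝 x, ∀ z ∈ N, ∀ z' ∈ N, f z = f z' →
      -b * z.1 + a * z.2 = -b * z'.1 + a * z'.2 → z = z' := by
  have hMpos : 0 < max |a| |b| := by
    rw [lt_max_iff]
    by_contra hcon
    push Not at hcon
    exact hab ⟨abs_eq_zero.mp (le_antisymm hcon.1 (abs_nonneg _)),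
      abs_eq_zero.mp (le_antisymm hcon.2 (abs_nonneg _))⟩
  set M := max |a| |b| with hM
  have h1 : ∀ v : ℝ × ℝ, f' v = a * v.1 + b * v.2 := by
    intro v
    have hv : v = v.1 • ((1 : ℝ), (0 : ℝ)) + v.2 • ((0 : ℝ), (1 : ℝ)) := by
      ext <;> simp
    conv_lhs => rw [hv]
    rw [map_add, map_smul, map_smul, ha, hb]
    simp only [smul_eq_mul]
    ring
  have h2 := hf.isLittleO.def (half_pos hMpos)
  rw [nhds_prod_eq] at h2
  obtain ⟨N, hN, hN2'⟩ := Filter.eventually_prod_self_iff'.mp h2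
  have hN2 : ∀ z ∈ N, ∀ z' ∈ N, ‖f z - f z' - f' (z - z')‖ ≤ M / 2 * ‖z - z'‖ :=
    fun z hz z' hz' => hN2' z hz z' hz'
  refine ⟨N, hN, fun z hz z' hz' hff hl => ?_⟩
  have h3 := hN2 z hz z' hz'
  simp only [hff, sub_self, zero_sub, norm_neg] at h3
  rw [h1, Real.norm_eq_abs] at h3
  set v := z - z' with hv
  have hv1 : v.1 = z.1 - z'.1 := rfl
  have hv2 : v.2 = z.2 - z'.2 := rfl
  have hl' : b * v.1 = a * v.2 := by rw [hv1, hv2]; linarith
  set q := a * v.1 + b * v.2 with hq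
  have e1 : a * q = (a ^ 2 + b ^ 2) * v.1 := by
    rw [hq]; linear_combination (-b) * hl'
  have e2 : b * q = (a ^ 2 + b ^ 2) * v.2 := by
    rw [hq]; linear_combination a * hl'
  have hsq : M ^ 2 ≤ a ^ 2 + b ^ 2 := by
    rcases le_total |a| |b| with h | h
    · rw [hM, max_eq_right h, sq_abs]; nlinarith [sq_nonneg a]
    · rw [hM, max_eq_left h, sq_abs]; nlinarith [sq_nonneg b]
  have hs0 : 0 ≤ a ^ 2 + b ^ 2 := by positivity
  have g1 : (a ^ 2 + b ^ 2) * |v.1| ≤ M * |q| := by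
    have := congrArg abs e1
    rw [abs_mul, abs_mul, abs_of_nonneg hs0] at this
    rw [← this]
    exact mul_le_mul_of_nonneg_right (le_max_left _ _) (abs_nonneg _)
  have g2 : (a ^ 2 + b ^ 2) * |v.2| ≤ M * |q| := by
    have := congrArg abs e2
    rw [abs_mul, abs_mul, abs_of_nonneg hs0] at this
    rw [← this]
    exact mul_le_mul_of_nonneg_right (le_max_right _ _) (abs_nonneg _)
  have g3 : (a ^ 2 + b ^ 2) * ‖v‖ ≤ M * |q| := by
    rw [Prod.norm_def, Real.norm_eq_abs, Real.norm_eq_abs]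
    rcases max_choice |v.1| |v.2| with h | h
    · rw [h]; exact g1
    · rw [h]; exact g2
  have g4 : M ^ 2 * ‖v‖ ≤ M * |q| :=
    (mul_le_mul_of_nonneg_right hsq (norm_nonneg _)).trans g3
  have g5 : M * |q| ≤ M * (M / 2 * ‖v‖) := mul_le_mul_of_nonneg_left h3 hMpos.le
  have g6 : ‖v‖ ≤ 0 := by
    have hM2 : 0 < M ^ 2 := by positivity
    by_contra hcon
    push Not at hcon
    have := mul_pos hM2 hcon
    nlinarith
  have g7 : v = 0 := norm_le_zero_iff.mp g6
  exact sub_eq_zero.mp g7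

/-- the nonzero values of the sine at the multiples of `π / k` are not small -/
lemma sin_gap (k : ℕ) (hk : 1 ≤ k) :
    ∃ c : ℝ, 0 < c ∧ ∀ m : ℤ, sin (m * (π / k)) = 0 ∨ c ≤ |sin (m * (π / k))| := by
  have hk0 : (0 : ℝ) < k := by exact_mod_cast hk
  have h1 : ∀ n : ℕ, n ≤ k → ∃ c : ℝ, 0 < c ∧ ∀ r : ℕ, 1 ≤ r → r < n →
      c ≤ |sin (r * (π / k))| := by
    intro n
    induction n with
    | zero => intro _; exact ⟨1, one_pos, fun r _ h => absurd h (by omega)⟩
    | succ n ih =>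
      intro hn
      obtain ⟨c, hc, h⟩ := ih (by omega)
      rcases Nat.eq_zero_or_pos n with h0 | h0
      · exact ⟨1, one_pos, fun r h1 h2 => absurd h2 (by omega)⟩
      · have hpos : 0 < sin (n * (π / k)) := by
          apply sin_pos_of_pos_of_lt_pi
          · have : (0 : ℝ) < n := by exact_mod_cast h0
            positivity
          · have : (n : ℝ) < k := by exact_mod_cast (by omega : n < k)
            calc (n : ℝ) * (π / k) < k * (π / k) := by
                  exact mul_lt_mul_of_pos_right this (by positivity)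
              _ = π := by field_simp
        refine ⟨min c (sin (n * (π / k))), lt_min hc hpos, fun r hr1 hr2 => ?_⟩
        rcases Nat.lt_succ_iff_lt_or_eq.mp hr2 with h3 | h3
        · exact (min_le_left _ _).trans (h r hr1 h3)
        · rw [h3]
          exact (min_le_right _ _).trans (le_abs_self _)
  obtain ⟨c, hc, h⟩ := h1 k le_rfl
  refine ⟨c, hc, fun m => ?_⟩
  have hkz : (0 : ℤ) < k := by exact_mod_cast hk
  obtain ⟨r, hr⟩ := Int.eq_ofNat_of_zero_le (Int.emod_nonneg m hkz.ne')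
  have hrk : r < k := by
    have := Int.emod_lt_of_pos m hkz
    rw [hr] at this
    exact_mod_cast this
  have hm : (m : ℝ) * (π / k) = r * (π / k) + (m / (k : ℤ) : ℤ) * π := by
    have h2 : m = (k : ℤ) * (m / (k : ℤ)) + r := by
      rw [← hr]; exact (Int.mul_ediv_add_emod m k).symm
    have h3 : (m : ℝ) = (k : ℝ) * ((m / (k : ℤ) : ℤ) : ℝ) + (r : ℝ) := by
      exact_mod_cast h2
    rw [h3]
    field_simp
    ring
  have habs : |sin (m * (π / k))| = |sin (r * (π / k))| := by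
    rw [hm, Real.sin_add_int_mul_pi, abs_mul]
    have : |(-1 : ℝ) ^ (m / (k : ℤ) : ℤ)| = 1 := by
      rw [abs_zpow]; simp
    rw [this, one_mul]
  rcases Nat.eq_zero_or_pos r with h0 | h0
  · left
    rw [h0] at habs
    simp only [Nat.cast_zero, zero_mul, sin_zero, abs_zero] at habs
    exact abs_eq_zero.mp habs
  · right
    rw [habs]
    exact h r h0 hrk

/-- near a point of an isocline of the grid the other isoclines of the grid do not appear -/
lemma grid_near {F : ℝ × ℝ → ℝ × ℝ} (hF : Continuous F) (φ : ℝ) (k : ℕ) (hk : 1 ≤ k) (j : ℤ)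
    {x : ℝ × ℝ} (hx : x ∈ Gam F (lab φ k j)) :
    ∀ᶠ z in 𝓝 x, z ∈ Grid F φ k → iso F (lab φ k j) z = 0 := by
  obtain ⟨c, hc, hgap⟩ := sin_gap k hk
  obtain ⟨r₀, hr₀, hFx⟩ := hx
  set ψ := lab φ k j with hψ
  have hcont : Continuous (fun z => c * (cos ψ * (F z).1 + sin ψ * (F z).2) - |iso F ψ z|) := by
    unfold iso wedge
    fun_prop
  have hval : 0 < c * (cos ψ * (F x).1 + sin ψ * (F x).2) - |iso F ψ x| := by
    unfold iso wedge tau
    rw [hFx]
    unfold tau
    simp only [Prod.smul_fst, Prod.smul_snd, smul_eq_mul]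
    have e1 : cos ψ * (r₀ * sin ψ) - sin ψ * (r₀ * cos ψ) = 0 := by ring
    have e2 : cos ψ * (r₀ * cos ψ) + sin ψ * (r₀ * sin ψ) = r₀ := by
      have := Real.sin_sq_add_cos_sq ψ
      linear_combination r₀ * this
    rw [e1, e2, abs_zero, sub_zero]
    positivity
  have hev := hcont.continuousAt.eventually (lt_mem_nhds hval)
  filter_upwards [hev] with z hz hG
  obtain ⟨i, r, hr, hFz⟩ := hG
  have hdiff : lab φ k i - ψ = ((i - j : ℤ) : ℝ) * (π / k) := by
    rw [hψ]; unfold lab; push_cast; ring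
  have e1 : iso F ψ z = r * sin (((i - j : ℤ) : ℝ) * (π / k)) := by
    rw [← hdiff, Real.sin_sub]
    unfold iso wedge tau
    rw [hFz]
    unfold tau
    simp only [Prod.smul_fst, Prod.smul_snd, smul_eq_mul]
    ring
  have e2 : cos ψ * (F z).1 + sin ψ * (F z).2 = r * cos (((i - j : ℤ) : ℝ) * (π / k)) := by
    rw [← hdiff, Real.cos_sub]
    rw [hFz]
    unfold tau
    simp only [Prod.smul_fst, Prod.smul_snd, smul_eq_mul]
    ring
  rw [e1, e2, abs_mul, abs_of_pos hr] at hz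
  rcases hgap (i - j) with h | h
  · rw [e1, h, mul_zero]
  · exfalso
    have hcos := Real.cos_le_one (((i - j : ℤ) : ℝ) * (π / k))
    have h3 : c * (r * cos (((i - j : ℤ) : ℝ) * (π / k))) ≤ c * (r * 1) := by
      apply mul_le_mul_of_nonneg_left _ hc.le
      exact mul_le_mul_of_nonneg_left hcos hr.le
    have h4 : r * c ≤ r * |sin (((i - j : ℤ) : ℝ) * (π / k))| :=
      mul_le_mul_of_nonneg_left h hr.le
    linarith

/-- near a point of the arc the zero set of `iso F ψ` is the arc -/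
lemma arc_near {F : ℝ × ℝ → ℝ × ℝ} (hF : ContDiff ℝ 4 F) {ψ s : ℝ} (hs : s ≠ 0)
    {σ : ℝ → ℝ × ℝ} {u v t₀ : ℝ} (ht₀ : t₀ ∈ Ioo u v)
    (hσ : ∀ t ∈ Ioo u v, HasDerivAt σ (s • ham F ψ (σ t)) t ∧ σ t ∈ Gam F ψ)
    (hham : ham F ψ (σ t₀) ≠ 0) :
    ∀ᶠ z in 𝓝 (σ t₀), iso F ψ z = 0 → z ∈ σ '' Ioo u v := by
  have hf : ContDiff ℝ 4 (iso F ψ) := by
    unfold iso wedge
    fun_prop
  have hstr : HasStrictFDerivAt (iso F ψ) (fderiv ℝ (iso F ψ) (σ t₀)) (σ t₀) :=
    hf.contDiffAt.hasStrictFDerivAt (by norm_num)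
  have hzero : ∀ t ∈ Ioo u v, iso F ψ (σ t) = 0 := by
    intro t ht
    obtain ⟨r, hr, hFz⟩ := (hσ t ht).2
    unfold iso wedge
    rw [hFz]
    simp only [Prod.smul_fst, Prod.smul_snd, smul_eq_mul]
    ring
  obtain ⟨N, hN, hinj⟩ := inj_aux hstr (a := fderiv ℝ (iso F ψ) (σ t₀) (1, 0))
    (b := fderiv ℝ (iso F ψ) (σ t₀) (0, 1)) rfl rfl (by
      rintro ⟨h1, h2⟩
      apply hham
      unfold ham
      rw [h1, h2]
      simp)
  set a := fderiv ℝ (iso F ψ) (σ t₀) (1, 0) with ha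
  set b := fderiv ℝ (iso F ψ) (σ t₀) (0, 1) with hb
  have hab : 0 < a ^ 2 + b ^ 2 := by
    rcases eq_or_ne a 0 with h1 | h1
    · rcases eq_or_ne b 0 with h2 | h2
      · exfalso
        apply hham
        unfold ham
        rw [← ha, ← hb, h1, h2]
        simp
      · positivity
    · positivity
  set Λ : ℝ × ℝ →L[ℝ] ℝ := (-b) • ContinuousLinearMap.fst ℝ ℝ ℝ +
    a • ContinuousLinearMap.snd ℝ ℝ ℝ with hΛ
  have hΛv : ∀ w : ℝ × ℝ, Λ w = -b * w.1 + a * w.2 := by
    intro w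
    simp [hΛ]
  have hhamc : Continuous (ham F ψ) := by
    unfold ham
    have h1 : Continuous (fun z => fderiv ℝ (iso F ψ) z) := hf.continuous_fderiv (by norm_num)
    exact ((h1.clm_apply continuous_const).neg).prodMk (h1.clm_apply continuous_const)
  have hIoo : Ioo u v ∈ 𝓝 t₀ := Ioo_mem_nhds ht₀.1 ht₀.2
  have hσc : ContinuousAt σ t₀ := (hσ t₀ ht₀).1.continuousAt
  have hG : HasStrictDerivAt (fun t => Λ (σ t)) (Λ (s • ham F ψ (σ t₀))) t₀ := by
    apply hasStrictDerivAt_of_hasDerivAt_of_continuousAt (f' := fun t => Λ (s • ham F ψ (σ t)))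
    · filter_upwards [hIoo] with t ht
      exact Λ.hasFDerivAt.comp_hasDerivAt t (hσ t ht).1
    · have h1 : ContinuousAt (fun t => ham F ψ (σ t)) t₀ :=
        ContinuousAt.comp' hhamc.continuousAt hσc
      exact ContinuousAt.comp' Λ.continuous.continuousAt (h1.const_smul s)
  have hne : Λ (s • ham F ψ (σ t₀)) ≠ 0 := by
    rw [hΛv]
    unfold ham
    simp only [Prod.smul_fst, Prod.smul_snd, smul_eq_mul]
    rw [← ha, ← hb]
    have : -b * (s * -b) + a * (s * a) = s * (a ^ 2 + b ^ 2) := by ring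
    rw [this]
    exact mul_ne_zero hs hab.ne'
  have hmap := hG.map_nhds_eq hne
  have hT : {t | t ∈ Ioo u v ∧ σ t ∈ N} ∈ 𝓝 t₀ :=
    Filter.inter_mem hIoo (hσc.preimage_mem_nhds hN)
  have himg : (fun t => Λ (σ t)) '' {t | t ∈ Ioo u v ∧ σ t ∈ N} ∈ 𝓝 (Λ (σ t₀)) := by
    rw [← hmap]
    exact image_mem_map hT
  have hpre : ∀ᶠ z in 𝓝 (σ t₀), Λ z ∈ (fun t => Λ (σ t)) '' {t | t ∈ Ioo u v ∧ σ t ∈ N} :=
    Λ.continuous.continuousAt.eventually himg
  filter_upwards [hpre, hN] with z hz hzN hfz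
  obtain ⟨t, ⟨htI, htN⟩, hΛt⟩ := hz
  refine ⟨t, htI, ?_⟩
  apply hinj (σ t) htN z hzN
  · rw [hfz, hzero t htI]
  · have := hΛt
    simp only [hΛv] at this
    exact this

end

end Pool.Agent.N224.SF.LOCAL

namespace Pool.Agent.N224.SF

/-- LOCAL: a continuous path in the intersection of `W` and the grid which starts on an arc of an
isocline that leaves `W` at both ends remains on this arc -/
theorem local_arc : S_LOCAL := by
  intro F hF φ k j s hk hs W σ L δ hL hδ hσ hham hW0 hW1 y hy hyW hy0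
  have hs0 : s ≠ 0 := by rcases hs with h | h <;> rw [h] <;> norm_num
  have key : ∀ t ∈ Icc 0 L, ∀ᶠ z in 𝓝 (σ t), z ∈ W → z ∈ Grid F φ k → z ∈ σ '' Icc 0 L := by
    intro t ht
    have htI : t ∈ Ioo (-δ) (L + δ) := ⟨by linarith [ht.1], by linarith [ht.2]⟩
    filter_upwards [LOCAL.arc_near hF hs0 htI hσ (hham t ht),
      LOCAL.grid_near hF.continuous φ k hk j (hσ t htI).2] with z hz1 hz2 hzW hzG
    obtain ⟨t', ht', hzt⟩ := hz1 (hz2 hzG)
    refine ⟨t', ⟨?_, ?_⟩, hzt⟩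
    · by_contra hcon
      push Not at hcon
      apply hW0 t' ⟨ht'.1, hcon⟩
      rw [hzt]; exact hzW
    · by_contra hcon
      push Not at hcon
      apply hW1 t' ⟨hcon, ht'.2⟩
      rw [hzt]; exact hzW
  have hcont : ContinuousOn σ (Icc 0 L) := fun t ht =>
    (hσ t ⟨by linarith [ht.1], by linarith [ht.2]⟩).1.continuousAt.continuousWithinAt
  have hcomp : IsCompact (σ '' Icc 0 L) := isCompact_Icc.image_of_continuousOn hcont
  have hclosed : IsClosed ({p | y p ∈ σ '' Icc 0 L} ∩ Icc (0 : ℝ) 1) := by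
    have := hy.preimage_isClosed_of_isClosed isClosed_Icc hcomp.isClosed
    rwa [inter_comm] at this
  intro p hp
  refine hclosed.Icc_subset_of_forall_exists_gt hy0 (fun x hx q hq => ?_) hp
  obtain ⟨⟨t, ht, hty⟩, hx0, hx1⟩ := hx
  have h1 := key t ht
  rw [hty] at h1
  have h2 : ∀ᶠ p in 𝓝[Icc 0 1] x, y p ∈ W → y p ∈ Grid F φ k → y p ∈ σ '' Icc 0 L :=
    (hy x ⟨hx0, hx1.le⟩).eventually h1
  have h3 : Ioc x (min q 1) ∈ 𝓝[>] x := Ioc_mem_nhdsGT (lt_min hq hx1)
  have h4 : 𝓝[>] x ≤ 𝓝[Icc 0 1] x := by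
    rw [nhdsWithin_le_iff]
    filter_upwards [h3] with p hp
    exact ⟨hx0.trans hp.1.le, hp.2.trans (min_le_right _ _)⟩
  have h5 : ∀ᶠ p in 𝓝[>] x, y p ∈ W → y p ∈ Grid F φ k → y p ∈ σ '' Icc 0 L :=
    h2.filter_mono h4
  have h6 : ∀ᶠ p in 𝓝[>] x, p ∈ Ioc x (min q 1) := h3
  obtain ⟨p', hp1, hp2⟩ := (h5.and h6).exists
  have hp01 : p' ∈ Icc (0 : ℝ) 1 := ⟨hx0.trans hp2.1.le, hp2.2.trans (min_le_right _ _)⟩
  exact ⟨p', hp1 (hyW p' hp01).1 (hyW p' hp01).2, hp2.1, hp2.2.trans (min_le_left _ _)⟩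

end Pool.Agent.N224.SF
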