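import Pool.Agent.N224.SF.D2
import Pool.Agent.N224.Hil.P
import Pool.Agent.N224.Hil.W
import Pool.Agent.N224.Hil.W4
import Pool.Agent.N224.Hil.J
import Pool.Agent.N224.Hil.T
import Pool.Agent.N224.Hil.NI

/-! Project SF, part NEST (helper707): the members of a path of closed orbits are nested
monotonically. -/

set_option autoImplicit false

open Real Set MeasureTheory Topology Filter

namespace Pool.Agent.N224.SF.NEST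

open Pool.Agent.H709R2 (rot wedge field ClosedOrbit)
open Pool.Agent.H709U (rf Orb)
open Pool.Agent.N224.Hil

/-- orientation of closed orbits -/
theorem orient {Y : ℝ × ℝ → ℝ × ℝ} (hY : ContDiff ℝ 2 Y) {γ : ℝ → ℝ × ℝ} {T : ℝ} (hT : 0 < T)
    (h : ∀ t, HasDerivAt γ (Y (γ t)) t) (hp : ∀ t, γ (t + T) = γ t) (hn : ∃ s t, γ s ≠ γ t) :
    ∃ ε : ℝ, (ε = 1 ∨ ε = -1) ∧ (∀ z ∉ range γ, wn γ (fun t => Y (γ t)) T z = 0 ∨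
      0 < ε * wn γ (fun t => Y (γ t)) T z) ∧ ∃ z ∉ range γ, wn γ (fun t => Y (γ t)) T z ≠ 0 := by
  have hcl : ClosedOrbit (rf Y 0) (range γ) := by
    rw [Pool.Agent.W960.HP.rf_zero]
    exact ⟨γ, T, hT, h, hp, hn, rfl⟩
  obtain ⟨γ0, T0, ho, hr⟩ := Pool.Agent.H709U.m0 Y hY 0 _ hcl
  rw [Pool.Agent.W960.HP.rf_zero] at ho
  have c0 : Continuous γ0 := continuous_iff_continuousAt.2 fun t => (ho.ode t).continuousAt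
  have hL0 : Loop γ0 (fun t => Y (γ0 t)) T0 := ⟨ho.pos, ho.ode, hY.continuous.comp c0, ho.per⟩
  obtain ⟨ε, hε, hw, z, hz, hwz⟩ := j w1 w2 w3 γ0 _ T0 hL0 ho.ne ho.inj
  obtain ⟨c, hc⟩ : γ 0 ∈ range γ0 := hr ▸ mem_range_self 0
  have ht := NI.translate hY hT ho.pos h ho.ode hp ho.per hc.symm
  have h1 : γ0 (c + T) = γ0 c := by
    have h2 := hp 0
    rw [ht, ht 0] at h2
    rw [show c + T = 0 + T + c by ring, h2]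
    congr 1
    ring
  obtain ⟨k, hk⟩ := ho.inj _ _ h1
  have hTk : T = k * T0 := by linarith
  have hk0 : (0 : ℝ) < k := by
    by_contra h0
    push Not at h0
    have := mul_nonpos_of_nonpos_of_nonneg h0 ho.pos.le
    linarith
  have key : ∀ z ∉ range γ0, wn γ (fun t => Y (γ t)) T z = k * wn γ0 (fun t => Y (γ0 t)) T0 z :=
    fun z hz => NI.periods (c := c) ht hTk ho.per c0 hY.continuous hz
  have hε2 : ε * ε = 1 := by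
    rcases hε with rfl | rfl <;> norm_num
  refine ⟨ε, hε, fun z hz => ?_, z, ?_, ?_⟩
  · have hz' : z ∉ range γ0 := hr ▸ hz
    rw [key z hz']
    rcases hw z hz' with h3 | h3
    · left
      rw [h3, mul_zero]
    · right
      rw [h3]
      have : ε * (k * ε) = k * (ε * ε) := by ring
      rw [this, hε2, mul_one]
      exact hk0
  · exact hr ▸ hz
  · rw [key z hz, hwz]
    refine mul_ne_zero hk0.ne' ?_
    rcases hε with rfl | rfl <;> norm_num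

/-- a family of disjoint loops -/
structure Dis (γ V : ℝ → ℝ → ℝ × ℝ) (T : ℝ → ℝ) : Prop where
  loop : ∀ τ ∈ Icc (0:ℝ) 1, Loop (γ τ) (V τ) (T τ)
  cγ : ContinuousOn (fun q : ℝ × ℝ => γ q.1 q.2) (Icc 0 1 ×ˢ univ)
  cV : ContinuousOn (fun q : ℝ × ℝ => V q.1 q.2) (Icc 0 1 ×ˢ univ)
  cT : ContinuousOn T (Icc 0 1)
  dis : ∀ τ ∈ Icc (0:ℝ) 1, ∀ τ' ∈ Icc (0:ℝ) 1, τ ≠ τ' → ∀ s s', γ τ s ≠ γ τ' s'

variable {γ V : ℝ → ℝ → ℝ × ℝ} {T : ℝ → ℝ}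

theorem Dis.out (F : Dis γ V T) {τ τ' : ℝ} (hτ : τ ∈ Icc (0:ℝ) 1) (hτ' : τ' ∈ Icc (0:ℝ) 1)
    (hne : τ ≠ τ') (s' : ℝ) : γ τ' s' ∉ range (γ τ) := by
  rintro ⟨s, hs⟩
  exact F.dis τ hτ τ' hτ' hne s s' hs

theorem Dis.unique (F : Dis γ V T) {τ τ' : ℝ} (hτ : τ ∈ Icc (0:ℝ) 1) (hτ' : τ' ∈ Icc (0:ℝ) 1)
    {z : ℝ × ℝ} (h : z ∈ range (γ τ)) (h' : z ∈ range (γ τ')) : τ = τ' := by
  by_contra hne
  obtain ⟨s, hs⟩ := h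
  obtain ⟨s', hs'⟩ := h'
  exact F.dis τ hτ τ' hτ' hne s s' (hs.trans hs'.symm)

theorem Dis.const (F : Dis γ V T) {S : Set ℝ} (hS : IsPreconnected S) (hSI : S ⊆ Icc 0 1)
    {z : ℝ × ℝ} (hz : ∀ τ ∈ S, z ∉ range (γ τ)) {τ τ' : ℝ} (hτ : τ ∈ S) (hτ' : τ' ∈ S) :
    wn (γ τ) (V τ) (T τ) z = wn (γ τ') (V τ') (T τ') z := by
  have hW := w4 γ V T F.loop F.cγ F.cV F.cT
  have h5 : ContinuousOn (fun τ : ℝ => ((τ, z) : ℝ × (ℝ × ℝ))) S := by fun_prop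
  have h6 : ContinuousOn (fun τ => wn (γ τ) (V τ) (T τ) z) S :=
    ContinuousOn.comp (f := fun τ : ℝ => ((τ, z) : ℝ × (ℝ × ℝ)))
      (g := fun q : ℝ × (ℝ × ℝ) => wn (γ q.1) (V q.1) (T q.1) q.2) hW h5
      fun τ hτ => ⟨hSI hτ, hz τ hτ⟩
  exact P.const_of_int (f := fun τ => wn (γ τ) (V τ) (T τ) z) hS h6
    (fun τ hτ => w1 _ _ _ (F.loop τ (hSI hτ)) _ (hz τ hτ)) hτ hτ'

/-- the pairs of parameters -/
def Dl : Set (ℝ × ℝ) := {q | q.1 ∈ Icc (0:ℝ) 1 ∧ q.2 ∈ Icc (0:ℝ) 1 ∧ q.1 < q.2}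

theorem Dl_pre : IsPreconnected Dl := by
  have h1 : Convex ℝ ((Icc (0:ℝ) 1 ×ˢ Icc (0:ℝ) 1) ∩ {q : ℝ × ℝ | q.1 - q.2 < 0}) := by
    refine ((convex_Icc 0 1).prod (convex_Icc 0 1)).inter ?_
    exact convex_halfSpace_lt (f := fun q : ℝ × ℝ => q.1 - q.2)
      ⟨fun x y => by simp only [Prod.fst_add, Prod.snd_add]; ring,
        fun c x => by simp only [Prod.smul_fst, Prod.smul_snd, smul_eq_mul]; ring⟩ 0
  have h2 : Dl = (Icc (0:ℝ) 1 ×ˢ Icc (0:ℝ) 1) ∩ {q : ℝ × ℝ | q.1 - q.2 < 0} := by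
    ext q
    constructor
    · rintro ⟨h1, h2, h3⟩
      exact ⟨⟨h1, h2⟩, by show q.1 - q.2 < 0; linarith⟩
    · rintro ⟨⟨h1, h2⟩, h3⟩
      have h4 : q.1 - q.2 < 0 := h3
      exact ⟨h1, h2, by linarith⟩
  rw [h2]
  exact h1.isPreconnected

theorem Dis.c0 (F : Dis γ V T) : ContinuousOn (fun τ => γ τ 0) (Icc (0:ℝ) 1) := by
  have h3 : ContinuousOn (fun τ : ℝ => ((τ, 0) : ℝ × ℝ)) (Icc (0:ℝ) 1) := by fun_prop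
  exact F.cγ.comp h3 fun τ hτ => ⟨hτ, mem_univ _⟩

theorem Dis.const2 (F : Dis γ V T) {q q' : ℝ × ℝ} (hq : q ∈ Dl) (hq' : q' ∈ Dl) :
    wn (γ q.1) (V q.1) (T q.1) (γ q.2 0) = wn (γ q'.1) (V q'.1) (T q'.1) (γ q'.2 0) := by
  have hW := w4 γ V T F.loop F.cγ F.cV F.cT
  have h5 : ContinuousOn (fun q : ℝ × ℝ => ((q.1, γ q.2 0) : ℝ × (ℝ × ℝ))) Dl :=
    continuousOn_fst.prodMk (F.c0.comp continuousOn_snd fun q hq => hq.2.1)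
  have hout : ∀ q ∈ Dl, γ q.2 0 ∉ range (γ q.1) := fun q hq => F.out hq.1 hq.2.1 hq.2.2.ne 0
  have h6 : ContinuousOn (fun q : ℝ × ℝ => wn (γ q.1) (V q.1) (T q.1) (γ q.2 0)) Dl :=
    ContinuousOn.comp (f := fun q : ℝ × ℝ => ((q.1, γ q.2 0) : ℝ × (ℝ × ℝ)))
      (g := fun q : ℝ × (ℝ × ℝ) => wn (γ q.1) (V q.1) (T q.1) q.2) hW h5
      fun q hq => ⟨hq.1, hout q hq⟩
  exact P.const_of_int (f := fun q : ℝ × ℝ => wn (γ q.1) (V q.1) (T q.1) (γ q.2 0)) Dl_pre h6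
    (fun q hq => w1 _ _ _ (F.loop q.1 hq.1) _ (hout q hq)) hq hq'

theorem Dis.const1 (F : Dis γ V T) {q q' : ℝ × ℝ} (hq : q ∈ Dl) (hq' : q' ∈ Dl) :
    wn (γ q.2) (V q.2) (T q.2) (γ q.1 0) = wn (γ q'.2) (V q'.2) (T q'.2) (γ q'.1 0) := by
  have hW := w4 γ V T F.loop F.cγ F.cV F.cT
  have h5 : ContinuousOn (fun q : ℝ × ℝ => ((q.2, γ q.1 0) : ℝ × (ℝ × ℝ))) Dl :=
    continuousOn_snd.prodMk (F.c0.comp continuousOn_fst fun q hq => hq.1)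
  have hout : ∀ q ∈ Dl, γ q.1 0 ∉ range (γ q.2) := fun q hq => F.out hq.2.1 hq.1 hq.2.2.ne' 0
  have h6 : ContinuousOn (fun q : ℝ × ℝ => wn (γ q.2) (V q.2) (T q.2) (γ q.1 0)) Dl :=
    ContinuousOn.comp (f := fun q : ℝ × ℝ => ((q.2, γ q.1 0) : ℝ × (ℝ × ℝ)))
      (g := fun q : ℝ × (ℝ × ℝ) => wn (γ q.1) (V q.1) (T q.1) q.2) hW h5
      fun q hq => ⟨hq.2.1, hout q hq⟩
  exact P.const_of_int (f := fun q : ℝ × ℝ => wn (γ q.2) (V q.2) (T q.2) (γ q.1 0)) Dl_pre h6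
    (fun q hq => w1 _ _ _ (F.loop q.2 hq.2.1) _ (hout q hq)) hq hq'

/-- the trichotomy -/
theorem Dis.tri (F : Dis γ V T) {τ τ' : ℝ} (hτ : τ ∈ Icc (0:ℝ) 1) (hτ' : τ' ∈ Icc (0:ℝ) 1)
    (hne : τ ≠ τ') : fill (γ τ) (V τ) (T τ) ⊆ ins (γ τ') (V τ') (T τ') ∨
      fill (γ τ') (V τ') (T τ') ⊆ ins (γ τ) (V τ) (T τ) ∨
      Disjoint (fill (γ τ) (V τ) (T τ)) (fill (γ τ') (V τ') (T τ')) := by
  have h0 : S_T0 := t0 w1 w2 w3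
  refine tt w1 w2 w3 h0 _ _ _ _ _ _ (F.loop τ hτ) (F.loop τ' hτ') ?_
  rw [Set.disjoint_left]
  rintro _ ⟨s, rfl⟩
  exact F.out hτ' hτ hne.symm s

/-- nestedness -/
theorem Dis.nest (F : Dis γ V T) (hz : ∃ z ∉ range (γ 0), wn (γ 0) (V 0) (T 0) z ≠ 0) :
    (∀ τ ∈ Icc (0:ℝ) 1, ∀ τ' ∈ Icc (0:ℝ) 1, τ < τ' →
      fill (γ τ') (V τ') (T τ') ⊆ ins (γ τ) (V τ) (T τ)) ∨
    (∀ τ ∈ Icc (0:ℝ) 1, ∀ τ' ∈ Icc (0:ℝ) 1, τ < τ' →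
      fill (γ τ) (V τ) (T τ) ⊆ ins (γ τ') (V τ') (T τ')) := by
  obtain ⟨z₀, hz₀, hwz₀⟩ := hz
  have m0 : (0:ℝ) ∈ Icc (0:ℝ) 1 := ⟨le_rfl, zero_le_one⟩
  -- the point is enclosed by another member
  obtain ⟨σ, hσ0, hσ1, hzσ⟩ : ∃ τ : ℝ, 0 < τ ∧ τ ≤ 1 ∧ z₀ ∈ ins (γ τ) (V τ) (T τ) := by
    obtain ⟨τ₁, hτ₁0, hτ₁1, hout⟩ : ∃ τ₁ : ℝ, 0 < τ₁ ∧ τ₁ ≤ 1 ∧
        ∀ τ ∈ Ico (0:ℝ) τ₁, z₀ ∉ range (γ τ) := by
      by_cases hex : ∃ τ ∈ Icc (0:ℝ) 1, z₀ ∈ range (γ τ)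
      · obtain ⟨τ₁, hτ₁, hs₁⟩ := hex
        refine ⟨τ₁, ?_, hτ₁.2, ?_⟩
        · rcases hτ₁.1.lt_or_eq with h | h
          · exact h
          · exfalso
            rw [← h] at hs₁
            exact hz₀ hs₁
        · intro τ hτ h
          exact hτ.2.ne (F.unique ⟨hτ.1, hτ.2.le.trans hτ₁.2⟩ hτ₁ h hs₁)
      · push Not at hex
        exact ⟨1, one_pos, le_rfl, fun τ hτ => hex τ ⟨hτ.1, hτ.2.le⟩⟩
    have hsub : Ico (0:ℝ) τ₁ ⊆ Icc 0 1 := fun τ hτ => ⟨hτ.1, hτ.2.le.trans hτ₁1⟩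
    have hm : τ₁ / 2 ∈ Ico (0:ℝ) τ₁ := ⟨by linarith, by linarith⟩
    have h5 := F.const isPreconnected_Ico hsub hout ⟨le_rfl, hτ₁0⟩ hm
    exact ⟨τ₁ / 2, by linarith, by linarith, hout _ hm, fun h => hwz₀ (h5.trans h)⟩
  have hσI : σ ∈ Icc (0:ℝ) 1 := ⟨hσ0.le, hσ1⟩
  have hD0 : ((0, σ) : ℝ × ℝ) ∈ Dl := ⟨m0, hσI, hσ0⟩
  rcases F.tri m0 hσI hσ0.ne with h | h | h
  · -- the first member is enclosed by the member `σ`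
    right
    have e1 : wn (γ σ) (V σ) (T σ) (γ 0 0) ≠ 0 := (h (Or.inl ⟨0, rfl⟩)).2
    intro τ hτ τ' hτ' hlt
    have hD : ((τ, τ') : ℝ × ℝ) ∈ Dl := ⟨hτ, hτ', hlt⟩
    have e2 : wn (γ τ') (V τ') (T τ') (γ τ 0) ≠ 0 := by
      rw [F.const1 hD hD0]
      exact e1
    have e3 : γ τ 0 ∈ ins (γ τ') (V τ') (T τ') := ⟨F.out hτ' hτ hlt.ne' 0, e2⟩
    rcases F.tri hτ hτ' hlt.ne with h' | h' | h'
    · exact h'
    · exact absurd (h' (Or.inr e3)).1 (not_not.2 ⟨0, rfl⟩)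
    · exact absurd (Or.inr e3) (Set.disjoint_left.1 h' (Or.inl ⟨0, rfl⟩))
  · -- the member `σ` is enclosed by the first member
    left
    have e1 : wn (γ 0) (V 0) (T 0) (γ σ 0) ≠ 0 := (h (Or.inl ⟨0, rfl⟩)).2
    intro τ hτ τ' hτ' hlt
    have hD : ((τ, τ') : ℝ × ℝ) ∈ Dl := ⟨hτ, hτ', hlt⟩
    have e2 : wn (γ τ) (V τ) (T τ) (γ τ' 0) ≠ 0 := by
      rw [F.const2 hD hD0]
      exact e1
    have e3 : γ τ' 0 ∈ ins (γ τ) (V τ) (T τ) := ⟨F.out hτ hτ' hlt.ne 0, e2⟩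
    rcases F.tri hτ hτ' hlt.ne with h' | h' | h'
    · exact absurd (h' (Or.inr e3)).1 (not_not.2 ⟨0, rfl⟩)
    · exact h'
    · exact absurd (Or.inl ⟨0, rfl⟩) (Set.disjoint_left.1 h' (Or.inr e3))
  · exact absurd (Or.inr hzσ) (Set.disjoint_left.1 h (Or.inr ⟨hz₀, hwz₀⟩))

/-- the members fill the region between two of them -/
theorem Dis.cover (F : Dis γ V T) {τ τ' : ℝ} (hτ : τ ∈ Icc (0:ℝ) 1) (hτ' : τ' ∈ Icc (0:ℝ) 1)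
    (hle : τ ≤ τ') {z : ℝ × ℝ} (hne : (z ∈ ins (γ τ) (V τ) (T τ)) ≠ (z ∈ ins (γ τ') (V τ') (T τ'))) :
    ∃ s ∈ Icc τ τ', z ∈ range (γ s) := by
  by_contra hcon
  push Not at hcon
  have h1 := F.const isPreconnected_Icc (fun s hs => ⟨hτ.1.trans hs.1, hs.2.trans hτ'.2⟩)
    hcon (left_mem_Icc.2 hle) (right_mem_Icc.2 hle)
  apply hne
  apply propext
  unfold ins
  constructor
  · rintro ⟨_, h2⟩
    exact ⟨hcon _ (right_mem_Icc.2 hle), by rw [← h1]; exact h2⟩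
  · rintro ⟨_, h2⟩
    exact ⟨hcon _ (left_mem_Icc.2 hle), by rw [h1]; exact h2⟩

/-- a common orientation -/
theorem Dis.common (F : Dis γ V T) {z : ℝ × ℝ} {σ : ℝ} (hσ : σ ∈ Icc (0:ℝ) 1)
    (hz : ∀ τ ∈ Icc (0:ℝ) 1, z ∉ range (γ τ)) (hw : wn (γ σ) (V σ) (T σ) z ≠ 0)
    (ho : ∀ τ ∈ Icc (0:ℝ) 1, ∃ ε : ℝ, (ε = 1 ∨ ε = -1) ∧ ∀ z ∉ range (γ τ),
      wn (γ τ) (V τ) (T τ) z = 0 ∨ 0 < ε * wn (γ τ) (V τ) (T τ) z) :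
    ∃ ε : ℝ, (ε = 1 ∨ ε = -1) ∧ ∀ τ ∈ Icc (0:ℝ) 1, ∀ z ∉ range (γ τ),
      wn (γ τ) (V τ) (T τ) z = 0 ∨ 0 < ε * wn (γ τ) (V τ) (T τ) z := by
  obtain ⟨ε, hε, hεw⟩ := ho σ hσ
  refine ⟨ε, hε, fun τ hτ z' hz' => ?_⟩
  obtain ⟨ε', hε', hεw'⟩ := ho τ hτ
  have h1 := F.const isPreconnected_Icc subset_rfl hz hτ hσ
  have h2 := (hεw z (hz σ hσ)).resolve_left hw
  have h3 := (hεw' z (hz τ hτ)).resolve_left (by rw [h1]; exact hw)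
  rw [h1] at h3
  have h4 : ε' = ε := by
    rcases hε with rfl | rfl <;> rcases hε' with rfl | rfl
    · rfl
    · linarith
    · linarith
    · rfl
  rw [← h4]
  exact hεw' z' hz'

end Pool.Agent.N224.SF.NEST

namespace Pool.Agent.N224.SF

open Pool.Agent.N224.Hil NEST
open Pool.Agent.W960.HP (Path Good)

theorem nest : S_NEST := by
  intro X η a γ T hX hη F
  have hη0 := hη.le
  set V : ℝ → ℝ → ℝ × ℝ := fun τ t => X (a τ) (γ τ t) with hV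
  have hγc : ∀ τ ∈ Icc (0:ℝ) 1, Continuous (γ τ) := fun τ hτ =>
    continuous_iff_continuousAt.2 fun t => (F.ode τ hτ t).continuousAt
  have hVc : ContinuousOn (fun q : ℝ × ℝ => V q.1 q.2) (Icc 0 1 ×ˢ univ) := by
    have h3 : ContinuousOn (fun q : ℝ × ℝ => ((a q.1, γ q.1 q.2) : ℝ × (ℝ × ℝ)))
        (Icc 0 1 ×ˢ univ) :=
      (F.conta.comp continuousOn_fst fun q hq => hq.1).prodMk F.cont
    exact hX.cont.comp_continuousOn h3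
  have D : Dis γ V T :=
    { loop := fun τ hτ =>
        ⟨F.pos τ hτ, F.ode τ hτ, (hX.smooth (a τ)).continuous.comp (hγc τ hτ), F.per τ hτ⟩
      cγ := F.cont
      cV := hVc
      cT := F.contT
      dis := fun τ hτ τ' hτ' hne s s' h =>
        hne (F.inj τ hτ τ' hτ' (F.meet hX hη0 F hτ hτ' h).2) }
  have hor : ∀ τ ∈ Icc (0:ℝ) 1, ∃ ε : ℝ, (ε = 1 ∨ ε = -1) ∧ (∀ z ∉ range (γ τ),
      wn (γ τ) (V τ) (T τ) z = 0 ∨ 0 < ε * wn (γ τ) (V τ) (T τ) z) ∧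
      ∃ z ∉ range (γ τ), wn (γ τ) (V τ) (T τ) z ≠ 0 := fun τ hτ =>
    orient (hX.smooth (a τ)) (F.pos τ hτ) (F.ode τ hτ) (F.per τ hτ) (F.nc τ hτ)
  have hor' : ∀ τ ∈ Icc (0:ℝ) 1, ∃ ε : ℝ, (ε = 1 ∨ ε = -1) ∧ ∀ z ∉ range (γ τ),
      wn (γ τ) (V τ) (T τ) z = 0 ∨ 0 < ε * wn (γ τ) (V τ) (T τ) z := fun τ hτ => by
    obtain ⟨ε, h1, h2, -⟩ := hor τ hτ
    exact ⟨ε, h1, h2⟩
  have hV' : ∀ τ, (fun t => X (a τ) (γ τ t)) = V τ := fun τ => rfl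
  simp only [hV']
  clear_value V
  have m0 : (0:ℝ) ∈ Icc (0:ℝ) 1 := ⟨le_rfl, zero_le_one⟩
  have m1 : (1:ℝ) ∈ Icc (0:ℝ) 1 := ⟨zero_le_one, le_rfl⟩
  obtain ⟨-, -, -, hz0⟩ := hor 0 m0
  obtain ⟨-, -, -, hz1⟩ := hor 1 m1
  rcases D.nest hz0 with h | h
  · refine ⟨Or.inl fun τ hτ τ' hτ' hlt => ⟨h τ hτ τ' hτ' hlt, fun z hz => ?_⟩, ?_⟩
    · rcases hz.1 with h1 | h1
      · exact ⟨τ, left_mem_Icc.2 hlt.le, h1⟩
      · refine D.cover hτ hτ' hlt.le fun he => hz.2 ?_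
        rw [← he]
        exact h1
    · obtain ⟨z, hz, hw⟩ := hz1
      refine D.common m1 (z := z) (fun τ hτ => ?_) hw hor'
      rcases hτ.2.lt_or_eq with h1 | h1
      · exact (h τ hτ 1 m1 h1 (Or.inr ⟨hz, hw⟩)).1
      · rw [h1]
        exact hz
  · refine ⟨Or.inr fun τ hτ τ' hτ' hlt => ⟨h τ hτ τ' hτ' hlt, fun z hz => ?_⟩, ?_⟩
    · rcases hz.1 with h1 | h1
      · exact ⟨τ', right_mem_Icc.2 hlt.le, h1⟩
      · refine D.cover hτ hτ' hlt.le fun he => hz.2 ?_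
        rw [he]
        exact h1
    · obtain ⟨z, hz, hw⟩ := hz0
      refine D.common m0 (z := z) (fun τ hτ => ?_) hw hor'
      rcases hτ.1.lt_or_eq with h1 | h1
      · exact (h 0 m0 τ hτ h1 (Or.inr ⟨hz, hw⟩)).1
      · rw [← h1]
        exact hz

end Pool.Agent.N224.SF
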