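import Pool.Agent.N224.SF.D4

/-! Project SF (helper224): the summation lemma. -/

set_option autoImplicit false

open Real Set
open scoped ENNReal

namespace Pool.Agent.N224.SF

namespace POW

/-- one dyadic piece -/
def AA {X : Type} (A : Set X) (s : X → ℝ≥0∞) (i : ℕ) : Set X :=
  {C | C ∈ A ∧ ENNReal.ofReal ((1 / 2) ^ i) < s C ∧ s C ≤ ENNReal.ofReal (2 * (1 / 2) ^ i)}

lemma cover {X : Type} {A : Set X} {s : X → ℝ≥0∞} (h2 : ∀ C ∈ A, s C ≤ 2) :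
    A ⊆ (⋃ i, AA A s i) ∪ {C | C ∈ A ∧ s C = 0} := by
  classical
  intro C hC
  by_cases h0 : s C = 0
  · exact Or.inr ⟨hC, h0⟩
  left
  have hex : ∃ i : ℕ, ENNReal.ofReal ((1 / 2) ^ i) < s C := by
    have hne : s C ≠ ∞ := ne_top_of_le_ne_top (by norm_num) (h2 C hC)
    have hv : 0 < (s C).toReal := ENNReal.toReal_pos h0 hne
    obtain ⟨i, hi⟩ := exists_pow_lt_of_lt_one hv (by norm_num : (1 / 2 : ℝ) < 1)
    refine ⟨i, ?_⟩
    rw [← ENNReal.ofReal_toReal hne]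
    exact (ENNReal.ofReal_lt_ofReal_iff hv).2 hi
  refine mem_iUnion.2 ⟨Nat.find hex, hC, Nat.find_spec hex, ?_⟩
  rcases hi : Nat.find hex with _ | j
  · simpa using h2 C hC
  · have h3 : ¬ ENNReal.ofReal ((1 / 2) ^ j) < s C := Nat.find_min hex (by omega)
    have h4 : (2 : ℝ) * (1 / 2) ^ (j + 1) = (1 / 2) ^ j := by
      rw [pow_succ]
      ring
    rw [h4]
    exact not_lt.1 h3

lemma half {κ : ℝ} (h0 : 0 < κ) (h1 : κ ≤ 1) : (1 / 2 : ℝ) ^ κ ≤ 1 - κ / 2 := by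
  have h := Real.geom_mean_le_arith_mean2_weighted (w₁ := 1 - κ) (w₂ := κ) (p₁ := 1)
    (p₂ := 1 / 2) (by linarith) h0.le zero_le_one (by norm_num) (by ring)
  rw [Real.one_rpow, one_mul] at h
  linarith

lemma two_pow {κ : ℝ} (h1 : κ ≤ 1) : (2 : ℝ) ^ κ ≤ 2 := by
  calc (2 : ℝ) ^ κ ≤ (2 : ℝ) ^ (1 : ℝ) := Real.rpow_le_rpow_of_exponent_le (by norm_num) h1
    _ = 2 := Real.rpow_one 2

end POW

open POW in
theorem pow : S_POW := by
  intro X A s K hK h2 hcnt κ hκ0 hκ1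
  have hpiece : ∀ i : ℕ, ∑' C : AA A s i, s C ^ (2 + κ) ≤
      ENNReal.ofReal (4 * (2 : ℝ) ^ κ * K * ((1 / 2 : ℝ) ^ κ) ^ i) := by
    intro i
    have hu : (0 : ℝ) < (1 / 2) ^ i := by positivity
    have hu1 : ((1 / 2 : ℝ)) ^ i ≤ 1 := pow_le_one₀ (by norm_num) (by norm_num)
    have h3 : ∑' C : AA A s i, s C ^ (2 + κ) ≤
        ∑' _ : AA A s i, ENNReal.ofReal (2 * (1 / 2) ^ i) ^ (2 + κ) :=
      ENNReal.tsum_le_tsum fun C => ENNReal.rpow_le_rpow C.2.2.2 (by linarith)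
    refine h3.trans ?_
    rw [ENNReal.tsum_set_const]
    have h4 : ((AA A s i).encard : ℝ≥0∞) ≤ ENNReal.ofReal (K / ((1 / 2) ^ i) ^ 2) := by
      refine le_trans ?_ (hcnt ((1 / 2) ^ i) hu (by linarith))
      have : (AA A s i).encard ≤ {C | C ∈ A ∧ ENNReal.ofReal ((1 / 2) ^ i) < s C}.encard :=
        Set.encard_le_encard fun C hC => ⟨hC.1, hC.2.1⟩
      exact_mod_cast this
    refine (mul_le_mul_left h4 _).trans ?_
    rw [ENNReal.ofReal_rpow_of_pos (by positivity), ← ENNReal.ofReal_mul (by positivity)]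
    apply ENNReal.ofReal_le_ofReal
    apply le_of_eq
    rw [Real.mul_rpow (by norm_num) hu.le, Real.rpow_add (by norm_num), Real.rpow_add hu,
      Real.rpow_two, Real.rpow_two]
    have h5 : ((1 / 2 : ℝ) ^ i) ^ κ = ((1 / 2 : ℝ) ^ κ) ^ i := by
      rw [← Real.rpow_natCast, ← Real.rpow_natCast, ← Real.rpow_mul (by norm_num),
        ← Real.rpow_mul (by norm_num), mul_comm]
    rw [h5]
    field_simp
    ring
  have hr0 : (0 : ℝ) ≤ (1 / 2 : ℝ) ^ κ := by positivity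
  have hr := half hκ0 hκ1
  have hr1 : (1 / 2 : ℝ) ^ κ < 1 := by linarith
  have hsum : ∑' i : ℕ, ENNReal.ofReal (4 * (2 : ℝ) ^ κ * K * ((1 / 2 : ℝ) ^ κ) ^ i) =
      ENNReal.ofReal (4 * (2 : ℝ) ^ κ * K * (1 - (1 / 2 : ℝ) ^ κ)⁻¹) := by
    rw [← ENNReal.ofReal_tsum_of_nonneg (fun i => by positivity)
      ((summable_geometric_of_lt_one hr0 hr1).mul_left _), tsum_mul_left,
      tsum_geometric_of_lt_one hr0 hr1]
  have hzero : ∑' C : ({C | C ∈ A ∧ s C = 0} : Set X), s C ^ (2 + κ) = 0 := by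
    rw [ENNReal.tsum_eq_zero]
    intro C
    rw [C.2.2, ENNReal.zero_rpow_of_pos (by linarith)]
  calc ∑' C : A, s C ^ (2 + κ) ≤
      ∑' C : ((⋃ i, AA A s i) ∪ {C | C ∈ A ∧ s C = 0} : Set X), s C ^ (2 + κ) :=
        ENNReal.tsum_mono_subtype (fun C => s C ^ (2 + κ)) (cover h2)
    _ ≤ ∑' C : (⋃ i, AA A s i : Set X), s C ^ (2 + κ) +
        ∑' C : ({C | C ∈ A ∧ s C = 0} : Set X), s C ^ (2 + κ) :=
        ENNReal.tsum_union_le (fun C => s C ^ (2 + κ)) _ _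
    _ = ∑' C : (⋃ i, AA A s i : Set X), s C ^ (2 + κ) := by rw [hzero, add_zero]
    _ ≤ ∑' i, ∑' C : AA A s i, s C ^ (2 + κ) :=
        ENNReal.tsum_iUnion_le_tsum (fun C => s C ^ (2 + κ)) _
    _ ≤ ∑' i : ℕ, ENNReal.ofReal (4 * (2 : ℝ) ^ κ * K * ((1 / 2 : ℝ) ^ κ) ^ i) :=
        ENNReal.tsum_le_tsum hpiece
    _ = ENNReal.ofReal (4 * (2 : ℝ) ^ κ * K * (1 - (1 / 2 : ℝ) ^ κ)⁻¹) := hsum
    _ ≤ ENNReal.ofReal (16 * K / κ) := by
        apply ENNReal.ofReal_le_ofReal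
        have h6 : (1 - (1 / 2 : ℝ) ^ κ)⁻¹ ≤ 2 / κ := by
          rw [inv_le_comm₀ (by linarith) (by positivity), inv_div]
          linarith
        have h7 := two_pow hκ1
        calc 4 * (2 : ℝ) ^ κ * K * (1 - (1 / 2 : ℝ) ^ κ)⁻¹ ≤ 4 * 2 * K * (2 / κ) := by
              apply mul_le_mul _ h6 (inv_nonneg.2 (by linarith)) (by positivity)
              exact mul_le_mul_of_nonneg_right (by linarith) hK
          _ = 16 * K / κ := by ring

end Pool.Agent.N224.SF
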