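import Pool.Agent.N224.SF.D2
import Pool.Agent.N224.Hil.NI
import Pool.Agent.N224.Hil.J
import Pool.Agent.N224.Hil.W

/-! Project SF, part REP (helper494): minimal parametrisation of a closed orbit, keeping the
enclosed set and the orientation. -/

set_option autoImplicit false

open Real Set MeasureTheory Topology Filter
open scoped ENNReal

namespace Pool.Agent.N224.SF

open Pool.Agent.H709R2 (rot wedge field ClosedOrbit)
open Pool.Agent.H709U (rf Orb)
open Pool.Agent.N224.Hil (Loop wn ins fill)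

theorem rep : S_REP := by
  intro F hF α ε γ T hε hT hγ hper hnc hor
  obtain ⟨δ, S, ho, hr⟩ := Pool.Agent.H709U.m0 F hF α (range γ) ⟨γ, T, hT, hγ, hper, hnc, rfl⟩
  have hY : ContDiff ℝ 2 (rf F α) := Pool.Agent.W960.HP.rf_smooth hF α
  obtain ⟨c, hc⟩ : γ 0 ∈ range δ := hr ▸ mem_range_self 0
  have ht := Pool.Agent.N224.Hil.NI.translate hY hT ho.pos hγ ho.ode hper ho.per hc.symm
  have h1 : δ (c + T) = δ c := by
    have h2 := hper 0
    rw [ht, ht 0] at h2
    rw [show c + T = 0 + T + c by ring, h2]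
    congr 1
    ring
  obtain ⟨k, hk⟩ := ho.inj _ _ h1
  have hTk : T = k * S := by linarith
  have hk0 : (0 : ℝ) < k := by
    have h3 : 0 < (k : ℝ) * S := hTk ▸ hT
    exact pos_of_mul_pos_left h3 ho.pos.le
  have c0 : Continuous δ := continuous_iff_continuousAt.2 fun t => (ho.ode t).continuousAt
  have hwn : ∀ z, z ∉ range δ → wn γ (fun t => rf F α (γ t)) T z =
      k * wn δ (fun t => rf F α (δ t)) S z := fun z hz =>
    Pool.Agent.N224.Hil.NI.periods (c := c) ht hTk ho.per c0 hY.continuous hz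
  have hins : ins δ (fun t => rf F α (δ t)) S = ins γ (fun t => rf F α (γ t)) T := by
    unfold ins
    rw [hr]
    ext z
    refine and_congr_right fun hz => not_congr ?_
    rw [hwn z hz]
    simp [hk0.ne']
  have hL : Loop δ (fun t => rf F α (δ t)) S :=
    ⟨ho.pos, ho.ode, hY.continuous.comp c0, ho.per⟩
  obtain ⟨ε', hε', ha, z0, hz0, hb⟩ := Pool.Agent.N224.Hil.j Pool.Agent.N224.Hil.w1
    Pool.Agent.N224.Hil.w2 Pool.Agent.N224.Hil.w3 δ (fun t => rf F α (δ t)) S hL ho.ne ho.inj
  have hee : ε' = ε := by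
    have h4 := hor z0 (by rw [hr]; exact hz0)
    rw [hwn z0 hz0, hb] at h4
    rcases hε with rfl | rfl <;> rcases hε' with rfl | rfl
    · rfl
    · exfalso
      rcases h4 with h | h <;> nlinarith
    · exfalso
      rcases h4 with h | h <;> nlinarith
    · rfl
  refine ⟨⟨α, δ, S⟩, rfl, ho, hr.symm, ?_, hins, ?_⟩
  · show range δ ∪ ins δ (fun t => rf F α (δ t)) S = range γ ∪ ins γ (fun t => rf F α (γ t)) T
    rw [hins, hr]
  · intro z hz
    rw [← hee]
    exact ha z hz

end Pool.Agent.N224.SF
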