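import Pool.Agent.N224.SF.D0
import Pool.Agent.H709R2.Cut
import Pool.Agent.H709R2.Flows

/-!
# SF/RUN: an isocline arc leaves a compact set (helper645)
-/

set_option autoImplicit false

open Real Set Topology Filter

namespace Pool.Agent.N224.SF.RUN

noncomputable section

open Pool.Agent.H709R2 (rot wedge)
open Pool.Agent.N224.SF

variable {F : ℝ × ℝ → ℝ × ℝ} {ψ : ℝ}

lemma iso_smooth (hF : ContDiff ℝ 4 F) (ψ : ℝ) : ContDiff ℝ 4 (iso F ψ) := by
  have h1 : ContDiff ℝ 4 fun z => (F z).1 := contDiff_fst.comp hF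
  have h2 : ContDiff ℝ 4 fun z => (F z).2 := contDiff_snd.comp hF
  exact (contDiff_const.mul h2).sub (contDiff_const.mul h1)

lemma fd_smooth (hF : ContDiff ℝ 4 F) (ψ : ℝ) (v : ℝ × ℝ) :
    ContDiff ℝ 2 (fun z => fderiv ℝ (iso F ψ) z v) := by
  have h := (iso_smooth hF ψ).fderiv_right (m := 2) (by norm_num)
  exact h.clm_apply contDiff_const

lemma ham_smooth (hF : ContDiff ℝ 4 F) (ψ : ℝ) : ContDiff ℝ 2 (ham F ψ) :=
  (fd_smooth hF ψ (0, 1)).neg.prodMk (fd_smooth hF ψ (1, 0))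

lemma fd_eq (z v : ℝ × ℝ) : fderiv ℝ (iso F ψ) z v =
    v.1 * fderiv ℝ (iso F ψ) z (1, 0) + v.2 * fderiv ℝ (iso F ψ) z (0, 1) := by
  have h : v = v.1 • ((1:ℝ), (0:ℝ)) + v.2 • ((0:ℝ), (1:ℝ)) := by ext <;> simp
  conv_lhs => rw [h]
  rw [map_add, map_smul, map_smul, smul_eq_mul, smul_eq_mul]

lemma fd_ham (z : ℝ × ℝ) (s : ℝ) : fderiv ℝ (iso F ψ) z (s • ham F ψ z) = 0 := by
  rw [fd_eq]
  simp only [ham, Prod.smul_fst, Prod.smul_snd, smul_eq_mul]
  ring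

lemma wedge_ham (ω s : ℝ) (z : ℝ × ℝ) : wedge (tau ω) (s • ham F ψ z) = s * kd F ψ ω z := by
  unfold kd
  rw [fd_eq]
  simp only [wedge, tau, ham, Prod.smul_fst, Prod.smul_snd, smul_eq_mul]
  ring

/-- the component of the field in the direction `ψ` -/
def dt (F : ℝ × ℝ → ℝ × ℝ) (ψ : ℝ) (z : ℝ × ℝ) : ℝ := cos ψ * (F z).1 + sin ψ * (F z).2

lemma dt_smooth (hF : ContDiff ℝ 4 F) (ψ : ℝ) : Continuous (dt F ψ) :=
  (continuous_const.mul (continuous_fst.comp hF.continuous)).add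
    (continuous_const.mul (continuous_snd.comp hF.continuous))

lemma F_eq (z : ℝ × ℝ) : F z =
    (cos ψ * dt F ψ z - sin ψ * iso F ψ z, sin ψ * dt F ψ z + cos ψ * iso F ψ z) := by
  have h := Real.sin_sq_add_cos_sq ψ
  unfold dt iso wedge tau
  ext
  · simp only
    linear_combination (-(F z).1) * h
  · simp only
    linear_combination (-(F z).2) * h

lemma gam_iff (z : ℝ × ℝ) : z ∈ Gam F ψ ↔ iso F ψ z = 0 ∧ 0 < dt F ψ z := by
  have h := Real.sin_sq_add_cos_sq ψ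
  constructor
  · rintro ⟨r, hr, h1⟩
    have e1 : (F z).1 = r * cos ψ := by rw [h1]; simp [tau]
    have e2 : (F z).2 = r * sin ψ := by rw [h1]; simp [tau]
    constructor
    · unfold iso wedge tau
      rw [e1, e2]
      ring
    · unfold dt
      rw [e1, e2]
      have : cos ψ * (r * cos ψ) + sin ψ * (r * sin ψ) = r := by linear_combination r * h
      rw [this]
      exact hr
  · rintro ⟨h1, h2⟩
    refine ⟨dt F ψ z, h2, ?_⟩
    rw [F_eq (F := F) (ψ := ψ) z, h1]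
    ext
    · simp [tau]; ring
    · simp [tau]; ring

lemma dt_ne {z : ℝ × ℝ} (h1 : iso F ψ z = 0) (h2 : F z ≠ 0) : dt F ψ z ≠ 0 := by
  intro h3
  apply h2
  rw [F_eq (F := F) (ψ := ψ) z, h1, h3]
  ext <;> simp

/-- the curve remains on the isocline -/
lemma curve_gam {σ : ℝ → ℝ × ℝ} {J : Set ℝ} {s : ℝ} (hF : ContDiff ℝ 4 F) (hJ : Convex ℝ J)
    (h0 : (0:ℝ) ∈ J) (hd : ∀ t ∈ J, HasDerivAt σ (s • ham F ψ (σ t)) t)
    (hne : ∀ t ∈ J, F (σ t) ≠ 0) (hG : σ 0 ∈ Gam F ψ) : ∀ t ∈ J, σ t ∈ Gam F ψ := by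
  obtain ⟨g1, g2⟩ := (gam_iff _).1 hG
  have hdi : ∀ t ∈ J, HasDerivAt (fun t => iso F ψ (σ t)) 0 t := by
    intro t ht
    have h1 := ((iso_smooth hF ψ).differentiable (by norm_num) (σ t)).hasFDerivAt.comp_hasDerivAt
      t (hd t ht)
    rw [fd_ham] at h1
    exact h1
  have h1 : ∀ t ∈ J, iso F ψ (σ t) = 0 := by
    intro t ht
    have := hJ.norm_image_sub_le_of_norm_hasDerivWithin_le (f := fun t => iso F ψ (σ t))
      (f' := fun _ => 0) (C := 0) (fun x hx => (hdi x hx).hasDerivWithinAt)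
      (fun x _ => by simp) h0 ht
    rw [zero_mul, norm_le_zero_iff, g1, sub_zero] at this
    exact this
  intro t ht
  rw [gam_iff]
  refine ⟨h1 t ht, ?_⟩
  by_contra hc
  push Not at hc
  have hcont : ContinuousOn (fun t => dt F ψ (σ t)) J :=
    (dt_smooth hF ψ).comp_continuousOn fun t ht => (hd t ht).continuousAt.continuousWithinAt
  obtain ⟨u, hu, hu0⟩ := hJ.isPreconnected.intermediate_value ht h0 hcont ⟨hc, g2.le⟩
  exact dt_ne (h1 u hu) (hne u hu) hu0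

end

end Pool.Agent.N224.SF.RUN

namespace Pool.Agent.N224.SF

noncomputable section

open Pool.Agent.H709R2 (rot wedge)
open RUN

theorem run : S_RUN := by
  intro F hF R hR hRF ψ ω s hs hω z₀ hz₀ hz₀G
  -- the curve
  obtain ⟨ρ, hρ⟩ := hR.isBounded.subset_closedBall 0
  have hY : ContDiff ℝ 2 (fun z => s • ham F ψ z) := (ham_smooth hF ψ).const_smul s
  obtain ⟨X, hX, ⟨K, hK⟩, ⟨M, hM⟩, hXY⟩ := H709R2.exists_cutoff hY (ρ + 1)
  obtain ⟨φ, hφ⟩ := H709R2.exists_rotFlow hX hK hM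
  obtain ⟨σ, hσ⟩ : ∃ σ : ℝ → ℝ × ℝ, σ = fun t => φ t z₀ 0 := ⟨_, rfl⟩
  have hσ0 : σ 0 = z₀ := by rw [hσ]; exact hφ.zero z₀ 0
  have hσd : ∀ t, HasDerivAt σ (X (σ t)) t := by
    intro t
    have h1 := hφ.deriv z₀ 0 t
    have h2 : rot 0 (X (φ t z₀ 0)) = X (φ t z₀ 0) := by simp [rot]
    rw [h2] at h1
    rw [hσ]
    exact h1
  have hσc : Continuous σ := continuous_iff_continuousAt.2 fun t => (hσd t).continuousAt
  obtain ⟨O, hO⟩ : ∃ O : Set (ℝ × ℝ), O = {p | ‖p‖ < ρ + 1} ∩ {p | F p ≠ 0} := ⟨_, rfl⟩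
  have hOo : IsOpen O := by
    rw [hO]
    exact (isOpen_lt continuous_norm continuous_const).inter
      (isOpen_ne_fun hF.continuous continuous_const)
  have hRO : R ⊆ O := by
    intro z hz
    rw [hO]
    refine ⟨?_, hRF z hz⟩
    have := hρ hz
    rw [mem_closedBall_zero_iff] at this
    show ‖z‖ < ρ + 1
    linarith
  have hσd' : ∀ t, σ t ∈ O → HasDerivAt σ (s • ham F ψ (σ t)) t := by
    intro t ht
    rw [hO] at ht
    have h1 := (hXY (σ t) (le_of_lt ht.1)).self_of_nhds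
    have h2 := hσd t
    rw [h1] at h2
    exact h2
  have hgam : ∀ J : Set ℝ, Convex ℝ J → (0:ℝ) ∈ J → (∀ t ∈ J, σ t ∈ O) →
      ∀ t ∈ J, σ t ∈ Gam F ψ := by
    intro J hJ h0 hJO
    refine curve_gam (s := s) hF hJ h0 (fun t ht => hσd' t (hJO t ht)) (fun t ht => ?_)
      (by rw [hσ0]; exact hz₀G)
    have := hJO t ht
    rw [hO] at this
    exact this.2
  -- the part of the isocline in `R`
  obtain ⟨G, hG⟩ : ∃ G : Set (ℝ × ℝ), G = R ∩ Gam F ψ := ⟨_, rfl⟩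
  have hGc : IsCompact G := by
    have h1 : G = R ∩ ({z | iso F ψ z = 0} ∩ {z | 0 ≤ dt F ψ z}) := by
      rw [hG]
      ext z
      simp only [mem_inter_iff, mem_ofPred_eq, gam_iff]
      constructor
      · rintro ⟨a, b, c⟩
        exact ⟨a, b, c.le⟩
      · rintro ⟨a, b, c⟩
        exact ⟨a, b, lt_of_le_of_ne c (dt_ne b (hRF z a)).symm⟩
    rw [h1]
    refine hR.inter_right (IsClosed.inter ?_ ?_)
    · exact isClosed_eq (iso_smooth hF ψ).continuous continuous_const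
    · exact isClosed_le continuous_const (dt_smooth hF ψ)
  have hkc : ∀ ω' : ℝ, Continuous (kd F ψ ω') := fun ω' => (fd_smooth hF ψ (tau ω')).continuous
  -- the sign of the derivative
  have hsign : ∀ t₁ : ℝ, 0 ≤ t₁ → (∀ t ∈ Icc 0 t₁, σ t ∈ R) → ∀ ω' : ℝ,
      (∀ z ∈ R, z ∈ Gam F ψ → kd F ψ ω' z ≠ 0) → ∀ t ∈ Icc 0 t₁,
      0 < kd F ψ ω' z₀ * kd F ψ ω' (σ t) := by
    intro t₁ ht₁ hin ω' hω' t ht
    have hg := hgam (Icc 0 t₁) (convex_Icc _ _) ⟨le_rfl, ht₁⟩ fun t ht => hRO (hin t ht)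
    have hne : ∀ u ∈ Icc 0 t₁, kd F ψ ω' z₀ * kd F ψ ω' (σ u) ≠ 0 := fun u hu =>
      mul_ne_zero (hω' z₀ hz₀ hz₀G) (hω' _ (hin u hu) (hg u hu))
    by_contra hc
    push Not at hc
    have hcont : ContinuousOn (fun t => kd F ψ ω' z₀ * kd F ψ ω' (σ t)) (Icc 0 t₁) :=
      (continuous_const.mul ((hkc ω').comp hσc)).continuousOn
    have h0 : (0:ℝ) ∈ Icc 0 t₁ := ⟨le_rfl, ht₁⟩
    have hpos : 0 ≤ kd F ψ ω' z₀ * kd F ψ ω' (σ 0) := by
      rw [hσ0]; exact mul_self_nonneg _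
    obtain ⟨u, hu, hu0⟩ := isPreconnected_Icc.intermediate_value ht h0 hcont ⟨hc, hpos⟩
    exact hne u hu hu0
  -- the time in `R` is bounded
  have hGne : G.Nonempty := ⟨z₀, by rw [hG]; exact ⟨hz₀, hz₀G⟩⟩
  obtain ⟨z₁, hz₁, hmin⟩ := hGc.exists_isMinOn hGne ((hkc ω).abs.continuousOn)
  obtain ⟨κ, hκ⟩ : ∃ κ : ℝ, κ = |kd F ψ ω z₁| := ⟨_, rfl⟩
  have hκ0 : 0 < κ := by
    rw [hκ, abs_pos]
    rw [hG] at hz₁
    exact hω z₁ hz₁.1 hz₁.2
  have hκG : ∀ z ∈ G, κ ≤ |kd F ψ ω z| := by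
    intro z hz
    rw [hκ]
    exact hmin hz
  have hρ0 : 0 ≤ ρ := by
    have := hρ hz₀
    rw [mem_closedBall_zero_iff] at this
    exact (norm_nonneg _).trans this
  have hbd : ∀ t₁ : ℝ, 0 ≤ t₁ → (∀ t ∈ Icc 0 t₁, σ t ∈ R) → t₁ ≤ 4 * ρ / κ := by
    intro t₁ ht₁ hin
    have hg := hgam (Icc 0 t₁) (convex_Icc _ _) ⟨le_rfl, ht₁⟩ fun t ht => hRO (hin t ht)
    obtain ⟨e, he, he2⟩ : ∃ e : ℝ, (e = 1 ∨ e = -1) ∧ ∀ t ∈ Icc 0 t₁, κ ≤ e * kd F ψ ω (σ t) := by
      have hs2 := hsign t₁ ht₁ hin ω hω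
      rcases lt_or_gt_of_ne (hω z₀ hz₀ hz₀G) with h | h
      · refine ⟨-1, Or.inr rfl, fun t ht => ?_⟩
        have h3 := hs2 t ht
        have h4 : kd F ψ ω (σ t) < 0 := by
          by_contra h5
          push Not at h5
          nlinarith
        have h5 := hκG (σ t) (by rw [hG]; exact ⟨hin t ht, hg t ht⟩)
        rw [abs_of_neg h4] at h5
        linarith
      · refine ⟨1, Or.inl rfl, fun t ht => ?_⟩
        have h3 := hs2 t ht
        have h4 : 0 < kd F ψ ω (σ t) := by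
          by_contra h5
          push Not at h5
          nlinarith
        have h5 := hκG (σ t) (by rw [hG]; exact ⟨hin t ht, hg t ht⟩)
        rw [abs_of_pos h4] at h5
        linarith
    obtain ⟨f, hf⟩ : ∃ f : ℝ → ℝ, f = fun t => s * e * wedge (tau ω) (σ t) - κ * t := ⟨_, rfl⟩
    have hfd : ∀ t ∈ Icc 0 t₁, HasDerivAt f (e * kd F ψ ω (σ t) - κ) t := by
      intro t ht
      have h1 := hσd' t (hRO (hin t ht))
      have h2 : HasDerivAt (fun t => wedge (tau ω) (σ t)) (wedge (tau ω) (s • ham F ψ (σ t))) t := by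
        have ha : HasDerivAt (fun t => (σ t).1) (s • ham F ψ (σ t)).1 t :=
          (ContinuousLinearMap.fst ℝ ℝ ℝ).hasFDerivAt.comp_hasDerivAt t h1
        have hb : HasDerivAt (fun t => (σ t).2) (s • ham F ψ (σ t)).2 t :=
          (ContinuousLinearMap.snd ℝ ℝ ℝ).hasFDerivAt.comp_hasDerivAt t h1
        exact (hb.const_mul _).sub (ha.const_mul _)
      rw [wedge_ham] at h2
      have h3 := (h2.const_mul (s * e)).sub ((hasDerivAt_id t).const_mul κ)
      rw [hf]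
      have hss : s * s = 1 := by rcases hs with h | h <;> rw [h] <;> norm_num
      exact h3.congr_deriv (by linear_combination (e * kd F ψ ω (σ t)) * hss)
    have hmono : MonotoneOn f (Icc 0 t₁) := by
      refine monotoneOn_of_deriv_nonneg (convex_Icc _ _) ?_ ?_ ?_
      · exact fun t ht => (hfd t ht).continuousAt.continuousWithinAt
      · intro t ht
        exact (hfd t (interior_subset ht)).differentiableAt.differentiableWithinAt
      · intro t ht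
        rw [(hfd t (interior_subset ht)).deriv]
        have := he2 t (interior_subset ht)
        linarith
    have h1 := hmono ⟨le_rfl, ht₁⟩ ⟨ht₁, le_rfl⟩ ht₁
    rw [hf] at h1
    simp only at h1
    have hw : ∀ t ∈ Icc 0 t₁, |s * e * wedge (tau ω) (σ t)| ≤ 2 * ρ := by
      intro t ht
      have h2 := hρ (hin t ht)
      rw [mem_closedBall_zero_iff] at h2
      have h3 : |(σ t).1| ≤ ρ := (norm_fst_le (σ t)).trans h2
      have h4 : |(σ t).2| ≤ ρ := (norm_snd_le (σ t)).trans h2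
      have h5 : |s * e| = 1 := by
        rcases hs with h | h <;> rcases he with h' | h' <;> rw [h, h'] <;> norm_num
      rw [abs_mul, h5, one_mul]
      unfold wedge tau
      simp only
      have c1 := Real.abs_cos_le_one ω
      have c2 := Real.abs_sin_le_one ω
      calc |cos ω * (σ t).2 - sin ω * (σ t).1| ≤ |cos ω * (σ t).2| + |sin ω * (σ t).1| :=
            abs_sub _ _
        _ = |cos ω| * |(σ t).2| + |sin ω| * |(σ t).1| := by rw [abs_mul, abs_mul]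
        _ ≤ 1 * ρ + 1 * ρ := by gcongr
        _ = 2 * ρ := by ring
    have a1 := abs_le.1 (hw 0 ⟨le_rfl, ht₁⟩)
    have a2 := abs_le.1 (hw t₁ ⟨ht₁, le_rfl⟩)
    rw [le_div_iff₀ hκ0]
    nlinarith
  -- the last time in `R`
  obtain ⟨A, hA⟩ : ∃ A : Set ℝ, A = {t | 0 ≤ t ∧ ∀ u ∈ Icc 0 t, σ u ∈ R} := ⟨_, rfl⟩
  have hA0 : (0:ℝ) ∈ A := by
    rw [hA]
    refine ⟨le_rfl, fun u hu => ?_⟩
    have : u = 0 := le_antisymm hu.2 hu.1
    rw [this, hσ0]
    exact hz₀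
  have hAb : BddAbove A := ⟨4 * ρ / κ, fun t ht => by
    rw [hA] at ht
    exact hbd t ht.1 ht.2⟩
  obtain ⟨L, hL⟩ : ∃ L : ℝ, L = sSup A := ⟨_, rfl⟩
  have hL0 : 0 ≤ L := by rw [hL]; exact le_csSup hAb hA0
  have hLlt : ∀ u, 0 ≤ u → u < L → σ u ∈ R := by
    intro u hu huL
    rw [hL] at huL
    obtain ⟨t, ht, hut⟩ := exists_lt_of_lt_csSup ⟨0, hA0⟩ huL
    rw [hA] at ht
    exact ht.2 u ⟨hu, hut.le⟩
  have hLR : σ L ∈ R := by
    rcases eq_or_lt_of_le hL0 with h | h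
    · rw [← h, hσ0]; exact hz₀
    · have h1 : Tendsto σ (𝓝[<] L) (𝓝 (σ L)) := hσc.continuousAt.mono_left nhdsWithin_le_nhds
      refine hR.isClosed.mem_of_tendsto h1 ?_
      filter_upwards [Ioo_mem_nhdsLT h] with u hu
      exact hLlt u hu.1.le hu.2
  have hLin : ∀ t ∈ Icc 0 L, σ t ∈ R := by
    intro t ht
    rcases eq_or_lt_of_le ht.2 with h | h
    · rw [h]; exact hLR
    · exact hLlt t ht.1 h
  -- a little longer
  have hpre : IsOpen (σ ⁻¹' O) := hOo.preimage hσc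
  obtain ⟨δ₁, hδ₁, hb₁⟩ := Metric.isOpen_iff.1 hpre 0 (by
    show σ 0 ∈ O
    rw [hσ0]; exact hRO hz₀)
  obtain ⟨δ₂, hδ₂, hb₂⟩ := Metric.isOpen_iff.1 hpre L (hRO hLR)
  refine ⟨σ, L, min δ₁ δ₂, hL0, lt_min hδ₁ hδ₂, hσ0, ?_, hLin, ?_, ?_⟩
  · have hJO : ∀ t ∈ Ioo (-(min δ₁ δ₂)) (L + min δ₁ δ₂), σ t ∈ O := by
      intro t ht
      have m1 := min_le_left δ₁ δ₂
      have m2 := min_le_right δ₁ δ₂
      rcases lt_or_ge t 0 with h | h
      · apply hb₁
        rw [Metric.mem_ball, Real.dist_eq, sub_zero, abs_of_neg h]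
        linarith [ht.1]
      · rcases le_or_gt t L with h' | h'
        · exact hRO (hLin t ⟨h, h'⟩)
        · apply hb₂
          rw [Metric.mem_ball, Real.dist_eq, abs_of_pos (by linarith)]
          linarith [ht.2]
    intro t ht
    refine ⟨hσd' t (hJO t ht), hgam _ (convex_Ioo _ _) ?_ hJO t ht⟩
    have := lt_min hδ₁ hδ₂
    constructor <;> linarith
  · intro ε hε
    by_contra hc
    push Not at hc
    have h1 : L + ε / 2 ∈ A := by
      rw [hA]
      refine ⟨by linarith, fun u hu => ?_⟩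
      rcases le_or_gt u L with h | h
      · exact hLin u ⟨hu.1, h⟩
      · exact hc u ⟨h, by linarith [hu.2]⟩
    have h2 := le_csSup hAb h1
    rw [← hL] at h2
    linarith
  · intro t ht ω' hω'
    exact hsign L hL0 hLin ω' hω' t ht

end

end Pool.Agent.N224.SF
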