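import Pool.Agent.N224.SF.D0

/-!
# Project SF, piece SARD (helper221 for helper224): critical values of a `C³` function of two
variables
-/

set_option autoImplicit false

open Real Set MeasureTheory Topology Filter
open scoped ENNReal NNReal

namespace Pool.Agent.N224.SF

namespace SARD

/-- A complement of a nonzero functional. -/
theorem exists_compl (L : ℝ × ℝ →L[ℝ] ℝ) {v : ℝ × ℝ} (hv : L v ≠ 0) :
    ∃ (l : ℝ × ℝ →L[ℝ] ℝ) (C : ℝ), 0 < C ∧ ∀ u, ‖u‖ ≤ C * (|L u| + |l u|) := by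
  have hL : ∀ u : ℝ × ℝ, L u = u.1 * L (1, 0) + u.2 * L (0, 1) := by
    intro u
    have e : u = u.1 • ((1, 0) : ℝ × ℝ) + u.2 • ((0, 1) : ℝ × ℝ) := by
      ext <;> simp
    conv_lhs => rw [e]
    rw [map_add, map_smul, map_smul, smul_eq_mul, smul_eq_mul]
  have hn : ∀ u : ℝ × ℝ, ‖u‖ = max |u.1| |u.2| := fun u => by
    rw [Prod.norm_def, Real.norm_eq_abs, Real.norm_eq_abs]
  by_cases ha : L (1, 0) = 0
  · have hb : L (0, 1) ≠ 0 := by
      intro hb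
      apply hv
      rw [hL v, ha, hb, mul_zero, mul_zero, add_zero]
    have hb0 : 0 < |L (0, 1)| := abs_pos.2 hb
    refine ⟨ContinuousLinearMap.fst ℝ ℝ ℝ, 1 + 1 / |L (0, 1)|, by positivity, fun u => ?_⟩
    have h1 : |L u| = |u.2| * |L (0, 1)| := by rw [hL u, ha, mul_zero, zero_add, abs_mul]
    rw [hn, h1]
    show max |u.1| |u.2| ≤ (1 + 1 / |L (0, 1)|) * (|u.2| * |L (0, 1)| + |u.1|)
    have h2 : (1 + 1 / |L (0, 1)|) * (|u.2| * |L (0, 1)| + |u.1|) =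
        |u.2| * |L (0, 1)| + |u.1| + |u.2| + |u.1| / |L (0, 1)| := by
      field_simp
      ring
    rw [h2]
    have h3 : 0 ≤ |u.2| * |L (0, 1)| := by positivity
    have h4 : 0 ≤ |u.1| / |L (0, 1)| := by positivity
    have h5 := abs_nonneg u.1
    have h6 := abs_nonneg u.2
    exact max_le (by linarith) (by linarith)
  · have ha0 : 0 < |L (1, 0)| := abs_pos.2 ha
    refine ⟨ContinuousLinearMap.snd ℝ ℝ ℝ, 1 + (1 + |L (0, 1)|) / |L (1, 0)|, by positivity,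
      fun u => ?_⟩
    show ‖u‖ ≤ (1 + (1 + |L (0, 1)|) / |L (1, 0)|) * (|L u| + |u.2|)
    have h1 : |u.1| ≤ (|L u| + |L (0, 1)| * |u.2|) / |L (1, 0)| := by
      rw [le_div_iff₀ ha0, ← abs_mul]
      have e : u.1 * L (1, 0) = L u - L (0, 1) * u.2 := by rw [hL u]; ring
      rw [e]
      refine (abs_sub _ _).trans ?_
      rw [abs_mul]
    rw [hn]
    have h3 := abs_nonneg (L u)
    have h5 := abs_nonneg u.2
    have h6 := abs_nonneg (L (0, 1))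
    have h2 : (1 + (1 + |L (0, 1)|) / |L (1, 0)|) * (|L u| + |u.2|) =
        |L u| + |u.2| + (|L u| + |L (0, 1)| * |u.2|) / |L (1, 0)| +
          (|L (0, 1)| * |L u| + |u.2|) / |L (1, 0)| := by
      field_simp
      ring
    rw [h2]
    have h7 : 0 ≤ (|L (0, 1)| * |L u| + |u.2|) / |L (1, 0)| := by positivity
    have h8 : 0 ≤ (|L u| + |L (0, 1)| * |u.2|) / |L (1, 0)| := by positivity
    exact max_le (by linarith) (by linarith)

/-- Points of a curve: the projection is bi-Lipschitz near a regular point. -/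
theorem local_lip {g : ℝ × ℝ → ℝ} {L : ℝ × ℝ →L[ℝ] ℝ} {z₀ : ℝ × ℝ}
    (hg : HasStrictFDerivAt g L z₀) {v : ℝ × ℝ} (hv : L v ≠ 0) :
    ∃ (l : ℝ × ℝ →L[ℝ] ℝ) (C : ℝ), 0 < C ∧ ∃ V ∈ 𝓝 z₀, ∀ z ∈ V, ∀ w ∈ V, g z = 0 → g w = 0 →
      ‖z - w‖ ≤ C * |l z - l w| := by
  obtain ⟨l, C, hC, hl⟩ := exists_compl L hv
  obtain ⟨V, hV, hA⟩ := hg.approximates_deriv_on_nhds (c := Real.toNNReal (1 / (2 * C)))
    (Or.inr (Real.toNNReal_pos.2 (by positivity)))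
  refine ⟨l, 2 * C, by positivity, V, hV, fun z hz w hw hgz hgw => ?_⟩
  have h1 := hA z hz w hw
  rw [hgz, hgw, sub_self, zero_sub, norm_neg, Real.norm_eq_abs] at h1
  have h2 : |L (z - w)| ≤ 1 / (2 * C) * ‖z - w‖ := by
    rwa [Real.coe_toNNReal _ (by positivity)] at h1
  have h3 := hl (z - w)
  rw [map_sub l] at h3
  have h4 : C * |L (z - w)| ≤ ‖z - w‖ / 2 := by
    calc C * |L (z - w)| ≤ C * (1 / (2 * C) * ‖z - w‖) := mul_le_mul_of_nonneg_left h2 hC.le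
      _ = ‖z - w‖ / 2 := by field_simp
  linarith

/-- critical points on a curve -/
theorem null_curve {f : ℝ × ℝ → ℝ} {A : Set (ℝ × ℝ)} (l : ℝ × ℝ →L[ℝ] ℝ) {C : ℝ}
    (hlip : ∀ z ∈ A, ∀ w ∈ A, ‖z - w‖ ≤ C * |l z - l w|)
    (hf : ∀ z ∈ A, HasFDerivAt f (0 : ℝ × ℝ →L[ℝ] ℝ) z) : volume (f '' A) = 0 := by
  have hinj : InjOn l A := by
    intro z hz w hw h
    have := hlip z hz w hw
    rw [h, sub_self, abs_zero, mul_zero] at this
    exact sub_eq_zero.1 (norm_le_zero_iff.1 this)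
  set σ : ℝ → ℝ × ℝ := Function.invFunOn l A with hσ
  have hσl : ∀ z ∈ A, σ (l z) = z := fun z hz => hinj.leftInvOn_invFunOn hz
  have himg : f '' A = (f ∘ σ) '' (l '' A) := by
    ext y
    constructor
    · rintro ⟨z, hz, rfl⟩
      exact ⟨l z, ⟨z, hz, rfl⟩, by rw [Function.comp_apply, hσl z hz]⟩
    · rintro ⟨_, ⟨z, hz, rfl⟩, rfl⟩
      exact ⟨z, hz, by rw [Function.comp_apply, hσl z hz]⟩
  rw [himg]
  refine addHaar_image_eq_zero_of_det_fderivWithin_eq_zero volume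
    (f' := fun _ => (0 : ℝ →L[ℝ] ℝ)) ?_ ?_
  · rintro _ ⟨z, hz, rfl⟩
    have hO : (fun s => σ s - σ (l z)) =O[𝓝[l '' A] (l z)] fun s => s - l z := by
      refine Asymptotics.IsBigO.of_bound C ?_
      filter_upwards [self_mem_nhdsWithin] with s hs
      obtain ⟨w, hw, rfl⟩ := hs
      rw [hσl w hw, hσl z hz, Real.norm_eq_abs]
      exact hlip w hw z hz
    have hT : Tendsto σ (𝓝[l '' A] (l z)) (𝓝 z) := by
      rw [tendsto_iff_norm_sub_tendsto_zero]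
      have h1 : Tendsto (fun s => C * ‖s - l z‖) (𝓝[l '' A] (l z)) (𝓝 0) := by
        have h2 : Tendsto (fun s => C * ‖s - l z‖) (𝓝 (l z)) (𝓝 (C * ‖l z - l z‖)) := by
          apply Continuous.tendsto
          fun_prop
        rw [sub_self, norm_zero, mul_zero] at h2
        exact h2.mono_left nhdsWithin_le_nhds
      refine squeeze_zero' (Eventually.of_forall fun _ => norm_nonneg _) ?_ h1
      filter_upwards [self_mem_nhdsWithin] with s hs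
      obtain ⟨w, hw, rfl⟩ := hs
      rw [hσl w hw, Real.norm_eq_abs]
      exact hlip w hw z hz
    rw [hasFDerivWithinAt_iff_isLittleO]
    have h3 := (hf z hz).isLittleO.comp_tendsto hT
    have h4 : (fun s => (f ∘ σ) s - (f ∘ σ) (l z) - (0 : ℝ →L[ℝ] ℝ) (s - l z)) =
        (fun x => f x - f z - (0 : ℝ × ℝ →L[ℝ] ℝ) (x - z)) ∘ σ := by
      funext s
      simp only [Function.comp_apply, hσl z hz, zero_apply]
    rw [h4]
    refine h3.trans_isBigO ?_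
    have h5 : ((fun x => x - z) ∘ σ) = fun s => σ s - σ (l z) := by
      funext s
      rw [Function.comp_apply, hσl z hz]
    rw [h5]
    exact hO
  · intro x _
    have : (0 : ℝ →L[ℝ] ℝ).det = 0 := by
      rw [ContinuousLinearMap.det]
      simp
    exact this

/-- sets on which the function is Hölder with exponent three -/
theorem null_holder {f : ℝ × ℝ → ℝ} {A : Set (ℝ × ℝ)} {M : ℝ≥0}
    (h : ∀ z ∈ A, ∀ w ∈ A, ‖f z - f w‖ ≤ M * ‖z - w‖ ^ 3) : volume (f '' A) = 0 := by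
  have h1 : HolderOnWith M 3 f A := by
    intro z hz w hw
    rw [edist_dist, edist_dist, ← ENNReal.ofReal_coe_nnreal,
      ENNReal.ofReal_rpow_of_nonneg dist_nonneg (by norm_num), ← ENNReal.ofReal_mul (by positivity)]
    apply ENNReal.ofReal_le_ofReal
    have h2 := h z hz w hw
    rw [dist_eq_norm, dist_eq_norm]
    have h3 : ‖z - w‖ ^ ((3 : ℝ≥0) : ℝ) = ‖z - w‖ ^ 3 := by
      have : ((3 : ℝ≥0) : ℝ) = ((3 : ℕ) : ℝ) := by norm_num
      rw [this, Real.rpow_natCast]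
    rw [h3]
    exact h2
  have h2 := h1.hausdorffMeasure_image_le (by norm_num) (d := 1) zero_le_one
  have h3 : μH[((3 : ℝ≥0) : ℝ)] A = 0 := by
    apply hausdorffMeasure_of_dimH_lt
    have h4 : dimH A ≤ 2 := by
      refine (dimH_mono (subset_univ A)).trans ?_
      rw [Real.dimH_univ_eq_finrank]
      simp
    refine lt_of_le_of_lt h4 ?_
    norm_num
  rw [mul_one, h3, mul_zero, hausdorffMeasure_real] at h2
  exact nonpos_iff_eq_zero.1 h2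

/-- points where the first and the second derivative vanish -/
theorem local_flat {U : Set (ℝ × ℝ)} {f : ℝ × ℝ → ℝ} (hU : IsOpen U) (hf : ContDiffOn ℝ 3 f U)
    {z₀ : ℝ × ℝ} (hz₀ : z₀ ∈ U) :
    ∃ V ∈ 𝓝 z₀, volume (f '' (V ∩ {z | z ∈ U ∧ fderiv ℝ f z = 0 ∧
      fderiv ℝ (fderiv ℝ f) z = 0})) = 0 := by
  have hc : ∀ z ∈ U, ContDiffAt ℝ 3 f z := fun z hz => hf.contDiffAt (hU.mem_nhds hz)
  have hc1 : ∀ z ∈ U, ContDiffAt ℝ 2 (fderiv ℝ f) z := fun z hz =>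
    (hc z hz).fderiv_right (by norm_num)
  have hc2 : ∀ z ∈ U, ContDiffAt ℝ 1 (fderiv ℝ (fderiv ℝ f)) z := fun z hz =>
    (hc1 z hz).fderiv_right (by norm_num)
  obtain ⟨M, t, ht, hM⟩ := (hc2 z₀ hz₀).exists_lipschitzOnWith
  obtain ⟨ρ, hρ, hball⟩ := Metric.mem_nhds_iff.1 (inter_mem (hU.mem_nhds hz₀) ht)
  refine ⟨Metric.ball z₀ ρ, Metric.ball_mem_nhds z₀ hρ, null_holder (M := M) ?_⟩
  rintro z ⟨hz, hzU, hz1, hz2⟩ w ⟨hw, -, -, -⟩
  set s : Set (ℝ × ℝ) := Metric.ball z₀ ρ ∩ Metric.closedBall z ‖w - z‖ with hs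
  have hconv : Convex ℝ s := (convex_ball z₀ ρ).inter (convex_closedBall z _)
  have hzs : z ∈ s := ⟨hz, Metric.mem_closedBall_self (norm_nonneg _)⟩
  have hws : w ∈ s := ⟨hw, by rw [Metric.mem_closedBall, dist_eq_norm]⟩
  have hsU : ∀ x ∈ s, x ∈ U := fun x hx => (hball hx.1).1
  have hst : ∀ x ∈ s, x ∈ t := fun x hx => (hball hx.1).2
  have hsd : ∀ x ∈ s, ‖x - z‖ ≤ ‖w - z‖ := fun x hx => by
    rw [← dist_eq_norm]; exact hx.2
  have b2 : ∀ x ∈ s, ‖fderiv ℝ (fderiv ℝ f) x‖ ≤ M * ‖w - z‖ := by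
    intro x hx
    have h1 := hM.dist_le_mul x (hst x hx) z (hst z hzs)
    rw [hz2] at h1
    have h1' : ‖fderiv ℝ (fderiv ℝ f) x‖ ≤ M * dist x z :=
      (dist_zero_right (fderiv ℝ (fderiv ℝ f) x)).symm.trans_le h1
    rw [dist_eq_norm] at h1'
    exact h1'.trans (mul_le_mul_of_nonneg_left (hsd x hx) M.2)
  have b1 : ∀ x ∈ s, ‖fderiv ℝ f x‖ ≤ M * ‖w - z‖ * ‖w - z‖ := by
    intro x hx
    have h1 := hconv.norm_image_sub_le_of_norm_hasFDerivWithin_le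
      (f := fderiv ℝ f) (f' := fderiv ℝ (fderiv ℝ f)) (C := M * ‖w - z‖)
      (fun y hy => (((hc1 y (hsU y hy)).differentiableAt (by norm_num)).hasFDerivAt).hasFDerivWithinAt)
      b2 hzs hx
    rw [hz1, sub_zero] at h1
    exact h1.trans (mul_le_mul_of_nonneg_left (hsd x hx) (by positivity))
  have h1 := hconv.norm_image_sub_le_of_norm_hasFDerivWithin_le
    (f := f) (f' := fderiv ℝ f) (C := M * ‖w - z‖ * ‖w - z‖)
    (fun y hy => (((hc y (hsU y hy)).differentiableAt (by norm_num)).hasFDerivAt).hasFDerivWithinAt)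
    b1 hzs hws
  rw [norm_sub_rev (f z), norm_sub_rev z]
  calc ‖f w - f z‖ ≤ M * ‖w - z‖ * ‖w - z‖ * ‖w - z‖ := h1
    _ = M * ‖w - z‖ ^ 3 := by ring

/-- critical points where the second derivative does not vanish -/
theorem local_reg {U : Set (ℝ × ℝ)} {f : ℝ × ℝ → ℝ} (hU : IsOpen U) (hf : ContDiffOn ℝ 3 f U)
    {z₀ : ℝ × ℝ} (hz₀ : z₀ ∈ U) (h2 : fderiv ℝ (fderiv ℝ f) z₀ ≠ 0) :
    ∃ V ∈ 𝓝 z₀, volume (f '' (V ∩ {z | z ∈ U ∧ fderiv ℝ f z = 0})) = 0 := by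
  have hc : ∀ z ∈ U, ContDiffAt ℝ 3 f z := fun z hz => hf.contDiffAt (hU.mem_nhds hz)
  have hc1 : ContDiffAt ℝ 2 (fderiv ℝ f) z₀ := (hc z₀ hz₀).fderiv_right (by norm_num)
  obtain ⟨v, hv⟩ : ∃ v, fderiv ℝ (fderiv ℝ f) z₀ v ≠ 0 := by
    by_contra hcon
    push Not at hcon
    exact h2 (ContinuousLinearMap.ext hcon)
  obtain ⟨u, hu⟩ : ∃ u, fderiv ℝ (fderiv ℝ f) z₀ v u ≠ 0 := by
    by_contra hcon
    push Not at hcon
    exact hv (ContinuousLinearMap.ext hcon)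
  have hg : HasStrictFDerivAt (fun z => fderiv ℝ f z u)
      ((ContinuousLinearMap.apply ℝ ℝ u).comp (fderiv ℝ (fderiv ℝ f) z₀)) z₀ :=
    (ContinuousLinearMap.apply ℝ ℝ u).hasStrictFDerivAt.comp z₀
      (hc1.hasStrictFDerivAt (by norm_num))
  obtain ⟨l, C, hC, V, hV, hlip⟩ := local_lip hg (v := v) hu
  refine ⟨V, hV, null_curve (C := C) l ?_ ?_⟩
  · rintro z ⟨hz, hzU, hz1⟩ w ⟨hw, hwU, hw1⟩
    exact hlip z hz w hw (by rw [hz1]; rfl) (by rw [hw1]; rfl)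
  · rintro z ⟨hz, hzU, hz1⟩
    rw [← hz1]
    exact ((hc z hzU).differentiableAt (by norm_num)).hasFDerivAt

/-- countable covers -/
theorem null_of_local {f : ℝ × ℝ → ℝ} {A : Set (ℝ × ℝ)}
    (h : ∀ z ∈ A, ∃ V ∈ 𝓝 z, volume (f '' (V ∩ A)) = 0) : volume (f '' A) = 0 := by
  choose! V hV h0 using h
  obtain ⟨t, htA, htc, hcov⟩ := TopologicalSpace.countable_cover_nhdsWithin (f := V) (s := A)
    fun z hz => mem_nhdsWithin_of_mem_nhds (hV z hz)
  have h1 : f '' A ⊆ ⋃ z ∈ t, f '' (V z ∩ A) := by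
    rintro _ ⟨w, hw, rfl⟩
    obtain ⟨z, hz, hwz⟩ := mem_iUnion₂.1 (hcov hw)
    exact mem_iUnion₂.2 ⟨z, hz, w, ⟨hwz, hw⟩, rfl⟩
  refine measure_mono_null h1 ?_
  rw [measure_biUnion_null_iff htc]
  exact fun z hz => h0 z (htA hz)

end SARD

open SARD in
theorem sard : S_SARD := by
  intro U f hU hf
  have hsub : f '' {z | z ∈ U ∧ fderiv ℝ f z = 0} ⊆
      f '' {z | z ∈ U ∧ fderiv ℝ f z = 0 ∧ fderiv ℝ (fderiv ℝ f) z = 0} ∪
      f '' {z | (z ∈ U ∧ fderiv ℝ f z = 0) ∧ fderiv ℝ (fderiv ℝ f) z ≠ 0} := by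
    rintro _ ⟨z, hz, rfl⟩
    by_cases h2 : fderiv ℝ (fderiv ℝ f) z = 0
    · exact Or.inl ⟨z, ⟨hz.1, hz.2, h2⟩, rfl⟩
    · exact Or.inr ⟨z, ⟨hz, h2⟩, rfl⟩
  refine measure_mono_null hsub (measure_union_null ?_ ?_)
  · exact null_of_local fun z hz => local_flat hU hf hz.1
  · refine null_of_local fun z hz => ?_
    obtain ⟨V, hV, h0⟩ := local_reg hU hf hz.1.1 hz.2
    have hs : V ∩ {z | (z ∈ U ∧ fderiv ℝ f z = 0) ∧ fderiv ℝ (fderiv ℝ f) z ≠ 0} ⊆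
        V ∩ {z | z ∈ U ∧ fderiv ℝ f z = 0} := fun w hw => ⟨hw.1, hw.2.1⟩
    exact ⟨V, hV, measure_mono_null (image_mono hs) h0⟩

end Pool.Agent.N224.SF
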