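import Pool.Agent.N224.SF.D1
import Pool.Agent.N224.Hil.W
import Pool.Agent.N224.Hil.T

/-! Project SF (helper224), part STRAND (helper697): existence of strands. -/

set_option autoImplicit false

open Real Set MeasureTheory Topology Filter
open scoped ENNReal

namespace Pool.Agent.N224.SF

noncomputable section

open Pool.Agent.H709R2 (rot wedge field)
open Pool.Agent.H709U (rf Orb)
open Pool.Agent.N224.Hil (Loop wn ins fill)

namespace STRAND

theorem cont_rot (α : ℝ) : Continuous (rot α) := by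
  unfold rot
  fun_prop

/-- an anticlockwise closed orbit is a simple closed curve -/
theorem sc {F : ℝ × ℝ → ℝ × ℝ} {O : Cyc} (hF : Continuous F) (h : O.Ok F) :
    Sc O.γ (O.V F) O.T 1 where
  loop :=
    { pos := h.orb.pos
      der := h.orb.ode
      cont := (cont_rot _).comp (hF.comp
        (continuous_iff_continuousAt.2 fun t => (h.orb.ode t).continuousAt))
      per := h.orb.per }
  ne := h.orb.ne
  inj := h.orb.inj
  e1 := Or.inl rfl
  wn := h.ccw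

theorem open_inn {F : ℝ × ℝ → ℝ × ℝ} {O : Cyc} (hF : Continuous F) (h : O.Ok F) :
    IsOpen (O.inn F) :=
  (Hil.t0 Hil.w1 Hil.w2 Hil.w3 _ _ _ (sc hF h).loop).1

theorem compact_fl {F : ℝ × ℝ → ℝ × ℝ} {O : Cyc} (hF : Continuous F) (h : O.Ok F) :
    IsCompact (O.fl F) :=
  (Hil.t0 Hil.w1 Hil.w2 Hil.w3 _ _ _ (sc hF h).loop).2

theorem inn_sub (F : ℝ × ℝ → ℝ × ℝ) (O : Cyc) : O.inn F ⊆ O.fl F := fun _ h => Or.inr h

theorem rg_sub (F : ℝ × ℝ → ℝ × ℝ) (O : Cyc) : O.rg ⊆ O.fl F := fun _ h => Or.inl h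

theorem not_inn {F : ℝ × ℝ → ℝ × ℝ} {O : Cyc} {z : ℝ × ℝ} (h : z ∈ O.rg) : z ∉ O.inn F :=
  fun h2 => h2.1 h

theorem rg_or {F : ℝ × ℝ → ℝ × ℝ} {O : Cyc} {z : ℝ × ℝ} (h : z ∈ O.fl F) :
    z ∈ O.rg ∨ z ∈ O.inn F := h

theorem kd_eq (F : ℝ × ℝ → ℝ × ℝ) (ψ ω : ℝ) (z : ℝ × ℝ) :
    kd F ψ ω z = wedge (tau ω) (ham F ψ z) := by
  have h : tau ω = cos ω • ((1 : ℝ), (0 : ℝ)) + sin ω • ((0 : ℝ), (1 : ℝ)) := by
    unfold tau
    ext <;> simp
  unfold kd
  rw [h, map_add, map_smul, map_smul]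
  unfold wedge ham
  simp only [smul_eq_mul, Prod.fst_add, Prod.smul_fst, Prod.snd_add, Prod.smul_snd]
  ring

/-- the isocline crosses a closed orbit in the direction given by `kd` -/
theorem cross {F : ℝ × ℝ → ℝ × ℝ} {Q : Cyc} {ψ s : ℝ} {z : ℝ × ℝ} {t₀ : ℝ} (hz : z = Q.γ t₀)
    (hg : z ∈ Gam F ψ) (hk : 0 < s * kd F ψ (ψ + Q.ang) z) :
    0 < 1 * wedge (Q.V F t₀) (s • ham F ψ z) := by
  obtain ⟨r, hr, hFz⟩ := hg
  have hV : Q.V F t₀ = r • tau (ψ + Q.ang) := by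
    change rot Q.ang (F (Q.γ t₀)) = _
    rw [← hz, hFz]
    unfold rot tau
    ext
    · simp only [Prod.smul_mk, smul_eq_mul]
      rw [cos_add]; ring
    · simp only [Prod.smul_mk, smul_eq_mul]
      rw [sin_add]; ring
  have h1 : 1 * wedge (Q.V F t₀) (s • ham F ψ z) = r * (s * kd F ψ (ψ + Q.ang) z) := by
    rw [hV, kd_eq]
    unfold wedge
    simp only [Prod.smul_fst, Prod.smul_snd, smul_eq_mul]
    ring
  rw [h1]
  positivity

theorem left_ev {P : ℝ → Prop} {t : ℝ} (h : ∀ᶠ s in 𝓝[<] t, P s) :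
    ∃ η > 0, ∀ s ∈ Ioo (t - η) t, P s := by
  obtain ⟨l, hl, h2⟩ := mem_nhdsLT_iff_exists_Ioo_subset.1 h
  refine ⟨t - l, sub_pos.2 hl, fun s hs => h2 ⟨?_, hs.2⟩⟩
  have := hs.1
  linarith

theorem right_ev {P : ℝ → Prop} {t : ℝ} (h : ∀ᶠ s in 𝓝[>] t, P s) :
    ∃ η > 0, ∀ s ∈ Ioo t (t + η), P s := by
  obtain ⟨l, hl, h2⟩ := mem_nhdsGT_iff_exists_Ioo_subset.1 h
  refine ⟨l - t, sub_pos.2 hl, fun s hs => h2 ⟨hs.1, ?_⟩⟩
  have := hs.2
  linarith

end STRAND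

open STRAND in
/-- STRAND: a strand starts at every point of the grid on `M` -/
theorem strand (h1 : S_SIDE) (h2 : S_INV) (h3 : S_RUN) : S_STRAND := by
  intro F O M K N φ k hG j x hxM hxG
  have hF : Continuous F := hG.cf.smooth.continuous
  have oM := open_inn hF hG.cf.oM
  have oK := open_inn hF hG.cf.oK
  have oN := open_inn hF hG.nN
  have cM := compact_fl hF hG.cf.oM
  have cK := compact_fl hF hG.cf.oK
  have cN := compact_fl hF hG.nN
  have hMO : M.fl F ⊆ O.fl F := fun z hz => inn_sub F O (hG.cf.MO hz)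
  have hKM : K.fl F ⊆ M.fl F := fun z hz => inn_sub F M (hG.cf.KM hz)
  have hNM : N.fl F ⊆ M.inn F := fun z hz => hG.cf.KM (inn_sub F K (hG.cf.NK hz))
  have hxM' : x ∉ M.inn F := not_inn hxM
  have hxK : x ∉ K.fl F := fun h => hxM' (hG.cf.KM h)
  have hxN : x ∉ N.fl F := fun h => hxM' (hNM h)
  set ψ : ℝ := lab φ k j with hψ
  set R : Set (ℝ × ℝ) := M.fl F \ N.inn F with hR
  have hRc : IsCompact R := cM.diff oN
  have hRann : ∀ z ∈ R, z ∈ O.fl F \ N.inn F := fun z hz => ⟨hMO hz.1, hz.2⟩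
  have hxR : x ∈ R := ⟨rg_sub F M hxM, fun h => hxN (inn_sub F N h)⟩
  obtain ⟨s, hs, hsx⟩ := hG.gd x (hRann x hxR) j hxG
  have hab := hG.cf.ab
  have hbc := hG.cf.bc
  have haN := hG.cf.aN
  have hbI : M.ang ∈ Icc O.ang K.ang := ⟨hab.le, hbc.le⟩
  have hcI : K.ang ∈ Icc O.ang K.ang := ⟨(hab.trans hbc).le, le_rfl⟩
  have hnI : N.ang ∈ Icc O.ang K.ang := by rw [haN]; exact hbI
  have hkd : ∀ α ∈ Icc O.ang K.ang, ∀ z ∈ R, z ∈ Gam F ψ → kd F ψ (ψ + α) z ≠ 0 := by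
    intro α hα z hz hzG
    obtain ⟨s', _, hs'⟩ := hG.gd z (hRann z hz) j hzG
    intro h0
    have := hs' α hα
    rw [← hψ, h0, mul_zero] at this
    exact lt_irrefl _ this
  obtain ⟨σ, L, δ, hL, hδ, hσ0, hder, hin, hout, hsgn⟩ := h3 F hG.cf.smooth R hRc
    (fun z hz => hG.cf.ne z (hRann z hz)) ψ (ψ + M.ang) s hs (hkd M.ang hbI) x hxR hxG
  have hpos : ∀ t ∈ Icc 0 L, ∀ α ∈ Icc O.ang K.ang, 0 < s * kd F ψ (ψ + α) (σ t) := by
    intro t ht α hα
    have e1 := hsx α hα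
    have e2 := hsgn t ht (ψ + α) (hkd α hα)
    have e3 : 0 < (s * kd F ψ (ψ + α) x) * (kd F ψ (ψ + α) x * kd F ψ (ψ + α) (σ t)) :=
      mul_pos e1 e2
    have e4 : kd F ψ (ψ + α) x ≠ 0 := fun h0 => by rw [h0, zero_mul] at e2; exact lt_irrefl _ e2
    have e5 : 0 < kd F ψ (ψ + α) x ^ 2 := by positivity
    have e6 : (s * kd F ψ (ψ + α) x) * (kd F ψ (ψ + α) x * kd F ψ (ψ + α) (σ t)) =
      (kd F ψ (ψ + α) x ^ 2) * (s * kd F ψ (ψ + α) (σ t)) := by ring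
    rw [e6] at e3
    exact (pos_iff_pos_of_mul_pos e3).1 e5
  have hI : ∀ t ∈ Icc 0 L, t ∈ Ioo (-δ) (L + δ) := fun t ht =>
    ⟨by linarith [ht.1], by linarith [ht.2]⟩
  have hcont : ∀ t ∈ Icc 0 L, ContinuousAt σ t := fun t ht => (hder t (hI t ht)).1.continuousAt
  -- crossings are directed inwards
  have hside : ∀ Q : Cyc, Q.Ok F → Q.ang ∈ Icc O.ang K.ang → ∀ t ∈ Icc 0 L, σ t ∈ Q.rg →
      (∀ᶠ u in 𝓝[>] t, σ u ∈ Q.inn F) ∧ (∀ᶠ u in 𝓝[<] t, σ u ∉ Q.fl F) := by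
    intro Q hQ hQa t ht hmem
    obtain ⟨t₀, ht₀⟩ := hmem
    exact h1 Q.γ (Q.V F) Q.T 1 (sc hF hQ) σ (s • ham F ψ (σ t)) t t₀ (hder t (hI t ht)).1
      ht₀.symm (cross ht₀.symm (hder t (hI t ht)).2 (hpos t ht _ hQa))
  -- it does not meet `M` again
  have hM2 : ∀ t ∈ Ioc 0 L, σ t ∈ M.inn F := by
    intro t ht
    have ht' : t ∈ Icc 0 L := ⟨ht.1.le, ht.2⟩
    rcases rg_or (hin t ht').1 with h | h
    · exfalso
      obtain ⟨η, hη, h4⟩ := left_ev (hside M hG.cf.oM hbI t ht' h).2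
      have h5 : max (t - η) 0 < t := max_lt (by linarith) ht.1
      obtain ⟨u, hu1, hu2⟩ := exists_between h5
      have hu3 : t - η < u := (le_max_left _ _).trans_lt hu1
      have hu4 : 0 < u := (le_max_right _ _).trans_lt hu1
      exact h4 u ⟨hu3, hu2⟩ (hin u ⟨hu4.le, by linarith [ht.2]⟩).1
    · exact h
  have h0I : (0 : ℝ) ∈ Icc 0 L := ⟨le_rfl, hL⟩
  have hLI : L ∈ Icc 0 L := ⟨hL, le_rfl⟩
  have hσ0M : σ 0 ∈ M.rg := by rw [hσ0]; exact hxM
  -- the end point is on `N`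
  have hafterM : ∀ᶠ u in 𝓝[>] L, σ u ∈ M.inn F := by
    rcases eq_or_lt_of_le hL with h | h
    · rw [← h]
      exact (hside M hG.cf.oM hbI 0 h0I hσ0M).1
    · exact ((hcont L hLI).eventually_mem (oM.mem_nhds (hM2 L ⟨h, le_rfl⟩))).filter_mono
        nhdsWithin_le_nhds
  have hNend : σ L ∈ N.rg := by
    by_contra hcon
    have h4 : σ L ∉ N.fl F := by
      intro h5
      rcases rg_or h5 with h | h
      · exact hcon h
      · exact (hin L hLI).2 h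
    have h5 : ∀ᶠ u in 𝓝[>] L, σ u ∉ N.fl F :=
      ((hcont L hLI).eventually_mem (cN.isClosed.isOpen_compl.mem_nhds h4)).filter_mono
        nhdsWithin_le_nhds
    obtain ⟨η, hη, h6⟩ := right_ev (h5.and hafterM)
    obtain ⟨u, hu, hu2⟩ := hout η hη
    exact hu2 ⟨inn_sub F M (h6 u hu).2, fun h => (h6 u hu).1 (inn_sub F N h)⟩
  have hL0 : 0 < L := by
    rcases eq_or_lt_of_le hL with h | h
    · exfalso
      rw [← h, hσ0] at hNend
      exact hxN (rg_sub F N hNend)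
    · exact h
  obtain ⟨δ₂, hδ₂, hafter⟩ := right_ev (hside N hG.nN hnI L hLI hNend).1
  obtain ⟨δ₁, hδ₁, hbefore⟩ := left_ev (hside M hG.cf.oM hbI 0 h0I hσ0M).2
  -- it is outside `N` before
  have hN2 : ∀ t ∈ Ico 0 L, σ t ∉ N.fl F := by
    intro t ht h
    have ht' : t ∈ Icc 0 L := ⟨ht.1, ht.2.le⟩
    rcases rg_or h with h | h
    · obtain ⟨η, hη, h4⟩ := right_ev (hside N hG.nN hnI t ht' h).1
      have h5 : t < min (t + η) L := lt_min (by linarith) ht.2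
      obtain ⟨u, hu1, hu2⟩ := exists_between h5
      exact (hin u ⟨by linarith [ht.1], (hu2.trans_le (min_le_right _ _)).le⟩).2
        (h4 u ⟨hu1, hu2.trans_le (min_le_left _ _)⟩)
    · exact (hin t ht').2 h
  -- the first time on `K`
  have hconO : ContinuousOn σ (Icc 0 L) := fun t ht => (hcont t ht).continuousWithinAt
  have hLK : σ L ∈ K.inn F := hG.cf.NK (rg_sub F N hNend)
  set A : Set ℝ := Icc 0 L ∩ σ ⁻¹' K.fl F with hA
  have hAc : IsClosed A := hconO.preimage_isClosed_of_isClosed isClosed_Icc cK.isClosed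
  have hAne : A.Nonempty := ⟨L, hLI, inn_sub F K hLK⟩
  have hAbd : BddBelow A := ⟨0, fun t ht => ht.1.1⟩
  set L₁ : ℝ := sInf A with hL₁
  have hL₁A : L₁ ∈ A := hAc.csInf_mem hAne hAbd
  have hlow : ∀ t ∈ Ico 0 L₁, σ t ∉ K.fl F := by
    intro t ht h
    have : L₁ ≤ t := csInf_le hAbd ⟨⟨ht.1, ht.2.le.trans hL₁A.1.2⟩, h⟩
    exact absurd ht.2 (not_lt.2 this)
  have hL₁0 : 0 < L₁ := by
    rcases eq_or_lt_of_le hL₁A.1.1 with h | h
    · exfalso
      have h4 : σ L₁ ∈ K.fl F := hL₁A.2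
      rw [← h, hσ0] at h4
      exact hxK h4
    · exact h
  have hL₁K : σ L₁ ∈ K.rg := by
    rcases rg_or (F := F) hL₁A.2 with h | h
    · exact h
    · exfalso
      have h4 : ∀ᶠ u in 𝓝[<] L₁, σ u ∈ K.inn F :=
        ((hcont L₁ hL₁A.1).eventually_mem (oK.mem_nhds h)).filter_mono nhdsWithin_le_nhds
      obtain ⟨η, hη, h5⟩ := left_ev h4
      have h6 : max (L₁ - η) 0 < L₁ := max_lt (by linarith) hL₁0
      obtain ⟨u, hu1, hu2⟩ := exists_between h6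
      exact hlow u ⟨((le_max_right _ _).trans_lt hu1).le, hu2⟩
        (inn_sub F K (h5 u ⟨(le_max_left _ _).trans_lt hu1, hu2⟩))
  have hL₁L : L₁ < L := by
    rcases eq_or_lt_of_le hL₁A.1.2 with h | h
    · exfalso
      rw [← h] at hLK
      exact not_inn hL₁K hLK
    · exact h
  -- afterwards it is inside `K`
  have hhigh : ∀ t ∈ Ioc L₁ L, σ t ∈ K.inn F := by
    intro t ht
    by_contra hcon
    obtain ⟨η, hη, h4⟩ := right_ev (hside K hG.cf.oK hcI L₁ hL₁A.1 hL₁K).1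
    obtain ⟨v, hv1, hv2⟩ := exists_between (lt_min (by linarith : L₁ < L₁ + η) ht.1)
    have hvK : σ v ∈ K.inn F := h4 v ⟨hv1, hv2.trans_le (min_le_left _ _)⟩
    have hvt : v < t := hv2.trans_le (min_le_right _ _)
    set B : Set ℝ := Icc v t ∩ σ ⁻¹' (K.inn F)ᶜ with hB
    have hvt' : Icc v t ⊆ Icc 0 L := Icc_subset_Icc (by linarith) ht.2
    have hBc : IsClosed B :=
      (hconO.mono hvt').preimage_isClosed_of_isClosed isClosed_Icc oK.isClosed_compl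
    have hBne : B.Nonempty := ⟨t, ⟨hvt.le, le_rfl⟩, hcon⟩
    have hBbd : BddBelow B := ⟨v, fun u hu => hu.1.1⟩
    have hB1 : sInf B ∈ B := hBc.csInf_mem hBne hBbd
    have hB2 : ∀ u ∈ Ico v (sInf B), σ u ∈ K.inn F := by
      intro u hu
      by_contra h
      have : sInf B ≤ u := csInf_le hBbd ⟨⟨hu.1, hu.2.le.trans hB1.1.2⟩, h⟩
      exact absurd hu.2 (not_lt.2 this)
    have hB3 : v < sInf B := by
      rcases eq_or_lt_of_le hB1.1.1 with h | h
      · exact absurd hvK (by rw [h]; exact hB1.2)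
      · exact h
    have hB4 : σ (sInf B) ∈ K.fl F := by
      have h5 : ∃ᶠ u in 𝓝[<] (sInf B), σ u ∈ K.fl F := by
        apply Eventually.frequently
        filter_upwards [Ioo_mem_nhdsLT hB3] with u hu
        exact inn_sub F K (hB2 u ⟨hu.1.le, hu.2⟩)
      have h6 : Tendsto σ (𝓝[<] (sInf B)) (𝓝 (σ (sInf B))) :=
        (hcont _ (hvt' hB1.1)).mono_left nhdsWithin_le_nhds
      by_contra h7
      have h8 := h6.eventually_mem (cK.isClosed.isOpen_compl.mem_nhds h7)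
      exact (h5.and_eventually h8).exists.elim fun u hu => hu.2 hu.1
    have hB5 : σ (sInf B) ∈ K.rg := by
      rcases rg_or hB4 with h | h
      · exact h
      · exact absurd h hB1.2
    obtain ⟨η', hη', h9⟩ := left_ev (hside K hG.cf.oK hcI _ (hvt' hB1.1) hB5).2
    obtain ⟨u, hu1, hu2⟩ := exists_between (max_lt (by linarith : sInf B - η' < sInf B) hB3)
    exact h9 u ⟨(le_max_left _ _).trans_lt hu1, hu2⟩
      (inn_sub F K (hB2 u ⟨((le_max_right _ _).trans_lt hu1).le, hu2⟩))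
  have hδ' : 0 < min δ (min δ₁ δ₂) := lt_min hδ (lt_min hδ₁ hδ₂)
  have hm1 : min δ (min δ₁ δ₂) ≤ δ := min_le_left _ _
  have hm2 : min δ (min δ₁ δ₂) ≤ δ₁ := (min_le_right _ _).trans (min_le_left _ _)
  have hm3 : min δ (min δ₁ δ₂) ≤ δ₂ := (min_le_right _ _).trans (min_le_right _ _)
  refine ⟨s, σ, L₁, L, min δ (min δ₁ δ₂), ?_, hσ0⟩
  exact
    { s1 := hs
      δ0 := hδ'
      L0 := hL₁0
      L12 := hL₁L
      der := fun t ht => (hder t ⟨by linarith [ht.1], by linarith [ht.2]⟩).1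
      gam := fun t ht => (hder t ⟨by linarith [ht.1], by linarith [ht.2]⟩).2
      pos := hpos
      atM := hσ0M
      atK := hL₁K
      atN := hNend
      before := fun t ht => hbefore t ⟨by linarith [ht.1], ht.2⟩
      mid₁ := fun t ht => ⟨hM2 t ⟨ht.1, by linarith [ht.2]⟩, hlow t ⟨ht.1.le, ht.2⟩⟩
      mid₂ := fun t ht => ⟨hhigh t ⟨ht.1, ht.2.le⟩, hN2 t ⟨by linarith [ht.1], ht.2⟩⟩
      after := fun t ht => hafter t ⟨ht.1, by linarith [ht.2]⟩ }

end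

end Pool.Agent.N224.SF
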