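import Pool.Agent.N224.SF.D0

/-!
Project SF (helper224), part SUM: inequality for a cycle of cells. By helper316.
-/

set_option autoImplicit false

open Real Set

namespace Pool.Agent.N224.SF.SUM

open Pool.Agent.H709R2 (wedge)
open Pool.Agent.N224.SF (tau)

/-- the component in the direction `tau β` -/
noncomputable def xc (β : ℝ) (a : ℝ × ℝ) : ℝ := cos β * a.1 + sin β * a.2

theorem xc_tau (β r θ : ℝ) : xc β (r • tau θ) = r * cos (θ - β) := by
  unfold xc tau
  rw [cos_sub]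
  simp only [Prod.smul_mk, smul_eq_mul]
  ring

theorem yc_tau (β r θ : ℝ) : wedge (tau β) (r • tau θ) = r * sin (θ - β) := by
  unfold wedge tau
  rw [sin_sub]
  simp only [Prod.smul_mk, smul_eq_mul]
  ring

theorem xc_add (β : ℝ) (a b : ℝ × ℝ) : xc β (a + b) = xc β a + xc β b := by
  unfold xc
  simp only [Prod.fst_add, Prod.snd_add]
  ring

theorem xc_sub (β : ℝ) (a b : ℝ × ℝ) : xc β (a - b) = xc β a - xc β b := by
  unfold xc
  simp only [Prod.fst_sub, Prod.snd_sub]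
  ring

theorem yc_add (β : ℝ) (a b : ℝ × ℝ) :
    wedge (tau β) (a + b) = wedge (tau β) a + wedge (tau β) b := by
  unfold wedge
  simp only [Prod.fst_add, Prod.snd_add]
  ring

theorem yc_sub (β : ℝ) (a b : ℝ × ℝ) :
    wedge (tau β) (a - b) = wedge (tau β) a - wedge (tau β) b := by
  unfold wedge
  simp only [Prod.fst_sub, Prod.snd_sub]
  ring

/-- angles in `[s, π - s]` -/
theorem trig {s w : ℝ} (hs : 0 < s) (h1 : s ≤ w) (h2 : w ≤ π - s) :
    0 < sin s ∧ 0 < sin w ∧ sin s ≤ sin w ∧ |cos w| ≤ cos s / sin s * sin w := by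
  have hs2 : s < π := by linarith [pi_pos]
  have p1 : 0 < sin s := sin_pos_of_pos_of_lt_pi hs hs2
  have p2 : 0 < sin w := sin_pos_of_pos_of_lt_pi (by linarith) (by linarith)
  have e1 : 0 ≤ sin w * cos s - cos w * sin s := by
    rw [← sin_sub]
    exact sin_nonneg_of_nonneg_of_le_pi (by linarith) (by linarith)
  have e2 : 0 ≤ sin w * cos s + cos w * sin s := by
    rw [← sin_add]
    exact sin_nonneg_of_nonneg_of_le_pi (by linarith) (by linarith)
  have e3 : |cos w| * sin s ≤ sin w * cos s := by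
    rw [← abs_of_pos p1, ← abs_mul]
    exact abs_le.2 ⟨by linarith, by linarith⟩
  refine ⟨p1, p2, ?_, ?_⟩
  · have e4 : (cos w * sin s) ^ 2 ≤ (sin w * cos s) ^ 2 := by
      rw [sq_le_sq, abs_of_nonneg (a := sin w * cos s) (by linarith)]
      exact abs_le.2 ⟨by linarith, by linarith⟩
    have e5 : sin s ^ 2 ≤ sin w ^ 2 := by
      nlinarith [sin_sq_add_cos_sq w, sin_sq_add_cos_sq s]
    exact le_of_sq_le_sq e5 p2.le
  · rw [div_mul_eq_mul_div, le_div_iff₀ p1]
    linarith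

theorem cotdiff {s w w' : ℝ} (hs : 0 < s) (h1 : s ≤ w) (h2 : w ≤ π - s) (h1' : s ≤ w')
    (h2' : w' ≤ π - s) : |cos w / sin w - cos w' / sin w'| ≤ |w - w'| / sin s ^ 2 := by
  obtain ⟨p0, p1, p2, -⟩ := trig hs h1 h2
  obtain ⟨-, p1', p2', -⟩ := trig hs h1' h2'
  have e1 : cos w / sin w - cos w' / sin w' = sin (w' - w) / (sin w * sin w') := by
    rw [sin_sub]
    field_simp
  rw [e1, abs_div, abs_of_pos (mul_pos p1 p1')]
  have e2 : |sin (w' - w)| ≤ |w - w'| := by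
    rw [abs_sub_comm w w']
    exact abs_sin_le_abs
  refine div_le_div₀ (abs_nonneg _) e2 (by positivity) ?_
  rw [sq]
  exact mul_le_mul p2 p2' p0.le p1.le

theorem smallang {ρ h s : ℝ} (hρ : 0 < ρ) (hρ2 : ρ ≤ 1 / 2) (hh : 0 < h) (hhρ : h ≤ ρ / 100)
    (hs : s = ρ - h) : 15 / 16 * s ≤ sin s ∧ cos s / sin s * h ≤ 1 / 90 ∧ 0 ≤ cos s / sin s ∧
      0 < s := by
  have s0 : 0 < s := by rw [hs]; linarith
  have s1 : s ≤ 1 / 2 := by rw [hs]; linarith
  have h1 := Real.sin_gt_sub_cube s0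
  have h2 : 15 / 16 * s ≤ sin s := by nlinarith [mul_pos s0 s0, sq_nonneg s]
  have p0 : 0 < sin s := by nlinarith
  have c0 : 0 ≤ cos s := cos_nonneg_of_neg_pi_div_two_le_of_le (by linarith [pi_gt_three])
    (by linarith [pi_gt_three])
  refine ⟨h2, ?_, by positivity, s0⟩
  rw [div_mul_eq_mul_div, div_le_iff₀ p0]
  have h3 : cos s * h ≤ h := by
    have := cos_le_one s
    nlinarith
  nlinarith

theorem logd {h w w' ε : ℝ} (s0 : 0 < sin w) (s0' : 0 < sin w') (s1 : 0 < sin (w - ε))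
    (s1' : 0 < sin (w' - ε)) (hε : |sin ε| ≤ h) (hq : 10 / 11 ≤ cos ε - cos w / sin w * sin ε) :
    Real.log (sin w) - Real.log (sin w') - (Real.log (sin (w - ε)) - Real.log (sin (w' - ε))) ≤
      11 / 10 * h * |cos w / sin w - cos w' / sin w'| := by
  set q := cos ε - cos w / sin w * sin ε with hqd
  set q' := cos ε - cos w' / sin w' * sin ε with hqd'
  have e1 : sin (w - ε) = q * sin w := by
    rw [sin_sub, hqd]
    field_simp
  have e2 : sin (w' - ε) = q' * sin w' := by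
    rw [sin_sub, hqd']
    field_simp
  have q0 : 0 < q := by linarith
  have q0' : 0 < q' := by
    have h1 : 0 < q' * sin w' := by rw [← e2]; exact s1'
    exact (pos_iff_pos_of_mul_pos h1).2 s0'
  rw [e1, e2, Real.log_mul q0.ne' s0.ne', Real.log_mul q0'.ne' s0'.ne']
  have e3 : Real.log q' - Real.log q ≤ (q' - q) / q := by
    have h1 := Real.log_le_sub_one_of_pos (x := q' / q) (by positivity)
    rw [Real.log_div q0'.ne' q0.ne'] at h1
    have h2 : q' / q - 1 = (q' - q) / q := by field_simp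
    linarith
  have e4 : q' - q ≤ h * |cos w / sin w - cos w' / sin w'| := by
    have h1 : q' - q = sin ε * (cos w / sin w - cos w' / sin w') := by
      rw [hqd, hqd']
      ring
    rw [h1]
    refine (le_abs_self _).trans ?_
    rw [abs_mul]
    exact mul_le_mul_of_nonneg_right hε (abs_nonneg _)
  have h0 : 0 ≤ h := (abs_nonneg _).trans hε
  have e5 : (q' - q) / q ≤ 11 / 10 * h * |cos w / sin w - cos w' / sin w'| := by
    rw [div_le_iff₀ q0]
    have h3 : 0 ≤ h * |cos w / sin w - cos w' / sin w'| := by positivity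
    nlinarith
  linarith

theorem smallt {h t : ℝ} (hh : 0 < h) (hh2 : h ≤ 1 / 100) (ht : t ∈ Icc 0 h) :
    0 ≤ sin t ∧ sin t ≤ 11 / 10 * h * cos t := by
  have h1 : 0 ≤ sin t := sin_nonneg_of_nonneg_of_le_pi ht.1 (by linarith [ht.2, pi_gt_three])
  have h2 : sin t ≤ t := sin_le ht.1
  have h3 := one_sub_sq_div_two_le_cos (x := t)
  have h4 : t ^ 2 ≤ 1 / 10000 := by nlinarith [ht.1, ht.2]
  refine ⟨h1, ?_⟩
  have h5 : 10 / 11 ≤ cos t := by linarith
  have h6 := mul_le_mul_of_nonneg_left h5 (by positivity : 0 ≤ 11 / 10 * h)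
  linarith [ht.2]

theorem sq_small {h ε : ℝ} (hh2 : h ≤ 1 / 100) (hε : |ε| ≤ h) : ε ^ 2 ≤ 1 / 10000 := by
  calc ε ^ 2 = |ε| ^ 2 := (sq_abs ε).symm
    _ ≤ (1 / 100) ^ 2 := pow_le_pow_left₀ (abs_nonneg _) (hε.trans hh2) 2
    _ = 1 / 10000 := by norm_num

theorem sc {r g a b : ℝ} (hr : 0 < r) (h : a ≤ g * b) : r * a ≤ g * (r * b) := by
  have := mul_le_mul_of_nonneg_left h hr.le
  linarith

/-- the inequality for the cell `i` -/
theorem cell (hG : S_GAP) {s h g c₀ : ℝ} (s0 : 0 < s) (hh : 0 < h) (hh2 : h ≤ 1 / 100)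
    (hc : c₀ = cos s / sin s) (hc0 : 0 ≤ c₀) (hch : c₀ * h ≤ 1 / 90) (hgd : g = 11 / 10 * h)
    {β β' D : ℝ} {x e n x' e' n' : ℝ × ℝ} {u v u' v' r₁ r₂ r₁' r₂' rp θp rk θk rn θn : ℝ} {l : ℤ}
    (hr₁ : 0 < r₁) (hr₂ : 0 < r₂) (hr₁' : 0 < r₁') (hr₂' : 0 < r₂') (hrp : 0 < rp) (hrk : 0 < rk)
    (hrn : 0 < rn)
    (e₁ : e - x = r₁ • tau u) (e₂ : n - e = r₂ • tau v) (e₁' : e' - x' = r₁' • tau u')
    (e₂' : n' - e' = r₂' • tau v') (ep : x' - x = rp • tau θp) (ek : e' - e = rk • tau θk)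
    (en : n' - n = rn • tau θn) (hp : θp - β ∈ Icc 0 h) (hk : θk - β ∈ Icc s (π - s))
    (hn : θn - β ∈ Icc 0 h) (hu : u - β ∈ Icc s (π - s)) (hv : v - β ∈ Icc s (π - s))
    (hu' : u' - β - l * (2 * π) ∈ Icc s (π - s)) (hv' : v' - β - l * (2 * π) ∈ Icc s (π - s))
    (hu'' : u' - β' ∈ Icc s (π - s)) (hv'' : v' - β' ∈ Icc s (π - s))
    (hε : |β' - β - l * (2 * π)| ≤ h) (hD : r₂ ≤ D) :
    wedge (tau β) (e' - e) / (2 * D) ≤
      (Real.log (wedge (tau β') (e' - x') / wedge (tau β') (n' - e')) -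
        Real.log (wedge (tau β) (e - x) / wedge (tau β) (n - e))) +
      (11 / 10 * h * (|u' - v'| / sin s ^ 2) +
        2 * g * (|u - v| / sin s ^ 2 + |u' - v'| / sin s ^ 2)) := by
  have small : ∀ t ∈ Icc 0 h, 0 ≤ sin t ∧ sin t ≤ g * cos t := fun t ht => by
    rw [hgd]
    exact smallt hh hh2 ht
  obtain ⟨-, pu, -, cu⟩ := trig s0 hu.1 hu.2
  obtain ⟨-, pv, -, cv⟩ := trig s0 hv.1 hv.2
  obtain ⟨-, pu', -, cu'⟩ := trig s0 hu'.1 hu'.2
  obtain ⟨-, pv', -, cv'⟩ := trig s0 hv'.1 hv'.2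
  obtain ⟨-, pu'', -, -⟩ := trig s0 hu''.1 hu''.2
  obtain ⟨-, pv'', -, -⟩ := trig s0 hv''.1 hv''.2
  obtain ⟨-, pk, -, ck⟩ := trig s0 hk.1 hk.2
  rw [← hc] at cu cv cu' cv' ck
  -- the components at the next cell
  have hsh : ∀ t : ℝ, cos (t - β - l * (2 * π)) = cos (t - β) ∧
      sin (t - β - l * (2 * π)) = sin (t - β) := fun t =>
    ⟨cos_sub_int_mul_two_pi _ _, sin_sub_int_mul_two_pi _ _⟩
  have y₁' : wedge (tau β) (e' - x') = r₁' * sin (u' - β - l * (2 * π)) := by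
    rw [e₁', yc_tau, (hsh u').2]
  have y₂' : wedge (tau β) (n' - e') = r₂' * sin (v' - β - l * (2 * π)) := by
    rw [e₂', yc_tau, (hsh v').2]
  have x₁' : xc β (e' - x') = r₁' * cos (u' - β - l * (2 * π)) := by
    rw [e₁', xc_tau, (hsh u').1]
  have x₂' : xc β (n' - e') = r₂' * cos (v' - β - l * (2 * π)) := by
    rw [e₂', xc_tau, (hsh v').1]
  have y₁ : wedge (tau β) (e - x) = r₁ * sin (u - β) := by rw [e₁, yc_tau]
  have y₂ : wedge (tau β) (n - e) = r₂ * sin (v - β) := by rw [e₂, yc_tau]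
  have x₁ : xc β (e - x) = r₁ * cos (u - β) := by rw [e₁, xc_tau]
  have x₂ : xc β (n - e) = r₂ * cos (v - β) := by rw [e₂, xc_tau]
  have yk : wedge (tau β) (e' - e) = rk * sin (θk - β) := by rw [ek, yc_tau]
  have xk : xc β (e' - e) = rk * cos (θk - β) := by rw [ek, xc_tau]
  have yp : wedge (tau β) (x' - x) = rp * sin (θp - β) := by rw [ep, yc_tau]
  have xp : xc β (x' - x) = rp * cos (θp - β) := by rw [ep, xc_tau]
  have yn : wedge (tau β) (n' - n) = rn * sin (θn - β) := by rw [en, yc_tau]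
  have xn : xc β (n' - n) = rn * cos (θn - β) := by rw [en, xc_tau]
  obtain ⟨sp1, sp2⟩ := small _ hp
  obtain ⟨sn1, sn2⟩ := small _ hn
  have ax1 : xc β (e - x) + xc β (e' - e) - xc β (x' - x) = xc β (e' - x') := by
    simp only [xc_sub]; ring
  have ax2 : xc β (n - e) + xc β (n' - n) - xc β (e' - e) = xc β (n' - e') := by
    simp only [xc_sub]; ring
  have mulabs : ∀ r t y : ℝ, 0 < r → |t| ≤ c₀ * y → |r * t| ≤ c₀ * (r * y) := by
    intro r t y hr ht
    rw [abs_mul, abs_of_pos hr]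
    calc r * |t| ≤ r * (c₀ * y) := mul_le_mul_of_nonneg_left ht hr.le
      _ = c₀ * (r * y) := by ring
  have gap := hG (wedge (tau β) (e - x)) (wedge (tau β) (n - e)) (wedge (tau β) (e' - x'))
    (wedge (tau β) (n' - e')) (xc β (e - x)) (xc β (n - e)) (xc β (e' - e))
    (wedge (tau β) (e' - e)) (xc β (x' - x)) (wedge (tau β) (x' - x)) (xc β (n' - n))
    (wedge (tau β) (n' - n)) c₀ g (by rw [y₁]; positivity) (by rw [y₂]; positivity)
    (by rw [y₁']; positivity) (by rw [y₂']; positivity)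
    (by simp only [yc_sub]; ring) (by simp only [yc_sub]; ring) hc0 (by rw [hgd]; positivity)
    (by rw [hgd]; linarith only [hch]) (by rw [yp]; positivity)
    (by rw [yp, xp]; exact sc hrp sp2) (by rw [yn]; positivity)
    (by rw [yn, xn]; exact sc hrn sn2)
    (by rw [yk]; positivity) (by rw [xk, yk]; exact mulabs _ _ _ hrk ck)
    (by rw [x₁, y₁]; exact mulabs _ _ _ hr₁ cu) (by rw [x₂, y₂]; exact mulabs _ _ _ hr₂ cv)
    (by rw [ax1, x₁', y₁']; exact mulabs _ _ _ hr₁' cu')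
    (by rw [ax2, x₂', y₂']; exact mulabs _ _ _ hr₂' cv')
  rw [ax1, ax2] at gap
  have q₁ : |xc β (e - x) / wedge (tau β) (e - x) - xc β (n - e) / wedge (tau β) (n - e)| ≤
      |u - v| / sin s ^ 2 := by
    rw [x₁, x₂, y₁, y₂, mul_div_mul_left _ _ hr₁.ne', mul_div_mul_left _ _ hr₂.ne']
    refine (cotdiff s0 hu.1 hu.2 hv.1 hv.2).trans (le_of_eq ?_)
    congr 2
    ring
  have cd' := cotdiff s0 hu'.1 hu'.2 hv'.1 hv'.2
  have cde : u' - β - l * (2 * π) - (v' - β - l * (2 * π)) = u' - v' := by ring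
  rw [cde] at cd'
  have q₂ : |xc β (e' - x') / wedge (tau β) (e' - x') -
      xc β (n' - e') / wedge (tau β) (n' - e')| ≤ |u' - v'| / sin s ^ 2 := by
    rw [x₁', x₂', y₁', y₂', mul_div_mul_left _ _ hr₁'.ne', mul_div_mul_left _ _ hr₂'.ne']
    exact cd'
  -- change of the frame
  have hg0 : 0 ≤ g := by rw [hgd]; positivity
  set ε := β' - β - l * (2 * π) with hεd
  have w1 : u' - β - l * (2 * π) - ε = u' - β' := by rw [hεd]; ring
  have w2 : v' - β - l * (2 * π) - ε = v' - β' := by rw [hεd]; ring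
  have hsε : |sin ε| ≤ h := abs_sin_le_abs.trans hε
  have hq : 10 / 11 ≤ cos ε - cos (u' - β - l * (2 * π)) / sin (u' - β - l * (2 * π)) * sin ε := by
    have h1 := one_sub_sq_div_two_le_cos (x := ε)
    have h2 : ε ^ 2 ≤ 1 / 10000 := sq_small hh2 hε
    have h3 : |cos (u' - β - l * (2 * π)) / sin (u' - β - l * (2 * π)) * sin ε| ≤ c₀ * h := by
      rw [abs_mul, abs_div, abs_of_pos pu']
      refine mul_le_mul ?_ hsε (abs_nonneg _) hc0
      rw [div_le_iff₀ pu']
      exact cu'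
    have h4 := (abs_le.1 h3).2
    linarith only [h1, h2, h4, hch]
  have ld := logd (h := h) (ε := ε) pu' pv' (by rw [w1]; exact pu'') (by rw [w2]; exact pv'')
    hsε hq
  rw [w1, w2] at ld
  have z₁ : wedge (tau β') (e' - x') = r₁' * sin (u' - β') := by rw [e₁', yc_tau]
  have z₂ : wedge (tau β') (n' - e') = r₂' * sin (v' - β') := by rw [e₂', yc_tau]
  have L1 : Real.log (wedge (tau β) (e' - x') / wedge (tau β) (n' - e')) =
      Real.log r₁' + Real.log (sin (u' - β - l * (2 * π))) -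
        (Real.log r₂' + Real.log (sin (v' - β - l * (2 * π)))) := by
    rw [y₁', y₂', Real.log_div (by positivity) (by positivity),
      Real.log_mul hr₁'.ne' pu'.ne', Real.log_mul hr₂'.ne' pv'.ne']
  have L2 : Real.log (wedge (tau β') (e' - x') / wedge (tau β') (n' - e')) =
      Real.log r₁' + Real.log (sin (u' - β')) - (Real.log r₂' + Real.log (sin (v' - β'))) := by
    rw [z₁, z₂, Real.log_div (by positivity) (by positivity),
      Real.log_mul hr₁'.ne' pu''.ne', Real.log_mul hr₂'.ne' pv''.ne']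
  have ld' : 11 / 10 * h * |cos (u' - β - l * (2 * π)) / sin (u' - β - l * (2 * π)) -
      cos (v' - β - l * (2 * π)) / sin (v' - β - l * (2 * π))| ≤
      11 / 10 * h * (|u' - v'| / sin s ^ 2) := mul_le_mul_of_nonneg_left cd' (by positivity)
  have gq := mul_le_mul_of_nonneg_left (add_le_add q₁ q₂) (by positivity : 0 ≤ 2 * g)
  have lower : wedge (tau β) (e' - e) / (2 * D) ≤
      wedge (tau β) (e' - e) / (2 * wedge (tau β) (n - e)) := by
    have hA' : wedge (tau β) (n - e) ≤ D := by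
      rw [y₂]
      calc r₂ * sin (v - β) ≤ r₂ * 1 := mul_le_mul_of_nonneg_left (sin_le_one _) hr₂.le
        _ = r₂ := mul_one _
        _ ≤ D := hD
    have hA0 : 0 < wedge (tau β) (n - e) := by rw [y₂]; positivity
    have hk0 : 0 ≤ wedge (tau β) (e' - e) := by rw [yk]; positivity
    exact div_le_div_of_nonneg_left hk0 (by positivity)
      (mul_le_mul_of_nonneg_left hA' (by norm_num))
  refine lower.trans (gap.trans ?_)
  rw [L1, L2]
  linarith only [ld, ld', gq]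

end Pool.Agent.N224.SF.SUM

namespace Pool.Agent.N224.SF

open Pool.Agent.H709R2 (wedge)

/-- SUM: a cycle of cells -/
theorem sum (hG : S_GAP) : S_SUM := by
  intro m ρ h a b c D x e n ψ β u v hm hρ hρ2 hh hhρ hab hbc hca hD hper hβ hψ hU hxe hne hpx hpe
    hpn hDn hsum
  set s : ℝ := ρ - h with hs
  obtain ⟨hsin, hch, hc0, s0⟩ := SUM.smallang hρ hρ2 hh hhρ hs
  have hpi := pi_gt_three
  have hh2 : h ≤ 1 / 100 := by linarith
  choose r₁ hr₁ e₁ using hxe
  choose r₂ hr₂ e₂ using hne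
  choose rp θp hrp hθp ep using hpx
  choose rk θk hrk hθk ek using hpe
  choose rn θn hrn hθn en using hpn
  choose l hl using hψ
  have hD2 : ∀ i, r₂ i ≤ D := by
    intro i
    have h1 := hDn i
    rw [e₂ i] at h1
    have h2 : H709R2.sq (r₂ i • tau (v i)) = r₂ i ^ 2 := by
      unfold H709R2.sq tau
      simp only [Prod.smul_mk, smul_eq_mul]
      nlinarith [sin_sq_add_cos_sq (v i)]
    rw [h2, Real.sqrt_sq (hr₂ i).le] at h1
    exact h1
  have hu : ∀ i, u i - β i ∈ Icc s (π - s) := by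
    intro i
    obtain ⟨⟨h1, h2⟩, -⟩ := hU i
    rw [mem_Icc]
    rcases hβ i with h3 | h3 <;> constructor <;> linarith
  have hv : ∀ i, v i - β i ∈ Icc s (π - s) := by
    intro i
    obtain ⟨-, ⟨h1, h2⟩⟩ := hU i
    rw [mem_Icc]
    rcases hβ i with h3 | h3 <;> constructor <;> linarith
  have hu' : ∀ i, u (i + 1) - β i - l i * (2 * π) ∈ Icc s (π - s) := by
    intro i
    obtain ⟨⟨h1, h2⟩, -⟩ := hU (i + 1)
    rw [mem_Icc]
    rcases hl i with h3 | h3 <;> constructor <;> linarith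
  have hv' : ∀ i, v (i + 1) - β i - l i * (2 * π) ∈ Icc s (π - s) := by
    intro i
    obtain ⟨-, ⟨h1, h2⟩⟩ := hU (i + 1)
    rw [mem_Icc]
    rcases hl i with h3 | h3 <;> constructor <;> linarith
  have hε : ∀ i, |β (i + 1) - β i - l i * (2 * π)| ≤ h := by
    intro i
    rw [abs_le]
    rcases hβ (i + 1) with h3 | h3 <;> rcases hl i with h4 | h4 <;> constructor <;> linarith
  have hk : ∀ i, θk i - β i ∈ Icc s (π - s) := by
    intro i
    obtain ⟨h1, h2⟩ := hθk i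
    rw [mem_Icc]
    constructor <;> linarith
  have hp : ∀ i, θp i - β i ∈ Icc 0 h := by
    intro i
    obtain ⟨h1, h2⟩ := hθp i
    rw [mem_Icc]
    constructor <;> linarith
  have hn : ∀ i, θn i - β i ∈ Icc 0 h := by
    intro i
    obtain ⟨h1, h2⟩ := hθn i
    rw [mem_Icc]
    constructor <;> linarith
  set P : ℕ → ℝ := fun i =>
    Real.log (wedge (tau (β i)) (e i - x i) / wedge (tau (β i)) (n i - e i)) with hP
  set Q : ℕ → ℝ := fun i => |u i - v i| / sin s ^ 2 with hQ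
  have cell : ∀ i, wedge (tau (β i)) (e (i + 1) - e i) / (2 * D) ≤
      (P (i + 1) - P i) + (11 / 10 * h * Q (i + 1) +
        2 * (11 / 10 * h) * (Q i + Q (i + 1))) := fun i =>
    SUM.cell hG s0 hh hh2 rfl hc0 hch rfl (hr₁ i) (hr₂ i) (hr₁ (i + 1)) (hr₂ (i + 1)) (hrp i)
      (hrk i) (hrn i) (e₁ i) (e₂ i) (e₁ (i + 1)) (e₂ (i + 1)) (ep i) (ek i) (en i) (hp i) (hk i)
      (hn i) (hu i) (hv i) (hu' i) (hv' i) (hu (i + 1)) (hv (i + 1)) (hε i) (hD2 i)
  have tot := Finset.sum_le_sum fun i (_ : i ∈ Finset.range m) => cell i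
  rw [← Finset.sum_div, Finset.sum_add_distrib, Finset.sum_range_sub, Finset.sum_add_distrib,
    ← Finset.mul_sum, ← Finset.mul_sum, Finset.sum_add_distrib] at tot
  obtain ⟨px, pe, pn, -, pβ, pu, pv⟩ := hper 0
  rw [zero_add] at px pe pn pβ pu pv
  have hPm : P m = P 0 := by
    simp only [hP, px, pe, pn, pβ]
  have hQm : Q m = Q 0 := by
    simp only [hQ, pu, pv]
  have hQs : ∑ i ∈ Finset.range m, Q (i + 1) = ∑ i ∈ Finset.range m, Q i := by
    have h1 := Finset.sum_range_sub Q m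
    rw [hQm, sub_self, Finset.sum_sub_distrib] at h1
    linarith
  rw [hPm, hQs, sub_self, zero_add] at tot
  have hQsum : ∑ i ∈ Finset.range m, Q i = (∑ i ∈ Finset.range m, |u i - v i|) / sin s ^ 2 := by
    rw [Finset.sum_div]
  rw [hQsum] at tot
  set S : ℝ := ∑ i ∈ Finset.range m, |u i - v i| with hS
  have hS0 : 0 ≤ S := Finset.sum_nonneg fun i _ => abs_nonneg _
  have ps : 0 < sin s := by linarith [mul_pos (by norm_num : (0 : ℝ) < 15 / 16) s0]
  have h1 : sin ρ / 2 ≤ (∑ i ∈ Finset.range m, wedge (tau (β i)) (e (i + 1) - e i)) / (2 * D) := by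
    rw [le_div_iff₀ (by positivity)]
    have h2 : sin ρ ≤ sin (c - b) := sin_le_sin_of_le_of_le_pi_div_two (by linarith)
      (by linarith) hbc
    have h3 := mul_le_mul_of_nonneg_right h2 hD.le
    linarith
  have h2 := h1.trans tot
  have hρ3 := Real.sin_gt_sub_cube hρ
  have h3 : 15 / 16 * ρ ≤ sin ρ := by nlinarith [mul_pos hρ hρ]
  have h4 : 15 / 16 * (99 / 100 * ρ) ≤ sin s := by
    have : 99 / 100 * ρ ≤ s := by rw [hs]; linarith
    linarith
  have h5 : (15 / 16 * (99 / 100 * ρ)) ^ 2 ≤ sin s ^ 2 := pow_le_pow_left₀ (by positivity) h4 2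
  have h6 : sin ρ * sin s ^ 2 ≤ 11 * h * S := by
    have h7 : sin ρ / 2 ≤ 11 / 2 * h * S / sin s ^ 2 := by
      refine h2.trans (le_of_eq ?_)
      ring
    rw [le_div_iff₀ (by positivity)] at h7
    linarith
  have h7 : 15 / 16 * ρ * (15 / 16 * (99 / 100 * ρ)) ^ 2 ≤ sin ρ * sin s ^ 2 :=
    mul_le_mul h3 h5 (by positivity) (by linarith)
  rw [div_le_iff₀ (by positivity)]
  have h8 : 0 < ρ ^ 3 := by positivity
  nlinarith

end Pool.Agent.N224.SF
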