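import Pool.Agent.N224.SF.D3
import Pool.Agent.N224.SF.SUM

/-!
Project SF (helper224), part SUM2: the sharper inequality for a cycle of cells, an adaptation of part SUM of helper316.
-/

set_option autoImplicit false

open Real Set

namespace Pool.Agent.N224.SF.SUM2

open Pool.Agent.H709R2 (wedge)
open Pool.Agent.N224.SF (tau)
open Pool.Agent.N224.SF.SUM

/-- a small rotation changes a difference of cotangents by a factor near one -/
theorem shift {s h δ x y : ℝ} (s0 : 0 < s) (hh2 : h ≤ 1 / 100) (hc0 : 0 ≤ cos s / sin s)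
    (hch : cos s / sin s * h ≤ 1 / 90) (hδ : δ ∈ Icc 0 h) (hx : x ∈ Icc s (π - s))
    (hy : y ∈ Icc s (π - s)) :
    |cos (x + δ) / sin (x + δ) - cos (y + δ) / sin (y + δ)| ≤ 21 / 20 * |ct x - ct y| := by
  have low : ∀ z ∈ Icc s (π - s), 0 < sin z ∧ 98 / 100 * sin z ≤ sin (z + δ) := by
    intro z hz
    obtain ⟨-, pz, -, cz⟩ := trig s0 hz.1 hz.2
    refine ⟨pz, ?_⟩
    rw [sin_add]
    have h1 := one_sub_sq_div_two_le_cos (x := δ)
    have h2 : δ ^ 2 ≤ 1 / 10000 := by nlinarith [hδ.1, hδ.2]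
    have h3 : |cos z * sin δ| ≤ 1 / 90 * sin z := by
      rw [abs_mul]
      have h4 : |sin δ| ≤ h := by
        refine abs_sin_le_abs.trans ?_
        rw [abs_of_nonneg hδ.1]
        exact hδ.2
      calc |cos z| * |sin δ| ≤ (cos s / sin s * sin z) * h :=
            mul_le_mul cz h4 (abs_nonneg _) (by positivity)
        _ = cos s / sin s * h * sin z := by ring
        _ ≤ 1 / 90 * sin z := mul_le_mul_of_nonneg_right hch pz.le
    have h5 := (abs_le.1 h3).1
    have h6 : 99 / 100 * sin z + 1 / 200 * sin z ≤ sin z * cos δ := by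
      have : 199 / 200 ≤ cos δ := by linarith
      nlinarith
    linarith
  obtain ⟨px, lx⟩ := low x hx
  obtain ⟨py, ly⟩ := low y hy
  have px' : 0 < sin (x + δ) := by linarith
  have py' : 0 < sin (y + δ) := by linarith
  have e1 : cos (x + δ) / sin (x + δ) - cos (y + δ) / sin (y + δ) =
      sin (y - x) / (sin (x + δ) * sin (y + δ)) := by
    have e0 : y - x = (y + δ) - (x + δ) := by ring
    rw [e0, sin_sub]
    field_simp
  have e2 : ct x - ct y = sin (y - x) / (sin x * sin y) := by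
    unfold ct
    rw [sin_sub]
    field_simp
  rw [e1, e2, abs_div, abs_div, abs_of_pos (mul_pos px' py'), abs_of_pos (mul_pos px py),
    ← mul_div_assoc, div_le_div_iff₀ (mul_pos px' py') (mul_pos px py)]
  have h7 : 98 / 100 * sin x * (98 / 100 * sin y) ≤ sin (x + δ) * sin (y + δ) :=
    mul_le_mul lx ly (by positivity) px'.le
  have h8 : sin x * sin y ≤ 21 / 20 * (sin (x + δ) * sin (y + δ)) := by
    have : 0 < sin x * sin y := mul_pos px py
    nlinarith
  calc |sin (y - x)| * (sin x * sin y) ≤ |sin (y - x)| * (21 / 20 * (sin (x + δ) * sin (y + δ))) :=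
        mul_le_mul_of_nonneg_left h8 (abs_nonneg _)
    _ = 21 / 20 * |sin (y - x)| * (sin (x + δ) * sin (y + δ)) := by ring

/-- the inequality for the cell `i` -/
theorem cell (hG : S_GAP) {s h g c₀ Q Q' : ℝ} (s0 : 0 < s) (hh : 0 < h) (hh2 : h ≤ 1 / 100)
    (hc : c₀ = cos s / sin s) (hc0 : 0 ≤ c₀) (hch : c₀ * h ≤ 1 / 90) (hgd : g = 11 / 10 * h)
    {β β' D : ℝ} {x e n x' e' n' : ℝ × ℝ} {u v u' v' r₁ r₂ r₁' r₂' rp θp rk θk rn θn : ℝ} {l : ℤ}
    (hr₁ : 0 < r₁) (hr₂ : 0 < r₂) (hr₁' : 0 < r₁') (hr₂' : 0 < r₂') (hrp : 0 < rp) (hrk : 0 < rk)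
    (hrn : 0 < rn)
    (e₁ : e - x = r₁ • tau u) (e₂ : n - e = r₂ • tau v) (e₁' : e' - x' = r₁' • tau u')
    (e₂' : n' - e' = r₂' • tau v') (ep : x' - x = rp • tau θp) (ek : e' - e = rk • tau θk)
    (en : n' - n = rn • tau θn) (hp : θp - β ∈ Icc 0 h) (hk : θk - β ∈ Icc s (π - s))
    (hn : θn - β ∈ Icc 0 h) (hu : u - β ∈ Icc s (π - s)) (hv : v - β ∈ Icc s (π - s))
    (hu' : u' - β - l * (2 * π) ∈ Icc s (π - s)) (hv' : v' - β - l * (2 * π) ∈ Icc s (π - s))
    (hu'' : u' - β' ∈ Icc s (π - s)) (hv'' : v' - β' ∈ Icc s (π - s))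
    (hε : |β' - β - l * (2 * π)| ≤ h) (hD : r₂ ≤ D)
    (hQ : |cos (u - β) / sin (u - β) - cos (v - β) / sin (v - β)| ≤ Q)
    (hQ' : |cos (u' - β - l * (2 * π)) / sin (u' - β - l * (2 * π)) -
      cos (v' - β - l * (2 * π)) / sin (v' - β - l * (2 * π))| ≤ Q') :
    wedge (tau β) (e' - e) / (2 * D) ≤
      (Real.log (wedge (tau β') (e' - x') / wedge (tau β') (n' - e')) -
        Real.log (wedge (tau β) (e - x) / wedge (tau β) (n - e))) +
      (11 / 10 * h * Q' + 2 * g * (Q + Q')) := by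
  have small : ∀ t ∈ Icc 0 h, 0 ≤ sin t ∧ sin t ≤ g * cos t := fun t ht => by
    rw [hgd]
    exact smallt hh hh2 ht
  obtain ⟨-, pu, -, cu⟩ := trig s0 hu.1 hu.2
  obtain ⟨-, pv, -, cv⟩ := trig s0 hv.1 hv.2
  obtain ⟨-, pu', -, cu'⟩ := trig s0 hu'.1 hu'.2
  obtain ⟨-, pv', -, cv'⟩ := trig s0 hv'.1 hv'.2
  obtain ⟨-, pu'', -, -⟩ := trig s0 hu''.1 hu''.2
  obtain ⟨-, pv'', -, -⟩ := trig s0 hv''.1 hv''.2
  obtain ⟨-, pk, -, ck⟩ := trig s0 hk.1 hk.2
  rw [← hc] at cu cv cu' cv' ck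
  -- the components at the next cell
  have hsh : ∀ t : ℝ, cos (t - β - l * (2 * π)) = cos (t - β) ∧
      sin (t - β - l * (2 * π)) = sin (t - β) := fun t =>
    ⟨cos_sub_int_mul_two_pi _ _, sin_sub_int_mul_two_pi _ _⟩
  have y₁' : wedge (tau β) (e' - x') = r₁' * sin (u' - β - l * (2 * π)) := by
    rw [e₁', yc_tau, (hsh u').2]
  have y₂' : wedge (tau β) (n' - e') = r₂' * sin (v' - β - l * (2 * π)) := by
    rw [e₂', yc_tau, (hsh v').2]
  have x₁' : xc β (e' - x') = r₁' * cos (u' - β - l * (2 * π)) := by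
    rw [e₁', xc_tau, (hsh u').1]
  have x₂' : xc β (n' - e') = r₂' * cos (v' - β - l * (2 * π)) := by
    rw [e₂', xc_tau, (hsh v').1]
  have y₁ : wedge (tau β) (e - x) = r₁ * sin (u - β) := by rw [e₁, yc_tau]
  have y₂ : wedge (tau β) (n - e) = r₂ * sin (v - β) := by rw [e₂, yc_tau]
  have x₁ : xc β (e - x) = r₁ * cos (u - β) := by rw [e₁, xc_tau]
  have x₂ : xc β (n - e) = r₂ * cos (v - β) := by rw [e₂, xc_tau]
  have yk : wedge (tau β) (e' - e) = rk * sin (θk - β) := by rw [ek, yc_tau]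
  have xk : xc β (e' - e) = rk * cos (θk - β) := by rw [ek, xc_tau]
  have yp : wedge (tau β) (x' - x) = rp * sin (θp - β) := by rw [ep, yc_tau]
  have xp : xc β (x' - x) = rp * cos (θp - β) := by rw [ep, xc_tau]
  have yn : wedge (tau β) (n' - n) = rn * sin (θn - β) := by rw [en, yc_tau]
  have xn : xc β (n' - n) = rn * cos (θn - β) := by rw [en, xc_tau]
  obtain ⟨sp1, sp2⟩ := small _ hp
  obtain ⟨sn1, sn2⟩ := small _ hn
  have ax1 : xc β (e - x) + xc β (e' - e) - xc β (x' - x) = xc β (e' - x') := by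
    simp only [xc_sub]; ring
  have ax2 : xc β (n - e) + xc β (n' - n) - xc β (e' - e) = xc β (n' - e') := by
    simp only [xc_sub]; ring
  have mulabs : ∀ r t y : ℝ, 0 < r → |t| ≤ c₀ * y → |r * t| ≤ c₀ * (r * y) := by
    intro r t y hr ht
    rw [abs_mul, abs_of_pos hr]
    calc r * |t| ≤ r * (c₀ * y) := mul_le_mul_of_nonneg_left ht hr.le
      _ = c₀ * (r * y) := by ring
  have gap := hG (wedge (tau β) (e - x)) (wedge (tau β) (n - e)) (wedge (tau β) (e' - x'))
    (wedge (tau β) (n' - e')) (xc β (e - x)) (xc β (n - e)) (xc β (e' - e))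
    (wedge (tau β) (e' - e)) (xc β (x' - x)) (wedge (tau β) (x' - x)) (xc β (n' - n))
    (wedge (tau β) (n' - n)) c₀ g (by rw [y₁]; positivity) (by rw [y₂]; positivity)
    (by rw [y₁']; positivity) (by rw [y₂']; positivity)
    (by simp only [yc_sub]; ring) (by simp only [yc_sub]; ring) hc0 (by rw [hgd]; positivity)
    (by rw [hgd]; linarith only [hch]) (by rw [yp]; positivity)
    (by rw [yp, xp]; exact sc hrp sp2) (by rw [yn]; positivity)
    (by rw [yn, xn]; exact sc hrn sn2)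
    (by rw [yk]; positivity) (by rw [xk, yk]; exact mulabs _ _ _ hrk ck)
    (by rw [x₁, y₁]; exact mulabs _ _ _ hr₁ cu) (by rw [x₂, y₂]; exact mulabs _ _ _ hr₂ cv)
    (by rw [ax1, x₁', y₁']; exact mulabs _ _ _ hr₁' cu')
    (by rw [ax2, x₂', y₂']; exact mulabs _ _ _ hr₂' cv')
  rw [ax1, ax2] at gap
  have q₁ : |xc β (e - x) / wedge (tau β) (e - x) - xc β (n - e) / wedge (tau β) (n - e)| ≤
      Q := by
    rw [x₁, x₂, y₁, y₂, mul_div_mul_left _ _ hr₁.ne', mul_div_mul_left _ _ hr₂.ne']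
    exact hQ
  have q₂ : |xc β (e' - x') / wedge (tau β) (e' - x') -
      xc β (n' - e') / wedge (tau β) (n' - e')| ≤ Q' := by
    rw [x₁', x₂', y₁', y₂', mul_div_mul_left _ _ hr₁'.ne', mul_div_mul_left _ _ hr₂'.ne']
    exact hQ'
  -- change of the frame
  have hg0 : 0 ≤ g := by rw [hgd]; positivity
  set ε := β' - β - l * (2 * π) with hεd
  have w1 : u' - β - l * (2 * π) - ε = u' - β' := by rw [hεd]; ring
  have w2 : v' - β - l * (2 * π) - ε = v' - β' := by rw [hεd]; ring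
  have hsε : |sin ε| ≤ h := abs_sin_le_abs.trans hε
  have hq : 10 / 11 ≤ cos ε - cos (u' - β - l * (2 * π)) / sin (u' - β - l * (2 * π)) * sin ε := by
    have h1 := one_sub_sq_div_two_le_cos (x := ε)
    have h2 : ε ^ 2 ≤ 1 / 10000 := sq_small hh2 hε
    have h3 : |cos (u' - β - l * (2 * π)) / sin (u' - β - l * (2 * π)) * sin ε| ≤ c₀ * h := by
      rw [abs_mul, abs_div, abs_of_pos pu']
      refine mul_le_mul ?_ hsε (abs_nonneg _) hc0
      rw [div_le_iff₀ pu']
      exact cu'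
    have h4 := (abs_le.1 h3).2
    linarith only [h1, h2, h4, hch]
  have ld := logd (h := h) (ε := ε) pu' pv' (by rw [w1]; exact pu'') (by rw [w2]; exact pv'')
    hsε hq
  rw [w1, w2] at ld
  have z₁ : wedge (tau β') (e' - x') = r₁' * sin (u' - β') := by rw [e₁', yc_tau]
  have z₂ : wedge (tau β') (n' - e') = r₂' * sin (v' - β') := by rw [e₂', yc_tau]
  have L1 : Real.log (wedge (tau β) (e' - x') / wedge (tau β) (n' - e')) =
      Real.log r₁' + Real.log (sin (u' - β - l * (2 * π))) -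
        (Real.log r₂' + Real.log (sin (v' - β - l * (2 * π)))) := by
    rw [y₁', y₂', Real.log_div (by positivity) (by positivity),
      Real.log_mul hr₁'.ne' pu'.ne', Real.log_mul hr₂'.ne' pv'.ne']
  have L2 : Real.log (wedge (tau β') (e' - x') / wedge (tau β') (n' - e')) =
      Real.log r₁' + Real.log (sin (u' - β')) - (Real.log r₂' + Real.log (sin (v' - β'))) := by
    rw [z₁, z₂, Real.log_div (by positivity) (by positivity),
      Real.log_mul hr₁'.ne' pu''.ne', Real.log_mul hr₂'.ne' pv''.ne']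
  have ld' : 11 / 10 * h * |cos (u' - β - l * (2 * π)) / sin (u' - β - l * (2 * π)) -
      cos (v' - β - l * (2 * π)) / sin (v' - β - l * (2 * π))| ≤
      11 / 10 * h * Q' := mul_le_mul_of_nonneg_left hQ' (by positivity)
  have gq := mul_le_mul_of_nonneg_left (add_le_add q₁ q₂) (by positivity : 0 ≤ 2 * g)
  have lower : wedge (tau β) (e' - e) / (2 * D) ≤
      wedge (tau β) (e' - e) / (2 * wedge (tau β) (n - e)) := by
    have hA' : wedge (tau β) (n - e) ≤ D := by
      rw [y₂]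
      calc r₂ * sin (v - β) ≤ r₂ * 1 := mul_le_mul_of_nonneg_left (sin_le_one _) hr₂.le
        _ = r₂ := mul_one _
        _ ≤ D := hD
    have hA0 : 0 < wedge (tau β) (n - e) := by rw [y₂]; positivity
    have hk0 : 0 ≤ wedge (tau β) (e' - e) := by rw [yk]; positivity
    exact div_le_div_of_nonneg_left hk0 (by positivity)
      (mul_le_mul_of_nonneg_left hA' (by norm_num))
  refine lower.trans (gap.trans ?_)
  rw [L1, L2]
  linarith only [ld, ld', gq]

end Pool.Agent.N224.SF.SUM2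

namespace Pool.Agent.N224.SF

open Pool.Agent.H709R2 (wedge)

/-- SUM2: a cycle of cells, the sharper inequality -/
theorem sum2 (hG : S_GAP) : S_SUM2 := by
  intro m ρ h a b c D x e n ψ β u v hm hρ hρ2 hh hhρ hab hbc hca hD hper hβ hψ hU hxe hne hpx hpe
    hpn hDn hsum
  set s : ℝ := ρ - h with hs
  obtain ⟨hsin, hch, hc0, s0⟩ := SUM.smallang hρ hρ2 hh hhρ hs
  have hpi := pi_gt_three
  have hh2 : h ≤ 1 / 100 := by linarith
  choose r₁ hr₁ e₁ using hxe
  choose r₂ hr₂ e₂ using hne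
  choose rp θp hrp hθp ep using hpx
  choose rk θk hrk hθk ek using hpe
  choose rn θn hrn hθn en using hpn
  choose l hl using hψ
  have hD2 : ∀ i, r₂ i ≤ D := by
    intro i
    have h1 := hDn i
    rw [e₂ i] at h1
    have h2 : H709R2.sq (r₂ i • tau (v i)) = r₂ i ^ 2 := by
      unfold H709R2.sq tau
      simp only [Prod.smul_mk, smul_eq_mul]
      nlinarith [sin_sq_add_cos_sq (v i)]
    rw [h2, Real.sqrt_sq (hr₂ i).le] at h1
    exact h1
  have hu : ∀ i, u i - β i ∈ Icc s (π - s) := by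
    intro i
    obtain ⟨⟨h1, h2⟩, -⟩ := hU i
    rw [mem_Icc]
    rcases hβ i with h3 | h3 <;> constructor <;> linarith
  have hv : ∀ i, v i - β i ∈ Icc s (π - s) := by
    intro i
    obtain ⟨-, ⟨h1, h2⟩⟩ := hU i
    rw [mem_Icc]
    rcases hβ i with h3 | h3 <;> constructor <;> linarith
  have hu' : ∀ i, u (i + 1) - β i - l i * (2 * π) ∈ Icc s (π - s) := by
    intro i
    obtain ⟨⟨h1, h2⟩, -⟩ := hU (i + 1)
    rw [mem_Icc]
    rcases hl i with h3 | h3 <;> constructor <;> linarith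
  have hv' : ∀ i, v (i + 1) - β i - l i * (2 * π) ∈ Icc s (π - s) := by
    intro i
    obtain ⟨-, ⟨h1, h2⟩⟩ := hU (i + 1)
    rw [mem_Icc]
    rcases hl i with h3 | h3 <;> constructor <;> linarith
  have hε : ∀ i, |β (i + 1) - β i - l i * (2 * π)| ≤ h := by
    intro i
    rw [abs_le]
    rcases hβ (i + 1) with h3 | h3 <;> rcases hl i with h4 | h4 <;> constructor <;> linarith
  have hk : ∀ i, θk i - β i ∈ Icc s (π - s) := by
    intro i
    obtain ⟨h1, h2⟩ := hθk i
    rw [mem_Icc]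
    constructor <;> linarith
  have hp : ∀ i, θp i - β i ∈ Icc 0 h := by
    intro i
    obtain ⟨h1, h2⟩ := hθp i
    rw [mem_Icc]
    constructor <;> linarith
  have hn : ∀ i, θn i - β i ∈ Icc 0 h := by
    intro i
    obtain ⟨h1, h2⟩ := hθn i
    rw [mem_Icc]
    constructor <;> linarith
  set P : ℕ → ℝ := fun i =>
    Real.log (wedge (tau (β i)) (e i - x i) / wedge (tau (β i)) (n i - e i)) with hP
  set T : ℕ → ℝ := fun i => |ct (u i - ψ i - b) - ct (v i - ψ i - b)| with hT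
  obtain ⟨Q, hQ⟩ : ∃ Q : ℕ → ℝ, ∀ i, Q i = 21 / 20 * T i := ⟨_, fun _ => rfl⟩
  have hx : ∀ i, u i - ψ i - b ∈ Icc s (π - s) ∧ v i - ψ i - b ∈ Icc s (π - s) := by
    intro i
    obtain ⟨⟨h1, h2⟩, ⟨h3, h4⟩⟩ := hU i
    refine ⟨⟨?_, ?_⟩, ⟨?_, ?_⟩⟩ <;> linarith
  have hQ1 : ∀ i, |cos (u i - β i) / sin (u i - β i) - cos (v i - β i) / sin (v i - β i)| ≤ Q i := by
    intro i
    rw [hQ]
    rcases hβ i with h3 | h3
    · have e1 : u i - β i = u i - ψ i - b + 0 := by rw [h3]; ring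
      have e2 : v i - β i = v i - ψ i - b + 0 := by rw [h3]; ring
      rw [e1, e2]
      exact SUM2.shift s0 hh2 hc0 hch ⟨le_refl _, hh.le⟩ (hx i).1 (hx i).2
    · have e1 : u i - β i = u i - ψ i - b + h := by rw [h3]; ring
      have e2 : v i - β i = v i - ψ i - b + h := by rw [h3]; ring
      rw [e1, e2]
      exact SUM2.shift s0 hh2 hc0 hch ⟨hh.le, le_refl _⟩ (hx i).1 (hx i).2
  have hQ2 : ∀ i, |cos (u (i + 1) - β i - l i * (2 * π)) / sin (u (i + 1) - β i - l i * (2 * π)) -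
      cos (v (i + 1) - β i - l i * (2 * π)) / sin (v (i + 1) - β i - l i * (2 * π))| ≤
      Q (i + 1) := by
    intro i
    rw [hQ]
    rcases hl i with h3 | h3
    · have e1 : u (i + 1) - β i - l i * (2 * π) = u (i + 1) - ψ (i + 1) - b + 0 := by linarith
      have e2 : v (i + 1) - β i - l i * (2 * π) = v (i + 1) - ψ (i + 1) - b + 0 := by linarith
      rw [e1, e2]
      exact SUM2.shift s0 hh2 hc0 hch ⟨le_refl _, hh.le⟩ (hx (i + 1)).1 (hx (i + 1)).2
    · have e1 : u (i + 1) - β i - l i * (2 * π) = u (i + 1) - ψ (i + 1) - b + h := by linarith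
      have e2 : v (i + 1) - β i - l i * (2 * π) = v (i + 1) - ψ (i + 1) - b + h := by linarith
      rw [e1, e2]
      exact SUM2.shift s0 hh2 hc0 hch ⟨hh.le, le_refl _⟩ (hx (i + 1)).1 (hx (i + 1)).2
  have cell : ∀ i, wedge (tau (β i)) (e (i + 1) - e i) / (2 * D) ≤
      (P (i + 1) - P i) + (11 / 10 * h * Q (i + 1) +
        2 * (11 / 10 * h) * (Q i + Q (i + 1))) := fun i =>
    SUM2.cell hG s0 hh hh2 rfl hc0 hch rfl (hr₁ i) (hr₂ i) (hr₁ (i + 1)) (hr₂ (i + 1)) (hrp i)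
      (hrk i) (hrn i) (e₁ i) (e₂ i) (e₁ (i + 1)) (e₂ (i + 1)) (ep i) (ek i) (en i) (hp i) (hk i)
      (hn i) (hu i) (hv i) (hu' i) (hv' i) (hu (i + 1)) (hv (i + 1)) (hε i) (hD2 i)
      (hQ1 i) (hQ2 i)
  have tot := Finset.sum_le_sum fun i (_ : i ∈ Finset.range m) => cell i
  rw [← Finset.sum_div, Finset.sum_add_distrib, Finset.sum_range_sub, Finset.sum_add_distrib,
    ← Finset.mul_sum, ← Finset.mul_sum, Finset.sum_add_distrib] at tot
  obtain ⟨px, pe, pn, pψ, pβ, pu, pv⟩ := hper 0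
  rw [zero_add] at px pe pn pψ pβ pu pv
  have hPm : P m = P 0 := by
    simp only [hP, px, pe, pn, pβ]
  have hQm : Q m = Q 0 := by
    rw [hQ, hQ]
    simp only [hT, pu, pv, pψ]
  have hQs : ∑ i ∈ Finset.range m, Q (i + 1) = ∑ i ∈ Finset.range m, Q i := by
    have h1 := Finset.sum_range_sub Q m
    rw [hQm, sub_self, Finset.sum_sub_distrib] at h1
    linarith
  rw [hPm, hQs, sub_self, zero_add] at tot
  have hQsum : ∑ i ∈ Finset.range m, Q i = 21 / 20 * ∑ i ∈ Finset.range m, T i := by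
    rw [Finset.mul_sum]
    exact Finset.sum_congr rfl fun i _ => hQ i
  rw [hQsum] at tot
  set S : ℝ := ∑ i ∈ Finset.range m, T i with hS
  have h1 : sin ρ / 2 ≤ (∑ i ∈ Finset.range m, wedge (tau (β i)) (e (i + 1) - e i)) / (2 * D) := by
    rw [le_div_iff₀ (by positivity)]
    have h2 : sin ρ ≤ sin (c - b) := sin_le_sin_of_le_of_le_pi_div_two (by linarith)
      (by linarith) hbc
    have h3 := mul_le_mul_of_nonneg_right h2 hD.le
    linarith
  have h2 := h1.trans tot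
  have hρ3 := Real.sin_gt_sub_cube hρ
  have h3 : 15 / 16 * ρ ≤ sin ρ := by nlinarith [mul_pos hρ hρ]
  rw [div_le_iff₀ (by positivity)]
  have h4 : sin ρ / 2 ≤ 11 / 2 * h * (21 / 20 * S) := by
    refine h2.trans (le_of_eq ?_)
    ring
  have hS0 : 0 ≤ S := Finset.sum_nonneg fun i _ => abs_nonneg _
  have h5 : 0 ≤ h * S := by positivity
  linarith

end Pool.Agent.N224.SF
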