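import Pool.Agent.N224.SF.D1

/-!
# Task SYM of project SF: symmetries (helper918)
-/

set_option autoImplicit false

open Real Set MeasureTheory Topology Filter

namespace Pool.Agent.N224.SF

open Pool.Agent.H709R2 (rot wedge)
open Pool.Agent.H709U (rf Orb)
open Pool.Agent.N224.Hil (wn ins fill)

namespace SYM

lemma sw_sw (z : ℝ × ℝ) : sw (sw z) = z := rfl

lemma sw_rot (α : ℝ) (v : ℝ × ℝ) : sw (rot α v) = rot (-α) (sw v) := by
  unfold sw rot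
  rw [Real.cos_neg, Real.sin_neg]
  apply Prod.ext
  · show sin α * v.1 + cos α * v.2 = cos α * v.2 - -sin α * v.1
    ring
  · show cos α * v.1 - sin α * v.2 = -sin α * v.2 + cos α * v.1
    ring

lemma rot_neg' (α : ℝ) (v : ℝ × ℝ) : rot α (-v) = -rot α v := by
  unfold rot
  apply Prod.ext
  · show cos α * -v.1 - sin α * -v.2 = -(cos α * v.1 - sin α * v.2)
    ring
  · show sin α * -v.1 + cos α * -v.2 = -(sin α * v.1 + cos α * v.2)
    ring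

lemma wedge_neg' (a b : ℝ × ℝ) : wedge a (-b) = -wedge a b := by
  unfold wedge
  show a.1 * -b.2 - a.2 * -b.1 = -(a.1 * b.2 - a.2 * b.1)
  ring

/-- the integral over a period run through backwards -/
lemma int_neg {h : ℝ → ℝ} {T : ℝ} (hp : Function.Periodic h T) :
    ∫ t in (0:ℝ)..T, h (-t) = ∫ t in (0:ℝ)..T, h t := by
  rw [intervalIntegral.integral_comp_neg, neg_zero]
  have h1 := hp.intervalIntegral_add_eq (-T) 0
  rw [neg_add_cancel, zero_add] at h1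
  exact h1

/-- the integrand of the winding number -/
noncomputable def hf (F : ℝ × ℝ → ℝ × ℝ) (O : Cyc) (z : ℝ × ℝ) (t : ℝ) : ℝ :=
  wedge (O.γ t - z) (O.V F t) / H709R2.sq (O.γ t - z)

lemma hf_per {F : ℝ × ℝ → ℝ × ℝ} {O : Cyc} (ho : Orb (rf F O.ang) O.γ O.T) (z : ℝ × ℝ) :
    Function.Periodic (hf F O z) O.T := by
  intro t
  unfold hf Cyc.V
  rw [ho.per t]

lemma wn_eq (F : ℝ × ℝ → ℝ × ℝ) (O : Cyc) (z : ℝ × ℝ) :
    wn O.γ (O.V F) O.T z = (2 * π)⁻¹ * ∫ t in (0:ℝ)..O.T, hf F O z t := rfl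

lemma der_neg {γ : ℝ → ℝ × ℝ} {Y : ℝ × ℝ → ℝ × ℝ} (h : ∀ t, HasDerivAt γ (Y (γ t)) t) (t : ℝ) :
    HasDerivAt (fun t => γ (-t)) (-Y (γ (-t))) t := by
  have h1 := (h (-t)).scomp t (hasDerivAt_neg t)
  rw [neg_one_smul] at h1
  exact h1

/-! ### The curve run through backwards -/

lemma V_neg (F : ℝ × ℝ → ℝ × ℝ) (O : Cyc) (t : ℝ) :
    O.neg.V (fun z => -F z) t = -O.V F (-t) := by
  show rot O.ang (-F (O.γ (-t))) = -rot O.ang (F (O.γ (-t)))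
  exact rot_neg' _ _

lemma orb_neg {F : ℝ × ℝ → ℝ × ℝ} {O : Cyc} (ho : Orb (rf F O.ang) O.γ O.T) :
    Orb (rf (fun z => -F z) O.neg.ang) O.neg.γ O.neg.T where
  pos := ho.pos
  ode := fun t => by
    have h1 := der_neg ho.ode t
    have h2 : -rf F O.ang (O.γ (-t)) = rf (fun z => -F z) O.neg.ang (O.neg.γ t) :=
      (rot_neg' _ _).symm
    rw [h2] at h1
    exact h1
  per := fun t => by
    show O.γ (-(t + O.T)) = O.γ (-t)
    have h1 := ho.per (-(t + O.T))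
    rw [← h1]
    congr 1
    ring
  inj := fun s t hst => by
    obtain ⟨k, hk⟩ := ho.inj (-s) (-t) hst
    refine ⟨-k, ?_⟩
    push_cast
    show s = t + -(k : ℝ) * O.T
    linarith
  ne := fun t => by
    show rot O.ang (-F (O.γ (-t))) ≠ 0
    rw [rot_neg']
    exact neg_ne_zero.2 (ho.ne (-t))

lemma rg_neg (O : Cyc) : range O.neg.γ = range O.γ := by
  ext z
  constructor
  · rintro ⟨t, rfl⟩
    exact ⟨-t, rfl⟩
  · rintro ⟨t, rfl⟩
    refine ⟨-t, ?_⟩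
    show O.γ (- -t) = O.γ t
    rw [neg_neg]

lemma wn_neg {F : ℝ × ℝ → ℝ × ℝ} {O : Cyc} (ho : Orb (rf F O.ang) O.γ O.T) (z : ℝ × ℝ) :
    wn O.neg.γ (O.neg.V (fun z => -F z)) O.neg.T z = -wn O.γ (O.V F) O.T z := by
  rw [wn_eq, wn_eq, ← int_neg (hf_per ho z), ← mul_neg, ← intervalIntegral.integral_neg]
  congr 1
  show ∫ t in (0:ℝ)..O.T, hf (fun z => -F z) O.neg z t = _
  congr 1
  funext t
  show wedge (O.γ (-t) - z) (O.neg.V (fun z => -F z) t) / H709R2.sq (O.γ (-t) - z) =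
    -(wedge (O.γ (-t) - z) (O.V F (-t)) / H709R2.sq (O.γ (-t) - z))
  rw [V_neg, wedge_neg', neg_div]

lemma inn_neg {F : ℝ × ℝ → ℝ × ℝ} {O : Cyc} (ho : Orb (rf F O.ang) O.γ O.T) :
    O.neg.inn (fun z => -F z) = O.inn F := by
  ext z
  show (z ∉ range O.neg.γ ∧ wn O.neg.γ (O.neg.V (fun z => -F z)) O.neg.T z ≠ 0) ↔
    (z ∉ range O.γ ∧ wn O.γ (O.V F) O.T z ≠ 0)
  rw [rg_neg, wn_neg ho, neg_ne_zero]

lemma fl_eq (F : ℝ × ℝ → ℝ × ℝ) (O : Cyc) : O.fl F = range O.γ ∪ O.inn F := rfl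

/-! ### The reflected curve -/

lemma hasDeriv_sw {w : ℝ → ℝ × ℝ} {v : ℝ × ℝ} {t : ℝ} (h : HasDerivAt w v t) :
    HasDerivAt (fun t => sw (w t)) (sw v) t := by
  have h1 : HasDerivAt (fun t => (w t).1) v.1 t := h.fst
  have h2 : HasDerivAt (fun t => (w t).2) v.2 t := h.snd
  exact h2.prodMk h1

lemma sw_neg (v : ℝ × ℝ) : sw (-v) = -sw v := rfl

lemma V_hat (F : ℝ × ℝ → ℝ × ℝ) (O : Cyc) (t : ℝ) :
    O.hat.V (hatF F) t = -sw (O.V F (-t)) := by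
  show rot (-O.ang) (-sw (F (sw (sw (O.γ (-t)))))) = -sw (rot O.ang (F (O.γ (-t))))
  rw [rot_neg', sw_rot, sw_sw]

lemma orb_hat {F : ℝ × ℝ → ℝ × ℝ} {O : Cyc} (ho : Orb (rf F O.ang) O.γ O.T) :
    Orb (rf (hatF F) O.hat.ang) O.hat.γ O.hat.T where
  pos := ho.pos
  ode := fun t => by
    have h1 := hasDeriv_sw (der_neg ho.ode t)
    have h2 : sw (-rf F O.ang (O.γ (-t))) = rf (hatF F) O.hat.ang (O.hat.γ t) := by
      rw [sw_neg]
      exact (V_hat F O t).symm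
    rw [h2] at h1
    exact h1
  per := fun t => by
    show sw (O.γ (-(t + O.T))) = sw (O.γ (-t))
    have h1 := ho.per (-(t + O.T))
    rw [← h1]
    congr 2
    ring
  inj := fun s t hst => by
    have h1 : O.γ (-s) = O.γ (-t) := by
      have h2 : sw (sw (O.γ (-s))) = sw (sw (O.γ (-t))) := congrArg sw hst
      exact h2
    obtain ⟨k, hk⟩ := ho.inj (-s) (-t) h1
    refine ⟨-k, ?_⟩
    push_cast
    show s = t + -(k : ℝ) * O.T
    linarith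
  ne := fun t => by
    show O.hat.V (hatF F) t ≠ 0
    rw [V_hat]
    apply neg_ne_zero.2
    intro h0
    apply ho.ne (-t)
    show O.V F (-t) = 0
    have h1 : sw (sw (O.V F (-t))) = sw 0 := congrArg sw h0
    exact h1

lemma rg_hat (O : Cyc) (z : ℝ × ℝ) : z ∈ range O.hat.γ ↔ sw z ∈ range O.γ := by
  constructor
  · rintro ⟨t, rfl⟩
    exact ⟨-t, rfl⟩
  · rintro ⟨t, ht⟩
    refine ⟨-t, ?_⟩
    show sw (O.γ (- -t)) = z
    rw [neg_neg, ht]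
    rfl

lemma wn_hat {F : ℝ × ℝ → ℝ × ℝ} {O : Cyc} (ho : Orb (rf F O.ang) O.γ O.T) (z : ℝ × ℝ) :
    wn O.hat.γ (O.hat.V (hatF F)) O.hat.T z = wn O.γ (O.V F) O.T (sw z) := by
  rw [wn_eq, wn_eq, ← int_neg (hf_per ho (sw z))]
  congr 1
  show ∫ t in (0:ℝ)..O.T, hf (hatF F) O.hat z t = _
  congr 1
  funext t
  show wedge (sw (O.γ (-t)) - z) (O.hat.V (hatF F) t) / H709R2.sq (sw (O.γ (-t)) - z) =
    wedge (O.γ (-t) - sw z) (O.V F (-t)) / H709R2.sq (O.γ (-t) - sw z)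
  rw [V_hat]
  have h1 : wedge (sw (O.γ (-t)) - z) (-sw (O.V F (-t))) = wedge (O.γ (-t) - sw z) (O.V F (-t)) := by
    unfold wedge sw
    show ((O.γ (-t)).2 - z.1) * -(O.V F (-t)).1 - ((O.γ (-t)).1 - z.2) * -(O.V F (-t)).2 =
      ((O.γ (-t)).1 - z.2) * (O.V F (-t)).2 - ((O.γ (-t)).2 - z.1) * (O.V F (-t)).1
    ring
  have h2 : H709R2.sq (sw (O.γ (-t)) - z) = H709R2.sq (O.γ (-t) - sw z) := by
    unfold H709R2.sq sw
    show ((O.γ (-t)).2 - z.1) ^ 2 + ((O.γ (-t)).1 - z.2) ^ 2 =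
      ((O.γ (-t)).1 - z.2) ^ 2 + ((O.γ (-t)).2 - z.1) ^ 2
    ring
  rw [h1, h2]

lemma inn_hat {F : ℝ × ℝ → ℝ × ℝ} {O : Cyc} (ho : Orb (rf F O.ang) O.γ O.T) :
    O.hat.inn (hatF F) = sw ⁻¹' O.inn F := by
  ext z
  show (z ∉ range O.hat.γ ∧ wn O.hat.γ (O.hat.V (hatF F)) O.hat.T z ≠ 0) ↔
    (sw z ∉ range O.γ ∧ wn O.γ (O.V F) O.T (sw z) ≠ 0)
  rw [rg_hat, wn_hat ho]

end SYM

open SYM in
theorem sym : S_SYM := by
  intro F O _ ho
  refine ⟨⟨orb_neg ho, ?_, inn_neg ho, wn_neg ho⟩, orb_hat ho, ?_, inn_hat ho, wn_hat ho⟩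
  · rw [fl_eq, fl_eq, rg_neg, inn_neg ho]
  · rw [fl_eq, fl_eq, preimage_union, inn_hat ho]
    congr 1
    ext z
    exact rg_hat O z

end Pool.Agent.N224.SF
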