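import Pool.Agent.N224.SF.D2
import Pool.Agent.H709U.B2

/-! Project SF (helper224), part TIME (helper622): change of time for closed orbits. -/

set_option autoImplicit false

open Real Set MeasureTheory Topology Filter
open scoped ENNReal

namespace Pool.Agent.N224.SF

noncomputable section

open Pool.Agent.H709R2 (rot wedge field ClosedOrbit)
open Pool.Agent.H709U (rf Orb)
open Pool.Agent.N224.Hil (Loop wn ins fill)

namespace TIME

lemma wedge_smul (a : ℝ × ℝ) (c : ℝ) (v : ℝ × ℝ) : wedge a (c • v) = c * wedge a v := by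
  unfold wedge
  simp only [Prod.smul_fst, Prod.smul_snd, smul_eq_mul]
  ring

/-- the winding numbers agree -/
lemma wn_eq {γ : ℝ → ℝ × ℝ} {k τ : ℝ → ℝ} {W : ℝ → ℝ × ℝ} {T S : ℝ} (hγ : Continuous γ)
    (hW : Continuous W) (hk : Continuous k) (hk0 : ∀ t, 0 < k t)
    (hγp : ∀ t, γ (t + T) = γ t) (hWp : ∀ t, W (t + T) = W t) (hkp : ∀ t, k (t + T) = k t)
    (hτ : ∀ v, HasDerivAt τ (k (τ v))⁻¹ v) (hτp : ∀ v, τ (v + S) = τ v + T) {z : ℝ × ℝ}
    (hz : z ∉ range γ) :
    wn (fun v => γ (τ v)) (fun v => W (τ v)) S z = wn γ (fun t => k t • W t) T z := by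
  unfold wn
  congr 1
  set H : ℝ → ℝ := fun t => wedge (γ t - z) (k t • W t) / H709R2.sq (γ t - z) with hH
  have hsq : ∀ t, H709R2.sq (γ t - z) ≠ 0 := by
    intro t h
    apply hz
    refine ⟨t, ?_⟩
    unfold H709R2.sq at h
    simp only [Prod.fst_sub, Prod.snd_sub] at h
    have h1 : (γ t).1 - z.1 = 0 := by nlinarith [sq_nonneg ((γ t).1 - z.1), sq_nonneg ((γ t).2 - z.2)]
    have h2 : (γ t).2 - z.2 = 0 := by nlinarith [sq_nonneg ((γ t).1 - z.1), sq_nonneg ((γ t).2 - z.2)]
    exact Prod.ext (by linarith) (by linarith)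
  have hHc : Continuous H := by
    refine Continuous.div ?_ ?_ hsq
    · unfold wedge
      fun_prop
    · unfold H709R2.sq
      fun_prop
  have hτc : Continuous τ := continuous_iff_continuousAt.2 fun v => (hτ v).continuousAt
  have hd : Continuous fun v => (k (τ v))⁻¹ := (hk.comp hτc).inv₀ fun v => (hk0 _).ne'
  have h1 := intervalIntegral.integral_comp_mul_deriv (a := 0) (b := S) (f := τ)
    (f' := fun v => (k (τ v))⁻¹) (g := H) (fun v _ => hτ v) hd.continuousOn hHc
  have h2 : ∀ v, (H ∘ τ) v * (k (τ v))⁻¹ =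
      wedge (γ (τ v) - z) (W (τ v)) / H709R2.sq (γ (τ v) - z) := by
    intro v
    have h3 := (hk0 (τ v)).ne'
    simp only [Function.comp, hH, wedge_smul]
    field_simp
  have h4 : τ S = τ 0 + T := by
    have := hτp 0
    rwa [zero_add] at this
  have hHp : Function.Periodic H T := by
    intro t
    simp only [hH, hγp, hWp, hkp]
  have h5 := hHp.intervalIntegral_add_eq (τ 0) 0
  rw [zero_add] at h5
  rw [← h5, ← h4, ← h1]
  refine intervalIntegral.integral_congr (fun v _ => ?_)
  exact (h2 v).symm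

end TIME

open TIME in
theorem time : S_TIME := by
  intro F g O hF hg hO hg0
  have hγc : Continuous O.γ := continuous_iff_continuousAt.2 fun t => (hO.ode t).continuousAt
  set k : ℝ → ℝ := fun t => g (O.γ t) with hk
  have hkc : Continuous k := hg.continuous.comp hγc
  have hkper : ∀ t, k (t + O.T) = k t := fun t => by simp only [hk, hO.per t]
  obtain ⟨τ, S, hS, hτs, hτd, hτp⟩ := H709U.B2.time_change k hkc hg0 O.T hO.pos hkper
  set W : ℝ → ℝ × ℝ := fun t => rot O.ang (F (O.γ t)) with hW
  have hval : ∀ t, rf (fun z => g z • F z) O.ang (O.γ t) = k t • W t := fun t =>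
    H709U.B2.rot_smul _ _ _
  have hWc : Continuous W := by
    have h1 : Continuous fun t => F (O.γ t) := hF.continuous.comp hγc
    simp only [hW]
    unfold rot
    fun_prop
  have hWp : ∀ t, W (t + O.T) = W t := fun t => by simp only [hW, hO.per t]
  have hinj : Function.Injective τ := by
    have hmono : StrictMono τ := strictMono_of_deriv_pos fun v => by
      rw [(hτd v).deriv]
      exact inv_pos.2 (hg0 _)
    exact hmono.injective
  have hint : ∀ (j : ℤ) (v : ℝ), τ (v + j * S) = τ v + j * O.T := by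
    intro j v
    have hp : Function.Periodic (fun v => τ v - v * (O.T / S)) S := by
      intro v
      simp only [hτp]
      field_simp
      ring
    have h1 := hp.int_mul j v
    beta_reduce at h1
    have h2 : (j : ℝ) * S * (O.T / S) = j * O.T := by
      field_simp
    have h3 : (v + j * S) * (O.T / S) = v * (O.T / S) + j * O.T := by
      rw [add_mul, h2]
    rw [h3] at h1
    linarith
  have hrange : range (fun v => O.γ (τ v)) = range O.γ := hτs.range_comp O.γ
  have hwn : ∀ z, z ∉ range O.γ → wn (fun v => O.γ (τ v)) (fun v => rf F O.ang (O.γ (τ v))) S z =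
      wn O.γ (O.V (fun z => g z • F z)) O.T z := by
    intro z hz
    have h1 := wn_eq hγc hWc hkc hg0 hO.per hWp hkper hτd hτp hz
    have h2 : O.V (fun z => g z • F z) = fun t => k t • W t := by
      funext t
      exact hval t
    rw [h2]
    exact h1
  have hins : ins (fun v => O.γ (τ v)) (fun v => rf F O.ang (O.γ (τ v))) S =
      ins O.γ (O.V (fun z => g z • F z)) O.T := by
    ext z
    unfold ins
    simp only [mem_ofPred_eq, hrange]
    constructor
    · rintro ⟨h1, h2⟩
      exact ⟨h1, by rwa [hwn z h1] at h2⟩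
    · rintro ⟨h1, h2⟩
      exact ⟨h1, by rwa [hwn z h1]⟩
  refine ⟨⟨O.ang, fun v => O.γ (τ v), S⟩, rfl, ⟨hS, ?_, ?_, ?_, ?_⟩, hrange, ?_, hins, ?_⟩
  · intro v
    have h3 := (hO.ode (τ v)).scomp v (hτd v)
    rw [hval, smul_smul, inv_mul_cancel₀ (hg0 _).ne', one_smul] at h3
    exact h3
  · intro v
    show O.γ (τ (v + S)) = O.γ (τ v)
    rw [hτp, hO.per]
  · intro s t hst
    obtain ⟨j, hj⟩ := hO.inj _ _ hst
    refine ⟨j, hinj ?_⟩
    rw [hint]
    exact hj
  · intro v h0
    apply hO.ne (τ v)
    rw [hval]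
    have : W (τ v) = 0 := h0
    rw [this, smul_zero]
  · show fill _ _ _ = fill _ _ _
    unfold fill
    rw [hrange]
    exact congrArg _ hins
  · intro z hz
    rw [hrange] at hz
    exact hwn z hz

end

end Pool.Agent.N224.SF
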