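import Pool.Agent.N224.SF.D1

/-!
# Task TURN of project SF: chords and tangents of a strand (helper918)
-/

set_option autoImplicit false

open Real Set MeasureTheory Topology Filter

namespace Pool.Agent.N224.SF

open Pool.Agent.H709R2 (rot wedge)

namespace TURN

/-- every vector has polar coordinates with angle in a given half-open interval of length `2 π` -/
lemma polar {d : ℝ × ℝ} (hd : d ≠ 0) (A : ℝ) : ∃ r θ : ℝ, 0 < r ∧ θ ∈ Ico A (A + 2 * π) ∧ d = r • tau θ := by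
  set z : ℂ := ⟨d.1, d.2⟩ with hz
  have hz0 : z ≠ 0 := by
    intro h0
    apply hd
    have h1 : z.re = 0 := by rw [h0]; rfl
    have h2 : z.im = 0 := by rw [h0]; rfl
    exact Prod.ext h1 h2
  refine ⟨‖z‖, toIcoMod (by positivity : (0:ℝ) < 2 * π) A z.arg, norm_pos_iff.2 hz0,
    toIcoMod_mem_Ico _ _ _, ?_⟩
  have h1 : toIcoMod (by positivity : (0:ℝ) < 2 * π) A z.arg =
      z.arg - toIcoDiv (by positivity : (0:ℝ) < 2 * π) A z.arg * (2 * π) := by
    rw [toIcoMod, zsmul_eq_mul]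
  unfold tau
  rw [h1, Real.cos_sub_int_mul_two_pi, Real.sin_sub_int_mul_two_pi]
  apply Prod.ext
  · show d.1 = ‖z‖ * cos z.arg
    rw [Complex.norm_mul_cos_arg]
  · show d.2 = ‖z‖ * sin z.arg
    rw [Complex.norm_mul_sin_arg]

lemma wedge_tau (a r θ : ℝ) : wedge (tau a) (r • tau θ) = r * sin (θ - a) := by
  unfold wedge tau
  show cos a * (r * sin θ) - sin a * (r * cos θ) = _
  rw [Real.sin_sub]
  ring

/-- a vector to the left of the directions `B ≤ C` (`C - B < π`) has its direction between `C` and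
`B + π` -/
lemma sector {d : ℝ × ℝ} {B C : ℝ} (hCB : C - B < π)
    (h1 : 0 < wedge (tau B) d) (h2 : 0 < wedge (tau C) d) :
    ∃ r θ : ℝ, 0 < r ∧ θ ∈ Ioo C (B + π) ∧ d = r • tau θ := by
  have hd : d ≠ 0 := by
    rintro rfl
    unfold wedge at h1
    simp at h1
  obtain ⟨r, θ, hr, hθ, hdθ⟩ := polar hd B
  refine ⟨r, θ, hr, ?_, hdθ⟩
  rw [hdθ, wedge_tau] at h1 h2
  have s1 : 0 < sin (θ - B) := by
    by_contra hcon
    push Not at hcon
    nlinarith
  have s2 : 0 < sin (θ - C) := by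
    by_contra hcon
    push Not at hcon
    nlinarith
  have hθ1 : θ < B + π := by
    by_contra hcon
    push Not at hcon
    have h3 : sin (θ - B) ≤ 0 := by
      have h4 : sin (θ - B) = - sin (θ - B - π) := by rw [Real.sin_sub_pi, neg_neg]
      rw [h4]
      have h5 : 0 ≤ sin (θ - B - π) := Real.sin_nonneg_of_nonneg_of_le_pi (by linarith) (by linarith [hθ.2])
      linarith
    linarith
  refine ⟨?_, hθ1⟩
  by_contra hcon
  push Not at hcon
  have h3 : sin (θ - C) ≤ 0 := by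
    have h4 : sin (θ - C) = - sin (C - θ) := by rw [← Real.sin_neg, neg_sub]
    rw [h4]
    have h5 : 0 ≤ sin (C - θ) := Real.sin_nonneg_of_nonneg_of_le_pi (by linarith) (by linarith [hθ.1])
    linarith
  linarith

lemma kd_eq (F : ℝ × ℝ → ℝ × ℝ) (ψ ω : ℝ) (z : ℝ × ℝ) : kd F ψ ω z = wedge (tau ω) (ham F ψ z) := by
  unfold kd ham
  have h1 : tau ω = cos ω • ((1:ℝ), (0:ℝ)) + sin ω • ((0:ℝ), (1:ℝ)) := by
    unfold tau
    apply Prod.ext
    · show cos ω = cos ω * 1 + sin ω * 0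
      ring
    · show sin ω = cos ω * 0 + sin ω * 1
      ring
  rw [h1, map_add, map_smul, map_smul, ← h1]
  unfold wedge tau
  simp only [smul_eq_mul]
  ring

lemma hasDeriv_wedge {w : ℝ → ℝ × ℝ} {v : ℝ × ℝ} {t : ℝ} (a : ℝ × ℝ) (h : HasDerivAt w v t) :
    HasDerivAt (fun t => wedge a (w t)) (wedge a v) t := by
  have h1 : HasDerivAt (fun t => (w t).1) v.1 t := h.fst
  have h2 : HasDerivAt (fun t => (w t).2) v.2 t := h.snd
  unfold wedge
  exact (h2.const_mul a.1).sub (h1.const_mul a.2)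

lemma wedge_smul' (a : ℝ × ℝ) (s : ℝ) (v : ℝ × ℝ) : wedge a (s • v) = s * wedge a v := by
  unfold wedge
  show a.1 * (s * v.2) - a.2 * (s * v.1) = _
  ring

lemma wedge_sub' (a v w : ℝ × ℝ) : wedge a (v - w) = wedge a v - wedge a w := by
  unfold wedge
  show a.1 * (v.2 - w.2) - a.2 * (v.1 - w.1) = _
  ring

/-- the displacement along a strand -/
lemma disp {F : ℝ × ℝ → ℝ × ℝ} {O M K N : Cyc} {ψ s : ℝ} {σ : ℝ → ℝ × ℝ} {L₁ L₂ δ : ℝ}
    (hS : Strand F O M K N ψ s σ L₁ L₂ δ) {α : ℝ} (hα : α ∈ Icc O.ang K.ang) {t₁ t₂ : ℝ}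
    (h1 : t₁ ∈ Icc 0 L₂) (h2 : t₂ ∈ Icc 0 L₂) (h12 : t₁ < t₂) :
    0 < wedge (tau (ψ + α)) (σ t₂ - σ t₁) := by
  have hd : ∀ t ∈ Icc 0 L₂, HasDerivAt (fun t => wedge (tau (ψ + α)) (σ t))
      (s * kd F ψ (ψ + α) (σ t)) t := by
    intro t ht
    have h3 := hasDeriv_wedge (tau (ψ + α)) (hS.der t ⟨by linarith [ht.1, hS.δ0], by linarith [ht.2, hS.δ0]⟩)
    rw [wedge_smul', ← kd_eq] at h3
    exact h3
  have hmono : StrictMonoOn (fun t => wedge (tau (ψ + α)) (σ t)) (Icc 0 L₂) := by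
    apply strictMonoOn_of_deriv_pos (convex_Icc 0 L₂)
    · intro t ht
      exact (hd t ht).continuousAt.continuousWithinAt
    · intro t ht
      rw [interior_Icc] at ht
      have ht' : t ∈ Icc 0 L₂ := Ioo_subset_Icc_self ht
      rw [(hd t ht').deriv]
      exact hS.pos t ht' α hα
  rw [wedge_sub']
  have := hmono h1 h2 h12
  linarith

end TURN

open TURN in
theorem turn : S_TURN := by
  intro F O M K N ψ s σ L₁ L₂ δ _ hac hca hS
  have hL1 := hS.L0
  have hL12 := hS.L12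
  have hδ := hS.δ0
  have hpi := Real.pi_gt_three
  have ha : O.ang ∈ Icc O.ang K.ang := ⟨le_refl _, hac.le⟩
  have hc : K.ang ∈ Icc O.ang K.ang := ⟨hac.le, le_refl _⟩
  have m0 : (0:ℝ) ∈ Icc 0 L₂ := ⟨le_refl _, by linarith⟩
  have m1 : L₁ ∈ Icc 0 L₂ := ⟨hL1.le, hL12.le⟩
  have m2 : L₂ ∈ Icc 0 L₂ := ⟨by linarith, le_refl _⟩
  obtain ⟨r, u, hr, hu, hdu⟩ := sector (d := σ L₁ - σ 0) (B := ψ + O.ang) (C := ψ + K.ang)
    (by linarith) (disp hS ha m0 m1 hL1) (disp hS hc m0 m1 hL1)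
  obtain ⟨r', v, hr', hv, hdv⟩ := sector (d := σ L₂ - σ L₁) (B := ψ + O.ang) (C := ψ + K.ang)
    (by linarith) (disp hS ha m1 m2 hL12) (disp hS hc m1 m2 hL12)
  refine ⟨u, v, Ioo_subset_Icc_self hu, Ioo_subset_Icc_self hv, ⟨r, hr, hdu⟩, ⟨r', hr', hdv⟩, ?_⟩
  intro ω hω
  -- the two displacements have opposite signs in the direction orthogonal to `ω`
  set f : ℝ → ℝ := fun t => wedge (tau ω) (σ t) with hf
  have hfd : ∀ t ∈ Icc 0 L₂, HasDerivAt f (s * kd F ψ ω (σ t)) t := by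
    intro t ht
    have h3 := hasDeriv_wedge (tau ω) (hS.der t ⟨by linarith [ht.1], by linarith [ht.2]⟩)
    rw [wedge_smul', ← kd_eq] at h3
    exact h3
  have hcont : ContinuousOn f (Icc 0 L₂) := fun t ht => (hfd t ht).continuousAt.continuousWithinAt
  have e1 : f L₁ - f 0 = r * sin (u - ω) := by
    rw [hf]
    show wedge (tau ω) (σ L₁) - wedge (tau ω) (σ 0) = _
    rw [← wedge_sub', hdu, wedge_tau]
  have e2 : f L₂ - f L₁ = r' * sin (v - ω) := by
    rw [hf]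
    show wedge (tau ω) (σ L₂) - wedge (tau ω) (σ L₁) = _
    rw [← wedge_sub', hdv, wedge_tau]
  have huv : |u - v| < π := by
    rw [abs_lt]
    constructor <;> linarith [hu.1, hu.2, hv.1, hv.2]
  -- mean values
  obtain ⟨c1, hc1, hc1'⟩ := exists_hasDerivAt_eq_slope f (fun t => s * kd F ψ ω (σ t)) hL1
    (hcont.mono (Icc_subset_Icc_right hL12.le))
    (fun t ht => hfd t ⟨ht.1.le, by linarith [ht.2]⟩)
  obtain ⟨c2, hc2, hc2'⟩ := exists_hasDerivAt_eq_slope f (fun t => s * kd F ψ ω (σ t)) hL12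
    (hcont.mono (Icc_subset_Icc_left hL1.le))
    (fun t ht => hfd t ⟨by linarith [ht.1], ht.2.le⟩)
  have hs0 : s ≠ 0 := by
    rcases hS.s1 with h | h <;> rw [h] <;> norm_num
  have hopp : (s * kd F ψ ω (σ c1) < 0 ∧ 0 < s * kd F ψ ω (σ c2)) ∨
      (0 < s * kd F ψ ω (σ c1) ∧ s * kd F ψ ω (σ c2) < 0) := by
    have hw1 : s * kd F ψ ω (σ c1) = r * sin (u - ω) / (L₁ - 0) := by rw [← e1]; exact hc1'
    have hw2 : s * kd F ψ ω (σ c2) = r' * sin (v - ω) / (L₂ - L₁) := by rw [← e2]; exact hc2'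
    have hp1 : 0 < L₁ - 0 := by linarith
    have hp2 : 0 < L₂ - L₁ := by linarith
    rw [abs_lt] at huv
    rcases le_total u v with h | h
    · rw [min_eq_left h, max_eq_right h] at hω
      left
      constructor
      · rw [hw1]
        apply div_neg_of_neg_of_pos _ hp1
        apply mul_neg_of_pos_of_neg hr
        exact Real.sin_neg_of_neg_of_neg_pi_lt (by linarith [hω.1]) (by linarith [hω.1, hω.2])
      · rw [hw2]
        apply div_pos _ hp2
        apply mul_pos hr'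
        exact Real.sin_pos_of_pos_of_lt_pi (by linarith [hω.2]) (by linarith [hω.1])
    · rw [min_eq_right h, max_eq_left h] at hω
      right
      constructor
      · rw [hw1]
        apply div_pos _ hp1
        apply mul_pos hr
        exact Real.sin_pos_of_pos_of_lt_pi (by linarith [hω.2]) (by linarith [hω.1])
      · rw [hw2]
        apply div_neg_of_neg_of_pos _ hp2
        apply mul_neg_of_pos_of_neg hr'
        exact Real.sin_neg_of_neg_of_neg_pi_lt (by linarith [hω.1]) (by linarith [hω.1, hω.2])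
  -- Darboux
  have hc12 : c1 < c2 := by linarith [hc1.2, hc2.1]
  have hsub : Icc c1 c2 ⊆ Icc 0 L₂ := Icc_subset_Icc hc1.1.le hc2.2.le
  have hfd' : ∀ t ∈ Icc c1 c2, HasDerivWithinAt f (s * kd F ψ ω (σ t)) (Icc c1 c2) t := fun t ht =>
    (hfd t (hsub ht)).hasDerivWithinAt
  have hzero : ∃ t ∈ Ioo c1 c2, s * kd F ψ ω (σ t) = 0 := by
    rcases hopp with ⟨h1, h2⟩ | ⟨h1, h2⟩
    · exact exists_hasDerivWithinAt_eq_of_gt_of_lt hc12.le hfd' h1 h2
    · exact exists_hasDerivWithinAt_eq_of_lt_of_gt hc12.le hfd' h1 h2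
  obtain ⟨t, ht, ht0⟩ := hzero
  exact ⟨t, ⟨by linarith [ht.1, hc1.1], by linarith [ht.2, hc2.2]⟩,
    (mul_eq_zero.1 ht0).resolve_left hs0⟩

end Pool.Agent.N224.SF
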