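import Pool.Agent.N224.SF.D1
import Pool.Agent.N224.Hil.G
import Pool.Agent.N224.Hil.W
import Pool.Agent.N224.Hil.T
import Pool.Agent.H709U.T1
import Pool.Agent.H709U.T2

/-! Project SF (helper224), part ZERO (helper568): every closed orbit encloses a zero of the field. -/

set_option autoImplicit false

open Real Set MeasureTheory Topology Filter
open scoped ENNReal

namespace Pool.Agent.N224.SF

noncomputable section

open Pool.Agent.H709R2 (rot wedge field)
open Pool.Agent.H709U (rf Orb)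
open Pool.Agent.N224.Hil (Loop wn ins fill S_N S_G S_T0 w1 w2 w3)

namespace ZERO

/-- a closed curve is a null set -/
theorem null : S_N := by
  intro γ V T h
  have hd : deriv γ = V := funext fun t => (h.der t).deriv
  have hc : ContDiff ℝ 1 γ := by
    rw [contDiff_one_iff_deriv, hd]
    exact ⟨fun t => (h.der t).differentiableAt, h.cont⟩
  have h1 : dimH (range γ) ≤ 1 := by
    have := hc.dimH_range_le
    simpa using this
  have h2 : μH[2] (range γ) = 0 := by
    have h3 : dimH (range γ) < ((2 : NNReal) : ℝ≥0∞) := lt_of_le_of_lt h1 (by norm_num)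
    have := hausdorffMeasure_of_dimH_lt h3
    simpa using this
  rw [hausdorffMeasure_prod_real] at h2
  exact h2

/-! ### the closed form -/

theorem dir {G : ℝ × ℝ → ℝ} {z : ℝ × ℝ} (hG : DifferentiableAt ℝ G z) (a : ℝ × ℝ) :
    HasDerivAt (fun s : ℝ => G (z + s • a)) (fderiv ℝ G z a) 0 := by
  have h1 : HasDerivAt (fun s : ℝ => z + s • a) a 0 := by
    have h2 : HasDerivAt (fun s : ℝ => s • a) ((1 : ℝ) • a) 0 := (hasDerivAt_id (0 : ℝ)).smul_const a
    rw [one_smul] at h2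
    exact h2.const_add z
  have h3 : HasFDerivAt G (fderiv ℝ G z) (z + (0 : ℝ) • a) := by
    rw [zero_smul, add_zero]
    exact hG.hasFDerivAt
  exact h3.comp_hasDerivAt 0 h1

/-- the form `N(p² + q²) (p dq - q dp)` applied to the vector `b` -/
def Gf (N : ℝ → ℝ) (p q : ℝ × ℝ → ℝ) (b w : ℝ × ℝ) : ℝ :=
  N (p w ^ 2 + q w ^ 2) * (p w * fderiv ℝ q w b - q w * fderiv ℝ p w b)

theorem Gf_cont {N : ℝ → ℝ} {p q : ℝ × ℝ → ℝ} (hN : ContDiff ℝ 1 N) (hp : ContDiff ℝ 2 p)
    (hq : ContDiff ℝ 2 q) (b : ℝ × ℝ) : ContDiff ℝ 1 (Gf N p q b) := by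
  have hp1 : ContDiff ℝ 1 p := hp.of_le (by norm_num)
  have hq1 : ContDiff ℝ 1 q := hq.of_le (by norm_num)
  have hpb : ContDiff ℝ 1 (fun w => fderiv ℝ p w b) :=
    (hp.fderiv_right (m := 1) (by norm_num)).clm_apply contDiff_const
  have hqb : ContDiff ℝ 1 (fun w => fderiv ℝ q w b) :=
    (hq.fderiv_right (m := 1) (by norm_num)).clm_apply contDiff_const
  exact (hN.comp ((hp1.pow 2).add (hq1.pow 2))).mul ((hp1.mul hqb).sub (hq1.mul hpb))

theorem Gf_dir {N : ℝ → ℝ} {p q : ℝ × ℝ → ℝ} (hN : ContDiff ℝ 1 N) (hp : ContDiff ℝ 2 p)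
    (hq : ContDiff ℝ 2 q) {z : ℝ × ℝ} {N' : ℝ} (hN' : HasDerivAt N N' (p z ^ 2 + q z ^ 2))
    (a b : ℝ × ℝ) :
    fderiv ℝ (Gf N p q b) z a =
      N' * (2 * (p z * fderiv ℝ p z a + q z * fderiv ℝ q z a)) *
          (p z * fderiv ℝ q z b - q z * fderiv ℝ p z b) +
        N (p z ^ 2 + q z ^ 2) *
          (fderiv ℝ p z a * fderiv ℝ q z b + p z * fderiv ℝ (fderiv ℝ q) z a b -
            (fderiv ℝ q z a * fderiv ℝ p z b + q z * fderiv ℝ (fderiv ℝ p) z a b)) := by
  have hp1 : DifferentiableAt ℝ p z := (hp.differentiable (by norm_num)) z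
  have hq1 : DifferentiableAt ℝ q z := (hq.differentiable (by norm_num)) z
  have hp2 : DifferentiableAt ℝ (fderiv ℝ p) z :=
    ((hp.fderiv_right (m := 1) (by norm_num)).differentiable (by norm_num)) z
  have hq2 : DifferentiableAt ℝ (fderiv ℝ q) z :=
    ((hq.fderiv_right (m := 1) (by norm_num)).differentiable (by norm_num)) z
  have e0 : z + (0 : ℝ) • a = z := by rw [zero_smul, add_zero]
  have d1 := dir hp1 a
  have d2 := dir hq1 a
  have hl : HasDerivAt (fun s : ℝ => z + s • a) a 0 := by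
    have h2 : HasDerivAt (fun s : ℝ => s • a) ((1 : ℝ) • a) 0 := (hasDerivAt_id (0 : ℝ)).smul_const a
    rw [one_smul] at h2
    exact h2.const_add z
  have d3 : HasDerivAt (fun s : ℝ => fderiv ℝ p (z + s • a) b) (fderiv ℝ (fderiv ℝ p) z a b) 0 := by
    have h3 : HasFDerivAt (fderiv ℝ p) (fderiv ℝ (fderiv ℝ p) z) (z + (0 : ℝ) • a) := by
      rw [e0]
      exact hp2.hasFDerivAt
    have h4 := (h3.comp_hasDerivAt 0 hl).clm_apply (hasDerivAt_const (0 : ℝ) b)
    simpa using h4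
  have d4 : HasDerivAt (fun s : ℝ => fderiv ℝ q (z + s • a) b) (fderiv ℝ (fderiv ℝ q) z a b) 0 := by
    have h3 : HasFDerivAt (fderiv ℝ q) (fderiv ℝ (fderiv ℝ q) z) (z + (0 : ℝ) • a) := by
      rw [e0]
      exact hq2.hasFDerivAt
    have h4 := (h3.comp_hasDerivAt 0 hl).clm_apply (hasDerivAt_const (0 : ℝ) b)
    simpa using h4
  have d5 : HasDerivAt (fun s : ℝ => p (z + s • a) ^ 2 + q (z + s • a) ^ 2)
      (2 * (p z * fderiv ℝ p z a + q z * fderiv ℝ q z a)) 0 := by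
    have h5 := (d1.pow 2).add (d2.pow 2)
    refine h5.congr_deriv ?_
    rw [e0]
    ring
  have d6 : HasDerivAt (fun s : ℝ => N (p (z + s • a) ^ 2 + q (z + s • a) ^ 2))
      (N' * (2 * (p z * fderiv ℝ p z a + q z * fderiv ℝ q z a))) 0 := by
    have h6 : HasDerivAt N N' (p (z + (0 : ℝ) • a) ^ 2 + q (z + (0 : ℝ) • a) ^ 2) := by
      rw [e0]
      exact hN'
    exact h6.comp (0 : ℝ) d5
  have d7 := d6.mul ((d1.mul d4).sub (d2.mul d3))
  have d8 := dir ((Gf_cont hN hp hq b).differentiable (by norm_num) z) a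
  have h9 := d8.unique d7
  rw [h9]
  simp only [Pi.sub_apply, Pi.mul_apply, e0]

/-- the form is closed where `N r = 1 / r` -/
theorem Gf_closed {N : ℝ → ℝ} {p q : ℝ × ℝ → ℝ} (hN : ContDiff ℝ 1 N) (hp : ContDiff ℝ 2 p)
    (hq : ContDiff ℝ 2 q) {z : ℝ × ℝ} {N' : ℝ} (hN' : HasDerivAt N N' (p z ^ 2 + q z ^ 2))
    (h0 : N (p z ^ 2 + q z ^ 2) + (p z ^ 2 + q z ^ 2) * N' = 0) (a b : ℝ × ℝ) :
    fderiv ℝ (Gf N p q b) z a = fderiv ℝ (Gf N p q a) z b := by
  rw [Gf_dir hN hp hq hN' a b, Gf_dir hN hp hq hN' b a]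
  have hp1 : ∀ y, HasFDerivAt p (fderiv ℝ p y) y := fun y =>
    ((hp.differentiable (by norm_num)) y).hasFDerivAt
  have hq1 : ∀ y, HasFDerivAt q (fderiv ℝ q y) y := fun y =>
    ((hq.differentiable (by norm_num)) y).hasFDerivAt
  have hp2 : HasFDerivAt (fderiv ℝ p) (fderiv ℝ (fderiv ℝ p) z) z :=
    (((hp.fderiv_right (m := 1) (by norm_num)).differentiable (by norm_num)) z).hasFDerivAt
  have hq2 : HasFDerivAt (fderiv ℝ q) (fderiv ℝ (fderiv ℝ q) z) z :=
    (((hq.fderiv_right (m := 1) (by norm_num)).differentiable (by norm_num)) z).hasFDerivAt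
  have s1 := second_derivative_symmetric hp1 hp2 a b
  have s2 := second_derivative_symmetric hq1 hq2 a b
  rw [s1, s2]
  linear_combination (2 * (fderiv ℝ p z a * fderiv ℝ q z b - fderiv ℝ q z a * fderiv ℝ p z b)) * h0

/-! ### the function `1 / r` cut off at zero -/

def Nc (m r : ℝ) : ℝ := Real.smoothTransition (4 * r / m - 1) / r

theorem Nc_eq {m r : ℝ} (hm : 0 < m) (hr : m / 2 ≤ r) : Nc m r = 1 / r := by
  unfold Nc
  rw [Real.smoothTransition.one_of_one_le]
  rw [le_sub_iff_add_le, le_div_iff₀ hm]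
  linarith

theorem Nc_cont {m : ℝ} (hm : 0 < m) : ContDiff ℝ 1 (Nc m) := by
  rw [contDiff_iff_contDiffAt]
  intro r
  rcases lt_or_ge r (m / 4) with h | h
  · have h1 : Nc m =ᶠ[𝓝 r] fun _ => 0 := by
      filter_upwards [Iio_mem_nhds h] with x hx
      unfold Nc
      rw [Real.smoothTransition.zero_of_nonpos, zero_div]
      have h2 : 4 * x / m ≤ 1 := by
        rw [div_le_one hm]
        have := mem_Iio.1 hx
        linarith
      linarith
    exact contDiffAt_const.congr_of_eventuallyEq h1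
  · have hr : r ≠ 0 := by
      have : 0 < r := by linarith
      exact this.ne'
    have h1 : ContDiff ℝ 1 (fun x : ℝ => Real.smoothTransition (4 * x / m - 1)) :=
      Real.smoothTransition.contDiff.comp
        (((contDiff_const.mul contDiff_id).div_const m).sub contDiff_const)
    exact h1.contDiffAt.div contDiffAt_id hr

theorem Nc_der {m r : ℝ} (hm : 0 < m) (hr : m ≤ r) : HasDerivAt (Nc m) (-(1 / r ^ 2)) r := by
  have hr0 : 0 < r := lt_of_lt_of_le hm hr
  have h1 : HasDerivAt (fun x : ℝ => x⁻¹) (-(r ^ 2)⁻¹) r := hasDerivAt_inv hr0.ne'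
  have h2 : Nc m =ᶠ[𝓝 r] fun x => x⁻¹ := by
    filter_upwards [Ioi_mem_nhds (show m / 2 < r by linarith)] with x hx
    rw [Nc_eq hm (mem_Ioi.1 hx).le, one_div]
  rw [one_div]
  exact h1.congr_of_eventuallyEq h2

/-! ### the index of the field along the curve -/

theorem index_zero {Y : ℝ × ℝ → ℝ × ℝ} (hY : ContDiff ℝ 2 Y) {γ : ℝ → ℝ × ℝ} {T : ℝ}
    (hL : Loop γ (fun t => Y (γ t)) T) (hne : ∀ z ∈ fill γ (fun t => Y (γ t)) T, Y z ≠ 0) :
    Loop (fun t => Y (γ t)) (fun t => fderiv ℝ Y (γ t) (Y (γ t))) T ∧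
      wn (fun t => Y (γ t)) (fun t => fderiv ℝ Y (γ t) (Y (γ t))) T 0 = 0 := by
  have hT0 : S_T0 := Pool.Agent.N224.Hil.t0 w1 w2 w3
  have hG : S_G := Pool.Agent.N224.Hil.g w1 w2 w3 null
  have hYd : Differentiable ℝ Y := hY.differentiable (by norm_num)
  have hγc : Continuous γ := continuous_iff_continuousAt.2 fun t => (hL.der t).continuousAt
  have hfc : Continuous (fderiv ℝ Y) := hY.continuous_fderiv (by norm_num)
  have hLc : Loop (fun t => Y (γ t)) (fun t => fderiv ℝ Y (γ t) (Y (γ t))) T := by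
    refine ⟨hL.pos, fun t => ?_, ?_, fun t => by simp only [hL.per t]⟩
    · exact (hYd (γ t)).hasFDerivAt.comp_hasDerivAt t (hL.der t)
    · exact (hfc.comp hγc).clm_apply (hY.continuous.comp hγc)
  refine ⟨hLc, ?_⟩
  -- the minimum
  have hp : ContDiff ℝ 2 (fun z => (Y z).1) := hY.fst
  have hq : ContDiff ℝ 2 (fun z => (Y z).2) := hY.snd
  obtain ⟨p, hpd⟩ : ∃ p : ℝ × ℝ → ℝ, p = fun z => (Y z).1 := ⟨_, rfl⟩
  obtain ⟨q, hqd⟩ : ∃ q : ℝ × ℝ → ℝ, q = fun z => (Y z).2 := ⟨_, rfl⟩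
  rw [← hpd] at hp
  rw [← hqd] at hq
  have hcomp := (hT0 γ (fun t => Y (γ t)) T hL).2
  have hRc : Continuous (fun z => p z ^ 2 + q z ^ 2) := (hp.continuous.pow 2).add (hq.continuous.pow 2)
  obtain ⟨z0, hz0, hmin⟩ := hcomp.exists_isMinOn ⟨γ 0, Or.inl ⟨0, rfl⟩⟩ hRc.continuousOn
  have hpos : ∀ z, Y z ≠ 0 → 0 < p z ^ 2 + q z ^ 2 := by
    intro z hz
    by_contra hcon
    apply hz
    have h1 : p z ^ 2 = 0 := by nlinarith [sq_nonneg (p z), sq_nonneg (q z)]
    have h2 : q z ^ 2 = 0 := by nlinarith [sq_nonneg (p z), sq_nonneg (q z)]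
    have h3 := pow_eq_zero_iff (two_ne_zero) |>.1 h1
    have h4 := pow_eq_zero_iff (two_ne_zero) |>.1 h2
    rw [hpd] at h3
    rw [hqd] at h4
    exact Prod.ext h3 h4
  obtain ⟨m, hm⟩ : ∃ m, m = p z0 ^ 2 + q z0 ^ 2 := ⟨_, rfl⟩
  have hm0 : 0 < m := by rw [hm]; exact hpos z0 (hne z0 hz0)
  have hmle : ∀ z ∈ fill γ (fun t => Y (γ t)) T, m ≤ p z ^ 2 + q z ^ 2 := by
    intro z hz
    rw [hm]
    exact hmin hz
  have hN := Nc_cont hm0
  -- Green
  have h1 := (hG γ (fun t => Y (γ t)) T hL (Gf (Nc m) p q (1, 0)) (Gf (Nc m) p q (0, 1))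
    (Gf_cont hN hp hq _) (Gf_cont hN hp hq _)).2
  have h2 : ∀ z : ℝ × ℝ, wn γ (fun t => Y (γ t)) T z *
      (fderiv ℝ (Gf (Nc m) p q (0, 1)) z (1, 0) - fderiv ℝ (Gf (Nc m) p q (1, 0)) z (0, 1)) = 0 := by
    intro z
    by_cases hz : z ∈ fill γ (fun t => Y (γ t)) T
    · have h3 := hmle z hz
      have h4 : (0 : ℝ) < p z ^ 2 + q z ^ 2 := lt_of_lt_of_le hm0 h3
      rw [Gf_closed hN hp hq (Nc_der hm0 h3) (by
        rw [Nc_eq hm0 (by linarith)]
        field_simp
        ring) (1, 0) (0, 1), sub_self, mul_zero]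
    · have h3 : wn γ (fun t => Y (γ t)) T z = 0 := by
        by_contra h4
        apply hz
        by_cases h5 : z ∈ range γ
        · exact Or.inl h5
        · exact Or.inr ⟨h5, h4⟩
      rw [h3, zero_mul]
  simp only [h2, integral_zero] at h1
  unfold wn
  have h3 : ∫ t in (0:ℝ)..T, wedge (Y (γ t) - 0) (fderiv ℝ Y (γ t) (Y (γ t))) /
      H709R2.sq (Y (γ t) - 0) = ∫ t in (0:ℝ)..T, (Gf (Nc m) p q (1, 0) (γ t) * (Y (γ t)).1 +
        Gf (Nc m) p q (0, 1) (γ t) * (Y (γ t)).2) := by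
    refine intervalIntegral.integral_congr fun t _ => ?_
    simp only [sub_zero]
    have h4 : m ≤ p (γ t) ^ 2 + q (γ t) ^ 2 := hmle _ (Or.inl ⟨t, rfl⟩)
    have hdp : ∀ v : ℝ × ℝ, fderiv ℝ p (γ t) v = (fderiv ℝ Y (γ t) v).1 := by
      intro v
      rw [hpd, (hYd (γ t)).hasFDerivAt.fst.fderiv]
      rfl
    have hdq : ∀ v : ℝ × ℝ, fderiv ℝ q (γ t) v = (fderiv ℝ Y (γ t) v).2 := by
      intro v
      rw [hqd, (hYd (γ t)).hasFDerivAt.snd.fderiv]
      rfl
    have e1 : Y (γ t) = (Y (γ t)).1 • ((1, 0) : ℝ × ℝ) + (Y (γ t)).2 • ((0, 1) : ℝ × ℝ) := by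
      ext
      · simp
      · simp
    have e2 : fderiv ℝ Y (γ t) (Y (γ t)) = (Y (γ t)).1 • fderiv ℝ Y (γ t) (1, 0) +
        (Y (γ t)).2 • fderiv ℝ Y (γ t) (0, 1) := by
      conv_lhs => rw [e1]
      rw [map_add, map_smul, map_smul]
    have e3 : H709R2.sq (Y (γ t)) = p (γ t) ^ 2 + q (γ t) ^ 2 := by
      rw [hpd, hqd]
      rfl
    rw [e2, e3]
    unfold Gf
    rw [Nc_eq hm0 (by linarith), hdp, hdp, hdq, hdq]
    unfold wedge
    have ep : p (γ t) = (Y (γ t)).1 := by rw [hpd]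
    have eq : q (γ t) = (Y (γ t)).2 := by rw [hqd]
    rw [ep, eq]
    simp only [Prod.fst_add, Prod.snd_add, Prod.smul_fst, Prod.smul_snd, smul_eq_mul]
    ring
  rw [h3, h1, mul_zero]

end ZERO

open ZERO Pool.Agent.N224.Hil.W

/-- **ZERO.** A closed orbit encloses a zero of the field. -/
theorem zero : S_ZERO := by
  intro F O hF hO
  by_contra hcon
  push Not at hcon
  obtain ⟨α, hα⟩ : ∃ α, α = O.ang := ⟨_, rfl⟩
  rw [← hα] at hO
  have hrot : ∀ v : ℝ × ℝ, rot α v = 0 → v = 0 := by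
    intro v hv
    have h1 : cos α * v.1 - sin α * v.2 = 0 := congrArg Prod.fst hv
    have h2 : sin α * v.1 + cos α * v.2 = 0 := congrArg Prod.snd hv
    have h3 := Real.sin_sq_add_cos_sq α
    refine Prod.ext ?_ ?_
    · show v.1 = 0
      linear_combination (-v.1) * h3 + cos α * h1 + sin α * h2
    · show v.2 = 0
      linear_combination (-v.2) * h3 - sin α * h1 + cos α * h2
  obtain ⟨Y, hYd⟩ : ∃ Y, Y = rf F α := ⟨_, rfl⟩
  have hY : ContDiff ℝ 2 Y := by
    rw [hYd]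
    have h1 : ContDiff ℝ 2 (fun z => (cos α * (F z).1 - sin α * (F z).2, sin α * (F z).1 + cos α * (F z).2)) :=
      ((contDiff_const.mul hF.fst).sub (contDiff_const.mul hF.snd)).prodMk
        ((contDiff_const.mul hF.fst).add (contDiff_const.mul hF.snd))
    exact h1
  rw [← hYd] at hO
  have hγc : Continuous O.γ := continuous_iff_continuousAt.2 fun t => (hO.ode t).continuousAt
  have hL : Loop O.γ (fun t => Y (O.γ t)) O.T :=
    ⟨hO.pos, hO.ode, hY.continuous.comp hγc, hO.per⟩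
  have hV : O.V F = fun t => Y (O.γ t) := by
    funext t
    unfold Cyc.V
    rw [hYd, hα]
  have hne : ∀ z ∈ fill O.γ (fun t => Y (O.γ t)) O.T, Y z ≠ 0 := by
    rintro z (⟨t, rfl⟩ | hz) h0
    · exact hO.ne t h0
    · have h1 : z ∈ O.inn F := by
        unfold Cyc.inn
        rw [hV]
        exact hz
      apply hcon z h1
      apply hrot
      rw [hYd] at h0
      exact h0
  obtain ⟨hLc, hwn⟩ := index_zero hY hL hne
  have h0r : (0 : ℝ × ℝ) ∉ range (fun t => Y (O.γ t)) := by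
    rintro ⟨t, ht⟩
    exact hO.ne t ht
  obtain ⟨n, hn⟩ := int1 hLc h0r
  have hn0 : n = 0 := by
    rw [wn_eq hLc h0r, hn] at hwn
    have h1 : ((n : ℂ) * (2 * π * Complex.I)).im = n * (2 * π) := by simp
    rw [h1] at hwn
    have hpi := Real.pi_pos
    have h2 : (n : ℝ) = 0 := by
      have h3 : (2 * π)⁻¹ * ((n : ℝ) * (2 * π)) = n := by field_simp
      rw [h3] at hwn
      exact hwn
    exact_mod_cast h2
  rw [hn0, Int.cast_zero, zero_mul] at hn
  have hc := quot_cont hLc h0r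
  set c : ℝ → ℝ × ℝ := fun t => Y (O.γ t) with hcd
  set c' : ℝ → ℝ × ℝ := fun t => fderiv ℝ Y (O.γ t) (Y (O.γ t)) with hcd'
  have hsub : ∀ t, c t - 0 = c t := fun t => sub_zero _
  have hcne : ∀ t, cx (c t) ≠ 0 := fun t => cx_ne (hO.ne t)
  set G : ℝ → ℂ := fun t => ∫ s in (0 : ℝ)..t, cx (c' s) / cx (c s - 0) with hGd
  have hGder : ∀ t, HasDerivAt G (cx (c' t) / cx (c t - 0)) t := fun t =>
    (hc.integral_hasStrictDerivAt 0 t).hasDerivAt
  have hH : ∀ t, HasDerivAt (fun t => cx (c t) * Complex.exp (-(G t))) 0 t := by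
    intro t
    have h1 : HasDerivAt (fun t => cx (c t)) (cx (c' t)) t :=
      cx.hasFDerivAt.comp_hasDerivAt t (hLc.der t)
    have h2 := h1.mul ((hGder t).neg.cexp)
    refine h2.congr_deriv ?_
    rw [hsub]
    have h3 := hcne t
    field_simp
    ring
  have hconst : ∀ t, cx (c t) * Complex.exp (-(G t)) = cx (c 0) * Complex.exp (-(G 0)) :=
    fun t => is_const_of_deriv_eq_zero (fun t => (hH t).differentiableAt)
      (fun t => (hH t).deriv) t 0
  have hG0 : G 0 = 0 := by simp only [hGd, intervalIntegral.integral_same]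
  have hGT : G O.T = 0 := hn
  have hexp : ∀ t, Complex.exp (Complex.log (cx (c 0)) + G t) = cx (c t) := by
    intro t
    have h1 := hconst t
    rw [hG0, neg_zero, Complex.exp_zero, mul_one] at h1
    rw [Complex.exp_add, Complex.exp_log (hcne 0), ← h1, mul_assoc, ← Complex.exp_add, neg_add_cancel,
      Complex.exp_zero, mul_one]
  have hT2 := Pool.Agent.H709U.t2 Pool.Agent.H709U.t1
  have hcinj : ∀ v w : ℝ × ℝ, cx v = cx w → v = w := by
    intro v w h
    by_contra hne'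
    exact cx_ne (sub_ne_zero.2 hne') (by rw [map_sub, h, sub_self])
  have h := hT2 (fun t => cx (O.γ t)) (fun t => cx (c t)) O.T hO.pos
    (fun t => cx.hasFDerivAt.comp_hasDerivAt t (hO.ode t)) (cx.continuous.comp hL.cont)
    (fun t => by simp only [hO.per t]) hcne (fun s t hst => hO.inj s t (hcinj _ _ hst))
    (fun t => Complex.log (cx (c 0)) + G t)
    (continuous_const.add (continuous_iff_continuousAt.2 fun t => (hGder t).continuousAt)) hexp
  apply h
  simp only [hGT, hG0]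

end

end Pool.Agent.N224.SF
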