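import Pool.Agent.N224.SF.SIDE
import Pool.Agent.N224.SF.INV
import Pool.Agent.N224.SF.RUN
import Pool.Agent.N224.SF.LOCAL
import Pool.Agent.N224.SF.HIT
import Pool.Agent.N224.SF.CELL
import Pool.Agent.N224.SF.GAP
import Pool.Agent.N224.SF.SUM
import Pool.Agent.N224.SF.LAM
import Pool.Agent.N224.SF.SARD
import Pool.Agent.N224.SF.BEZ
import Pool.Agent.N224.SF.GOOD
import Pool.Agent.N224.SF.STRAND
import Pool.Agent.N224.SF.DISJ
import Pool.Agent.N224.SF.INV2
import Pool.Agent.N224.SF.ADJ
import Pool.Agent.N224.SF.CYC
import Pool.Agent.N224.SF.LEN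
import Pool.Agent.N224.SF.TURN
import Pool.Agent.N224.SF.CORE
import Pool.Agent.N224.SF.ZERO
import Pool.Agent.N224.SF.CHAIN
import Pool.Agent.N224.SF.COUNT
import Pool.Agent.N224.SF.SYM
import Pool.Agent.N224.SF.NEST
import Pool.Agent.N224.SF.REP
import Pool.Agent.N224.SF.FAM
import Pool.Agent.N224.SF.TIME
import Pool.Agent.N224.SF.FIN
import Pool.Agent.N224.SF.FIN2
import Pool.Agent.N224.SF.CORE2
import Pool.Agent.N224.SF.SUM2
import Pool.Agent.N224.SF.COUNT2
import Pool.Agent.N224.SF.POW

/-! Project SF (helper224): all parts. -/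

set_option autoImplicit false

namespace Pool.Agent.N224.SF

theorem allGood : S_GOOD := good side (inv side) run

theorem allStrand : S_STRAND := strand side (inv side) run

theorem allAdj : S_ADJ := adj local_arc hit (inv2 side (inv side))

theorem allCore : S_CORE := core allGood allStrand disj allAdj cyc cell len turn (sum gap)

theorem allBez : S_BEZ := bez sard

theorem allChain : S_CHAIN := chain zero lam

theorem allCount : S_COUNT := count allCore allBez allChain

theorem allFam : S_FAM := fam nest rep

theorem allCore2 : S_CORE2 := core2 allGood allStrand disj allAdj cyc cell len turn (sum2 gap)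

theorem allCount2 : S_COUNT2 := count2 allCore2 allBez allChain


end Pool.Agent.N224.SF
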