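import Pool.Agent.N224.Hil.Defs0

/-! Project SF (helper224): the number of closed orbits of a polynomial vector field of degree `n`
which survive a rotation of the field by `η`, of whatever size, is at most a constant times
`n² / η³`. Definitions and statements of the parts, first file: isoclines, simple closed curves. -/

set_option autoImplicit false

open Real Set MeasureTheory Topology Filter
open scoped ENNReal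

namespace Pool.Agent.N224.SF

noncomputable section

open Pool.Agent.H709R2 (rot wedge field)
open Pool.Agent.N224.Hil (Loop wn ins fill)

/-! ### Isoclines -/

/-- the unit vector of angle `a` -/
def tau (a : ℝ) : ℝ × ℝ := (cos a, sin a)

/-- the function which vanishes where `F` has the direction `ψ` or `ψ + π` or vanishes -/
def iso (F : ℝ × ℝ → ℝ × ℝ) (ψ : ℝ) (z : ℝ × ℝ) : ℝ := wedge (tau ψ) (F z)

/-- the vector field tangent to the level sets of `iso F ψ`: the gradient turned to the left -/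
def ham (F : ℝ × ℝ → ℝ × ℝ) (ψ : ℝ) (z : ℝ × ℝ) : ℝ × ℝ :=
  (-fderiv ℝ (iso F ψ) z (0, 1), fderiv ℝ (iso F ψ) z (1, 0))

/-- the derivative of `iso F ψ` in the direction `ω`; it equals `wedge (tau ω) (ham F ψ z)` -/
def kd (F : ℝ × ℝ → ℝ × ℝ) (ψ ω : ℝ) (z : ℝ × ℝ) : ℝ := fderiv ℝ (iso F ψ) z (tau ω)

/-- the isocline: the points where `F` has the direction `ψ` -/
def Gam (F : ℝ × ℝ → ℝ × ℝ) (ψ : ℝ) : Set (ℝ × ℝ) := {z | ∃ r : ℝ, 0 < r ∧ F z = r • tau ψ}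

/-- the angles `φ + j π / k` -/
def lab (φ : ℝ) (k : ℕ) (j : ℤ) : ℝ := φ + j * (π / k)

/-- the union of the `2 k` isoclines with the angles `lab φ k j` -/
def Grid (F : ℝ × ℝ → ℝ × ℝ) (φ : ℝ) (k : ℕ) : Set (ℝ × ℝ) := {z | ∃ j : ℤ, z ∈ Gam F (lab φ k j)}

/-! ### Simple closed curves -/

/-- a simple closed `C¹` curve with orientation `ε` -/
structure Sc (γ V : ℝ → ℝ × ℝ) (T ε : ℝ) : Prop where
  loop : Loop γ V T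
  ne : ∀ t, V t ≠ 0
  inj : ∀ s t, γ s = γ t → ∃ k : ℤ, s = t + k * T
  e1 : ε = 1 ∨ ε = -1
  wn : ∀ z ∉ range γ, wn γ V T z = 0 ∨ wn γ V T z = ε

/-- SIDE: a curve which crosses a simple closed curve to the left (of an anticlockwise curve)
enters it -/
def S_SIDE : Prop := ∀ (γ V : ℝ → ℝ × ℝ) (T ε : ℝ), Sc γ V T ε →
  ∀ (w : ℝ → ℝ × ℝ) (v : ℝ × ℝ) (s₀ t₀ : ℝ), HasDerivAt w v s₀ → w s₀ = γ t₀ →
  0 < ε * wedge (V t₀) v →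
  (∀ᶠ s in 𝓝[>] s₀, w s ∈ ins γ V T) ∧ (∀ᶠ s in 𝓝[<] s₀, w s ∉ fill γ V T)

/-- INV: a curve which starts in the closed region between two nested simple closed curves, is
directed inwards when it meets the outer one and outwards when it meets the inner one, remains in
the region -/
def S_INV : Prop := ∀ (γ V : ℝ → ℝ × ℝ) (T ε : ℝ) (δ U : ℝ → ℝ × ℝ) (S ε' : ℝ), Sc γ V T ε →
  Sc δ U S ε' → fill δ U S ⊆ ins γ V T →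
  ∀ (w w' : ℝ → ℝ × ℝ) (t₀ t₁ : ℝ), t₀ ≤ t₁ → (∀ t ∈ Icc t₀ t₁, HasDerivAt w (w' t) t) →
  w t₀ ∈ fill γ V T \ ins δ U S →
  (∀ t ∈ Icc t₀ t₁, ∀ s, w t = γ s → 0 < ε * wedge (V s) (w' t)) →
  (∀ t ∈ Icc t₀ t₁, ∀ s, w t = δ s → ε' * wedge (U s) (w' t) < 0) →
  (∀ t ∈ Icc t₀ t₁, w t ∈ fill γ V T \ ins δ U S) ∧
  (∀ t ∈ Ioc t₀ t₁, w t ∈ ins γ V T \ fill δ U S)

/-! ### Curves on isoclines -/

/-- RUN: the isocline through a point of a compact set `R`, on which `iso F ψ` has a nonzero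
derivative in the fixed direction `ω` along the isocline, leaves `R` -/
def S_RUN : Prop := ∀ F : ℝ × ℝ → ℝ × ℝ, ContDiff ℝ 4 F → ∀ R : Set (ℝ × ℝ), IsCompact R →
  (∀ z ∈ R, F z ≠ 0) → ∀ ψ ω s : ℝ, (s = 1 ∨ s = -1) → (∀ z ∈ R, z ∈ Gam F ψ → kd F ψ ω z ≠ 0) →
  ∀ z₀ ∈ R, z₀ ∈ Gam F ψ →
  ∃ (σ : ℝ → ℝ × ℝ) (L δ : ℝ), 0 ≤ L ∧ 0 < δ ∧ σ 0 = z₀ ∧
    (∀ t ∈ Ioo (-δ) (L + δ), HasDerivAt σ (s • ham F ψ (σ t)) t ∧ σ t ∈ Gam F ψ) ∧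
    (∀ t ∈ Icc 0 L, σ t ∈ R) ∧ (∀ ε > 0, ∃ t ∈ Ioo L (L + ε), σ t ∉ R) ∧
    ∀ t ∈ Icc 0 L, ∀ ω' : ℝ, (∀ z ∈ R, z ∈ Gam F ψ → kd F ψ ω' z ≠ 0) →
      0 < kd F ψ ω' z₀ * kd F ψ ω' (σ t)

/-- LOCAL: a continuous path in the intersection of `W` and the grid which starts on an arc of an
isocline that leaves `W` at both ends remains on this arc -/
def S_LOCAL : Prop := ∀ F : ℝ × ℝ → ℝ × ℝ, ContDiff ℝ 4 F → ∀ (φ : ℝ) (k : ℕ) (j : ℤ) (s : ℝ),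
  1 ≤ k → (s = 1 ∨ s = -1) → ∀ (W : Set (ℝ × ℝ)) (σ : ℝ → ℝ × ℝ) (L δ : ℝ), 0 ≤ L → 0 < δ →
  (∀ t ∈ Ioo (-δ) (L + δ), HasDerivAt σ (s • ham F (lab φ k j) (σ t)) t ∧
    σ t ∈ Gam F (lab φ k j)) → (∀ t ∈ Icc 0 L, ham F (lab φ k j) (σ t) ≠ 0) →
  (∀ t ∈ Ioo (-δ) 0, σ t ∉ W) → (∀ t ∈ Ioo L (L + δ), σ t ∉ W) →
  ∀ y : ℝ → ℝ × ℝ, ContinuousOn y (Icc 0 1) → (∀ p ∈ Icc (0:ℝ) 1, y p ∈ W ∧ y p ∈ Grid F φ k) →
  y 0 ∈ σ '' Icc 0 L → ∀ p ∈ Icc (0:ℝ) 1, y p ∈ σ '' Icc 0 L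

/-! ### Trajectories between consecutive points of the grid -/

/-- `y` is the next point of the grid after `x` on the trajectory of the field `F` rotated by `α`,
in the direction `e` of time -/
def Nx (F : ℝ × ℝ → ℝ × ℝ) (φ : ℝ) (k : ℕ) (e α : ℝ) (x y : ℝ × ℝ) : Prop :=
  ∃ (w : ℝ → ℝ × ℝ) (L : ℝ), 0 < L ∧ w 0 = x ∧ w L = y ∧
    (∀ t ∈ Icc 0 L, HasDerivAt w (e • rot α (F (w t))) t) ∧ x ∈ Grid F φ k ∧ y ∈ Grid F φ k ∧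
    ∀ t ∈ Ioo 0 L, w t ∉ Grid F φ k

/-- HIT: the next point of the grid depends continuously on the point and on the angle -/
def S_HIT : Prop := ∀ F : ℝ × ℝ → ℝ × ℝ, ContDiff ℝ 4 F → ∀ (φ : ℝ) (k : ℕ) (e : ℝ), 4 ≤ k →
  (e = 1 ∨ e = -1) → ∀ W : Set (ℝ × ℝ), IsCompact W → (∀ z ∈ W, F z ≠ 0) →
  ∀ (z : ℝ → ℝ × ℝ) (α : ℝ → ℝ), ContinuousOn z (Icc 0 1) → ContinuousOn α (Icc 0 1) →
  (∀ p ∈ Icc (0:ℝ) 1, z p ∈ W ∧ z p ∈ Grid F φ k) →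
  (∀ p ∈ Icc (0:ℝ) 1, ∀ (w : ℝ → ℝ × ℝ) (L : ℝ), 0 ≤ L → w 0 = z p →
    (∀ t ∈ Icc 0 L, HasDerivAt w (e • rot (α p) (F (w t))) t) → ∀ t ∈ Icc 0 L, w t ∈ W) →
  (∀ p ∈ Icc (0:ℝ) 1, ∀ y ∈ W, ∀ j : ℤ, y ∈ Gam F (lab φ k j) →
    kd F (lab φ k j) (lab φ k j + α p) y ≠ 0) →
  ∃ y : ℝ → ℝ × ℝ, ContinuousOn y (Icc 0 1) ∧
    ∀ p ∈ Icc (0:ℝ) 1, y p ∈ W ∧ Nx F φ k e (α p) (z p) (y p)

/-- CELL: between two consecutive points of the grid the direction of `F` lies between two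
consecutive angles `lab φ k m`, `lab φ k (m + 1)` -/
def S_CELL : Prop := ∀ F : ℝ × ℝ → ℝ × ℝ, ContDiff ℝ 4 F → ∀ (φ : ℝ) (k : ℕ) (α : ℝ) (j : ℤ)
  (s : ℝ) (w : ℝ → ℝ × ℝ) (L : ℝ), 4 ≤ k → (s = 1 ∨ s = -1) → 0 < L →
  (∀ t ∈ Icc 0 L, HasDerivAt w (rot α (F (w t))) t) → (∀ t ∈ Icc 0 L, F (w t) ≠ 0) →
  w 0 ∈ Gam F (lab φ k j) → 0 < s * kd F (lab φ k j) (lab φ k j + α) (w 0) →
  (∀ t ∈ Ioo 0 L, w t ∉ Grid F φ k) → w L ∈ Grid F φ k →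
  ∀ m : ℤ, (s = 1 → m = j) → (s = -1 → m = j - 1) →
  (∀ t ∈ Icc 0 L, ∃ θ ∈ Icc (lab φ k m) (lab φ k (m + 1)), w t ∈ Gam F θ) ∧
  (w L ∈ Gam F (lab φ k m) ∨ w L ∈ Gam F (lab φ k (m + 1))) ∧
  ∀ t₁ ∈ Icc 0 L, ∀ t₂ ∈ Icc 0 L, t₁ < t₂ → ∃ r θ : ℝ, 0 < r ∧
    θ ∈ Icc (lab φ k m + α) (lab φ k (m + 1) + α) ∧ w t₂ - w t₁ = r • tau θ

/-! ### The inequality for one cycle of cells -/

/-- GAP: one cell -/
def S_GAP : Prop := ∀ A A' At At' ax ax' kx ky px py rx ry c₀ g : ℝ, 0 < A → 0 < A' → 0 < At →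
  0 < At' → At = A + ky - py → At' = A' + ry - ky → 0 ≤ c₀ → 0 ≤ g → c₀ * g ≤ 1 / 8 →
  0 ≤ py → py ≤ g * px → 0 ≤ ry → ry ≤ g * rx → 0 ≤ ky → |kx| ≤ c₀ * ky → |ax| ≤ c₀ * A →
  |ax'| ≤ c₀ * A' → |ax + kx - px| ≤ c₀ * At → |ax' + rx - kx| ≤ c₀ * At' →
  ky / (2 * A') ≤ Real.log (At / At') - Real.log (A / A') +
    2 * g * (|ax / A - ax' / A'| + |(ax + kx - px) / At - (ax' + rx - kx) / At'|)

/-- SUM: a cycle of cells -/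
def S_SUM : Prop := ∀ (m : ℕ) (ρ h a b c D : ℝ) (x e n : ℕ → ℝ × ℝ) (ψ β u v : ℕ → ℝ),
  1 ≤ m → 0 < ρ → ρ ≤ 1 / 2 → 0 < h → h ≤ ρ / 100 → ρ ≤ b - a → ρ ≤ c - b → c - a ≤ 1 → 0 < D →
  (∀ i, x (i + m) = x i ∧ e (i + m) = e i ∧ n (i + m) = n i ∧ ψ (i + m) = ψ i ∧
    β (i + m) = β i ∧ u (i + m) = u i ∧ v (i + m) = v i) →
  (∀ i, β i = ψ i + b ∨ β i = ψ i + b - h) →
  (∀ i, ∃ l : ℤ, ψ (i + 1) + b = β i + 2 * π * l ∨ ψ (i + 1) + b = β i + h + 2 * π * l) →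
  (∀ i, u i ∈ Icc (ψ i + c) (ψ i + a + π) ∧ v i ∈ Icc (ψ i + c) (ψ i + a + π)) →
  (∀ i, ∃ r : ℝ, 0 < r ∧ e i - x i = r • tau (u i)) →
  (∀ i, ∃ r : ℝ, 0 < r ∧ n i - e i = r • tau (v i)) →
  (∀ i, ∃ r θ : ℝ, 0 < r ∧ θ ∈ Icc (β i) (β i + h) ∧ x (i + 1) - x i = r • tau θ) →
  (∀ i, ∃ r θ : ℝ, 0 < r ∧ θ ∈ Icc (β i + (c - b)) (β i + (c - b) + h) ∧
    e (i + 1) - e i = r • tau θ) →
  (∀ i, ∃ r θ : ℝ, 0 < r ∧ θ ∈ Icc (β i) (β i + h) ∧ n (i + 1) - n i = r • tau θ) →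
  (∀ i, √(H709R2.sq (n i - e i)) ≤ D) →
  Real.sin (c - b) * D ≤ ∑ i ∈ Finset.range m, wedge (tau (β i)) (e (i + 1) - e i) →
  ρ ^ 3 / (20 * h) ≤ ∑ i ∈ Finset.range m, |u i - v i|

/-! ### Counting -/

/-- LAM: a laminar family of nonempty subsets of a finite set `Z` has at most `2 |Z|` members -/
def S_LAM : Prop := ∀ (Z : Finset (ℝ × ℝ)) (A : Finset (Finset (ℝ × ℝ))),
  (∀ a ∈ A, a.Nonempty ∧ a ⊆ Z) → (∀ a ∈ A, ∀ b ∈ A, a ⊆ b ∨ b ⊆ a ∨ Disjoint a b) →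
  A.card ≤ 2 * Z.card

/-- SARD: the critical values of a `C³` function on an open subset of the plane form a null set -/
def S_SARD : Prop := ∀ (U : Set (ℝ × ℝ)) (f : ℝ × ℝ → ℝ), IsOpen U → ContDiffOn ℝ 3 f U →
  volume (f '' {z | z ∈ U ∧ fderiv ℝ f z = 0}) = 0

/-- BEZ: the number of points on an isocline at which the isocline has a given direction -/
def S_BEZ : Prop := ∀ (n : ℕ) (P Q : MvPolynomial (Fin 2) ℝ), P.totalDegree ≤ n →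
  Q.totalDegree ≤ n → IsRelPrime P Q → ∀ᵐ p : ℝ × ℝ,
  {z | field P Q z ≠ 0 ∧ iso (field P Q) p.1 z = 0 ∧ kd (field P Q) p.1 p.2 z = 0}.encard ≤
    ((2 * n ^ 2 : ℕ) : ℕ∞)

end

end Pool.Agent.N224.SF
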