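import Pool.Agent.N224.SF.D0
import Pool.Agent.H709U.Defs

/-! Project SF (helper224), definitions and statements of the parts, second file: nested closed
orbits of the rotated fields and the arcs of isoclines between them. -/

set_option autoImplicit false

open Real Set MeasureTheory Topology Filter
open scoped ENNReal

namespace Pool.Agent.N224.SF

noncomputable section

open Pool.Agent.H709R2 (rot wedge field)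
open Pool.Agent.H709U (rf Orb)
open Pool.Agent.N224.Hil (Loop wn ins fill)

/-- a closed curve with a period and an angle of rotation -/
structure Cyc where
  ang : ℝ
  γ : ℝ → ℝ × ℝ
  T : ℝ

namespace Cyc

variable (F : ℝ × ℝ → ℝ × ℝ) (O : Cyc)

/-- the curve -/
def rg : Set (ℝ × ℝ) := range O.γ

/-- the velocity -/
def V (t : ℝ) : ℝ × ℝ := rf F O.ang (O.γ t)

/-- the curve and the points which it encloses -/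
def fl : Set (ℝ × ℝ) := fill O.γ (O.V F) O.T

/-- the enclosed points -/
def inn : Set (ℝ × ℝ) := ins O.γ (O.V F) O.T

/-- an anticlockwise closed orbit of the field rotated by `O.ang` -/
structure Ok : Prop where
  orb : Orb (rf F O.ang) O.γ O.T
  ccw : ∀ z ∉ range O.γ, wn O.γ (O.V F) O.T z = 0 ∨ wn O.γ (O.V F) O.T z = 1

end Cyc

/-- four nested closed orbits: `O` (angle `a`) outside, then `M` (angle `b`), `K` (angle `c`), all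
anticlockwise, `a < b < c`, and innermost a closed orbit `N` with the angle `b`; the field has no
zero between `O` and `N` -/
structure Conf (F : ℝ × ℝ → ℝ × ℝ) (O M K N : Cyc) : Prop where
  smooth : ContDiff ℝ 4 F
  oO : O.Ok F
  oM : M.Ok F
  oK : K.Ok F
  oN : Orb (rf F N.ang) N.γ N.T
  aN : N.ang = M.ang
  ab : O.ang < M.ang
  bc : M.ang < K.ang
  ca : K.ang - O.ang ≤ 1
  MO : M.fl F ⊆ O.inn F
  KM : K.fl F ⊆ M.inn F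
  NK : N.fl F ⊆ K.inn F
  ne : ∀ z ∈ O.fl F \ N.inn F, F z ≠ 0

/-- the isoclines of the grid are transversal to the field rotated by `α` in the set `W` -/
def Tr (F : ℝ × ℝ → ℝ × ℝ) (φ : ℝ) (k : ℕ) (W : Set (ℝ × ℝ)) (α : ℝ) : Prop :=
  ∀ z ∈ W, ∀ j : ℤ, z ∈ Gam F (lab φ k j) → kd F (lab φ k j) (lab φ k j + α) z ≠ 0

/-- the isoclines of the grid are transversal to the fields rotated by `a`, `b`, `c` between `O`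
and `N` -/
def NC (F : ℝ × ℝ → ℝ × ℝ) (φ : ℝ) (k : ℕ) (O M K N : Cyc) : Prop :=
  Tr F φ k (O.fl F \ N.inn F) O.ang ∧ Tr F φ k (O.fl F \ N.inn F) M.ang ∧
    Tr F φ k (O.fl F \ N.inn F) K.ang

/-- good configuration: also `N` is anticlockwise and the isoclines of the grid are transversal to
all fields rotated by `α ∈ [a, c]`, on the same side -/
structure Gd (F : ℝ × ℝ → ℝ × ℝ) (φ : ℝ) (k : ℕ) (O M K N : Cyc) : Prop where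
  cf : Conf F O M K N
  nN : N.Ok F
  gd : ∀ z ∈ O.fl F \ N.inn F, ∀ j : ℤ, z ∈ Gam F (lab φ k j) → ∃ s : ℝ, (s = 1 ∨ s = -1) ∧
    ∀ α ∈ Icc O.ang K.ang, 0 < s * kd F (lab φ k j) (lab φ k j + α) z

/-- GOOD -/
def S_GOOD : Prop := ∀ (F : ℝ × ℝ → ℝ × ℝ) (O M K N : Cyc) (φ : ℝ) (k : ℕ), 1 ≤ k →
  Conf F O M K N → NC F φ k O M K N → Gd F φ k O M K N

/-- a strand: an arc of the isocline with angle `ψ` which runs from `M` through `K` to `N` -/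
structure Strand (F : ℝ × ℝ → ℝ × ℝ) (O M K N : Cyc) (ψ s : ℝ) (σ : ℝ → ℝ × ℝ) (L₁ L₂ δ : ℝ) :
    Prop where
  s1 : s = 1 ∨ s = -1
  δ0 : 0 < δ
  L0 : 0 < L₁
  L12 : L₁ < L₂
  der : ∀ t ∈ Ioo (-δ) (L₂ + δ), HasDerivAt σ (s • ham F ψ (σ t)) t
  gam : ∀ t ∈ Ioo (-δ) (L₂ + δ), σ t ∈ Gam F ψ
  pos : ∀ t ∈ Icc 0 L₂, ∀ α ∈ Icc O.ang K.ang, 0 < s * kd F ψ (ψ + α) (σ t)
  atM : σ 0 ∈ M.rg
  atK : σ L₁ ∈ K.rg
  atN : σ L₂ ∈ N.rg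
  before : ∀ t ∈ Ioo (-δ) 0, σ t ∉ M.fl F
  mid₁ : ∀ t ∈ Ioo 0 L₁, σ t ∈ M.inn F \ K.fl F
  mid₂ : ∀ t ∈ Ioo L₁ L₂, σ t ∈ K.inn F \ N.fl F
  after : ∀ t ∈ Ioo L₂ (L₂ + δ), σ t ∈ N.inn F

/-- STRAND: a strand starts at every point of the grid on `M` -/
def S_STRAND : Prop := ∀ (F : ℝ × ℝ → ℝ × ℝ) (O M K N : Cyc) (φ : ℝ) (k : ℕ),
  Gd F φ k O M K N → ∀ (j : ℤ) (x : ℝ × ℝ), x ∈ M.rg → x ∈ Gam F (lab φ k j) →
  ∃ (s : ℝ) (σ : ℝ → ℝ × ℝ) (L₁ L₂ δ : ℝ), Strand F O M K N (lab φ k j) s σ L₁ L₂ δ ∧ σ 0 = x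

/-- DISJ: two strands with a common point start at the same point -/
def S_DISJ : Prop := ∀ (F : ℝ × ℝ → ℝ × ℝ) (O M K N : Cyc) (φ : ℝ) (k : ℕ),
  Gd F φ k O M K N → ∀ (j j' : ℤ) (s s' : ℝ) (σ σ' : ℝ → ℝ × ℝ) (L₁ L₂ δ L₁' L₂' δ' : ℝ),
  Strand F O M K N (lab φ k j) s σ L₁ L₂ δ → Strand F O M K N (lab φ k j') s' σ' L₁' L₂' δ' →
  ∀ t ∈ Icc 0 L₂, ∀ t' ∈ Icc 0 L₂', σ t = σ' t' → σ 0 = σ' 0

/-- INV2: invariance of the region between `M` and `K` in the future, of the region between `K` and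
`N` in the past, under the field rotated by `α ∈ [b, c]` -/
def S_INV2 : Prop := ∀ (F : ℝ × ℝ → ℝ × ℝ) (O M K N : Cyc) (φ : ℝ) (k : ℕ),
  Gd F φ k O M K N → ∀ α ∈ Icc M.ang K.ang, ∀ (w : ℝ → ℝ × ℝ) (L : ℝ), 0 ≤ L →
  (w 0 ∈ M.fl F \ K.inn F → (∀ t ∈ Icc 0 L, HasDerivAt w ((1:ℝ) • rot α (F (w t))) t) →
    ∀ t ∈ Icc 0 L, w t ∈ M.fl F \ K.inn F) ∧
  (w 0 ∈ K.fl F \ N.inn F → (∀ t ∈ Icc 0 L, HasDerivAt w ((-1:ℝ) • rot α (F (w t))) t) →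
    ∀ t ∈ Icc 0 L, w t ∈ K.fl F \ N.inn F) ∧
  (α = K.ang → w 0 ∈ K.rg → (∀ t ∈ Icc 0 L, HasDerivAt w ((1:ℝ) • rot α (F (w t))) t) →
    ∀ t ∈ Icc 0 L, w t ∈ K.rg) ∧
  (α = M.ang → w 0 ∈ N.rg → (∀ t ∈ Icc 0 L, HasDerivAt w ((-1:ℝ) • rot α (F (w t))) t) →
    ∀ t ∈ Icc 0 L, w t ∈ N.rg)

/-- ADJ: the strands of consecutive points of the grid on `M` lead to consecutive points of the
grid on `K` and on `N` -/
def S_ADJ : Prop := ∀ (F : ℝ × ℝ → ℝ × ℝ) (O M K N : Cyc) (φ : ℝ) (k : ℕ), 4 ≤ k →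
  Gd F φ k O M K N → ∀ (j j' : ℤ) (s s' : ℝ) (σ σ' : ℝ → ℝ × ℝ) (L₁ L₂ δ L₁' L₂' δ' : ℝ),
  Strand F O M K N (lab φ k j) s σ L₁ L₂ δ → Strand F O M K N (lab φ k j') s' σ' L₁' L₂' δ' →
  Nx F φ k 1 M.ang (σ 0) (σ' 0) →
  Nx F φ k 1 K.ang (σ L₁) (σ' L₁') ∧ Nx F φ k 1 N.ang (σ L₂) (σ' L₂')

/-- CYC: the points of the grid on `M` form a cycle -/
def S_CYC : Prop := ∀ (F : ℝ × ℝ → ℝ × ℝ) (O M K N : Cyc) (φ : ℝ) (k : ℕ), 1 ≤ k →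
  Gd F φ k O M K N → ∃ (m : ℕ) (x : ℕ → ℝ × ℝ), 1 ≤ m ∧ (∀ i, x (i + m) = x i) ∧
  (∀ i, x i ∈ M.rg ∧ x i ∈ Grid F φ k) ∧ (∀ i < m, ∀ i' < m, x i = x i' → i = i') ∧
  ∀ i, Nx F φ k 1 M.ang (x i) (x (i + 1))

/-- LEN: the pieces of `K` over a cycle are long -/
def S_LEN : Prop := ∀ (F : ℝ × ℝ → ℝ × ℝ) (K : Cyc) (κ h : ℝ) (m : ℕ) (e : ℕ → ℝ × ℝ)
  (β : ℕ → ℝ), ContDiff ℝ 4 F → K.Ok F → 0 < κ → 0 < h → κ + h ≤ π / 2 → 1 ≤ m →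
  (∀ i, e (i + m) = e i) → e 0 ∈ K.rg →
  (∀ i, ∃ (w : ℝ → ℝ × ℝ) (L : ℝ), 0 < L ∧ w 0 = e i ∧ w L = e (i + 1) ∧
    (∀ t ∈ Icc 0 L, HasDerivAt w (rot K.ang (F (w t))) t) ∧
    ∀ t₁ ∈ Icc 0 L, ∀ t₂ ∈ Icc 0 L, t₁ < t₂ → ∃ r θ : ℝ, 0 < r ∧
      θ ∈ Icc (β i + κ) (β i + κ + h) ∧ w t₂ - w t₁ = r • tau θ) →
  ∀ z ∈ K.fl F, ∀ y ∈ K.rg, Real.sin κ * √(H709R2.sq (z - y)) ≤
    ∑ i ∈ Finset.range m, wedge (tau (β i)) (e (i + 1) - e i)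

/-- TURN: the isocline takes all directions between the directions of the two chords of a strand -/
def S_TURN : Prop := ∀ (F : ℝ × ℝ → ℝ × ℝ) (O M K N : Cyc) (ψ s : ℝ) (σ : ℝ → ℝ × ℝ)
  (L₁ L₂ δ : ℝ), ContDiff ℝ 4 F → O.ang < K.ang → K.ang - O.ang ≤ 1 →
  Strand F O M K N ψ s σ L₁ L₂ δ →
  ∃ u v : ℝ, u ∈ Icc (ψ + K.ang) (ψ + O.ang + π) ∧ v ∈ Icc (ψ + K.ang) (ψ + O.ang + π) ∧
    (∃ r : ℝ, 0 < r ∧ σ L₁ - σ 0 = r • tau u) ∧ (∃ r : ℝ, 0 < r ∧ σ L₂ - σ L₁ = r • tau v) ∧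
    ∀ ω ∈ Ioo (min u v) (max u v), ∃ t ∈ Ioo 0 L₂, kd F ψ ω (σ t) = 0

/-- CORE: every good configuration contributes to the turning of the isoclines -/
def S_CORE : Prop := ∀ (F : ℝ × ℝ → ℝ × ℝ) (O M K N : Cyc) (φ : ℝ) (k : ℕ) (ρ : ℝ), 0 < ρ →
  ρ ≤ 1 / 2 → 4 ≤ k → π / k ≤ ρ / 100 → ρ ≤ M.ang - O.ang → ρ ≤ K.ang - M.ang →
  Conf F O M K N → NC F φ k O M K N →
  ∃ (m : ℕ) (u v : Fin m → ℝ) (j : Fin m → ℤ) (pt : Fin m → ℝ → ℝ × ℝ),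
    (∀ i, u i ≤ v i ∧ v i - u i < π) ∧
    (∀ i, ∀ ω ∈ Ioo (u i) (v i), pt i ω ∈ O.fl F \ N.inn F ∧ F (pt i ω) ≠ 0 ∧
      iso F (lab φ k (j i)) (pt i ω) = 0 ∧ kd F (lab φ k (j i)) ω (pt i ω) = 0) ∧
    (∀ i i', i ≠ i' → ∀ ω ∈ Ioo (u i) (v i), ∀ ω' ∈ Ioo (u i') (v i'), pt i ω ≠ pt i' ω') ∧
    ρ ^ 3 / (20 * (π / k)) ≤ ∑ i, (v i - u i)

/-- ZERO: a closed orbit encloses a zero of the field -/
def S_ZERO : Prop := ∀ (F : ℝ × ℝ → ℝ × ℝ) (O : Cyc), ContDiff ℝ 2 F →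
  Orb (rf F O.ang) O.γ O.T → ∃ z ∈ O.inn F, F z = 0

/-- three nested anticlockwise closed orbits with the angles `a`, `b`, `c` and no zero of the field
in between -/
structure Std (F : ℝ × ℝ → ℝ × ℝ) (a b c : ℝ) (O M K : Cyc) : Prop where
  aO : O.ang = a
  aM : M.ang = b
  aK : K.ang = c
  oO : O.Ok F
  oM : M.Ok F
  oK : K.Ok F
  MO : M.fl F ⊆ O.inn F
  KM : K.fl F ⊆ M.inn F
  ne : ∀ z ∈ O.fl F \ K.inn F, F z ≠ 0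

/-- CHAIN: from a family of triples to configurations which overlap at most twice -/
def S_CHAIN : Prop := ∀ (F : ℝ × ℝ → ℝ × ℝ) (Z : Finset (ℝ × ℝ)) (a b c : ℝ) (N : ℕ)
  (O M K : Fin N → Cyc), ContDiff ℝ 4 F → (∀ z, F z = 0 ↔ z ∈ Z) → a < b → b < c → c - a ≤ 1 →
  (∀ i, Std F a b c (O i) (M i) (K i)) →
  (∀ i i', i ≠ i' → Disjoint ((O i).fl F \ (K i).inn F) ((O i').fl F \ (K i').inn F)) →
  ∃ (S : Finset (Fin N)) (nx : Fin N → Fin N), N ≤ S.card + 2 * Z.card ∧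
    (∀ i ∈ S, Conf F (O i) (M i) (K i) (M (nx i))) ∧
    ∀ (z : ℝ × ℝ) (S' : Finset (Fin N)), S' ⊆ S →
      (∀ i ∈ S', z ∈ (O i).fl F \ (M (nx i)).inn F) → S'.card ≤ 2

/-- the generic angles -/
def Gen (n : ℕ) (F : ℝ × ℝ → ℝ × ℝ) (α : ℝ) : Prop := ∀ᵐ ψ : ℝ,
  {z | F z ≠ 0 ∧ iso F ψ z = 0 ∧ kd F ψ (ψ + α) z = 0}.encard ≤ ((2 * n ^ 2 : ℕ) : ℕ∞)

/-- COUNT: the number of triples -/
def S_COUNT : Prop := ∀ (n : ℕ) (P Q : MvPolynomial (Fin 2) ℝ), P.totalDegree ≤ n →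
  Q.totalDegree ≤ n → IsRelPrime P Q → ∀ ρ a b c : ℝ, 0 < ρ → ρ ≤ b - a → ρ ≤ c - b →
  c - a ≤ 1 → Gen n (field P Q) a → Gen n (field P Q) b → Gen n (field P Q) c →
  ∀ (N : ℕ) (O M K : Fin N → Cyc), (∀ i, Std (field P Q) a b c (O i) (M i) (K i)) →
  (∀ i i', i ≠ i' → Disjoint ((O i).fl (field P Q) \ (K i).inn (field P Q))
    ((O i').fl (field P Q) \ (K i').inn (field P Q))) →
  (N : ℝ) ≤ 2000 * n ^ 2 / ρ ^ 3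

/-! ### Symmetries -/

/-- the exchange of the coordinates -/
def sw (z : ℝ × ℝ) : ℝ × ℝ := (z.2, z.1)

/-- the curve run through backwards -/
def Cyc.neg (O : Cyc) : Cyc := ⟨O.ang, fun t => O.γ (-t), O.T⟩

/-- the reflected curve run through backwards, with the opposite angle -/
def Cyc.hat (O : Cyc) : Cyc := ⟨-O.ang, fun t => sw (O.γ (-t)), O.T⟩

/-- the reflected field -/
def hatF (F : ℝ × ℝ → ℝ × ℝ) (z : ℝ × ℝ) : ℝ × ℝ := -sw (F (sw z))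

/-- SYM -/
def S_SYM : Prop := ∀ (F : ℝ × ℝ → ℝ × ℝ) (O : Cyc), Continuous F →
  Orb (rf F O.ang) O.γ O.T →
  (Orb (rf (fun z => -F z) O.neg.ang) O.neg.γ O.neg.T ∧ O.neg.fl (fun z => -F z) = O.fl F ∧
    O.neg.inn (fun z => -F z) = O.inn F ∧
    ∀ z, wn O.neg.γ (O.neg.V (fun z => -F z)) O.neg.T z = -wn O.γ (O.V F) O.T z) ∧
  (Orb (rf (hatF F) O.hat.ang) O.hat.γ O.hat.T ∧ O.hat.fl (hatF F) = sw ⁻¹' O.fl F ∧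
    O.hat.inn (hatF F) = sw ⁻¹' O.inn F ∧
    ∀ z, wn O.hat.γ (O.hat.V (hatF F)) O.hat.T z = wn O.γ (O.V F) O.T (sw z))

end

end Pool.Agent.N224.SF
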