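import Pool.Agent.N224.SF.D1
import Pool.Agent.W960.HP.Pos

/-! Project SF (helper224), definitions and statements of the parts, third file: paths of closed
orbits and the final statement. -/

set_option autoImplicit false

open Real Set MeasureTheory Topology Filter
open scoped ENNReal

namespace Pool.Agent.N224.SF

noncomputable section

open Pool.Agent.H709R2 (rot wedge field ClosedOrbit)
open Pool.Agent.H709U (rf Orb)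
open Pool.Agent.N224.Hil (Loop wn ins fill)
open Pool.Agent.W960.HP (Path Good PersG)

/-- NEST: the members of a path of closed orbits are nested monotonically and fill the regions
between them -/
def S_NEST : Prop := ∀ (X : ℝ → ℝ × ℝ → ℝ × ℝ) (η : ℝ) (a : ℝ → ℝ) (γ : ℝ → ℝ → ℝ × ℝ)
  (T : ℝ → ℝ), Good X η → 0 < η → Path X η a γ T →
  ((∀ τ ∈ Icc (0:ℝ) 1, ∀ τ' ∈ Icc (0:ℝ) 1, τ < τ' →
      fill (γ τ') (fun t => X (a τ') (γ τ' t)) (T τ') ⊆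
        ins (γ τ) (fun t => X (a τ) (γ τ t)) (T τ) ∧
      ∀ z ∈ fill (γ τ) (fun t => X (a τ) (γ τ t)) (T τ) \
        ins (γ τ') (fun t => X (a τ') (γ τ' t)) (T τ'), ∃ s ∈ Icc τ τ', z ∈ range (γ s)) ∨
    (∀ τ ∈ Icc (0:ℝ) 1, ∀ τ' ∈ Icc (0:ℝ) 1, τ < τ' →
      fill (γ τ) (fun t => X (a τ) (γ τ t)) (T τ) ⊆
        ins (γ τ') (fun t => X (a τ') (γ τ' t)) (T τ') ∧
      ∀ z ∈ fill (γ τ') (fun t => X (a τ') (γ τ' t)) (T τ') \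
        ins (γ τ) (fun t => X (a τ) (γ τ t)) (T τ), ∃ s ∈ Icc τ τ', z ∈ range (γ s))) ∧
  ∃ ε : ℝ, (ε = 1 ∨ ε = -1) ∧ ∀ τ ∈ Icc (0:ℝ) 1, ∀ z ∉ range (γ τ),
    wn (γ τ) (fun t => X (a τ) (γ τ t)) (T τ) z = 0 ∨
      0 < ε * wn (γ τ) (fun t => X (a τ) (γ τ t)) (T τ) z

/-- REP: parametrisation of a closed orbit with the minimal period -/
def S_REP : Prop := ∀ F : ℝ × ℝ → ℝ × ℝ, ContDiff ℝ 2 F → ∀ (α ε : ℝ) (γ : ℝ → ℝ × ℝ) (T : ℝ),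
  (ε = 1 ∨ ε = -1) → 0 < T → (∀ t, HasDerivAt γ (rf F α (γ t)) t) → (∀ t, γ (t + T) = γ t) →
  (∃ s t, γ s ≠ γ t) →
  (∀ z ∉ range γ, wn γ (fun t => rf F α (γ t)) T z = 0 ∨
    0 < ε * wn γ (fun t => rf F α (γ t)) T z) →
  ∃ O : Cyc, O.ang = α ∧ Orb (rf F O.ang) O.γ O.T ∧ O.rg = range γ ∧
    O.fl F = fill γ (fun t => rf F α (γ t)) T ∧ O.inn F = ins γ (fun t => rf F α (γ t)) T ∧
    ∀ z ∉ range O.γ, wn O.γ (O.V F) O.T z = 0 ∨ wn O.γ (O.V F) O.T z = ε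

/-- three nested closed orbits with the same orientation, with the angles `a₀`, `b`, `a₁` or
`a₁`, `b`, `a₀`, and no zero of the field in between -/
structure Tri (F : ℝ × ℝ → ℝ × ℝ) (a₀ b a₁ ε : ℝ) (O M K : Cyc) : Prop where
  e1 : ε = 1 ∨ ε = -1
  ang : (O.ang = a₀ ∧ K.ang = a₁) ∨ (O.ang = a₁ ∧ K.ang = a₀)
  aM : M.ang = b
  oO : Orb (rf F O.ang) O.γ O.T
  oM : Orb (rf F M.ang) M.γ M.T
  oK : Orb (rf F K.ang) K.γ K.T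
  wO : ∀ z ∉ range O.γ, wn O.γ (O.V F) O.T z = 0 ∨ wn O.γ (O.V F) O.T z = ε
  wM : ∀ z ∉ range M.γ, wn M.γ (M.V F) M.T z = 0 ∨ wn M.γ (M.V F) M.T z = ε
  wK : ∀ z ∉ range K.γ, wn K.γ (K.V F) K.T z = 0 ∨ wn K.γ (K.V F) K.T z = ε
  MO : M.fl F ⊆ O.inn F
  KM : K.fl F ⊆ M.inn F
  conn : IsPreconnected (O.fl F \ K.inn F)
  ne : ∀ z ∈ O.fl F \ K.inn F, F z ≠ 0

/-- FAM: every closed orbit which survives the rotation by `σ η` yields a triple, and the regions of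
different ones are disjoint -/
def S_FAM : Prop := ∀ F : ℝ × ℝ → ℝ × ℝ, ContDiff ℝ 2 F → ∀ σ η : ℝ, (σ = 1 ∨ σ = -1) → 0 < η →
  η ≤ 1 → ∀ α₀ β α₁ : ℝ, 0 < α₀ → α₀ < β → β < α₁ → α₁ < η →
  ∃ (O M K : Set (ℝ × ℝ) → Cyc) (ε : Set (ℝ × ℝ) → ℝ),
    (∀ C, PersG F (fun _ _ => True) (σ * η) C →
      Tri F (σ * α₀) (σ * β) (σ * α₁) (ε C) (O C) (M C) (K C)) ∧
    ∀ C C', PersG F (fun _ _ => True) (σ * η) C → PersG F (fun _ _ => True) (σ * η) C' → C ≠ C' →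
      Disjoint ((O C).fl F \ (K C).inn F) ((O C').fl F \ (K C').inn F)

/-- TIME: dividing the field by a function without zeros on the orbit -/
def S_TIME : Prop := ∀ (F : ℝ × ℝ → ℝ × ℝ) (g : ℝ × ℝ → ℝ) (O : Cyc), ContDiff ℝ 2 F →
  ContDiff ℝ 2 g → Orb (rf (fun z => g z • F z) O.ang) O.γ O.T → (∀ t, 0 < g (O.γ t)) →
  ∃ O' : Cyc, O'.ang = O.ang ∧ Orb (rf F O'.ang) O'.γ O'.T ∧ O'.rg = O.rg ∧
    O'.fl F = O.fl (fun z => g z • F z) ∧ O'.inn F = O.inn (fun z => g z • F z) ∧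
    ∀ z, z ∉ range O'.γ → wn O'.γ (O'.V F) O'.T z = wn O.γ (O.V (fun z => g z • F z)) O.T z

/-- FIN: the final statement -/
def S_FIN : Prop := ∀ (n : ℕ) (P Q : MvPolynomial (Fin 2) ℝ), P.totalDegree ≤ n →
  Q.totalDegree ≤ n → IsRelPrime P Q → ∀ σ η : ℝ, (σ = 1 ∨ σ = -1) → 0 < η → η ≤ 1 →
  ∃ N : ℕ, {C | PersG (field P Q) (fun _ _ => True) (σ * η) C}.encard ≤ N ∧
    (N : ℝ) ≤ 1000000 * n ^ 2 / η ^ 3

end

end Pool.Agent.N224.SF
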