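import Mathlib

/-! Project SF (helper224): statement of the summation lemma. -/

set_option autoImplicit false

open Real Set
open scoped ENNReal

namespace Pool.Agent.N224.SF

/-- POW: from the number of large values to the sum of the powers `2 + κ` -/
def S_POW : Prop := ∀ (X : Type) (A : Set X) (s : X → ℝ≥0∞) (K : ℝ), 0 ≤ K →
  (∀ C ∈ A, s C ≤ 2) →
  (∀ t : ℝ, 0 < t → t ≤ 2 →
    (({C | C ∈ A ∧ ENNReal.ofReal t < s C}.encard : ℕ∞) : ℝ≥0∞) ≤ ENNReal.ofReal (K / t ^ 2)) →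
  ∀ κ : ℝ, 0 < κ → κ ≤ 1 → ∑' C : A, s C ^ (2 + κ) ≤ ENNReal.ofReal (16 * K / κ)

end Pool.Agent.N224.SF
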