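import Pool.Agent.N224.SF.D1
import Pool.Agent.N224.Hil.W

/-! Project SF (helper224), part LEN (helper622): the pieces of a closed orbit over a cycle of the
grid are long. -/

set_option autoImplicit false

open Real Set MeasureTheory Topology Filter
open scoped ENNReal NNReal

namespace Pool.Agent.N224.SF

noncomputable section

open Pool.Agent.H709R2 (rot wedge field)
open Pool.Agent.H709U (rf Orb)
open Pool.Agent.N224.Hil (Loop wn ins fill)

namespace LEN

/-- the Euclidean norm -/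
def nr (v : ℝ × ℝ) : ℝ := √(H709R2.sq v)

lemma sq_nonneg' (v : ℝ × ℝ) : 0 ≤ H709R2.sq v := by
  unfold H709R2.sq
  positivity

lemma nr_add (u v : ℝ × ℝ) : nr (u + v) ≤ nr u + nr v := by
  unfold nr
  rw [Real.sqrt_le_left (by positivity)]
  have h1 : |u.1 * v.1 + u.2 * v.2| ≤ √(H709R2.sq u * H709R2.sq v) := by
    apply Real.abs_le_sqrt
    unfold H709R2.sq
    nlinarith [sq_nonneg (u.1 * v.2 - u.2 * v.1)]
  rw [Real.sqrt_mul (sq_nonneg' u)] at h1
  have h2 := Real.sq_sqrt (sq_nonneg' u)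
  have h3 := Real.sq_sqrt (sq_nonneg' v)
  have h4 := le_abs_self (u.1 * v.1 + u.2 * v.2)
  have h5 : H709R2.sq (u + v) = H709R2.sq u + H709R2.sq v + 2 * (u.1 * v.1 + u.2 * v.2) := by
    unfold H709R2.sq
    simp only [Prod.fst_add, Prod.snd_add]
    ring
  rw [h5]
  nlinarith

lemma nr_neg (v : ℝ × ℝ) : nr (-v) = nr v := by
  unfold nr H709R2.sq
  simp

lemma nr_zero : nr 0 = 0 := by
  unfold nr H709R2.sq
  simp

lemma nr_smul_tau {r : ℝ} (hr : 0 < r) (θ : ℝ) : nr (r • tau θ) = r := by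
  unfold nr H709R2.sq tau
  have h : (r • ((Real.cos θ, Real.sin θ) : ℝ × ℝ)).1 ^ 2 + (r • ((Real.cos θ, Real.sin θ) : ℝ × ℝ)).2 ^ 2
      = r ^ 2 := by
    simp only [Prod.smul_mk, smul_eq_mul]
    nlinarith [Real.sin_sq_add_cos_sq θ]
  rw [h, Real.sqrt_sq hr.le]

lemma wedge_tau (β r θ : ℝ) : wedge (tau β) (r • tau θ) = r * Real.sin (θ - β) := by
  unfold wedge tau
  rw [Real.sin_sub]
  simp only [Prod.smul_mk, smul_eq_mul]
  ring

lemma wedge_add (a u v : ℝ × ℝ) : wedge a (u + v) = wedge a u + wedge a v := by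
  unfold wedge
  simp only [Prod.fst_add, Prod.snd_add]
  ring

lemma wedge_zero (a : ℝ × ℝ) : wedge a 0 = 0 := by
  unfold wedge
  simp

/-- a displacement in a narrow sector -/
lemma disp {κ h β : ℝ} (hκ : 0 < κ) (hκh : κ + h ≤ π / 2) {v : ℝ × ℝ}
    (hv : ∃ r θ : ℝ, 0 < r ∧ θ ∈ Icc (β + κ) (β + κ + h) ∧ v = r • tau θ) :
    Real.sin κ * nr v ≤ wedge (tau β) v := by
  obtain ⟨r, θ, hr, hθ, rfl⟩ := hv
  rw [nr_smul_tau hr, wedge_tau, mul_comm]
  refine mul_le_mul_of_nonneg_left ?_ hr.le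
  apply Real.sin_le_sin_of_le_of_le_pi_div_two
  · linarith [Real.pi_pos]
  · linarith [hθ.2]
  · linarith [hθ.1]

/-- uniqueness of solutions on a compact interval -/
lemma uniq {X : ℝ × ℝ → ℝ × ℝ} (hX : ContDiff ℝ 1 X) {f g : ℝ → ℝ × ℝ} {L : ℝ}
    (hf : ∀ t ∈ Icc 0 L, HasDerivAt f (X (f t)) t) (hg : ∀ t ∈ Icc 0 L, HasDerivAt g (X (g t)) t)
    (h0 : f 0 = g 0) : EqOn f g (Icc 0 L) := by
  have hcf : ContinuousOn f (Icc 0 L) := fun t ht => (hf t ht).continuousAt.continuousWithinAt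
  have hcg : ContinuousOn g (Icc 0 L) := fun t ht => (hg t ht).continuousAt.continuousWithinAt
  obtain ⟨R, hR⟩ := ((isCompact_Icc.image_of_continuousOn hcf).union
    (isCompact_Icc.image_of_continuousOn hcg)).isBounded.subset_closedBall 0
  obtain ⟨C, hC⟩ := (hX.contDiffOn (s := Metric.closedBall 0 R)).exists_lipschitzOnWith one_ne_zero
    (convex_closedBall 0 R) (isCompact_closedBall 0 R)
  refine ODE_solution_unique_of_mem_Icc_right (v := fun _ => X)
    (s := fun _ => Metric.closedBall 0 R) (K := C) (fun t _ => hC) hcf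
    (fun t ht => (hf t (Ico_subset_Icc_self ht)).hasDerivWithinAt) (fun t ht => ?_) hcg
    (fun t ht => (hg t (Ico_subset_Icc_self ht)).hasDerivWithinAt) (fun t ht => ?_) h0
  · exact hR (Or.inl ⟨t, Ico_subset_Icc_self ht, rfl⟩)
  · exact hR (Or.inr ⟨t, Ico_subset_Icc_self ht, rfl⟩)

/-- the distance of two points on consecutive pieces -/
lemma pieces {γ : ℝ → ℝ × ℝ} {s : ℕ → ℝ} {β : ℕ → ℝ} {k : ℝ} (hs : ∀ i, s i ≤ s (i + 1))
    (hd : ∀ i, ∀ t ∈ Icc (s i) (s (i + 1)), ∀ t' ∈ Icc (s i) (s (i + 1)), t ≤ t' →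
      k * nr (γ t' - γ t) ≤ wedge (tau (β i)) (γ t' - γ t)) (hk : 0 ≤ k) (n : ℕ) :
    ∀ t ∈ Icc (s 0) (s n), ∀ t' ∈ Icc (s 0) (s n), t ≤ t' →
      k * nr (γ t' - γ t) ≤ ∑ i ∈ Finset.range n, wedge (tau (β i)) (γ (s (i + 1)) - γ (s i)) := by
  have hn0 : ∀ v, 0 ≤ nr v := fun v => Real.sqrt_nonneg _
  have hpos : ∀ i, ∀ t ∈ Icc (s i) (s (i + 1)), ∀ t' ∈ Icc (s i) (s (i + 1)), t ≤ t' →
      0 ≤ wedge (tau (β i)) (γ t' - γ t) := fun i t ht t' ht' h =>
    (mul_nonneg hk (hn0 _)).trans (hd i t ht t' ht' h)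
  have hl : ∀ i, s i ∈ Icc (s i) (s (i + 1)) := fun i => ⟨le_rfl, hs i⟩
  have hr : ∀ i, s (i + 1) ∈ Icc (s i) (s (i + 1)) := fun i => ⟨hs i, le_rfl⟩
  have hG : ∀ n, 0 ≤ ∑ i ∈ Finset.range n, wedge (tau (β i)) (γ (s (i + 1)) - γ (s i)) :=
    fun n => Finset.sum_nonneg fun i _ => hpos i _ (hl i) _ (hr i) (hs i)
  have hw : ∀ i, ∀ t ∈ Icc (s i) (s (i + 1)), ∀ t' ∈ Icc (s i) (s (i + 1)), t ≤ t' →
      wedge (tau (β i)) (γ t' - γ t) ≤ wedge (tau (β i)) (γ (s (i + 1)) - γ (s i)) := by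
    intro i t ht t' ht' h
    have h1 := hpos i _ (hl i) t ht ht.1
    have h2 := hpos i t' ht' _ (hr i) ht'.2
    have h3 : γ (s (i + 1)) - γ (s i) = (γ t - γ (s i)) + ((γ t' - γ t) + (γ (s (i + 1)) - γ t')) := by
      abel
    rw [h3, wedge_add, wedge_add]
    linarith
  induction n with
  | zero =>
    intro t ht t' ht' h
    have e1 : t = s 0 := le_antisymm ht.2 ht.1
    have e2 : t' = s 0 := le_antisymm ht'.2 ht'.1
    rw [e1, e2, sub_self, nr_zero]
    simp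
  | succ n ih =>
    intro t ht t' ht' h
    rw [Finset.sum_range_succ]
    rcases le_total t' (s n) with c1 | c1
    · have h1 := ih t ⟨ht.1, h.trans c1⟩ t' ⟨ht'.1, c1⟩ h
      have h2 := hpos n _ (hl n) _ (hr n) (hs n)
      linarith
    · rcases le_total t (s n) with c2 | c2
      · have h1 := ih t ⟨ht.1, c2⟩ (s n) ⟨ht.1.trans c2, le_rfl⟩ c2
        have h2 := hd n (s n) (hl n) t' ⟨c1, ht'.2⟩ c1
        have h3 := hw n (s n) (hl n) t' ⟨c1, ht'.2⟩ c1
        have h4 : γ t' - γ t = (γ t' - γ (s n)) + (γ (s n) - γ t) := by abel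
        have h5 := mul_le_mul_of_nonneg_left (nr_add (γ t' - γ (s n)) (γ (s n) - γ t)) hk
        rw [h4]
        linarith
      · have h2 := hd n t ⟨c2, ht.2⟩ t' ⟨c1, ht'.2⟩ h
        have h3 := hw n t ⟨c2, ht.2⟩ t' ⟨c1, ht'.2⟩ h
        have h4 := hG n
        linarith

/-- a point of the curve at least as far from `y` as a given point enclosed by the curve -/
lemma far {γ V : ℝ → ℝ × ℝ} {T : ℝ} (hL : Loop γ V T) {z : ℝ × ℝ} (hz : z ∈ fill γ V T)
    (y : ℝ × ℝ) : ∃ t, nr (z - y) ≤ nr (γ t - y) := by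
  rcases hz with ⟨t, rfl⟩ | hz
  · exact ⟨t, le_rfl⟩
  · by_contra hcon
    push Not at hcon
    apply hz.2
    refine Hil.w3 γ V T hL z (-(z - y)) (fun t => ?_)
    have h1 := hcon t
    have h2 : H709R2.sq (γ t - y) < H709R2.sq (z - y) := by
      unfold nr at h1
      exact (Real.sqrt_lt_sqrt_iff (sq_nonneg' _)).1 h1
    unfold H709R2.sq at h2
    simp only [Prod.fst_sub, Prod.snd_sub, Prod.fst_neg, Prod.snd_neg] at h2 ⊢
    nlinarith [sq_nonneg ((γ t).1 - z.1), sq_nonneg ((γ t).2 - z.2)]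

end LEN

open LEN in
theorem len : S_LEN := by
  intro F K κ h m e β hF hK hκ hh hκh hm hper he0 hpiece z hz y hy
  have hX : ContDiff ℝ 1 (rf F K.ang) := by
    have hF1 : ContDiff ℝ 1 F := hF.of_le (by norm_num)
    unfold rf rot
    have h1 := hF1.fst
    have h2 := hF1.snd
    fun_prop
  choose w L hL hw0 hwL hode hdisp using hpiece
  obtain ⟨t₀, ht₀⟩ := he0
  -- the times
  obtain ⟨s, hs0, hss⟩ : ∃ s : ℕ → ℝ, s 0 = t₀ ∧ ∀ i, s (i + 1) = s i + L i :=
    ⟨fun i => t₀ + ∑ j ∈ Finset.range i, L j, by simp, fun i => by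
      simp only [Finset.sum_range_succ]
      ring⟩
  have hsl : ∀ i, s i < s (i + 1) := fun i => by rw [hss]; linarith [hL i]
  have hγ : ∀ i, K.γ (s i) = e i := by
    intro i
    induction i with
    | zero => rw [hs0, ht₀]
    | succ i ih =>
      have h1 := uniq hX (f := w i) (g := fun t => K.γ (s i + t)) (L := L i) (hode i)
        (fun t _ => (hK.orb.ode (s i + t)).comp_const_add (s i) t) (by simp [hw0, ih])
      have h2 := h1 ⟨(hL i).le, le_rfl⟩
      rw [hwL] at h2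
      rw [hss]
      exact h2.symm
  have hw : ∀ i, EqOn (w i) (fun t => K.γ (s i + t)) (Icc 0 (L i)) := fun i =>
    uniq hX (f := w i) (g := fun t => K.γ (s i + t)) (L := L i) (hode i)
      (fun t _ => (hK.orb.ode (s i + t)).comp_const_add (s i) t) (by simp [hw0, hγ])
  -- the displacements
  have hd : ∀ i, ∀ t ∈ Icc (s i) (s (i + 1)), ∀ t' ∈ Icc (s i) (s (i + 1)), t ≤ t' →
      Real.sin κ * nr (K.γ t' - K.γ t) ≤ wedge (tau (β i)) (K.γ t' - K.γ t) := by
    intro i t ht t' ht' htt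
    rw [hss] at ht ht'
    rcases eq_or_lt_of_le htt with h1 | h1
    · rw [h1, sub_self, nr_zero, wedge_zero, mul_zero]
    · have m1 : t - s i ∈ Icc 0 (L i) := ⟨by linarith [ht.1], by linarith [ht.2]⟩
      have m2 : t' - s i ∈ Icc 0 (L i) := ⟨by linarith [ht'.1], by linarith [ht'.2]⟩
      have h2 := hdisp i _ m1 _ m2 (by linarith)
      have e1 := hw i m1
      have e2 := hw i m2
      simp only [add_sub_cancel] at e1 e2
      rw [e1, e2] at h2
      exact disp hκ hκh h2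
  have hk : 0 ≤ Real.sin κ := Real.sin_nonneg_of_nonneg_of_le_pi hκ.le (by linarith [Real.pi_pos])
  have hmain := pieces (fun i => (hsl i).le) hd hk m
  simp only [hγ] at hmain
  -- a whole period
  have hmono : StrictMono s := strictMono_nat_of_lt_succ hsl
  have hsT : s 0 + K.T ≤ s m := by
    have h1 : K.γ (s m) = K.γ (s 0) := by
      rw [hγ, hγ]
      have := hper 0
      rwa [zero_add] at this
    obtain ⟨l, hl⟩ := hK.orb.inj _ _ h1
    have h2 : s 0 < s m := hmono (by omega)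
    have h3 : 0 < (l : ℝ) * K.T := by linarith
    have h4 : (0 : ℝ) < l := pos_of_mul_pos_left h3 hK.orb.pos.le
    have h5 : (1 : ℝ) ≤ l := by
      have : 0 < l := by exact_mod_cast h4
      exact_mod_cast this
    nlinarith [hK.orb.pos]
  have hpt : ∀ t, ∃ t' ∈ Icc (s 0) (s m), K.γ t' = K.γ t := by
    intro t
    have hp : Function.Periodic K.γ K.T := hK.orb.per
    obtain ⟨t', ht', h1⟩ := hp.exists_mem_Ico hK.orb.pos t (s 0)
    exact ⟨t', ⟨ht'.1, ht'.2.le.trans hsT⟩, h1.symm⟩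
  have hV : Continuous (K.V F) := by
    have h1 : Continuous K.γ := continuous_iff_continuousAt.2 fun t => (hK.orb.ode t).continuousAt
    exact hX.continuous.comp h1
  have hLoop : Loop K.γ (K.V F) K.T := ⟨hK.orb.pos, hK.orb.ode, hV, hK.orb.per⟩
  obtain ⟨t, ht⟩ := far hLoop hz y
  obtain ⟨u, hu⟩ := hy
  obtain ⟨t', ht', et⟩ := hpt t
  obtain ⟨u', hu', eu⟩ := hpt u
  have h1 : Real.sin κ * nr (z - y) ≤ Real.sin κ * nr (K.γ t' - K.γ u') := by
    rw [et, eu, hu]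
    exact mul_le_mul_of_nonneg_left ht hk
  refine h1.trans ?_
  rcases le_total u' t' with c | c
  · exact hmain u' hu' t' ht' c
  · rw [← nr_neg, neg_sub]
    exact hmain t' ht' u' hu' c

end

end Pool.Agent.N224.SF
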