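import Pool.Agent.N224.SF.D0
import Pool.Agent.N224.Hil.J
import Pool.Agent.N224.Hil.W

/-! Project SF, part SIDE (helper572): a curve which crosses a simple closed curve to the left
enters it. The curve avoids a small double cone around its normal, on each half of which the
winding number is constant. -/

set_option autoImplicit false

open Real Set MeasureTheory Topology Filter

namespace Pool.Agent.N224.SF

open Pool.Agent.H709R2 (rot wedge field)
open Pool.Agent.N224.Hil (Loop wn ins fill)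

namespace SIDE

open Pool.Agent.N224.Hil.J (Hc)
open Complex (I)

variable {c v : ℝ → ℂ} {T : ℝ} {N : ℂ → ℝ}

/-- the curve avoids a small double cone around its normal -/
theorem cone (h : Hc c v T N) (t₀ : ℝ) {κ : ℝ} (hκ : 0 < κ) : ∃ ρ > 0, ∀ ζ : ℂ, ‖ζ‖ < ρ →
    κ * ‖ζ‖ < |ζ.im| → c t₀ + v t₀ * ζ ∉ range c := by
  have hT := h.pos
  have hv := h.ne t₀
  have hd : HasDerivAt (fun t => (c t - c t₀) / v t₀) 1 t₀ := by
    have h1 := ((h.der t₀).sub_const (c t₀)).div_const (v t₀)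
    rwa [div_self hv] at h1
  obtain ⟨η, hη⟩ : ∃ η : ℝ, η = κ / (1 + κ) := ⟨_, rfl⟩
  have hη0 : 0 < η := by rw [hη]; positivity
  have hηκ : κ * (1 - η) = η := by
    rw [hη]
    field_simp
    ring
  obtain ⟨ρ₁, hρ₁, hb⟩ := Metric.eventually_nhds_iff.1 (hd.isLittleO.def hη0)
  obtain ⟨r, hr⟩ : ∃ r : ℝ, r = min (ρ₁ / 2) (T / 4) := ⟨_, rfl⟩
  have hr0 : 0 < r := by rw [hr]; exact lt_min (by positivity) (by positivity)
  have hr1 : r ≤ ρ₁ / 2 := by rw [hr]; exact min_le_left _ _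
  have hr2 : r ≤ T / 4 := by rw [hr]; exact min_le_right _ _
  have hcl : IsClosed (c '' Icc (t₀ + r) (t₀ + T - r)) := (isCompact_Icc.image h.cc).isClosed
  have hnot : c t₀ ∉ c '' Icc (t₀ + r) (t₀ + T - r) := by
    rintro ⟨t', ht', he⟩
    obtain ⟨k, hk⟩ := h.inj t' t₀ he
    rcases le_or_gt k 0 with hk0 | hk0
    · have h1 : (k : ℝ) ≤ 0 := by exact_mod_cast hk0
      have h2 : (k : ℝ) * T ≤ 0 := mul_nonpos_of_nonpos_of_nonneg h1 hT.le
      linarith [ht'.1]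
    · have h1 : (1 : ℝ) ≤ k := by exact_mod_cast hk0
      have h2 : T ≤ (k : ℝ) * T := by nlinarith
      linarith [ht'.2]
  have hct : Continuous (fun ζ : ℂ => c t₀ + v t₀ * ζ) := by fun_prop
  have hev : ∀ᶠ ζ in 𝓝 (0 : ℂ), c t₀ + v t₀ * ζ ∈ (c '' Icc (t₀ + r) (t₀ + T - r))ᶜ := by
    refine hct.continuousAt.eventually_mem (hcl.isOpen_compl.mem_nhds ?_)
    simpa using hnot
  obtain ⟨ρ, hρ, hball⟩ := Metric.eventually_nhds_iff.1 hev
  refine ⟨ρ, hρ, ?_⟩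
  rintro ζ hζ hζκ ⟨t', ht'⟩
  obtain ⟨u, hu, hcu⟩ := h.perc.exists_mem_Ico hT t' (t₀ - r)
  rw [hcu] at ht'
  by_cases hur : t₀ + r ≤ u
  · apply hball (show dist ζ 0 < ρ by simpa using hζ)
    refine ⟨u, ⟨hur, ?_⟩, ht'⟩
    have := hu.2
    linarith
  · push Not at hur
    have hu1 : |u - t₀| ≤ r := abs_le.2 ⟨by linarith [hu.1], by linarith⟩
    have h1 := hb (show dist u t₀ < ρ₁ by rw [Real.dist_eq]; linarith)
    have h2 : (c u - c t₀) / v t₀ = ζ := by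
      rw [ht']
      field_simp
      ring
    simp only [h2, sub_self, zero_div, sub_zero, Real.norm_eq_abs] at h1
    have h3 : |ζ.im| ≤ η * |u - t₀| := by
      refine le_trans ?_ h1
      have h4 := Complex.abs_im_le_norm (ζ - (u - t₀) • (1 : ℂ))
      have h5 : (ζ - (u - t₀) • (1 : ℂ)).im = ζ.im := by simp
      rwa [h5] at h4
    have h4 : |u - t₀| - η * |u - t₀| ≤ ‖ζ‖ := by
      have h5 : ‖(u - t₀) • (1 : ℂ)‖ = |u - t₀| := by
        rw [norm_smul, norm_one, mul_one, Real.norm_eq_abs]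
      have h6 := norm_sub_norm_le ((u - t₀) • (1 : ℂ)) ζ
      rw [h5, norm_sub_rev] at h6
      linarith
    have h5 : κ * ((1 - η) * |u - t₀|) ≤ κ * ‖ζ‖ := by
      apply mul_le_mul_of_nonneg_left _ hκ.le
      linarith
    rw [← mul_assoc, hηκ] at h5
    linarith

/-- a half cone cut by a disc is convex -/
theorem conv (ρ κ σ : ℝ) (hκ : 0 ≤ κ) : Convex ℝ {ζ : ℂ | ‖ζ‖ < ρ ∧ κ * ‖ζ‖ < σ * ζ.im} := by
  intro x hx y hy a b ha hb hab
  have h1 : ‖a • x + b • y‖ ≤ a * ‖x‖ + b * ‖y‖ := by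
    refine (norm_add_le _ _).trans ?_
    rw [norm_smul, norm_smul, Real.norm_of_nonneg ha, Real.norm_of_nonneg hb]
  have h2 : (a • x + b • y).im = a * x.im + b * y.im := by simp
  have h3 := (convex_Iio (𝕜 := ℝ) ρ) (show ‖x‖ ∈ Iio ρ from hx.1) (show ‖y‖ ∈ Iio ρ from hy.1)
    ha hb hab
  have h4 := (convex_Iio (𝕜 := ℝ) (0 : ℝ))
    (show κ * ‖x‖ - σ * x.im ∈ Iio (0 : ℝ) from by
      have := hx.2
      simp only [mem_Iio]
      linarith)
    (show κ * ‖y‖ - σ * y.im ∈ Iio (0 : ℝ) from by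
      have := hy.2
      simp only [mem_Iio]
      linarith)
    ha hb hab
  simp only [mem_Iio, smul_eq_mul] at h3 h4
  refine ⟨lt_of_le_of_lt h1 h3, ?_⟩
  rw [h2]
  have h5 := mul_le_mul_of_nonneg_left h1 hκ
  nlinarith

/-- the winding number on the two half cones -/
theorem coneN (h : Hc c v T N) (t₀ : ℝ) {κ : ℝ} (hκ : 0 < κ) (hκ1 : κ < 1) {kp km : ℝ}
    (hk : ∃ ε > 0, ∀ s : ℝ, (0 < s → s < ε → N (c t₀ + s * (I * v t₀)) = kp) ∧
      (-ε < s → s < 0 → N (c t₀ + s * (I * v t₀)) = km)) :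
    ∃ ρ > 0, ∀ ζ : ℂ, ‖ζ‖ < ρ →
      (κ * ‖ζ‖ < ζ.im → c t₀ + v t₀ * ζ ∉ range c ∧ N (c t₀ + v t₀ * ζ) = kp) ∧
      (κ * ‖ζ‖ < -ζ.im → c t₀ + v t₀ * ζ ∉ range c ∧ N (c t₀ + v t₀ * ζ) = km) := by
  obtain ⟨ρ, hρ, hcone⟩ := cone h t₀ hκ
  obtain ⟨ε, hε, hkε⟩ := hk
  obtain ⟨s, hs⟩ : ∃ s : ℝ, s = min ε ρ / 2 := ⟨_, rfl⟩
  have hs0 : 0 < s := by
    rw [hs]
    have := lt_min hε hρ
    positivity
  have hs1 : s < ε := by
    have := min_le_left ε ρ
    linarith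
  have hs2 : s < ρ := by
    have := min_le_right ε ρ
    linarith
  have hct : Continuous (fun ζ : ℂ => c t₀ + v t₀ * ζ) := by fun_prop
  have hoff : ∀ σ : ℝ, |σ| = 1 → ∀ ζ ∈ {ζ : ℂ | ‖ζ‖ < ρ ∧ κ * ‖ζ‖ < σ * ζ.im},
      c t₀ + v t₀ * ζ ∉ range c := by
    rintro σ hσ ζ ⟨h1, h2⟩
    apply hcone ζ h1
    refine h2.trans_le ((le_abs_self _).trans ?_)
    rw [abs_mul, hσ, one_mul]
  refine ⟨ρ, hρ, fun ζ hζ => ⟨fun h1 => ?_, fun h1 => ?_⟩⟩
  · have hm : ζ ∈ {ζ : ℂ | ‖ζ‖ < ρ ∧ κ * ‖ζ‖ < (1 : ℝ) * ζ.im} := ⟨hζ, by rw [one_mul]; exact h1⟩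
    have hy : ((s : ℂ) * I) ∈ {ζ : ℂ | ‖ζ‖ < ρ ∧ κ * ‖ζ‖ < (1 : ℝ) * ζ.im} := by
      have hn : ‖(s : ℂ) * I‖ = s := by
        rw [norm_mul, Complex.norm_I, mul_one, Complex.norm_real, Real.norm_of_nonneg hs0.le]
      refine ⟨by rw [hn]; exact hs2, ?_⟩
      rw [hn]
      simp only [Complex.mul_im, Complex.ofReal_re, Complex.I_im, mul_one, Complex.ofReal_im,
        Complex.I_re, mul_zero, add_zero, one_mul]
      nlinarith
    refine ⟨hoff 1 (by simp) ζ hm, ?_⟩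
    rw [h.const_on (conv ρ κ 1 hκ.le).isPreconnected hct.continuousOn (hoff 1 (by simp)) hm hy]
    rw [← (hkε s).1 hs0 hs1]
    congr 1
    ring
  · have hm : ζ ∈ {ζ : ℂ | ‖ζ‖ < ρ ∧ κ * ‖ζ‖ < (-1 : ℝ) * ζ.im} :=
      ⟨hζ, by rw [neg_one_mul]; exact h1⟩
    have hy : (((-s : ℝ) : ℂ) * I) ∈ {ζ : ℂ | ‖ζ‖ < ρ ∧ κ * ‖ζ‖ < (-1 : ℝ) * ζ.im} := by
      have hn : ‖((-s : ℝ) : ℂ) * I‖ = s := by
        rw [norm_mul, Complex.norm_I, mul_one, Complex.norm_real, Real.norm_eq_abs, abs_neg,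
          abs_of_pos hs0]
      refine ⟨by rw [hn]; exact hs2, ?_⟩
      rw [hn]
      simp only [Complex.mul_im, Complex.ofReal_re, Complex.I_im, mul_one, Complex.ofReal_im,
        Complex.I_re, mul_zero, add_zero]
      nlinarith
    refine ⟨hoff (-1) (by simp) ζ hm, ?_⟩
    rw [h.const_on (conv ρ κ (-1) hκ.le).isPreconnected hct.continuousOn (hoff (-1) (by simp))
      hm hy]
    rw [← (hkε (-s)).2 (by linarith) (by linarith)]
    congr 1
    ring

/-- the winding number along a curve which crosses -/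
theorem cross (h : Hc c v T N) (t₀ : ℝ) {kp km : ℝ}
    (hk : ∃ ε > 0, ∀ s : ℝ, (0 < s → s < ε → N (c t₀ + s * (I * v t₀)) = kp) ∧
      (-ε < s → s < 0 → N (c t₀ + s * (I * v t₀)) = km))
    {ζ : ℝ → ℂ} {μ : ℂ} {s₀ : ℝ} (hζ : HasDerivAt ζ μ s₀) (h0 : ζ s₀ = 0) (hμ : μ.im ≠ 0) :
    ∀ᶠ s in 𝓝 s₀,
      (0 < (s - s₀) * μ.im → c t₀ + v t₀ * ζ s ∉ range c ∧ N (c t₀ + v t₀ * ζ s) = kp) ∧
      ((s - s₀) * μ.im < 0 → c t₀ + v t₀ * ζ s ∉ range c ∧ N (c t₀ + v t₀ * ζ s) = km) := by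
  obtain ⟨m, hm⟩ : ∃ m : ℝ, m = |μ.im| := ⟨_, rfl⟩
  have hm0 : 0 < m := by rw [hm]; exact abs_pos.2 hμ
  obtain ⟨κ, hκ⟩ : ∃ κ : ℝ, κ = m / (4 * (‖μ‖ + m)) := ⟨_, rfl⟩
  have hn0 := norm_nonneg μ
  have hκ0 : 0 < κ := by rw [hκ]; positivity
  have hκm : κ * (‖μ‖ + m) = m / 4 := by
    rw [hκ]
    field_simp
  have hκ1 : κ < 1 := by
    rw [hκ, div_lt_one (by positivity)]
    linarith
  obtain ⟨ρ, hρ, hN⟩ := coneN h t₀ hκ0 hκ1 hk
  have hc1 : ∀ᶠ s in 𝓝 s₀, ‖ζ s‖ < ρ := by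
    have h1 : ContinuousAt (fun s => ‖ζ s‖) s₀ := hζ.continuousAt.norm
    apply h1.eventually_lt continuousAt_const
    rw [h0, norm_zero]
    exact hρ
  filter_upwards [hζ.isLittleO.def (show 0 < m / 4 by positivity), hc1] with s h1 h2
  rw [h0, sub_zero, Real.norm_eq_abs] at h1
  have him : |(ζ s).im - (s - s₀) * μ.im| ≤ m / 4 * |s - s₀| := by
    refine le_trans ?_ h1
    have h3 := Complex.abs_im_le_norm (ζ s - (s - s₀) • μ)
    have h4 : (ζ s - (s - s₀) • μ).im = (ζ s).im - (s - s₀) * μ.im := by simp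
    rwa [h4] at h3
  have hn : ‖ζ s‖ ≤ (‖μ‖ + m) * |s - s₀| := by
    have h3 : ‖(s - s₀) • μ‖ = |s - s₀| * ‖μ‖ := by
      rw [norm_smul, Real.norm_eq_abs]
    have h4 := norm_sub_norm_le (ζ s) ((s - s₀) • μ)
    rw [h3] at h4
    have h5 : 0 ≤ m * |s - s₀| := by positivity
    nlinarith
  have hκn : κ * ‖ζ s‖ ≤ m / 4 * |s - s₀| := by
    calc κ * ‖ζ s‖ ≤ κ * ((‖μ‖ + m) * |s - s₀|) := mul_le_mul_of_nonneg_left hn hκ0.le
      _ = m / 4 * |s - s₀| := by rw [← mul_assoc, hκm]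
  have him' := abs_le.1 him
  have hab : |(s - s₀) * μ.im| = m * |s - s₀| := by rw [abs_mul, ← hm, mul_comm]
  refine ⟨fun h3 => (hN _ h2).1 ?_, fun h3 => (hN _ h2).2 ?_⟩
  · rw [abs_of_pos h3] at hab
    have h4 : 0 < m * |s - s₀| := by rw [← hab]; exact h3
    linarith [him'.1]
  · rw [abs_of_neg h3] at hab
    have h4 : 0 < m * |s - s₀| := by rw [← hab]; linarith
    linarith [him'.2]

/-- a simple closed curve in complex notation -/
theorem hc_of {γ V : ℝ → ℝ × ℝ} {T : ℝ} (hL : Loop γ V T) (hV : ∀ t, V t ≠ 0)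
    (hinj : ∀ s t, γ s = γ t → ∃ k : ℤ, s = t + k * T) :
    Hc (fun t => Complex.equivRealProdCLM.symm (γ t))
      (fun t => Complex.equivRealProdCLM.symm (V t)) T (fun z => wn γ V T (z.re, z.im)) ∧
    ∀ z : ℂ, z ∉ range (fun t => Complex.equivRealProdCLM.symm (γ t)) ↔
      (z.re, z.im) ∉ range γ := by
  obtain ⟨e, he⟩ : ∃ e : (ℝ × ℝ) ≃L[ℝ] ℂ, e = Complex.equivRealProdCLM.symm := ⟨_, rfl⟩
  have er : ∀ p : ℝ × ℝ, (e p).re = p.1 := fun p => by rw [he]; rfl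
  have ei : ∀ p : ℝ × ℝ, (e p).im = p.2 := fun p => by rw [he]; rfl
  rw [← he]
  have hrange : ∀ z : ℂ, z ∉ range (fun t => e (γ t)) ↔ (z.re, z.im) ∉ range γ := by
    intro z
    rw [not_iff_not]
    constructor
    · rintro ⟨t, rfl⟩
      refine ⟨t, ?_⟩
      show γ t = ((e (γ t)).re, (e (γ t)).im)
      rw [er, ei]
    · rintro ⟨t, ht⟩
      refine ⟨t, ?_⟩
      show e (γ t) = z
      rw [ht]
      apply Complex.ext
      · rw [er]
      · rw [ei]
  refine ⟨⟨hL.pos, fun t => ?_, e.continuous.comp hL.cont, fun t => ?_, fun t => ?_,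
      fun s t hst => ?_, fun z => ?_, fun z hz => ?_, ?_, fun z hz => ?_⟩, hrange⟩
  · exact e.toContinuousLinearMap.hasFDerivAt.comp_hasDerivAt t (hL.der t)
  · show e (γ (t + T)) = e (γ t)
    rw [hL.per t]
  · show e (V t) ≠ 0
    rw [Ne, map_eq_zero_iff e e.injective]
    exact hV t
  · exact hinj s t (e.injective hst)
  · show wn γ V T (z.re, z.im) = _
    unfold wn
    congr 1
    refine intervalIntegral.integral_congr fun t _ => ?_
    show H709R2.wedge (γ t - (z.re, z.im)) (V t) / H709R2.sq (γ t - (z.re, z.im)) =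
      (e (V t) / (e (γ t) - z)).im
    rw [Complex.div_im, Complex.normSq_apply, Complex.sub_re, Complex.sub_im, er, ei, er, ei,
      ← sub_div]
    unfold H709R2.wedge H709R2.sq
    simp only [Prod.fst_sub, Prod.snd_sub]
    congr 1
    · ring
    · ring
  · exact Hil.w1 γ V T hL _ ((hrange z).1 hz)
  · refine (Hil.w2 γ V T hL).comp (Continuous.continuousOn ?_) fun z hz => (hrange z).1 hz
    exact Complex.continuous_re.prodMk Complex.continuous_im
  · refine Hil.w3 γ V T hL _ (-1, 0) fun t => ?_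
    have h4 := hz t
    simp only [er] at h4
    simp only
    linarith

end SIDE

open SIDE in
/-- **SIDE** -/
theorem side : S_SIDE := by
  intro γ V T ε hS w v s₀ t₀ hw hwt hwedge
  obtain ⟨hc, hrange⟩ := hc_of hS.loop hS.ne hS.inj
  obtain ⟨e, he⟩ : ∃ e : (ℝ × ℝ) ≃L[ℝ] ℂ, e = Complex.equivRealProdCLM.symm := ⟨_, rfl⟩
  have er : ∀ p : ℝ × ℝ, (e p).re = p.1 := fun p => by rw [he]; rfl
  have ei : ∀ p : ℝ × ℝ, (e p).im = p.2 := fun p => by rw [he]; rfl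
  rw [← he] at hc hrange
  -- the two values
  obtain ⟨kp, km, hk⟩ := hc.global
  have hout := hc.outer hk
  obtain ⟨ε₀, hε₀, hk0⟩ := hk 0
  have hjump := hc.jump hε₀ hk0
  obtain ⟨ε₁, hε₁, htube⟩ := hc.tube 0
  obtain ⟨s, hs⟩ : ∃ s : ℝ, s = min ε₀ ε₁ / 2 := ⟨_, rfl⟩
  have hs0 : 0 < s := by
    rw [hs]
    have := lt_min hε₀ hε₁
    positivity
  have hs1 : s < ε₀ := by
    have := min_le_left ε₀ ε₁
    linarith
  have hs2 : s < ε₁ := by
    have := min_le_right ε₀ ε₁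
    linarith
  have hval : ∀ z : ℂ, z ∉ range (fun t => e (γ t)) →
      wn γ V T (z.re, z.im) = 0 ∨ wn γ V T (z.re, z.im) = ε :=
    fun z hz => hS.wn _ ((hrange z).1 hz)
  have hkp : kp = 0 ∨ kp = ε := by
    have h1 := hval _ (htube 0 s (by simpa using hε₁) hs0.ne' (by rw [abs_of_pos hs0]; exact hs2))
    rw [(hk0 s).1 hs0 hs1] at h1
    exact h1
  have hkm : km = 0 ∨ km = ε := by
    have h1 := hval _ (htube 0 (-s) (by simpa using hε₁) (by linarith [hs0] : (-s) < 0).ne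
      (by rw [abs_neg, abs_of_pos hs0]; exact hs2))
    rw [(hk0 (-s)).2 (by linarith) (by linarith)] at h1
    exact h1
  -- the crossing curve
  have hVt : e (V t₀) ≠ 0 := by
    rw [Ne, map_eq_zero_iff e e.injective]
    exact hS.ne t₀
  have hζ : HasDerivAt (fun s => (e (w s) - e (γ t₀)) / e (V t₀)) (e v / e (V t₀)) s₀ :=
    ((e.toContinuousLinearMap.hasFDerivAt.comp_hasDerivAt s₀ hw).sub_const _).div_const _
  have hζ0 : (fun s => (e (w s) - e (γ t₀)) / e (V t₀)) s₀ = 0 := by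
    simp only
    rw [hwt, sub_self, zero_div]
  have hns : 0 < Complex.normSq (e (V t₀)) := Complex.normSq_pos.2 hVt
  have him : (e v / e (V t₀)).im = wedge (V t₀) v / Complex.normSq (e (V t₀)) := by
    rw [Complex.div_im, er, ei, er, ei, ← sub_div]
    unfold wedge
    congr 1
    ring
  have hεs : ε * (e v / e (V t₀)).im > 0 := by
    rw [him, ← mul_div_assoc]
    exact div_pos hwedge hns
  have hμ : (e v / e (V t₀)).im ≠ 0 := fun h0 => by
    rw [h0, mul_zero] at hεs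
    exact lt_irrefl _ hεs
  have key := cross hc t₀ (hk t₀) hζ hζ0 hμ
  have hpt : ∀ s, e (γ t₀) + e (V t₀) * ((e (w s) - e (γ t₀)) / e (V t₀)) = e (w s) := by
    intro s
    field_simp
    ring
  simp only [hpt] at key
  have hrw : ∀ s, ((e (w s)).re, (e (w s)).im) = w s := by
    intro s
    rw [er, ei]
  have hr' : ∀ s, e (w s) ∉ range (fun t => e (γ t)) ↔ w s ∉ range γ := by
    intro s
    rw [hrange, hrw]
  simp only [hr', hrw] at key
  constructor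
  · rw [eventually_nhdsWithin_iff]
    filter_upwards [key] with s hs3 hs4
    have hs5 : 0 < s - s₀ := sub_pos.2 hs4
    rcases hS.e1 with he1 | he1
    · rw [he1, one_mul] at hεs
      obtain ⟨h6, h7⟩ := hs3.1 (mul_pos hs5 hεs)
      refine ⟨h6, ?_⟩
      rw [h7]
      rw [he1] at hkp hkm
      intro h8
      rcases hkm with h9 | h9 <;> linarith
    · rw [he1, neg_one_mul] at hεs
      obtain ⟨h6, h7⟩ := hs3.2 (mul_neg_of_pos_of_neg hs5 (by linarith))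
      refine ⟨h6, ?_⟩
      rw [h7]
      rw [he1] at hkp hkm
      intro h8
      rcases hkp with h9 | h9 <;> linarith
  · rw [eventually_nhdsWithin_iff]
    filter_upwards [key] with s hs3 hs4
    have hs5 : s - s₀ < 0 := sub_neg.2 hs4
    have hfin : w s ∉ range γ → wn γ V T (w s) = 0 → w s ∉ fill γ V T := by
      intro h6 h7 h8
      rcases h8 with h8 | h8
      · exact h6 h8
      · exact h8.2 h7
    rcases hS.e1 with he1 | he1
    · rw [he1, one_mul] at hεs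
      obtain ⟨h6, h7⟩ := hs3.2 (mul_neg_of_neg_of_pos hs5 hεs)
      apply hfin h6
      rw [h7]
      rw [he1] at hkp hkm
      rcases hkm with h9 | h9
      · exact h9
      · rcases hkp with h10 | h10 <;> linarith
    · rw [he1, neg_one_mul] at hεs
      obtain ⟨h6, h7⟩ := hs3.1 (mul_pos_of_neg_of_neg hs5 (by linarith))
      apply hfin h6
      rw [h7]
      rw [he1] at hkp hkm
      rcases hkp with h9 | h9
      · exact h9
      · rcases hkm with h10 | h10 <;> linarith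

end Pool.Agent.N224.SF
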